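import Pool.Agent.MP_1e5511_al.Maps
import Mathlib
import Pool.Agent.MP_1e5511_al.Typed

-- part MP_1e5511_al.Bridge
section

set_option autoImplicit false

namespace Pool.Agent.MP_1e5511_al

namespace Pres

variable {P : Pres}

theorem br_sq_left (α : List P.L) : SqClosed fun t : P.DS => α <+: t.a := by
  refine ⟨fun _ h => h, fun s t t' s' hp hs ht => ?_⟩
  cases hp with
  | left a c e m c' e' b =>
    obtain ⟨z, hz⟩ := hs
    exact ⟨z ++ P.side c (!e) ++ m, by rw [← show α ++ z = a from hz]; simp⟩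
  | right a c e m c' e' b => exact ht

/-- front steps of a morphism that is whiskered on the left -/
theorem br_front_left {α γ γ' : List P.L} {h : P.U} (hh : Conn γ h γ') {t : P.DS}
    (ht : Front (α ++ γ) (wh α [] h) t) : ∃ t₀ : P.DS, t₀.src = γ ∧ t = t₀.wh α [] := by
  obtain ⟨p, hp, rfl⟩ := hh
  have h1 : IsPath (α ++ γ) (p.map (DS.wh α [])) (α ++ γ') := by simpa using hp.wh α []
  have h2 : α <+: t.a := (br_sq_left α).front h1 (by
    intro s hs
    obtain ⟨s₀, -, rfl⟩ := List.mem_map.1 hs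
    exact ⟨s₀.a, rfl⟩) (by rwa [ev_map_wh])
  obtain ⟨z, hz⟩ := h2
  have h3 : t = DS.wh α [] ⟨z, t.c, t.e, t.b⟩ := by
    cases t; simp only [DS.wh, List.append_nil, DS.mk.injEq, and_true]; exact hz.symm
  refine ⟨⟨z, t.c, t.e, t.b⟩, ?_, h3⟩
  have h4 := ht.1
  rw [h3, DS.src_wh, List.append_nil] at h4
  exact List.append_cancel_left h4

theorem br_geo_wl {ω ω' : List P.L} {p : List P.DS} (h : Geo ω p ω') (α : List P.L) :
    Geo (α ++ ω) (p.map (DS.wh α [])) (α ++ ω') := by simpa using h.wh α []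

theorem br_len_wr {ω ω' : List P.L} {g : P.U} (h : Conn ω g ω') (γ : List P.L) :
    len (ω ++ γ) (wh [] γ g) = len ω g := by simpa using h.len_wh [] γ

theorem br_len_wl {ω ω' : List P.L} {g : P.U} (h : Conn ω g ω') (α : List P.L) :
    len (α ++ ω) (wh α [] g) = len ω g := by simpa using h.len_wh α []

/-- a morphism that lives both on the left and on the right is trivial -/
theorem lr {α α' γ γ' : List P.L} {g h : P.U} (hg : Conn α g α') (hh : Conn γ h γ')
    (he : wh [] γ g = wh α [] h) : g = 1 ∧ h = 1 := by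
  obtain ⟨p, hp, rfl⟩ := hg.exists_geo
  cases p with
  | nil =>
    refine ⟨rfl, (hh.eq_of_len ?_).1⟩
    rw [← br_len_wl hh α, ← he]
    simp
  | cons s p =>
    exfalso
    have h1 : Geo (α ++ γ) (s.wh [] γ :: p.map (DS.wh [] γ)) (α' ++ γ) := by
      simpa using hp.wh [] γ
    have h2 := h1.front
    rw [← List.map_cons, ev_map_wh, he] at h2
    obtain ⟨t₀, -, h3⟩ := br_front_left hh h2
    have h4 : s.a = α ++ t₀.a := by simpa [DS.wh] using congrArg DS.a h3
    have h5 := congrArg List.length hp.1.1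
    have h6 := List.length_pos_iff.2 (P.ne s.c s.e)
    simp only [DS.src, h4, List.length_append] at h5
    omega

theorem prod_inj {α α' γ γ' : List P.L} {g g' h h' : P.U} (hg : Conn α g α') (hg' : Conn α g' α')
    (hh : Conn γ h γ') (hh' : Conn γ h' γ')
    (he : wh [] γ g * wh α' [] h = wh [] γ g' * wh α' [] h') : g = g' ∧ h = h' := by
  have h1 : wh [] γ (g'⁻¹ * g) = wh α' [] (h' * h⁻¹) := by
    rw [map_mul, map_mul, map_inv, map_inv, inv_mul_eq_iff_eq_mul, ← mul_assoc, ← he]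
    group
  obtain ⟨h2, h3⟩ := lr (hg'.symm.trans hg) (hh'.trans hh.symm) h1
  exact ⟨(inv_mul_eq_one.1 h2).symm, (mul_inv_eq_one.1 h3).symm⟩

/-- every loop at `ρ ++ τ` comes from `τ` -/
def Tight (ρ τ : List P.L) : Prop :=
  ∀ g, Conn (ρ ++ τ) g (ρ ++ τ) → ∃ h, Conn τ h τ ∧ g = wh ρ [] h

theorem Tight.nil (τ : List P.L) : Tight [] τ := fun g hg => ⟨g, hg, by simp⟩

theorem Tight.full {ρ τ τ₁ τ₂ : List P.L} (h : Tight ρ τ) (h₁ : Sim τ τ₁) (h₂ : Sim τ τ₂)
    {g : P.U} (hg : Conn (ρ ++ τ₁) g (ρ ++ τ₂)) : ∃ k, Conn τ₁ k τ₂ ∧ g = wh ρ [] k := by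
  obtain ⟨k₁, hk₁⟩ := h₁
  obtain ⟨k₂, hk₂⟩ := h₂
  obtain ⟨k, hk, he⟩ := h _ (((hk₁.wl ρ).trans hg).trans (hk₂.wl ρ).symm)
  refine ⟨k₁⁻¹ * k * k₂, (hk₁.symm.trans hk).trans hk₂, ?_⟩
  rw [map_mul, map_mul, map_inv, ← he]
  group

theorem Tight.sim {ρ τ τ' : List P.L} (h : Tight ρ τ) (h' : Sim τ τ') : Tight ρ τ' :=
  fun _ hg => h.full h' h' hg

theorem Tight.trans {ρ ρ' τ : List P.L} (h : Tight ρ (ρ' ++ τ)) (h' : Tight ρ' τ) :
    Tight (ρ ++ ρ') τ := by
  intro g hg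
  rw [List.append_assoc] at hg
  obtain ⟨k, hk, rfl⟩ := h g hg
  obtain ⟨k', hk', rfl⟩ := h' k hk
  exact ⟨k', hk', by simp⟩

/-- tightness descends along a step map that commutes with whiskering -/
theorem Tight.of_map {P' : Pres} (F : StepMap P' P) {ρ τ : List P'.L}
    (hw : F.w (ρ ++ τ) = F.w ρ ++ F.w τ)
    (hwh : ∀ g, F.hom (wh ρ [] g) = wh (F.w ρ) [] (F.hom g))
    (hl : ∀ g, Conn (F.w τ) g (F.w τ) → ∃ g', Conn τ g' τ ∧ F.hom g' = g)
    (h : Tight (F.w ρ) (F.w τ)) : Tight ρ τ := by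
  intro g hg
  have h1 := F.conn hg
  rw [hw] at h1
  obtain ⟨k, hk, he⟩ := h _ h1
  obtain ⟨k', hk', rfl⟩ := hl k hk
  exact ⟨k', hk', F.hom_inj hg (hk'.wl ρ) (by rw [he, hwh])⟩

/-- tightness ascends along a step map that commutes with whiskering -/
theorem Tight.map {P' : Pres} (F : StepMap P' P) {ρ τ : List P'.L}
    (hw : F.w (ρ ++ τ) = F.w ρ ++ F.w τ)
    (hwh : ∀ g, F.hom (wh ρ [] g) = wh (F.w ρ) [] (F.hom g))
    (hl : ∀ g, Conn (F.w (ρ ++ τ)) g (F.w (ρ ++ τ)) →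
      ∃ g', Conn (ρ ++ τ) g' (ρ ++ τ) ∧ F.hom g' = g)
    (h : Tight ρ τ) : Tight (F.w ρ) (F.w τ) := by
  intro g hg
  rw [← hw] at hg
  obtain ⟨g', hg', rfl⟩ := hl g hg
  obtain ⟨k, hk, rfl⟩ := h g' hg'
  exact ⟨F.hom k, F.conn hk, hwh k⟩

/-- the key step: a morphism that passes through a reduced bridge only changes the common end -/
theorem br_claim {α₁ ρ₁ α₂ ρ₂ τ : List P.L} {β₀ : P.U} (hβ : Conn (α₁ ++ ρ₁) β₀ (α₂ ++ ρ₂))
    (hmin : ∀ τ', Sim τ' τ → ∀ σ₁ σ₂ γ₁ γ₂, Conn (ρ₁ ++ τ') γ₁ σ₁ → Conn (ρ₂ ++ τ') γ₂ σ₂ →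
      len (α₁ ++ ρ₁) β₀ ≤ len (α₁ ++ σ₁) ((wh α₁ [] γ₁)⁻¹ * wh [] τ' β₀ * wh α₂ [] γ₂))
    (hmax : ∀ y x₁ x₂ g, ρ₁ = x₁ ++ y → ρ₂ = x₂ ++ y → Conn (α₁ ++ x₁) g (α₂ ++ x₂) →
      β₀ = wh [] y g → y = []) (n : ℕ) :
    ∀ τ' g₁ g₂, Sim τ' τ → Conn (ρ₁ ++ τ') g₁ (ρ₁ ++ τ) → Conn (ρ₂ ++ τ') g₂ (ρ₂ ++ τ) →
      len (ρ₁ ++ τ') g₁ = n → wh α₁ [] g₁ * wh [] τ β₀ = wh [] τ' β₀ * wh α₂ [] g₂ →
      ∃ h, Conn τ' h τ ∧ g₁ = wh ρ₁ [] h := by
  have hB : ∀ τ', Conn (α₁ ++ (ρ₁ ++ τ')) (wh [] τ' β₀) (α₂ ++ (ρ₂ ++ τ')) := fun τ' => by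
    simpa using hβ.wr τ'
  have hN : ∀ τ', len (α₁ ++ (ρ₁ ++ τ')) (wh [] τ' β₀) = len (α₁ ++ ρ₁) β₀ := fun τ' => by
    rw [← List.append_assoc, br_len_wr hβ]
  have hnf : ∀ τ', Sim τ' τ → ∀ t₀ : P.DS, t₀.src = ρ₁ ++ τ' →
      ¬ Front (α₁ ++ (ρ₁ ++ τ')) (wh [] τ' β₀) (t₀.wh α₁ []) := by
    intro τ' hτ t₀ h0 hf
    have h1 := hmin τ' hτ _ _ _ _ (h0 ▸ Conn.step t₀) (Conn.refl _)
    have h2 := hf.2
    rw [hN, DS.tgt_wh, List.append_nil, DS.ev_wh] at h2
    rw [map_one, mul_one] at h1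
    omega
  induction n with
  | zero =>
    intro τ' g₁ g₂ _ hg₁ _ h0 _
    obtain ⟨rfl, h2⟩ := hg₁.eq_of_len h0
    obtain rfl := List.append_cancel_left h2
    exact ⟨1, Conn.refl _, by simp⟩
  | succ n ih =>
    intro τ' g₁ g₂ hτ hg₁ hg₂ hn he
    obtain ⟨p₁, hp₁, rfl⟩ := hg₁.exists_geo
    obtain ⟨p₂, hp₂, rfl⟩ := hg₂.exists_geo
    obtain ⟨q, hq, hqe⟩ := (hB τ).exists_geo
    obtain ⟨q', hq', hqe'⟩ := (hB τ').exists_geo
    cases p₁ with
    | nil => simp at hn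
    | cons t₀ p₁ =>
    have ht₀ : t₀.src = ρ₁ ++ τ' := hp₁.1.1
    have G1 : Geo (α₁ ++ (ρ₁ ++ τ')) ((t₀ :: p₁).map (DS.wh α₁ []) ++ q) (α₂ ++ (ρ₂ ++ τ)) := by
      refine ((br_geo_wl hp₁ α₁).append_or hq).resolve_right ?_
      rintro ⟨t, h1, h2⟩
      rw [ev_map_wh, ← map_inv] at h2
      obtain ⟨t₁, h3, rfl⟩ := br_front_left hg₁.symm h2
      exact hnf τ (Sim.refl τ) t₁ h3 (hqe ▸ h1)
    have G2 : Geo (α₁ ++ (ρ₁ ++ τ')) (q' ++ p₂.map (DS.wh α₂ [])) (α₂ ++ (ρ₂ ++ τ)) := by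
      refine (hq'.append_or (br_geo_wl hp₂ α₂)).resolve_right ?_
      rintro ⟨t, h1, h2⟩
      rw [ev_map_wh] at h1
      obtain ⟨t₁, h3, rfl⟩ := br_front_left hg₂ h1
      have hc : Conn (ρ₂ ++ τ') t₁.ev t₁.tgt := h3 ▸ Conn.step t₁
      have h4 := hmin τ' hτ _ _ _ _ (Conn.refl _) hc
      have h5 := h2.2
      rw [hqe', (hB τ').len_inv, hN, DS.tgt_wh, List.append_nil, DS.ev_wh, ← mul_inv_rev,
        ((hB τ').trans (hc.wl α₂)).len_inv] at h5
      rw [map_one, inv_one, one_mul] at h4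
      omega
    have F1 : Front (α₁ ++ (ρ₁ ++ τ')) (ev (q' ++ p₂.map (DS.wh α₂ []))) (t₀.wh α₁ []) := by
      have h1 := Geo.front (t := t₀.wh α₁ []) (p := p₁.map (DS.wh α₁ []) ++ q) G1
      rw [ev_append, ev_map_wh, hqe', ← he, ← hqe, ← ev_map_wh, ← ev_append]
      exact h1
    rcases G2.front_append hq'.1 F1 with h1 | ⟨a', b', pL, pR, hL, hR, hlen, hu, hev, -, hF⟩
    · exact absurd (hqe' ▸ h1) (hnf τ' hτ t₀ ht₀)
    rw [ev_map_wh] at hF
    obtain ⟨t₂, ht₂, ht₂e⟩ := br_front_left hg₂ hF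
    have ea : a' = α₂ ++ t₂.a := congrArg DS.a ht₂e
    have eb : (t₀.wh α₁ []).b = t₀.b := by simp [DS.wh]
    have ea₀ : (t₀.wh α₁ []).a = α₁ ++ t₀.a := rfl
    have ec : (t₀.wh α₁ []).c = t₀.c := rfl
    have ee : (t₀.wh α₁ []).e = t₀.e := rfl
    rw [eb] at hR hev
    rw [ea₀] at hL
    rw [ec, ee] at hu hev
    rw [hqe'] at hev
    subst ea
    have hu' : ρ₂ ++ τ' = t₂.a ++ P.side t₀.c t₀.e ++ b' := by
      apply List.append_cancel_left (as := α₂)
      rw [hu]; simp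
    have hsrc : ρ₁ ++ τ' = t₀.a ++ (P.side t₀.c t₀.e ++ t₀.b) := by
      rw [← ht₀, DS.src, List.append_assoc]
    have hpR : pR = [] := by
      have hc : Conn (ρ₂ ++ τ') (wh (t₂.a ++ P.side t₀.c t₀.e) [] (ev pR)⁻¹)
          (t₂.a ++ P.side t₀.c t₀.e ++ t₀.b) := hu' ▸ hR.conn.symm.wl _
      have h4 := hmin τ' hτ _ _ _ _ (Conn.refl _) hc
      have h5 : (wh α₁ [] (1 : P.U))⁻¹ * wh [] τ' β₀ *
          wh α₂ [] (wh (t₂.a ++ P.side t₀.c t₀.e) [] (ev pR)⁻¹) =
          wh [] (P.side t₀.c t₀.e ++ t₀.b) (ev pL) := by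
        rw [hev]; simp
      rw [h5, hsrc, ← List.append_assoc, br_len_wr hL.conn] at h4
      have h6 := hL.len_le
      have h7 := hq'.2
      rw [hqe', hN] at h7
      exact List.length_eq_zero_iff.1 (by omega)
    subst hpR
    obtain rfl : t₀.b = b' := hR
    rw [ev_nil, map_one, mul_one] at hev
    rw [List.append_assoc] at hu'
    obtain ⟨z, hz₁, hz₂⟩ : ∃ z, t₀.a = ρ₁ ++ z ∧ τ' = z ++ (P.side t₀.c t₀.e ++ t₀.b) := by
      rcases List.append_eq_append_iff.1 hsrc with ⟨z, h1, h2⟩ | ⟨y, h1, h2⟩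
      · exact ⟨z, h1, h2⟩
      · have h3 : ρ₂ = t₂.a ++ y := by
          apply List.append_cancel_right (bs := τ')
          rw [hu', h2, List.append_assoc]
        have hc : Conn (α₁ ++ ρ₁) (wh [] y (ev pL)) (α₂ ++ ρ₂) := by
          rw [h1, h3, ← List.append_assoc, ← List.append_assoc]
          exact hL.conn.wr y
        have h4 : β₀ = wh [] y (ev pL) :=
          hβ.wh_inj hc (α := []) (γ := τ') (by rw [hev, h2]; simp)
        obtain rfl := hmax y _ _ _ h1 h3 hL.conn h4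
        exact ⟨[], by simpa using h1.symm, by simpa using h2.symm⟩
    obtain ⟨t₁, ht₁, e₁⟩ : ∃ t₁ : P.DS, t₁.src = τ' ∧ t₀ = t₁.wh ρ₁ [] := by
      refine ⟨⟨z, t₀.c, t₀.e, t₀.b⟩, by rw [hz₂]; simp [DS.src], ?_⟩
      cases t₀
      simp only [DS.wh, List.append_nil, DS.mk.injEq, and_true]
      exact hz₁
    have hc₁ : Conn τ' t₁.ev t₁.tgt := ht₁ ▸ Conn.step t₁
    have hf₀ := hp₁.front.2
    have e₂ : t₀.ev = wh ρ₁ [] t₁.ev := by rw [e₁, DS.ev_wh]
    have e₃ : t₀.tgt = ρ₁ ++ t₁.tgt := by rw [e₁, DS.tgt_wh, List.append_nil]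
    rw [hn, e₂, e₃] at hf₀
    obtain ⟨h, hh, e₄⟩ := ih t₁.tgt ((wh ρ₁ [] t₁.ev)⁻¹ * ev (t₀ :: p₁))
      ((wh ρ₂ [] t₁.ev)⁻¹ * ev p₂) (hc₁.sim.symm.trans hτ) ((hc₁.wl ρ₁).symm.trans hg₁)
      ((hc₁.wl ρ₂).symm.trans hg₂) (by omega) (by
        have h1 := interchange hβ hc₁
        rw [map_mul, map_mul, map_inv, map_inv, wh_wh, wh_wh, List.append_nil, mul_assoc, he,
          eq_mul_inv_iff_mul_eq.2 h1]
        group)
    refine ⟨t₁.ev * h, hc₁.trans hh, ?_⟩
    rw [map_mul, ← e₄]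
    group

theorem bridge {α₁ σ₁ α₂ σ₂ : List P.L} {β : P.U} (hβ : Conn (α₁ ++ σ₁) β (α₂ ++ σ₂)) :
    ∃ (ρ₁ ρ₂ τ : List P.L) (β₀ γ₁ γ₂ : P.U), Conn σ₁ γ₁ (ρ₁ ++ τ) ∧ Conn σ₂ γ₂ (ρ₂ ++ τ) ∧
      Conn (α₁ ++ ρ₁) β₀ (α₂ ++ ρ₂) ∧ β * wh α₂ [] γ₂ = wh α₁ [] γ₁ * wh [] τ β₀ ∧
      ((∀ g₁, Conn σ₁ g₁ σ₁ → ∃ g₂, Conn σ₂ g₂ σ₂ ∧ wh α₁ [] g₁ * β = β * wh α₂ [] g₂) →
        Tight ρ₁ τ) := by
  classical
  have ex1 : ∃ n, ∃ (σ₁' σ₂' : List P.L) (γ₁ γ₂ : P.U), Conn σ₁ γ₁ σ₁' ∧ Conn σ₂ γ₂ σ₂' ∧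
      len (α₁ ++ σ₁') ((wh α₁ [] γ₁)⁻¹ * β * wh α₂ [] γ₂) = n :=
    ⟨_, σ₁, σ₂, 1, 1, Conn.refl _, Conn.refl _, rfl⟩
  obtain ⟨σ₁', σ₂', γ₁, γ₂, h₁, h₂, hN⟩ := Nat.find_spec ex1
  have hmin : ∀ (s₁ s₂ : List P.L) (c₁ c₂ : P.U), Conn σ₁ c₁ s₁ → Conn σ₂ c₂ s₂ →
      Nat.find ex1 ≤ len (α₁ ++ s₁) ((wh α₁ [] c₁)⁻¹ * β * wh α₂ [] c₂) :=
    fun s₁ s₂ c₁ c₂ k₁ k₂ => Nat.find_min' ex1 ⟨s₁, s₂, c₁, c₂, k₁, k₂, rfl⟩
  have ex2 : ∃ n, ∃ (ρ₁ ρ₂ τ : List P.L) (β₀ : P.U), σ₁' = ρ₁ ++ τ ∧ σ₂' = ρ₂ ++ τ ∧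
      Conn (α₁ ++ ρ₁) β₀ (α₂ ++ ρ₂) ∧ (wh α₁ [] γ₁)⁻¹ * β * wh α₂ [] γ₂ = wh [] τ β₀ ∧
      ρ₁.length = n :=
    ⟨_, σ₁', σ₂', [], _, by simp, by simp, ((h₁.wl α₁).symm.trans hβ).trans (h₂.wl α₂), by simp,
      rfl⟩
  obtain ⟨ρ₁, ρ₂, τ, β₀, rfl, rfl, h₀, he, hl⟩ := Nat.find_spec ex2
  have hβe : β = wh α₁ [] γ₁ * wh [] τ β₀ * (wh α₂ [] γ₂)⁻¹ := by rw [← he]; group
  refine ⟨ρ₁, ρ₂, τ, β₀, γ₁, γ₂, h₁, h₂, h₀, by rw [hβe]; group, fun H g₁ hg₁ => ?_⟩
  obtain ⟨g₂, hg₂, hg⟩ := H _ ((h₁.trans hg₁).trans h₁.symm)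
  refine br_claim h₀ ?_ ?_ _ τ g₁ (γ₂⁻¹ * g₂ * γ₂) (Sim.refl τ) hg₁
    ((h₂.symm.trans hg₂).trans h₂) rfl ?_
  · rintro τ' ⟨k, hk⟩ s₁ s₂ c₁ c₂ k₁ k₂
    have h3 := hmin s₁ s₂ _ _ ((h₁.trans (hk.symm.wl ρ₁)).trans k₁)
      ((h₂.trans (hk.symm.wl ρ₂)).trans k₂)
    rw [← hN, he, ← List.append_assoc, br_len_wr h₀] at h3
    have h4 := interchange h₀ hk
    have h5 : (wh α₁ [] (γ₁ * wh ρ₁ [] k⁻¹ * c₁))⁻¹ * β * wh α₂ [] (γ₂ * wh ρ₂ [] k⁻¹ * c₂) =
        (wh α₁ [] c₁)⁻¹ * wh [] τ' β₀ * wh α₂ [] c₂ := by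
      rw [hβe, eq_mul_inv_iff_mul_eq.2 h4]
      simp only [map_mul, map_inv, wh_wh, List.append_nil]
      group
    rwa [h5] at h3
  · rintro y x₁ x₂ g rfl rfl hc rfl
    have h3 := Nat.find_min' ex2 ⟨x₁, x₂, y ++ τ, g, by simp, by simp, hc, by rw [he]; simp, rfl⟩
    rw [← hl, List.length_append] at h3
    exact List.length_eq_zero_iff.1 (by omega)
  · have h3 : wh α₁ [] g₁ = (wh α₁ [] γ₁)⁻¹ * (β * wh α₂ [] g₂) * β⁻¹ * wh α₁ [] γ₁ := by
      rw [← hg]
      simp only [map_mul, map_inv]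
      group
    rw [h3, hβe]
    simp only [map_mul, map_inv]
    group

/-- the bridge to a tight decomposition -/
theorem bridge_tight {α₁ σ₁ α₂ σ₂ : List P.L} (h : Sim (α₁ ++ σ₁) (α₂ ++ σ₂))
    (ht : Tight α₂ σ₂) : ∃ ρ₁ ρ₂ τ : List P.L, Sim σ₁ (ρ₁ ++ τ) ∧ Sim σ₂ (ρ₂ ++ τ) ∧
      Sim (α₁ ++ ρ₁) (α₂ ++ ρ₂) ∧ Tight ρ₁ τ := by
  obtain ⟨β, hβ⟩ := h
  obtain ⟨ρ₁, ρ₂, τ, β₀, γ₁, γ₂, h1, h2, h3, -, h5⟩ := bridge hβ
  refine ⟨ρ₁, ρ₂, τ, h1.sim, h2.sim, h3.sim, h5 fun g₁ hg₁ => ?_⟩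
  obtain ⟨g₂, hg₂, he⟩ := ht _ ((hβ.symm.trans (hg₁.wl α₁)).trans hβ)
  exact ⟨g₂, hg₂, by rw [← he]; group⟩

end Pres

end Pool.Agent.MP_1e5511_al

end

-- part MP_1e5511_al.TreeAct
section

set_option autoImplicit false

namespace Pool.Agent.MP_1e5511_al

section aux

variable {X H : Type} [Group H] [MulAction H X] (d : X → X → ℕ)

/-- an element that moves `x` and is not hyperbolic has a neighbour of `x` pointing toward both
`g • x` and `g⁻¹ • x` -/
theorem tree_hyp (d_self : ∀ x, d x x = 0) (d_comm : ∀ x y, d x y = d y x)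
    (d_tri : ∀ x y z, d x z ≤ d x y + d y z) (d_smul : ∀ (g : H) x y, d (g • x) (g • y) = d x y)
    (hB : ∀ x y z, d y z < d y x + d x z →
      ∃ x', d x x' = 1 ∧ d x' y + 1 = d x y ∧ d x' z + 1 = d x z)
    (hC : ∀ x x' x'' y, d x x' = 1 → d x x'' = 1 → d x' y + 1 = d x y → d x'' y + 1 = d x y →
      d x' x'' = 0)
    (hhyp : ∀ (g : H) x, 0 < d x (g • x) → ∃ k : ℕ, d x (g ^ k • x) ≠ k * d x (g • x))
    (g : H) (x : X) (hg : 0 < d x (g • x)) :
    ∃ e, d x e = 1 ∧ d e (g • x) + 1 = d x (g • x) ∧ d e (g⁻¹ • x) + 1 = d x (g • x) := by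
  have hinv : d x (g⁻¹ • x) = d x (g • x) := by
    rw [← d_smul g, smul_inv_smul, d_comm]
  by_cases hlt : d (g • x) (g⁻¹ • x) < d (g • x) x + d x (g⁻¹ • x)
  · obtain ⟨e, h1, h2, h3⟩ := hB x _ _ hlt
    exact ⟨e, h1, h2, h3.trans hinv⟩
  exfalso
  rw [hinv, d_comm (g • x) x] at hlt
  obtain ⟨k, hk⟩ := hhyp g x hg
  apply hk
  have hstep : ∀ k : ℕ, d (g ^ k • x) (g ^ (k + 1) • x) = d x (g • x) := fun k => by
    rw [pow_succ, mul_smul, d_smul]
  have htwo : ∀ k : ℕ, d (g ^ k • x) (g ^ (k + 1 + 1) • x) = d (g⁻¹ • x) (g • x) := fun k => by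
    rw [pow_succ, pow_succ, mul_smul, mul_smul, d_smul, ← d_smul g (g⁻¹ • x), smul_inv_smul]
  have key : ∀ k : ℕ, d x (g ^ k • x) = k * d x (g • x) ∧
      d x (g ^ (k + 1) • x) = (k + 1) * d x (g • x) := by
    intro k
    induction k with
    | zero => simp [d_self]
    | succ k ih =>
      refine ⟨by rw [ih.2], ?_⟩
      obtain ⟨i1, i2⟩ := ih
      have s1 := hstep k
      have s2 := hstep (k + 1)
      have t1 := htwo k
      set n := d x (g • x)
      set a := g ^ k • x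
      set b := g ^ (k + 1) • x
      set c := g ^ (k + 1 + 1) • x
      have e1 : (k + 1) * n = k * n + n := by ring
      have e2 : (k + 1 + 1) * n = k * n + n + n := by ring
      rw [e2]
      rw [e1] at i2
      have u1 := d_tri x b c
      by_contra hne
      obtain ⟨y, y1, y2, y3⟩ := hB b x c (by omega)
      obtain ⟨z, z1, z2, -⟩ := hB b a a (by rw [d_self, d_comm b a]; omega)
      have z3 : d z x + 1 = d b x := by
        have v1 := d_tri z a x
        have v2 := d_tri b z x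
        rw [d_comm a x] at v1
        rw [d_comm b a] at z2
        rw [d_comm b x] at v2 ⊢
        omega
      have w := hC b y z x y1 z1 y2 z3
      have v3 := d_tri a z c
      have v4 := d_tri z y c
      rw [d_comm a z] at v3
      rw [d_comm z y] at v4
      rw [d_comm b a] at z2
      rw [d_comm (g • x)] at hlt
      omega
  exact (key k).1

end aux

/-- a finite set of isometries of a tree (given by an integer pseudo-metric) has a common fixed
point if the group has no inversions and no hyperbolic elements -/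
theorem treeAct {X H : Type} [Group H] [MulAction H X] [Nonempty X] (d : X → X → ℕ)
    (d_self : ∀ x, d x x = 0) (d_comm : ∀ x y, d x y = d y x)
    (d_tri : ∀ x y z, d x z ≤ d x y + d y z) (d_smul : ∀ (g : H) x y, d (g • x) (g • y) = d x y)
    (hB : ∀ x y z, d y z < d y x + d x z →
      ∃ x', d x x' = 1 ∧ d x' y + 1 = d x y ∧ d x' z + 1 = d x z)
    (hC : ∀ x x' x'' y, d x x' = 1 → d x x'' = 1 → d x' y + 1 = d x y → d x'' y + 1 = d x y →
      d x' x'' = 0)
    (hinv : ∀ (g : H) x, d x (g • x) = 1 → d x (g • g • x) ≠ 0)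
    (hhyp : ∀ (g : H) x, 0 < d x (g • x) → ∃ k : ℕ, d x (g ^ k • x) ≠ k * d x (g • x))
    (S : Set H) (hS : S.Finite) : ∃ x, ∀ g ∈ Subgroup.closure S, d x (g • x) = 0 := by
  have hyp := tree_hyp d d_self d_comm d_tri d_smul hB hC hhyp
  have hi : ∀ (g : H) x y, d x (g • y) = d (g⁻¹ • x) y := fun g x y => by
    rw [← d_smul g⁻¹, inv_smul_smul]
  have hi' : ∀ (g : H) x, d x (g⁻¹ • x) = d x (g • x) := fun g x => by
    rw [hi g, d_comm]
  obtain ⟨x, hx⟩ := exists_minimalFor_of_wellFoundedLT (fun _ : X => True)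
    (fun x => ∑ s ∈ hS.toFinset, d x (s • x)) ⟨Classical.arbitrary X, trivial⟩
  have hfix : ∀ s ∈ S, d x (s • x) = 0 := by
    intro s hs
    by_contra hne
    have hpos : 0 < d x (s • x) := Nat.pos_of_ne_zero hne
    obtain ⟨e, e1, e2, e3⟩ := hyp s x hpos
    -- elements that move x move e less
    have hmove : ∀ t : H, 0 < d x (t • x) → d e (t • e) + 2 ≤ d x (t • x) := by
      intro t ht
      obtain ⟨e', f1, f2, f3⟩ := hyp t x ht
      have hn1 : d x (t • x) ≠ 1 := by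
        intro h1
        apply hinv t x h1
        have v := d_tri (t⁻¹ • x) e' (t • x)
        rw [d_comm _ e'] at v
        rw [hi]
        omega
      have hee : d e e' = 0 := by
        by_cases hlt : d (s⁻¹ • x) (t • x) < d (s⁻¹ • x) x + d x (t • x)
        · obtain ⟨y, y1, y2, y3⟩ := hB x _ _ hlt
          have w1 := hC x e y _ e1 y1 (e3.trans (hi' s x).symm) y2
          have w2 := hC x y e' _ y1 f1 y3 f2
          have := d_tri e y e'
          omega
        · have a1 : d x ((s * t) • x) = d x (s • x) + d x (t • x) := by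
            have v := d_tri (s⁻¹ • x) x (t • x)
            rw [mul_smul, hi s x (t • x)]
            rw [d_comm (s⁻¹ • x) x, hi' s x] at hlt v
            omega
          obtain ⟨y, y1, y2, y3⟩ := hyp (s * t) x (by omega)
          have b1 : d e ((s * t) • x) + 1 = d x ((s * t) • x) := by
            have v1 := d_tri e (s • x) ((s * t) • x)
            have v2 := d_tri x e ((s * t) • x)
            rw [mul_smul, d_smul, ← mul_smul] at v1
            omega
          have b2 : d e' ((s * t)⁻¹ • x) + 1 = d x ((s * t)⁻¹ • x) := by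
            have v1 := d_tri e' (t⁻¹ • x) ((s * t)⁻¹ • x)
            have v2 := d_tri x e' ((s * t)⁻¹ • x)
            have v3 : d (t⁻¹ • x) ((s * t)⁻¹ • x) = d x (s • x) := by
              rw [mul_inv_rev, mul_smul, d_smul, hi']
            have v4 := hi' (s * t) x
            omega
          have w1 := hC x e y _ e1 y1 b1 y2
          have w2 := hC x y e' _ y1 f1 (y3.trans (hi' _ x).symm) b2
          have := d_tri e y e'
          omega
      obtain ⟨y, y1, y2, -⟩ := hB (t • x) e' e' (by rw [d_self, d_comm (t • x) e']; omega)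
      have c1 : d (t • x) (t • e') = 1 := by rw [d_smul, f1]
      have c2 : d (t • e') x + 1 = d (t • x) x := by
        rw [d_comm _ x, d_comm _ x, hi t x e', d_comm _ e', f3]
      have c3 : d y x + 1 = d (t • x) x := by
        have v1 := d_tri y e' x
        have v2 := d_tri (t • x) y x
        rw [d_comm e' x] at v1
        rw [d_comm (t • x) e'] at y2
        rw [d_comm (t • x) x] at v2 ⊢
        omega
      have w := hC (t • x) y (t • e') x y1 c1 c3 c2
      have v1 := d_tri e e' (t • e)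
      have v2 := d_tri e' y (t • e)
      have v3 := d_tri y (t • e') (t • e)
      rw [d_smul, d_comm e' e] at v3
      rw [d_comm e' y] at v2
      rw [d_comm (t • x) e'] at y2
      omega
    -- elements that fix x fix e
    have hstay : ∀ t : H, d x (t • x) = 0 → d e (t • e) = 0 := by
      intro t ht
      have a0 : d (s • x) ((s * t) • x) = 0 := by rw [mul_smul, d_smul, ht]
      have a1 : d x ((s * t) • x) = d x (s • x) := by
        have v1 := d_tri x (s • x) ((s * t) • x)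
        have v2 := d_tri x ((s * t) • x) (s • x)
        rw [d_comm ((s * t) • x) (s • x)] at v2
        omega
      obtain ⟨y, y1, y2, y3⟩ := hyp (s * t) x (by omega)
      have b1 : d y (s • x) + 1 = d x (s • x) := by
        have v1 := d_tri y (s • x) ((s * t) • x)
        have v2 := d_tri y ((s * t) • x) (s • x)
        rw [d_comm ((s * t) • x) (s • x)] at v2
        omega
      have w1 := hC x e y _ e1 y1 e2 b1
      have b2 : d x (t • y) = 1 := by
        have v1 := d_tri x (t • x) (t • y)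
        have v2 := d_tri (t • x) x (t • y)
        rw [d_smul] at v1 v2
        rw [d_comm _ x] at v2
        omega
      have b3 : d (t • y) (s⁻¹ • x) + 1 = d x (s⁻¹ • x) := by
        rw [mul_inv_rev, mul_smul, hi, inv_inv] at y3
        rw [y3, hi', a1]
      have w2 := hC x e (t • y) _ e1 b2 (e3.trans (hi' s x).symm) b3
      have v := d_tri e (t • y) (t • e)
      rw [d_smul, d_comm y e] at v
      omega
    have hlt : ∑ t ∈ hS.toFinset, d e (t • e) < ∑ t ∈ hS.toFinset, d x (t • x) := by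
      refine Finset.sum_lt_sum (fun t _ => ?_) ⟨s, hS.mem_toFinset.2 hs, ?_⟩
      · rcases Nat.eq_zero_or_pos (d x (t • x)) with h0 | h0
        · rw [hstay t h0]; exact Nat.zero_le _
        · have := hmove t h0
          omega
      · have := hmove s hpos
        omega
    exact absurd (hx.2 trivial hlt.le) (not_le.2 hlt)
  refine ⟨x, fun g hg => ?_⟩
  induction hg using Subgroup.closure_induction with
  | mem g hg => exact hfix g hg
  | one => rw [one_smul, d_self]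
  | mul a b _ _ ha hb =>
    have v := d_tri x (a • x) ((a * b) • x)
    rw [mul_smul, d_smul] at v
    rw [mul_smul]
    omega
  | inv a _ ha => rw [hi', ha]

end Pool.Agent.MP_1e5511_al

end

-- part MP_1e5511_al.Serre
section

set_option autoImplicit false

namespace Pool.Agent.MP_1e5511_al

namespace Pres

variable {P : Pres}

/-- number of `Z`-cells in the reduced diagram -/
noncomputable def dZ (Z : P.C → Prop) (ω : List P.L) (g : P.U) : ℕ := cnt (fun t => Z t.c) ω g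

/-- no two disjoint `Z`-steps in the component of `ω` -/
def NoPar (Z : P.C → Prop) (ω : List P.L) : Prop :=
  ∀ s t t' s' : P.DS, Par s t t' s' → Sim ω s.src → Z s.c → ¬ Z t.c

/-- hyperbolic loops based on their axis -/
def Hyp (Z : P.C → Prop) (ω : List P.L) (g : P.U) : Prop :=
  Conn ω g ω ∧ 0 < dZ Z ω g ∧ ∀ k : ℕ, dZ Z ω (g ^ k) = k * dZ Z ω g

theorem NoPar.sim {Z : P.C → Prop} {ω ω' : List P.L} (h : NoPar Z ω) (h' : Sim ω ω') :
    NoPar Z ω' := fun s t t' s' hp hs => h s t t' s' hp (h'.trans hs)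

section
variable {Z : P.C → Prop}

theorem serre_inv {u v : List P.L} {g : P.U} (h : Conn u g v) : dZ Z v g⁻¹ = dZ Z u g :=
  h.cnt_inv (wallInv_cell Z)

theorem serre_mul {u v w : List P.L} {g g' : P.U} (h : Conn u g v) (h' : Conn v g' w) :
    dZ Z u (g * g') ≤ dZ Z u g + dZ Z v g' := h.cnt_mul_le _ h'

theorem serre_zero_left {u v w : List P.L} {k g : P.U} (h : Conn u k v) (h' : Conn v g w)
    (h0 : dZ Z u k = 0) : dZ Z u (k * g) = dZ Z v g := by
  have h1 := serre_mul (Z := Z) h h'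
  have h2 := serre_mul (Z := Z) h.symm (h.trans h')
  rw [inv_mul_cancel_left, serre_inv h] at h2
  omega

theorem serre_num_zero {u v : List P.L} {p : List P.DS} (h : IsPath u p v)
    (h0 : num (fun t => Z t.c) p = 0) : dZ Z u (ev p) = 0 :=
  Nat.le_zero.1 (h0 ▸ h.cnt_le _)

theorem serre_step_zero {t : P.DS} (h : ¬ Z t.c) : dZ Z t.src t.ev = 0 := by
  have h1 : IsPath t.src [t] t.tgt := by simp
  have := serre_num_zero (Z := Z) h1 (by rw [num_cons_neg (Q := fun t => Z t.c) h]; rfl)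
  simpa using this

theorem serre_step_one {t : P.DS} (h : Z t.c) : dZ Z t.src t.ev = 1 := by
  have h1 : Front t.src t.ev t := by
    refine ⟨rfl, ?_⟩
    rcases len_step (Conn.step t) (t := t) rfl with h2 | h2
    · exact h2
    · simp at h2
  have := Front.cnt_pos (wallInv_cell Z) (Conn.step t) h1 h
  simpa [dZ] using this.symm

theorem serre_fork (n : ℕ) : ∀ {u v₁ v₂ : List P.L} {g₁ g₂ : P.U}, len u g₂ = n → Conn u g₁ v₁ →
    Conn u g₂ v₂ → dZ Z v₁ (g₁⁻¹ * g₂) < dZ Z u g₁ + dZ Z u g₂ →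
    ∃ h u', Conn u h u' ∧ dZ Z u h = 1 ∧ dZ Z u' (h⁻¹ * g₁) + 1 = dZ Z u g₁ ∧
      dZ Z u' (h⁻¹ * g₂) + 1 = dZ Z u g₂ := by
  induction n using Nat.strong_induction_on with
  | _ n ih =>
  intro u v₁ v₂ g₁ g₂ hn h₁ h₂ hlt
  obtain ⟨p₁, hp₁, e₁⟩ := h₁.symm.exists_geo
  obtain ⟨p₂, hp₂, e₂⟩ := h₂.exists_geo
  rcases hp₁.append_or hp₂ with h | ⟨t, t₂, t₁⟩
  · have a1 := h.cnt_eq (wallInv_cell Z)
    have a2 := hp₁.cnt_eq (wallInv_cell Z)
    have a3 := hp₂.cnt_eq (wallInv_cell Z)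
    rw [ev_append, num_append, ← a2, ← a3, e₁, e₂] at a1
    have a4 := serre_inv (Z := Z) h₁
    unfold dZ at hlt a4
    omega
  · rw [e₂] at t₂
    rw [e₁, inv_inv] at t₁
    obtain rfl := t₁.1
    by_cases hZ : Z t.c
    · exact ⟨t.ev, t.tgt, Conn.step t, serre_step_one hZ,
        Front.cnt_pos (wallInv_cell Z) h₁ t₁ hZ, Front.cnt_pos (wallInv_cell Z) h₂ t₂ hZ⟩
    · have z := serre_step_zero (Z := Z) hZ
      have c₁ := (Conn.step t).symm.trans h₁
      have c₂ := (Conn.step t).symm.trans h₂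
      have d₁ := serre_zero_left (Conn.step t) c₁ z
      have d₂ := serre_zero_left (Conn.step t) c₂ z
      rw [mul_inv_cancel_left] at d₁ d₂
      obtain ⟨h, u', hc, b1, b2, b3⟩ := ih _ (by have := t₂.2; omega) rfl c₁ c₂ (by
        rw [← d₁, ← d₂, show (t.ev⁻¹ * g₁)⁻¹ * (t.ev⁻¹ * g₂) = g₁⁻¹ * g₂ by group]
        exact hlt)
      refine ⟨t.ev * h, u', (Conn.step t).trans hc, ?_, ?_, ?_⟩
      · rw [serre_zero_left (Conn.step t) hc z, b1]
      · rw [mul_inv_rev, mul_assoc, b2, d₁]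
      · rw [mul_inv_rev, mul_assoc, b3, d₂]

open Classical in
/-- the initial segment of a path through its first `Z`-step -/
noncomputable def serre_fz (Z : P.C → Prop) : List P.DS → P.U
  | [] => 1
  | t :: p => if Z t.c then t.ev else t.ev * serre_fz Z p

theorem serre_fz_pos {t : P.DS} (h : Z t.c) (p : List P.DS) : serre_fz Z (t :: p) = t.ev := by
  simp [serre_fz, h]

theorem serre_fz_neg {t : P.DS} (h : ¬ Z t.c) (p : List P.DS) :
    serre_fz Z (t :: p) = t.ev * serre_fz Z p := by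
  simp [serre_fz, h]

/-- two morphisms from `u` whose ends are not separated by a `Z`-wall -/
def serre_E (Z : P.C → Prop) (u : List P.L) (h h' : P.U) : Prop :=
  ∃ u₁ u₂, Conn u h u₁ ∧ Conn u h' u₂ ∧ dZ Z u₁ (h⁻¹ * h') = 0

theorem serre_E_refl {u v : List P.L} {h : P.U} (c : Conn u h v) : serre_E Z u h h :=
  ⟨v, v, c, c, by simp [dZ]⟩

theorem serre_E_symm {u : List P.L} {h h' : P.U} (e : serre_E Z u h h') : serre_E Z u h' h := by
  obtain ⟨u₁, u₂, c₁, c₂, e⟩ := e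
  refine ⟨u₂, u₁, c₂, c₁, ?_⟩
  rw [← e, ← serre_inv (c₁.symm.trans c₂), mul_inv_rev, inv_inv]

theorem serre_E_trans {u : List P.L} {h h' h'' : P.U} (e : serre_E Z u h h')
    (e' : serre_E Z u h' h'') : serre_E Z u h h'' := by
  obtain ⟨u₁, u₂, c₁, c₂, e⟩ := e
  obtain ⟨u₂', u₃, c₂', c₃, e'⟩ := e'
  obtain rfl := c₂.unique c₂'
  refine ⟨u₁, u₃, c₁, c₃, ?_⟩
  have := serre_mul (Z := Z) (c₁.symm.trans c₂) (c₂.symm.trans c₃)
  rw [show h⁻¹ * h' * (h'⁻¹ * h'') = h⁻¹ * h'' by group] at this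
  omega

theorem serre_E_left {u v : List P.L} {k h h' : P.U} (c : Conn u k v) (e : serre_E Z v h h') :
    serre_E Z u (k * h) (k * h') := by
  obtain ⟨u₁, u₂, c₁, c₂, e⟩ := e
  refine ⟨u₁, u₂, c.trans c₁, c.trans c₂, ?_⟩
  rw [show (k * h)⁻¹ * (k * h') = h⁻¹ * h' by group]
  exact e

theorem serre_E_right {u v w : List P.L} {h k : P.U} (c : Conn u h v) (c' : Conn v k w)
    (z : dZ Z v k = 0) : serre_E Z u h (h * k) :=
  ⟨v, w, c, c.trans c', by rw [inv_mul_cancel_left]; exact z⟩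

theorem serre_fz_refl {p : List P.DS} : ∀ {u v : List P.L}, IsPath u p v →
    serre_E Z u (serre_fz Z p) (serre_fz Z p) := by
  induction p with
  | nil => exact fun _ => serre_E_refl (Conn.refl _)
  | cons t p ih =>
    intro u v h
    obtain rfl := h.1
    by_cases hZ : Z t.c
    · rw [serre_fz_pos hZ]
      exact serre_E_refl (Conn.step t)
    · rw [serre_fz_neg hZ]
      exact serre_E_left (Conn.step t) (ih h.2)

theorem serre_fz_one {p : List P.DS} (r : List P.DS) : ∀ {u v : List P.L}, IsPath u p v →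
    num (fun t => Z t.c) p = 1 → serre_E Z u (serre_fz Z (p ++ r)) (ev p) := by
  induction p with
  | nil => intro u v _ h; simp at h
  | cons t p ih =>
    intro u v h hn
    obtain rfl := h.1
    rw [List.cons_append, ev_cons]
    by_cases hZ : Z t.c
    · rw [num_cons_pos (Q := fun t => Z t.c) hZ] at hn
      rw [serre_fz_pos hZ]
      exact serre_E_right (Conn.step t) h.2.conn (serre_num_zero h.2 (by omega))
    · rw [num_cons_neg (Q := fun t => Z t.c) hZ] at hn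
      rw [serre_fz_neg hZ]
      exact serre_E_left (Conn.step t) (ih h.2 hn)

theorem serre_reduce {ω : List P.L} (hN : NoPar Z ω) {u v : List P.L} {p q : List P.DS}
    (hu : Sim ω u) (hp : IsPath u p v) (hq : Geo u q v) (he : ev p = ev q)
    (hn : num (fun t => Z t.c) p ≤ num (fun t => Z t.c) q) :
    serre_E Z u (serre_fz Z p) (serre_fz Z q) := by
  have key := IsPath.reduce (R := fun p q : List P.DS => ∀ u v, Sim ω u → IsPath u p v →
      IsPath u q v ∧ num (fun t => Z t.c) q ≤ num (fun t => Z t.c) p ∧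
        (num (fun t => Z t.c) p ≤ num (fun t => Z t.c) q →
          serre_E Z u (serre_fz Z p) (serre_fz Z q))) ?_ ?_ ?_ ?_ ?_ hp hq he
  · exact (key u v hu hp).2.2 hn
  · exact fun p u v _ h => ⟨h, le_rfl, fun _ => serre_fz_refl h⟩
  · intro p q r h₁ h₂ u v hu h
    obtain ⟨a1, a2, a3⟩ := h₁ u v hu h
    obtain ⟨b1, b2, b3⟩ := h₂ u v hu a1
    exact ⟨b1, b2.trans a2, fun c => serre_E_trans (a3 (c.trans b2)) (b3 (a2.trans c))⟩
  · intro t p q h₁ u v hu h
    obtain rfl := h.1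
    obtain ⟨a1, a2, a3⟩ := h₁ _ v (hu.trans (Sim.step t)) h.2
    refine ⟨⟨rfl, a1⟩, ?_⟩
    by_cases hZ : Z t.c
    · rw [num_cons_pos (Q := fun t => Z t.c) hZ, num_cons_pos (Q := fun t => Z t.c) hZ,
        serre_fz_pos hZ, serre_fz_pos hZ]
      exact ⟨by omega, fun _ => serre_E_refl (Conn.step t)⟩
    · rw [num_cons_neg (Q := fun t => Z t.c) hZ, num_cons_neg (Q := fun t => Z t.c) hZ,
        serre_fz_neg hZ, serre_fz_neg hZ]
      exact ⟨a2, fun c => serre_E_left (Conn.step t) (a3 c)⟩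
  · intro s t t' s' r hpar u v hu h
    obtain rfl := h.1
    have hq : IsPath s.src (t :: s' :: r) v :=
      ⟨hpar.src_eq.symm, hpar.src_s', hpar.tgt_eq ▸ h.2.2⟩
    have ct : Z t'.c ↔ Z t.c := by rw [hpar.c_eq]
    have cs : Z s'.c ↔ Z s.c := by rw [hpar.symm.c_eq]
    have kt : Conn s.tgt t'.ev t'.tgt := hpar.src_t' ▸ Conn.step t'
    have ks : Conn t.tgt s'.ev s'.tgt := hpar.src_s' ▸ Conn.step s'
    refine ⟨hq, ?_⟩
    by_cases hs : Z s.c
    · have ht : ¬ Z t.c := hN s t t' s' hpar hu hs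
      rw [num_cons_pos (Q := fun t => Z t.c) hs, num_cons_neg (Q := fun t => Z t.c) ht,
        num_cons_pos (Q := fun t => Z t.c) (cs.2 hs),
        num_cons_neg (Q := fun t => Z t.c) (mt ct.1 ht), serre_fz_pos hs, serre_fz_neg ht,
        serre_fz_pos (cs.2 hs), ← hpar.ev_eq]
      exact ⟨le_rfl, fun _ => serre_E_right (Conn.step s) kt
        (hpar.src_t' ▸ serre_step_zero (mt ct.1 ht))⟩
    · by_cases ht : Z t.c
      · rw [num_cons_neg (Q := fun t => Z t.c) hs, num_cons_pos (Q := fun t => Z t.c) ht,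
          num_cons_neg (Q := fun t => Z t.c) (mt cs.1 hs),
          num_cons_pos (Q := fun t => Z t.c) (ct.2 ht), serre_fz_neg hs, serre_fz_pos ht,
          serre_fz_pos (ct.2 ht), hpar.ev_eq, hpar.src_eq]
        exact ⟨le_rfl, fun _ => serre_E_symm (serre_E_right (Conn.step t) ks
          (hpar.src_s' ▸ serre_step_zero (mt cs.1 hs)))⟩
      · rw [num_cons_neg (Q := fun t => Z t.c) hs, num_cons_neg (Q := fun t => Z t.c) ht,
          num_cons_neg (Q := fun t => Z t.c) (mt cs.1 hs),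
          num_cons_neg (Q := fun t => Z t.c) (mt ct.1 ht)]
        refine ⟨le_rfl, fun _ => ?_⟩
        have := serre_fz_refl (Z := Z) h
        rw [serre_fz_neg ht, serre_fz_neg (mt cs.1 hs), ← mul_assoc, ← hpar.ev_eq, mul_assoc,
          ← serre_fz_neg (mt ct.1 ht), ← serre_fz_neg hs]
        exact this
  · intro t r u v hu h
    obtain rfl := h.1
    have hr : IsPath t.src r v := by simpa using h.2.2
    refine ⟨hr, ?_⟩
    by_cases hZ : Z t.c
    · rw [num_cons_pos (Q := fun t => Z t.c) hZ, num_cons_pos (Q := fun t => Z t.c) (t := t.inv) hZ]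
      exact ⟨by omega, fun c => by omega⟩
    · rw [num_cons_neg (Q := fun t => Z t.c) hZ, num_cons_neg (Q := fun t => Z t.c) (t := t.inv) hZ,
        serre_fz_neg hZ, serre_fz_neg (t := t.inv) hZ, DS.ev_inv, mul_inv_cancel_left]
      exact ⟨le_rfl, fun _ => serre_fz_refl hr⟩

theorem serre_first {ω : List P.L} (hN : NoPar Z ω) {u u₁ v : List P.L} {q : List P.DS}
    {h : P.U} (hu : Sim ω u) (hq : Geo u q v) (c : Conn u h u₁) (h1 : dZ Z u h = 1)
    (h2 : dZ Z u₁ (h⁻¹ * ev q) + 1 = dZ Z u (ev q)) : serre_E Z u h (serre_fz Z q) := by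
  obtain ⟨p, hp, rfl⟩ := c.exists_geo
  obtain ⟨r, hr, e⟩ := (c.symm.trans hq.1.conn).exists_geo
  have a1 := hp.cnt_eq (wallInv_cell Z)
  have a2 := hr.cnt_eq (wallInv_cell Z)
  have a3 := hq.cnt_eq (wallInv_cell Z)
  rw [e] at a2
  unfold dZ at h1 h2
  refine serre_E_trans (serre_E_symm (serre_fz_one r hp.1 (by omega)))
    (serre_reduce hN hu (hp.1.append hr.1) hq ?_ ?_)
  · rw [ev_append, e, mul_inv_cancel_left]
  · rw [num_append]
    omega

theorem serre_noinv {u : List P.L} {z : P.U} (c : Conn u z u) (h1 : dZ Z u z = 1) :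
    dZ Z u (z * z) ≠ 0 := by
  classical
  let φ : P.U →* Multiplicative ℤ :=
    lift (fun x => Multiplicative.ofAdd (if Z x.2.1 then 1 else 0)) fun _ _ _ _ _ => mul_comm _ _
  have f0 : ∀ t : P.DS, ¬ Z t.c → φ t.ev = 1 := by
    rintro ⟨a, c, _ | _, b⟩ h <;> simp only at h <;> simp [φ, DS.ev, h]
  have f1 : ∀ t : P.DS, Z t.c → φ t.ev ≠ 1 := by
    rintro ⟨a, c, _ | _, b⟩ h <;> simp only at h <;> simp [φ, DS.ev, h]
  have g0 : ∀ p : List P.DS, num (fun t => Z t.c) p = 0 → φ (ev p) = 1 := by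
    intro p
    induction p with
    | nil => simp
    | cons t p ih =>
      intro h
      have hZ : ¬ Z t.c := num_eq_zero.1 h t (by simp)
      rw [num_cons_neg (Q := fun t => Z t.c) hZ] at h
      rw [ev_cons, map_mul, f0 t hZ, ih h, one_mul]
  have g1 : ∀ p : List P.DS, num (fun t => Z t.c) p = 1 → φ (ev p) ≠ 1 := by
    intro p
    induction p with
    | nil => simp
    | cons t p ih =>
      intro h
      by_cases hZ : Z t.c
      · rw [num_cons_pos (Q := fun t => Z t.c) hZ] at h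
        rw [ev_cons, map_mul, g0 p (by omega), mul_one]
        exact f1 t hZ
      · rw [num_cons_neg (Q := fun t => Z t.c) hZ] at h
        rw [ev_cons, map_mul, f0 t hZ, one_mul]
        exact ih h
  intro h0
  obtain ⟨p, hp, rfl⟩ := c.exists_geo
  obtain ⟨q, hq, e⟩ := (c.trans c).exists_geo
  have a1 := g1 p ((hp.cnt_eq (wallInv_cell Z)).symm.trans h1)
  have a2 := g0 q ((hq.cnt_eq (wallInv_cell Z)).symm.trans (e ▸ h0))
  rw [e, map_mul] at a2
  apply a1
  have a3 := congrArg Multiplicative.toAdd a2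
  rw [toAdd_mul, toAdd_one] at a3
  exact toAdd_eq_zero.1 (by omega)

end

theorem serre {Z : P.C → Prop} {ω : List P.L} (hN : NoPar Z ω)
    (hH : ∀ ω' z, Sim ω ω' → ¬ Hyp Z ω' z) {B : Set P.U} (hB : B.Finite)
    (hD : ∀ b ∈ B, Conn ω b ω) :
    ∃ ω' β, Conn ω β ω' ∧ ∀ g ∈ Subgroup.closure B, dZ Z ω' (β⁻¹ * g * β) = 0 := by
  let X : Type := {g : P.U // ∃ u, Conn ω g u}
  let en : X → List P.L := fun x => x.2.choose
  have hen : ∀ x : X, Conn ω x.1 (en x) := fun x => x.2.choose_spec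
  have hxy : ∀ x y : X, Conn (en x) (x.1⁻¹ * y.1) (en y) := fun x y => (hen x).symm.trans (hen y)
  let _ : MulAction (D ω) X :=
    { smul := fun g x => ⟨g.1 * x.1, _, Conn.trans g.2 (hen x)⟩
      one_smul := fun x => Subtype.ext (one_mul x.1)
      mul_smul := fun g h x => Subtype.ext (mul_assoc g.1 h.1 x.1) }
  have hs : ∀ (g : D ω) (x : X), (g • x).1 = g.1 * x.1 := fun _ _ => rfl
  have hes : ∀ (g : D ω) (x : X), en (g • x) = en x := fun g x =>
    (hen (g • x)).unique (Conn.trans g.2 (hen x))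
  have : Nonempty X := ⟨⟨1, ω, Conn.refl ω⟩⟩
  have hcomm : ∀ x y : X, dZ Z (en x) (x.1⁻¹ * y.1) = dZ Z (en y) (y.1⁻¹ * x.1) := by
    intro x y
    rw [← serre_inv (hxy x y), mul_inv_rev, inv_inv]
  have key := treeAct (X := X) (H := D ω) (fun x y => dZ Z (en x) (x.1⁻¹ * y.1))
    (fun x => by simp [dZ]) hcomm ?_ ?_ ?_ ?_ ?_ ?_ (Subtype.val ⁻¹' B)
    (hB.preimage Subtype.val_injective.injOn)
  · obtain ⟨x, hx⟩ := key
    refine ⟨en x, x.1, hen x, fun g hg => ?_⟩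
    have : ∃ hg' : g ∈ D ω, (⟨g, hg'⟩ : D ω) ∈ Subgroup.closure (Subtype.val ⁻¹' B) := by
      induction hg using Subgroup.closure_induction with
      | mem b hb => exact ⟨hD b hb, Subgroup.subset_closure hb⟩
      | one => exact ⟨one_mem _, one_mem _⟩
      | mul a b _ _ ha hb => exact ⟨mul_mem ha.1 hb.1, mul_mem ha.2 hb.2⟩
      | inv a _ ha => exact ⟨inv_mem ha.1, inv_mem ha.2⟩
    rw [mul_assoc]
    exact hx _ this.2
  · intro x y z
    have := serre_mul (Z := Z) (hxy x y) (hxy y z)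
    rwa [show x.1⁻¹ * y.1 * (y.1⁻¹ * z.1) = x.1⁻¹ * z.1 by group] at this
  · intro g x y
    rw [hes, hs, hs, show (g.1 * x.1)⁻¹ * (g.1 * y.1) = x.1⁻¹ * y.1 by group]
  · intro x y z hlt
    obtain ⟨h, u', hc, b1, b2, b3⟩ := serre_fork (Z := Z) _ rfl (hxy x y) (hxy x z) (by
      rw [show (x.1⁻¹ * y.1)⁻¹ * (x.1⁻¹ * z.1) = y.1⁻¹ * z.1 by group, hcomm x y]
      exact hlt)
    let x' : X := ⟨x.1 * h, u', (hen x).trans hc⟩
    have e : en x' = u' := (hen x').unique ((hen x).trans hc)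
    refine ⟨x', ?_, ?_, ?_⟩
    · show dZ Z (en x) (x.1⁻¹ * (x.1 * h)) = 1
      rw [inv_mul_cancel_left, b1]
    · show dZ Z (en x') ((x.1 * h)⁻¹ * y.1) + 1 = _
      rw [e, mul_inv_rev, mul_assoc, b2]
    · show dZ Z (en x') ((x.1 * h)⁻¹ * z.1) + 1 = _
      rw [e, mul_inv_rev, mul_assoc, b3]
  · intro x x' x'' y a1 a2 a3 a4
    obtain ⟨q, hq, e⟩ := (hxy x y).exists_geo
    have b1 := serre_first hN (hen x).sim hq (hxy x x') a1 (by
      rw [e, show (x.1⁻¹ * x'.1)⁻¹ * (x.1⁻¹ * y.1) = x'.1⁻¹ * y.1 by group]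
      exact a3)
    have b2 := serre_first hN (hen x).sim hq (hxy x x'') a2 (by
      rw [e, show (x.1⁻¹ * x''.1)⁻¹ * (x.1⁻¹ * y.1) = x''.1⁻¹ * y.1 by group]
      exact a4)
    obtain ⟨u₁, u₂, c₁, -, b3⟩ := serre_E_trans b1 (serre_E_symm b2)
    obtain rfl := (hxy x x').unique c₁
    rwa [show (x.1⁻¹ * x'.1)⁻¹ * (x.1⁻¹ * x''.1) = x'.1⁻¹ * x''.1 by group] at b3
  · intro g x h1
    have c := hxy x (g • x)
    rw [hes] at c
    have := serre_noinv c h1
    rw [hs, show x.1⁻¹ * (g.1 * x.1) * (x.1⁻¹ * (g.1 * x.1)) = x.1⁻¹ * (g.1 * (g.1 * x.1)) by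
      group] at this
    exact this
  · intro g x h0
    have c := hxy x (g • x)
    rw [hes] at c
    by_contra hk
    refine hH (en x) _ (hen x).sim ⟨c, h0, fun k => ?_⟩
    have h1 : (x.1⁻¹ * (g • x).1) ^ k = x.1⁻¹ * ((g ^ k) • x).1 := by
      rw [hs, hs, ← mul_assoc, ← mul_assoc, Subgroup.coe_pow]
      simpa using conj_pow (i := k) (a := x.1⁻¹) (b := g.1)
    rw [h1]
    by_contra h2
    exact hk ⟨k, h2⟩

end Pres

end Pool.Agent.MP_1e5511_al

end

-- part MP_1e5511_al.Loops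
section

set_option autoImplicit false

namespace Pool.Agent.MP_1e5511_al

namespace Pres

variable {P : Pres}

/-- powers of a word -/
def pw (u : List P.L) (n : ℕ) : List P.L := (List.replicate n u).flatten

@[simp] theorem pw_zero (u : List P.L) : pw u 0 = [] := rfl
theorem pw_succ (u : List P.L) (n : ℕ) : pw u (n + 1) = u ++ pw u n := by
  simp [pw, List.replicate_succ]
theorem pw_add (u : List P.L) (m n : ℕ) : pw u (m + n) = pw u m ++ pw u n := by
  induction m with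
  | zero => simp
  | succ m ih => rw [Nat.add_right_comm, pw_succ, pw_succ, ih, List.append_assoc]
theorem pw_succ' (u : List P.L) (n : ℕ) : pw u (n + 1) = pw u n ++ u := by
  rw [pw_add]; simp [pw]

/-- juxtaposition of loops -/
def loops_prod (a b : List P.L) : D a × D b →* D (a ++ b) :=
  MonoidHom.mk' (fun x => ⟨wh [] b x.1.1 * wh a [] x.2.1,
      (Conn.wr x.1.2 b).trans (Conn.wl x.2.2 a)⟩) (by
    rintro ⟨g, h⟩ ⟨g', h'⟩
    refine Subtype.ext ?_
    have e := interchange (mem_D.1 g'.2) (mem_D.1 h.2)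
    simp only [Prod.mk_mul_mk, Subgroup.coe_mul, map_mul]
    rw [mul_assoc, mul_assoc, ← mul_assoc (wh [] b g'.1), e, mul_assoc])

theorem loops_prod_inj (a b : List P.L) : Function.Injective (loops_prod a b) := by
  rintro ⟨g, h⟩ ⟨g', h'⟩ he
  obtain ⟨e1, e2⟩ := prod_inj (mem_D.1 g.2) (mem_D.1 g'.2) (mem_D.1 h.2) (mem_D.1 h'.2)
    (congrArg Subtype.val he)
  exact Prod.ext (Subtype.ext e1) (Subtype.ext e2)

/-- whiskering of loops -/
def loops_wh (α γ a : List P.L) : D a →* D (α ++ a ++ γ) :=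
  MonoidHom.mk' (fun x => ⟨wh α γ x.1, Conn.wh x.2 α γ⟩) fun _ _ => Subtype.ext (map_mul _ _ _)

theorem loops_wh_inj (α γ a : List P.L) : Function.Injective (loops_wh α γ a) :=
  fun g g' he => Subtype.ext (Conn.wh_inj (mem_D.1 g.2) (mem_D.1 g'.2) (congrArg Subtype.val he))

theorem loops_pow (u : List P.L) (n : ℕ) :
    ∃ f : (Fin n → D u) →* D (pw u n), Function.Injective f := by
  induction n with
  | zero => exact ⟨1, fun _ _ _ => Subsingleton.elim _ _⟩
  | succ n ih =>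
    obtain ⟨f, hf⟩ := ih
    rw [pw_succ]
    let e : (Fin (n + 1) → D u) →* D u × D (pw u n) :=
      MonoidHom.mk' (fun x => (x 0, f fun i => x i.succ)) fun x y =>
        Prod.ext rfl (map_mul f (fun i => x i.succ) fun i => y i.succ)
    refine ⟨(loops_prod u (pw u n)).comp e, (loops_prod_inj _ _).comp fun x y hxy => ?_⟩
    have h1 : x 0 = y 0 := congrArg Prod.fst hxy
    have h2 : (fun i : Fin n => x i.succ) = fun i => y i.succ := hf (congrArg Prod.snd hxy)
    funext i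
    exact Fin.cases h1 (fun j => congrFun h2 j) i

theorem loops_trivial {w α u γ : List P.L} (hS : Small (D w))
    (h : ∀ n, Sim w (α ++ pw u n ++ γ)) {g : P.U} (hg : Conn u g u) : g = 1 := by
  obtain ⟨N, hN⟩ := hS
  obtain ⟨f, hf⟩ := loops_pow u N
  obtain ⟨β, hβ⟩ := h N
  have hs := hN (D u) (hβ.equivD.symm.toMonoidHom.comp ((loops_wh α γ (pw u N)).comp f))
    (hβ.equivD.symm.injective.comp ((loops_wh_inj α γ (pw u N)).comp hf))
  exact congrArg Subtype.val (hs.elim (⟨g, hg⟩ : D u) 1)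

theorem loops_lt {u : List P.L} (hu : u ≠ []) (h : ∀ n g, Conn (pw u n) g (pw u n) → g = 1)
    {m n : ℕ} (hm : 0 < m) (hl : m < n) (hs : Sim (pw u m) (pw u n)) : False := by
  obtain ⟨d, rfl⟩ := Nat.exists_eq_add_of_lt hl
  have h1 : ∀ j, Sim (pw u (m + j)) (pw u (m + j + (d + 1))) := by
    intro j
    have := hs.wr (pw u j)
    rw [← pw_add, ← pw_add] at this
    rwa [show m + j + (d + 1) = m + d + 1 + j by omega]
  have h2 : ∀ j i, Sim (pw u (m + j)) (pw u (m + j + i * (d + 1))) := by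
    intro j i
    induction i with
    | zero => simpa using Sim.refl _
    | succ i ih =>
      have := h1 (j + i * (d + 1))
      rw [← Nat.add_assoc] at this
      rw [Nat.succ_mul, ← Nat.add_assoc]
      exact ih.trans this
  obtain ⟨β, hβ⟩ := h2 (m * d) m
  rw [show m + m * d = m * (d + 1) by ring, pw_add] at hβ
  set k := m * (d + 1) with hk
  have h3 := hβ.wr (pw u k)
  have h4 := hβ.wl (pw u k)
  rw [← List.append_assoc] at h4
  have h5 := h3.trans h4.symm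
  rw [← pw_add] at h5
  have h6 := (lr hβ hβ (mul_inv_eq_one.1 (h _ _ h5))).1
  rw [h6] at hβ
  have h7 := congrArg List.length (hβ.unique (Conn.refl _))
  have h8 : (pw u k).length = 0 := by
    rw [List.length_append] at h7
    omega
  obtain ⟨k', hk'⟩ : ∃ k', k = k' + 1 := ⟨k - 1, by
    have : 0 < k := Nat.mul_pos hm (Nat.succ_pos d)
    omega⟩
  rw [hk', pw_succ, List.length_append] at h8
  exact hu (List.length_eq_zero_iff.1 (by omega))

/-- powers of a word whose powers have trivial groups are not equivalent -/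
theorem pw_inj {u : List P.L} (hu : u ≠ []) (h : ∀ n g, Conn (pw u n) g (pw u n) → g = 1)
    {m n : ℕ} (hm : 0 < m) (hn : 0 < n) (hs : Sim (pw u m) (pw u n)) : m = n := by
  rcases lt_trichotomy m n with hl | hl | hl
  · exact (loops_lt hu h hm hl hs).elim
  · exact hl
  · exact (loops_lt hu h hn hl hs.symm).elim

end Pres

namespace Typed

open Pres

variable {P : Pres} {V : Type} {T : Typed P V}

theorem Path.pw {q : V} {u : List P.L} (h : T.Path q u q) (n : ℕ) : T.Path q (pw u n) q := by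
  induction n with
  | zero => rfl
  | succ n ih => rw [pw_succ]; exact h.append ih

theorem loops_par {q q' : V} {s t t' s' : P.DS} (hp : Par s t t' s') (h : T.Path q s.src q') :
    T.Reach (T.e s.c) (T.s t.c) ∨ T.Reach (T.e t.c) (T.s s.c) := by
  cases hp with
  | left a c e m c' e' b => exact Or.inl (path_mid.1 (path_src.1 h).2).1.reach
  | right a c e m c' e' b => exact Or.inr (path_mid.1 (path_src.1 h).1).2.reach

theorem noPar_in {K : V → Prop} (hK : T.Convex K) {q q' : V} {ω : List P.L}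
    (h : T.Path q ω q') : NoPar (T.Zin K) ω := by
  intro s t t' s' hp hs h1 h2
  rcases loops_par hp (h.sim hs) with h3 | h3
  · exact h2.1 (hK _ _ _ h1.2 h3 (reach_cell _) h2.2)
  · exact h1.1 (hK _ _ _ h2.2 h3 (reach_cell _) h1.2)

theorem noPar_out {K : V → Prop} (hK : T.Convex K) {q q' : V} {ω : List P.L}
    (h : T.Path q ω q') : NoPar (T.Zout K) ω := by
  intro s t t' s' hp hs h1 h2
  rcases loops_par hp (h.sim hs) with h3 | h3
  · exact h1.2 (hK _ _ _ h1.1 (reach_cell _) h3 h2.1)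
  · exact h2.2 (hK _ _ _ h2.1 (reach_cell _) h3 h1.1)

theorem loops_tri {A : Type} {a s b μ τ : List A} {l : A} (h : a ++ s ++ b = μ ++ l :: τ) :
    (∃ b', μ = a ++ s ++ b' ∧ b = b' ++ l :: τ) ∨ (∃ a', a = μ ++ l :: a' ∧ τ = a' ++ s ++ b) ∨
      ∃ s₁ s₂, s = s₁ ++ l :: s₂ ∧ μ = a ++ s₁ ∧ τ = s₂ ++ b := by
  rcases List.append_eq_append_iff.1 h with ⟨x, h1, h2⟩ | ⟨x, h1, h2⟩
  · exact Or.inl ⟨x, h1, h2⟩
  · cases x with
    | nil => exact Or.inl ⟨[], by simpa using h1.symm, by simpa using h2.symm⟩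
    | cons l' x =>
      obtain ⟨rfl, rfl⟩ := List.cons.inj h2
      rcases List.append_eq_append_iff.1 h1 with ⟨y, h3, h4⟩ | ⟨y, h3, h4⟩
      · exact Or.inr (Or.inr ⟨y, x, h4, h3, rfl⟩)
      · cases y with
        | nil => exact Or.inr (Or.inr ⟨[], x, by simpa using h4.symm, by simpa using h3.symm, rfl⟩)
        | cons l' y =>
          obtain ⟨rfl, rfl⟩ := List.cons.inj h4
          exact Or.inr (Or.inl ⟨y, h3, rfl⟩)

theorem loops_split {K : V → Prop} (hK : T.Convex K) {q q' : V} (hq : K q) {l : P.L}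
    (h1 : K (T.src l)) (h2 : ¬ K (T.tgt l)) (p : List P.DS) : ∀ μ τ ω' : List P.L,
    IsPath (μ ++ l :: τ) p ω' → T.Path q (μ ++ l :: τ) q' → (∀ t ∈ p, ¬ T.Zout K t.c) →
    ∃ μ' τ' gL gR, ω' = μ' ++ l :: τ' ∧ Conn μ gL μ' ∧ Conn τ gR τ' ∧
      ev p = wh [] (l :: τ) gL * wh (μ' ++ [l]) [] gR := by
  induction p with
  | nil =>
    intro μ τ ω' hp _ _
    exact ⟨μ, τ, 1, 1, (isPath_nil.1 hp).symm, Conn.refl _, Conn.refl _, by simp⟩
  | cons t p ih =>
    intro μ τ ω' hp h hZ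
    obtain ⟨hs, hp⟩ := hp
    have ht : T.Path q t.tgt q' := path_tgt.2 (path_src.1 (hs ▸ h))
    have hZ' : ∀ t ∈ p, ¬ T.Zout K t.c := fun s hs => hZ s (List.mem_cons_of_mem _ hs)
    obtain ⟨a, c, e, b⟩ := t
    rcases loops_tri hs with ⟨b', rfl, rfl⟩ | ⟨a', rfl, rfl⟩ | ⟨s₁, s₂, e1, rfl, rfl⟩
    · let t₀ : P.DS := ⟨a, c, e, b'⟩
      have e0 : (⟨a, c, e, b' ++ l :: τ⟩ : P.DS) = t₀.wh [] (l :: τ) := rfl
      rw [e0] at hp ht ⊢
      rw [DS.tgt_wh, List.nil_append] at hp ht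
      obtain ⟨μ', τ', gL, gR, e1, c1, c2, e2⟩ := ih _ _ _ hp ht hZ'
      refine ⟨μ', τ', t₀.ev * gL, gR, e1, (Conn.step t₀).trans c1, c2, ?_⟩
      rw [ev_cons, e2, DS.ev_wh, map_mul, mul_assoc]
    · let t₀ : P.DS := ⟨a', c, e, b⟩
      have e0 : (⟨μ ++ l :: a', c, e, b⟩ : P.DS) = t₀.wh (μ ++ [l]) [] := by simp [t₀, DS.wh]
      have e4 : DS.ev ⟨μ ++ l :: a', c, e, b⟩ = wh (μ ++ [l]) [] t₀.ev := by rw [e0, DS.ev_wh]
      rw [e0] at hp ht
      rw [DS.tgt_wh, List.append_nil, List.append_assoc, List.singleton_append] at hp ht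
      obtain ⟨μ', τ', gL, gR, e1, c1, c2, e2⟩ := ih _ _ _ hp ht hZ'
      refine ⟨μ', τ', gL, t₀.ev * gR, e1, c1, (Conn.step t₀).trans c2, ?_⟩
      have e3 := interchange (c1.wr [l]) (Conn.step t₀)
      simp only [wh_wh, List.nil_append, List.singleton_append] at e3
      rw [ev_cons, e2, e4, map_mul, ← mul_assoc, ← mul_assoc, ← e3]
      rfl
    · exfalso
      have h3 := path_src.1 (hs ▸ h)
      have h4 := path_side (T := T) c e
      rw [e1] at h4
      obtain ⟨h5, h6⟩ := path_letter.1 h4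
      exact hZ _ List.mem_cons_self ⟨hK _ _ _ hq h3.1.reach h5.reach h1,
        fun h7 => h2 (hK _ _ _ h1 (reach_letter l) h6.reach h7)⟩

/-- loops that do not cross an exit cell come from the part after the exit letter, if the part
before it has no loops -/
theorem exit_split {K : V → Prop} (hK : T.Convex K) {q q' : V} {ω : List P.L}
    (h : T.Path q ω q') (hq : K q) (hq' : ¬ K q')
    (htriv : ∀ μ m, T.Path q μ m → K m → ∀ g, Conn μ g μ → g = 1) :
    ∃ x τ m, ω = x ++ τ ∧ T.Path q x m ∧ ¬ K m ∧ T.Path m τ q' ∧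
      ∀ g, Conn ω g ω → dZ (T.Zout K) ω g = 0 → ∃ k, Conn τ k τ ∧ g = wh x [] k := by
  obtain ⟨μ, l, τ, rfl, h1, h2⟩ := h.exists_out hq hq'
  obtain ⟨h3, h4⟩ := path_letter.1 h
  refine ⟨μ ++ [l], τ, T.tgt l, by simp, h3.append ⟨rfl, rfl⟩, h2, h4, fun g hg h0 => ?_⟩
  obtain ⟨p, hp, rfl, hZ⟩ := hg.exists_path_of_cnt h0
  obtain ⟨μ', τ', gL, gR, e1, c1, c2, e2⟩ := loops_split hK hq h1 h2 p μ τ _ hp h hZ
  have n1 : l ∉ μ := fun hl => h2 (hK _ _ _ h1 (reach_letter l) (h3.reach_mem hl).2 h1)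
  have n2 : l ∉ τ := fun hl => h2 (hK _ _ _ h1 (reach_letter l) (h4.reach_mem hl).1 h1)
  obtain ⟨rfl, -, rfl⟩ := (List.append_cons_inj_of_notMem n1 n2).1 e1
  refine ⟨gR, c2, ?_⟩
  rw [e2, htriv μ _ h3 h1 gL c1, map_one, one_mul]

end Typed

namespace St

open Pres

variable {V : Type} {q₀ q₁ : V} {S : St V q₀ q₁}

/-- paths inside a cyclic component have trivial groups -/
theorem scc_trivial (hrel : S.AllRel) (hS : Small S.G) (hN : S.RN ∨ S.LN) {q : V}
    (hq : S.T.Cyc q) {m m' : V} (hm : S.T.Scc q m) (hm' : S.T.Scc q m') {μ : List S.P.L}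
    (hμ : S.T.Path m μ m') {g : S.P.U} (hg : Conn μ g μ) : g = 1 := by
  obtain ⟨μ', hμ'⟩ := hm'.2.trans hm.1
  have hc := hq.scc hm
  obtain ⟨α, γ, h1, h2, h3⟩ := hrel.cyc hc
  have hu := hμ.append hμ'
  have h4 : ∀ n, Sim S.w (α ++ pw (μ ++ μ') n ++ γ) := by
    intro n
    rcases hN with hN | hN
    · rw [List.append_assoc]
      exact h1.trans ((hN m ⟨m, hc, Typed.Reach.refl m⟩ _ _ h3 ((hu.pw n).append h3)).wl α)
    · exact h1.trans ((hN m ⟨m, hc, Typed.Reach.refl m⟩ _ _ h2 (h2.append (hu.pw n))).wr γ)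
  have h5 := loops_trivial hS h4 (hg.wr μ')
  exact hg.wh_inj (Conn.refl μ) (h5.trans (map_one _).symm)

end St

end Pool.Agent.MP_1e5511_al

end

-- part MP_1e5511_al.TightExit
section

set_option autoImplicit false

namespace Pool.Agent.MP_1e5511_al

open Pres

namespace St

variable {V : Type} {q₀ q₁ : V} {S : St V q₀ q₁}

/-- vertices after the component of `q` -/
def te_Out (S : St V q₀ q₁) (q v : V) : Prop := S.T.Reach q v ∧ ¬ S.T.Scc q v

theorem te_out_reach {q v v' : V} (h : te_Out S q v) (h' : S.T.Reach v v') : te_Out S q v' :=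
  ⟨h.1.trans h', fun hk => h.2 ⟨h.1, h'.trans hk.2⟩⟩

theorem te_out_not_cyc {q : V} (hmax : ∀ q', S.T.Reach q q' → S.T.Cyc q' → S.T.Reach q' q)
    {v : V} (h : te_Out S q v) : ¬ S.T.Cyc v := fun hc => h.2 ⟨h.1, hmax v h.1 hc⟩

/-- number of letters that can be reached -/
noncomputable def te_nu (S : St V q₀ q₁) (v : V) : ℕ := {l | S.T.Reach v (S.T.src l)}.ncard

theorem te_nu_lt (hfin : S.Fin) {v v' : V} (hv : ¬ S.T.Cyc v) {r : List S.P.L} (hr : r ≠ [])
    (h : S.T.Path v r v') : te_nu S v' < te_nu S v := by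
  have := hfin.1
  refine Set.ncard_lt_ncard ⟨fun l hl => h.reach.trans hl, fun hsub => ?_⟩ (Set.toFinite _)
  obtain ⟨l, r', rfl⟩ := List.exists_cons_of_ne_nil hr
  have h1 : S.T.src l = v := h.1
  have h2 : l ∈ {l | S.T.Reach v (S.T.src l)} := by
    change S.T.Reach v (S.T.src l)
    rw [h1]
    exact Typed.Reach.refl v
  obtain ⟨u, hu⟩ := hsub h2
  rw [h1] at hu
  exact hv ⟨l :: r' ++ u, by simp, h.append hu⟩

theorem te_nu_le (hfin : S.Fin) (v : V) : te_nu S v ≤ Nat.card S.P.L := by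
  have := hfin.1
  simpa [te_nu] using Set.ncard_le_ncard (Set.subset_univ {l | S.T.Reach v (S.T.src l)})
    Set.finite_univ

theorem te_finite (hfin : S.Fin) {v : V} (hv : ∀ v', S.T.Reach v v' → ¬ S.T.Cyc v')
    {τ : List S.P.L} (hτ : S.T.Path v τ q₁) : {t : S.P.DS | Sim τ t.src}.Finite := by
  have := hfin.1
  have := hfin.2
  have hW := Typed.finite_paths hv
  refine Set.Finite.of_finite_image (f := fun t : S.P.DS => (t.src, t.a, t.c, t.e))
    ((hW.prod (hW.prod Set.finite_univ)).subset ?_) ?_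
  · rintro _ ⟨t, ht, rfl⟩
    have h1 := hτ.sim ht
    exact ⟨⟨_, h1⟩, ⟨_, (Typed.path_src.1 h1).1⟩, Set.mem_univ _⟩
  · rintro ⟨a, c, e, b⟩ - ⟨a', c', e', b'⟩ - h
    simp only [Prod.mk.injEq, DS.src] at h
    obtain ⟨h1, rfl, rfl, rfl⟩ := h
    rw [List.append_cancel_left h1]

/-- decompositions with an exit -/
def te_Dat (S : St V q₀ q₁) (q m : V) (σ x τ : List S.P.L) (v : V) (β : S.P.U) : Prop :=
  Conn σ β (x ++ τ) ∧ S.T.Path m x v ∧ te_Out S q v ∧ S.T.Path v τ q₁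

/-- loops that come from `τ` -/
def te_Span {P : Pres} (x τ : List P.L) (β g : P.U) : Prop :=
  ∃ h, Conn τ h τ ∧ g = β * wh x [] h * β⁻¹

/-- no proper tight decomposition -/
def te_Term {P : Pres} (τ : List P.L) : Prop :=
  ∀ r τ', Sim τ (r ++ τ') → Tight r τ' → r = []

theorem te_step1 (hrel : S.AllRel) (hLN : S.LN) (hS : Small S.G) {q : V}
    (hq : S.T.Cyc q) {m : V} (hm : S.T.Scc q m) {σ : List S.P.L} (hσ : S.T.Path m σ q₁)
    (hH : ∀ σ' z, Sim σ σ' → ¬ Hyp (S.T.Zout (S.T.Scc q)) σ' z) {B : Set S.P.U}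
    (hB : B.Finite) (hD : ∀ b ∈ B, Conn σ b σ) :
    ∃ x τ v β, te_Dat S q m σ x τ v β ∧ ∀ b ∈ B, te_Span x τ β b := by
  have hK := Typed.convex_scc (T := S.T) q
  obtain ⟨ω, β, hβ, h0⟩ := serre (Typed.noPar_out hK hσ) hH hB hD
  have h1 : ¬ S.T.Scc q q₁ := fun h => not_cyc_one (hq.scc h)
  obtain ⟨x, τ, v, rfl, hx, hv, hτ, hk⟩ := Typed.exit_split hK (hσ.sim hβ.sim) hm h1
    fun μ m' hμ hm' g hg => scc_trivial hrel hS (Or.inr hLN) hq hm hm' hμ hg
  refine ⟨x, τ, v, β, ⟨hβ, hx, ⟨hm.1.trans hx.reach, hv⟩, hτ⟩, fun b hb => ?_⟩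
  obtain ⟨k, hk1, hk2⟩ := hk _ ((hβ.symm.trans (hD b hb)).trans hβ)
    (h0 b (Subgroup.subset_closure hb))
  exact ⟨k, hk1, by rw [← hk2]; group⟩

theorem te_step2 (hfin : S.Fin) {q : V}
    (hmax : ∀ q', S.T.Reach q q' → S.T.Cyc q' → S.T.Reach q' q) {m : V} {σ : List S.P.L}
    (n : ℕ) : ∀ x τ v β, te_nu S v = n → te_Dat S q m σ x τ v β →
      ∃ x' τ' v' β', te_Dat S q m σ x' τ' v' β' ∧ te_Term τ' ∧
        ∀ g, te_Span x τ β g → te_Span x' τ' β' g := by
  induction n using Nat.strong_induction_on with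
  | _ n ih =>
    intro x τ v β hn hd
    by_cases ht : te_Term τ
    · exact ⟨x, τ, v, β, hd, ht, fun _ h => h⟩
    · simp only [te_Term, not_forall] at ht
      obtain ⟨r, τ₁, ⟨γ, hγ⟩, htight, hr⟩ := ht
      obtain ⟨hβ, hx, hv, hτ⟩ := hd
      obtain ⟨v₁, h1, h2⟩ := Typed.path_append.1 (hτ.sim hγ.sim)
      have hlt := te_nu_lt hfin (te_out_not_cyc hmax hv) hr h1
      have hd₁ : te_Dat S q m σ (x ++ r) τ₁ v₁ (β * wh x [] γ) :=
        ⟨by simpa using hβ.trans (hγ.wl x), hx.append h1, te_out_reach hv h1.reach, h2⟩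
      obtain ⟨x', τ', v', β', hd', ht', hs⟩ := ih _ (hn ▸ hlt) _ _ _ _ rfl hd₁
      refine ⟨x', τ', v', β', hd', ht', fun g hg => hs g ?_⟩
      obtain ⟨h, hh, rfl⟩ := hg
      obtain ⟨k, hk1, hk2⟩ := htight _ ((hγ.symm.trans hh).trans hγ)
      refine ⟨k, hk1, ?_⟩
      have h3 : wh (x ++ r) [] k = wh x [] (γ⁻¹ * h * γ) := by rw [hk2]; simp
      rw [h3]
      simp only [map_mul, map_inv]
      group

theorem te_span_closure {P : Pres} {x : List P.L} {β : P.U} {x' τ' : List P.L} {β' : P.U}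
    {B : Set P.U} (hB : ∀ b ∈ B, te_Span x' τ' β' (β * wh x [] b * β⁻¹)) {h : P.U}
    (hh : h ∈ Subgroup.closure B) : te_Span x' τ' β' (β * wh x [] h * β⁻¹) := by
  induction hh using Subgroup.closure_induction with
  | mem b hb => exact hB b hb
  | one => exact ⟨1, Conn.refl _, by simp⟩
  | mul a b _ _ iha ihb =>
    obtain ⟨k, hk, e⟩ := iha
    obtain ⟨k', hk', e'⟩ := ihb
    refine ⟨k * k', hk.trans hk', ?_⟩
    have : β * wh x [] (a * b) * β⁻¹ = (β * wh x [] a * β⁻¹) * (β * wh x [] b * β⁻¹) := by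
      rw [map_mul]; group
    rw [this, e, e', map_mul]
    group
  | inv a _ iha =>
    obtain ⟨k, hk, e⟩ := iha
    refine ⟨k⁻¹, hk.symm, ?_⟩
    have : β * wh x [] a⁻¹ * β⁻¹ = (β * wh x [] a * β⁻¹)⁻¹ := by
      rw [map_inv]; group
    rw [this, e, map_inv]
    group

theorem te_step3 (hfin : S.Fin) {q : V}
    (hmax : ∀ q', S.T.Reach q q' → S.T.Cyc q' → S.T.Reach q' q) {m : V} {σ : List S.P.L}
    {x τ : List S.P.L} {v : V} {β : S.P.U} (hd : te_Dat S q m σ x τ v β) (ht : te_Term τ)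
    {x' τ' : List S.P.L} {v' : V} {β' : S.P.U} (hd' : te_Dat S q m σ x' τ' v' β')
    (hle : te_nu S v' ≤ te_nu S v) (hs : ∀ g, te_Span x τ β g → te_Span x' τ' β' g)
    {g : S.P.U} (hg : te_Span x' τ' β' g) : te_Span x τ β g := by
  obtain ⟨hβ, hx, hv, hτ⟩ := hd
  obtain ⟨hβ', hx', hv', hτ'⟩ := hd'
  obtain ⟨ρ₁, ρ₂, τ'', β₀, γ₁, γ₂, h1, h2, h3, h4, h5⟩ := bridge (hβ.symm.trans hβ')
  have h6 : Tight ρ₁ τ'' := h5 fun g₁ hg₁ => by
    obtain ⟨g₂, hg₂, e⟩ := hs _ ⟨g₁, hg₁, rfl⟩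
    refine ⟨g₂, hg₂, ?_⟩
    have : wh x [] g₁ = β⁻¹ * (β * wh x [] g₁ * β⁻¹) * β := by group
    rw [this, e]
    group
  obtain rfl : ρ₁ = [] := ht _ _ h1.sim h6
  have h7 : S.T.Path v τ'' q₁ := by simpa using hτ.sim h1.sim
  have h8 : S.T.Path v' ρ₂ v := (hτ'.sim h2.sim).left h7
  obtain rfl : ρ₂ = [] := by
    by_contra hr
    exact absurd (te_nu_lt hfin (te_out_not_cyc hmax hv') hr h8) (not_lt.2 hle)
  simp only [List.nil_append, List.append_nil] at h1 h2 h3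
  obtain ⟨h, hh, rfl⟩ := hg
  have hk : Conn τ'' (γ₂⁻¹ * h * γ₂) τ'' := (h2.symm.trans hh).trans h2
  refine ⟨γ₁ * (γ₂⁻¹ * h * γ₂) * γ₁⁻¹, (h1.trans hk).trans h1.symm, ?_⟩
  have e1 := interchange h3 hk
  have e2 : β' = β * (wh x [] γ₁ * wh [] τ'' β₀) * (wh x' [] γ₂)⁻¹ := by rw [← h4]; group
  have e3 : wh x [] (γ₂⁻¹ * h * γ₂) =
      wh [] τ'' β₀ * wh x' [] (γ₂⁻¹ * h * γ₂) * (wh [] τ'' β₀)⁻¹ := by rw [e1]; group
  rw [map_mul, map_mul, e3, e2]
  simp only [map_mul, map_inv]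
  group

/-- from a last cyclic component without hyperbolic loops, every word has a tight exit -/
theorem tight_exit (hfin : S.Fin) (hrel : S.AllRel) (hLN : S.LN) (hS : Small S.G) {q : V}
    (hq : S.T.Cyc q) (hmax : ∀ q', S.T.Reach q q' → S.T.Cyc q' → S.T.Reach q' q)
    {m : V} (hm : S.T.Scc q m) {σ : List S.P.L} (hσ : S.T.Path m σ q₁)
    (hH : ∀ σ' z, Sim σ σ' → ¬ Hyp (S.T.Zout (S.T.Scc q)) σ' z) :
    ∃ ρ τ m', Sim σ (ρ ++ τ) ∧ S.T.Path m ρ m' ∧ ¬ S.T.Scc q m' ∧ S.T.Path m' τ q₁ ∧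
      Tight ρ τ := by
  classical
  -- finite sets of loops lie in the span of a terminal decomposition
  have key : ∀ B : Set S.P.U, B.Finite → (∀ b ∈ B, Conn σ b σ) →
      ∃ x τ v β, te_Dat S q m σ x τ v β ∧ te_Term τ ∧ ∀ b ∈ B, te_Span x τ β b := by
    intro B hB hD
    obtain ⟨x, τ, v, β, hd, hs⟩ := te_step1 hrel hLN hS hq hm hσ hH hB hD
    obtain ⟨x', τ', v', β', hd', ht', hs'⟩ := te_step2 hfin hmax _ x τ v β rfl hd
    exact ⟨x', τ', v', β', hd', ht', fun b hb => hs' b (hs b hb)⟩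
  let A : Set ℕ := {n | ∃ x τ v β, te_Dat S q m σ x τ v β ∧ te_Term τ ∧ te_nu S v = n}
  have hA : A.Nonempty := by
    obtain ⟨x, τ, v, β, hd, ht, -⟩ := key ∅ Set.finite_empty (by simp)
    exact ⟨_, x, τ, v, β, hd, ht, rfl⟩
  have hbd : BddAbove A := ⟨Nat.card S.P.L, by
    rintro _ ⟨x, τ, v, β, -, -, rfl⟩
    exact te_nu_le hfin v⟩
  obtain ⟨x, τ, v, β, hd, ht, hn⟩ := Nat.sSup_mem hA hbd
  have hall : ∀ g, Conn σ g σ → te_Span x τ β g := by
    intro g hg
    obtain ⟨B₀, hB₀, hc, hgen⟩ := fg_of_finite (te_finite hfin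
      (fun v' h => te_out_not_cyc hmax (te_out_reach hd.2.2.1 h)) hd.2.2.2)
    obtain ⟨x', τ', v', β', hd', ht', hs⟩ := key
      (insert g ((fun b => β * wh x [] b * β⁻¹) '' B₀)) ((hB₀.image _).insert g) (by
        rintro b (rfl | ⟨b, hb, rfl⟩)
        · exact hg
        · exact (hd.1.trans ((hc b hb).wl x)).trans hd.1.symm)
    have hle : te_nu S v' ≤ te_nu S v := by
      rw [hn]
      exact le_csSup hbd ⟨x', τ', v', β', hd', ht', rfl⟩
    refine te_step3 hfin hmax hd ht hd' hle ?_ (hs g (Set.mem_insert _ _))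
    rintro _ ⟨h, hh, rfl⟩
    exact te_span_closure (fun b hb => hs _ (Set.mem_insert_of_mem _ ⟨b, hb, rfl⟩))
      (hgen h hh)
  refine ⟨x, τ, v, hd.1.sim, hd.2.1, hd.2.2.1.2, hd.2.2.2, fun g hg => ?_⟩
  obtain ⟨h, hh, e⟩ := hall _ ((hd.1.trans hg).trans hd.1.symm)
  exact ⟨h, hh, mul_left_cancel (mul_right_cancel e)⟩

end St

end Pool.Agent.MP_1e5511_al

end

-- part MP_1e5511_al.LMap
section

set_option autoImplicit false

namespace Pool.Agent.MP_1e5511_al

namespace Pres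

/-- maps of letters to letters that are compatible with the cells -/
structure LMap (P' P : Pres) where
  k : P'.L → P.L
  kc : P'.C → P.C
  side : ∀ c b, P.side (kc c) b = (P'.side c b).map k
  inj : ∀ c c' b, kc c = kc c' → P'.side c b = P'.side c' b → c = c'

namespace LMap

variable {P' P : Pres} (F : LMap P' P)

def emb : Emb P' P where
  j l := [F.k l]
  hj _ := by simp
  φ := F.kc
  side c b := by rw [F.side, List.map_eq_flatMap]
  inj := F.inj

theorem emb_d (t : P'.DS) : F.emb.toMap.d t = ⟨t.a.map F.k, F.kc t.c, t.e, t.b.map F.k⟩ := by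
  simp [emb, List.map_eq_flatMap]

def toMap : StepMap P' P where
  w := List.map F.k
  d t := ⟨t.a.map F.k, F.kc t.c, t.e, t.b.map F.k⟩
  src t := by simp [DS.src, F.side]
  inv _ := rfl
  par s t t' s' h := by simpa only [emb_d] using F.emb.toMap.par s t t' s' h
  inj s t h h' := F.emb.toMap.inj s t h (by simpa only [emb_d] using h')
  refl s t x y h h' := F.emb.toMap.refl s t x y h (by simpa only [emb_d] using h')

@[simp] theorem toMap_w (u : List P'.L) : F.toMap.w u = u.map F.k := rfl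
@[simp] theorem toMap_d (t : P'.DS) :
    F.toMap.d t = ⟨t.a.map F.k, F.kc t.c, t.e, t.b.map F.k⟩ := rfl

theorem hom_wh (α γ : List P'.L) (g : P'.U) :
    F.toMap.hom (wh α γ g) = wh (α.map F.k) (γ.map F.k) (F.toMap.hom g) := by
  have : F.toMap.hom.comp (wh α γ) = (wh (α.map F.k) (γ.map F.k)).comp F.toMap.hom :=
    hom_ext fun x => by simp [StepMap.hom, wh, DS.ev]
  exact DFunLike.congr_fun this g

theorem conn {ω ω' : List P'.L} {g : P'.U} (h : Conn ω g ω') :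
    Conn (ω.map F.k) (F.toMap.hom g) (ω'.map F.k) := F.toMap.conn h

theorem sim {ω ω' : List P'.L} (h : Sim ω ω') : Sim (ω.map F.k) (ω'.map F.k) := F.toMap.sim h

theorem step_lift (hk : Function.Injective F.k) {ω : List P'.L} {t : P.DS}
    (h : t.src = ω.map F.k) (hc : t.c ∈ Set.range F.kc) : ∃ t', t'.src = ω ∧ F.toMap.d t' = t := by
  obtain ⟨a, c, e, b⟩ := t
  obtain ⟨c', rfl⟩ := hc
  obtain ⟨x, b', rfl, h1, rfl⟩ := List.map_eq_append_iff.1 h.symm
  obtain ⟨a', m, rfl, rfl, h2⟩ := List.map_eq_append_iff.1 h1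
  rw [F.side] at h2
  obtain rfl := List.map_injective_iff.2 hk h2
  exact ⟨⟨a', c', e, b'⟩, rfl, rfl⟩

/-- morphisms lift if all the cells that are met come from `P'` -/
theorem conn_lift (hk : Function.Injective F.k) {ω : List P'.L}
    (hc : ∀ t : P.DS, Sim (ω.map F.k) t.src → t.c ∈ Set.range F.kc) {g : P.U} {u : List P.L}
    (h : Conn (ω.map F.k) g u) : ∃ ω' g', Conn ω g' ω' ∧ ω'.map F.k = u ∧ F.toMap.hom g' = g :=
  F.toMap.conn_lift (fun x => Sim ω x) (fun t ht => ht.trans (Sim.step t))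
    (fun _ t hx ht => F.step_lift hk ht (hc t (ht ▸ F.sim hx))) (Sim.refl ω) h

theorem loop_lift (hk : Function.Injective F.k) {ω ω' : List P'.L}
    (hc : ∀ t : P.DS, Sim (ω.map F.k) t.src → t.c ∈ Set.range F.kc) {g : P.U}
    (h : Conn (ω.map F.k) g (ω'.map F.k)) : ∃ g', Conn ω g' ω' ∧ F.toMap.hom g' = g := by
  obtain ⟨x, g', h1, h2, h3⟩ := F.conn_lift hk hc h
  obtain rfl := List.map_injective_iff.2 hk h2
  exact ⟨g', h1, h3⟩

theorem tight_of {ρ τ : List P'.L}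
    (hl : ∀ g, Conn (τ.map F.k) g (τ.map F.k) → ∃ g', Conn τ g' τ ∧ F.toMap.hom g' = g)
    (h : Tight (ρ.map F.k) (τ.map F.k)) : Tight ρ τ :=
  Tight.of_map F.toMap (by simp) (fun g => by simpa using F.hom_wh ρ [] g) hl h

theorem tight_map {ρ τ : List P'.L}
    (hl : ∀ g, Conn ((ρ ++ τ).map F.k) g ((ρ ++ τ).map F.k) →
      ∃ g', Conn (ρ ++ τ) g' (ρ ++ τ) ∧ F.toMap.hom g' = g)
    (h : Tight ρ τ) : Tight (ρ.map F.k) (τ.map F.k) :=
  Tight.map F.toMap (by simp) (fun g => by simpa using F.hom_wh ρ [] g) hl h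

end LMap

end Pres

end Pool.Agent.MP_1e5511_al

end

-- part MP_1e5511_al.Sub
section

set_option autoImplicit false

namespace Pool.Agent.MP_1e5511_al

open Pres

theorem sub_path_lift {P' P : Pres} (F : LMap P' P) (hk : Function.Injective F.k)
    {ω : List P'.L} {p : List P.DS} {u : List P.L} (hp : IsPath (ω.map F.k) p u)
    (hc : ∀ t ∈ p, t.c ∈ Set.range F.kc) :
    ∃ ω' p', IsPath ω p' ω' ∧ ω'.map F.k = u ∧ p'.map F.toMap.d = p := by
  induction p generalizing ω with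
  | nil => exact ⟨ω, [], rfl, hp, rfl⟩
  | cons t p ih =>
    obtain ⟨t', h1, rfl⟩ := F.step_lift hk hp.1 (hc t (by simp))
    have h0 := hp.2
    rw [F.toMap.tgt t'] at h0
    obtain ⟨ω', p', h2, h3, rfl⟩ := ih (ω := t'.tgt) h0
      fun s hs => hc s (List.mem_cons_of_mem _ hs)
    exact ⟨ω', t' :: p', ⟨h1, h2⟩, h3, rfl⟩

namespace St

variable {V : Type} {q₀ q₁ : V}

/-- `S'` is a subpresentation of `S` -/
structure Incl (S' S : St V q₀ q₁) where
  k : S'.P.L → S.P.L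
  kc : S'.P.C → S.P.C
  inj : Function.Injective k
  injc : Function.Injective kc
  src : ∀ l, S'.T.src l = S.T.src (k l)
  tgt : ∀ l, S'.T.tgt l = S.T.tgt (k l)
  side : ∀ c b, S.P.side (kc c) b = (S'.P.side c b).map k
  hw : S'.w.map k = S.w

theorem exists_incl (S : St V q₀ q₁) (KL : S.P.L → Prop) (KC : S.P.C → Prop)
    (h : ∀ c, KC c → ∀ b, ∀ l ∈ S.P.side c b, KL l) (hw : ∀ l ∈ S.w, KL l) :
    ∃ (S' : St V q₀ q₁) (I : Incl S' S), (∀ l, KL l ↔ l ∈ Set.range I.k) ∧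
      ∀ c, KC c ↔ c ∈ Set.range I.kc := by
  let P' : Pres :=
    { L := {l // KL l}
      C := {c // KC c}
      side := fun c b => (S.P.side c.1 b).attachWith KL (h c.1 c.2 b)
      ne := fun c b hc => S.P.ne c.1 b (by simpa using congrArg (List.map Subtype.val) hc) }
  have hwalk : ∀ (u : List {l // KL l}) (q q' : V), S.T.Path q (u.map Subtype.val) q' →
      Walk (fun l : {l // KL l} => S.T.src l.1) (fun l => S.T.tgt l.1) q u q' := by
    intro u
    induction u with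
    | nil => exact fun _ _ h => h
    | cons l u ih => exact fun _ _ h => ⟨h.1, ih _ _ h.2⟩
  let T' : Typed P' V :=
    { src := fun l => S.T.src l.1
      tgt := fun l => S.T.tgt l.1
      s := fun c => S.T.s c.1
      e := fun c => S.T.e c.1
      hside := fun c b => hwalk _ _ _ (by
        rw [List.attachWith_map_subtype_val]
        exact Typed.path_side c.1 b) }
  refine ⟨⟨P', T', S.w.attachWith KL hw, hwalk _ _ _ (by
      rw [List.attachWith_map_subtype_val]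
      exact S.hw), fun l => S.h₀ l.1, fun l => S.h₁ l.1⟩,
    ⟨Subtype.val, Subtype.val, Subtype.val_injective, Subtype.val_injective, fun _ => rfl,
      fun _ => rfl, fun c b => (List.attachWith_map_subtype_val _).symm,
      List.attachWith_map_subtype_val _⟩, fun l => ?_, fun c => ?_⟩
  · exact ⟨fun hl => ⟨⟨l, hl⟩, rfl⟩, fun ⟨x, hx⟩ => hx ▸ x.2⟩
  · exact ⟨fun hc => ⟨⟨c, hc⟩, rfl⟩, fun ⟨x, hx⟩ => hx ▸ x.2⟩

namespace Incl

variable {S' S : St V q₀ q₁}

def lmap (I : Incl S' S) : LMap S'.P S.P := ⟨I.k, I.kc, I.side, fun _ _ _ h _ => I.injc h⟩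

theorem path (I : Incl S' S) {q q' : V} {u : List S'.P.L} :
    S.T.Path q (u.map I.k) q' ↔ S'.T.Path q u q' := by
  induction u generalizing q with
  | nil => simp
  | cons l u ih => simp [ih, I.src, I.tgt]

theorem reach (I : Incl S' S) {q q' : V} (h : S'.T.Reach q q') : S.T.Reach q q' :=
  ⟨_, I.path.2 h.choose_spec⟩

theorem cyc (I : Incl S' S) {q : V} (h : S'.T.Cyc q) : S.T.Cyc q := by
  obtain ⟨u, hu, h⟩ := h
  exact ⟨u.map I.k, by simpa using hu, I.path.2 h⟩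

theorem ends (I : Incl S' S) (c : S'.P.C) :
    S'.T.s c = S.T.s (I.kc c) ∧ S'.T.e c = S.T.e (I.kc c) :=
  Typed.Path.ends_eq (S.P.ne (I.kc c) false)
    (by rw [I.side]; exact I.path.2 (Typed.path_side c false)) (Typed.path_side _ false)

theorem fin (I : Incl S' S) (h : S.Fin) : S'.Fin :=
  ⟨have := h.1; Finite.of_injective _ I.inj, have := h.2; Finite.of_injective _ I.injc⟩

theorem mu_le (I : Incl S' S) (h : S.Fin) : S'.mu ≤ S.mu :=
  have := h.1
  Set.ncard_le_ncard (fun _ h => I.cyc h) Typed.finite_cyc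

/-- if all loops can be made of cells of the subpresentation, the groups agree -/
theorem equiv (I : Incl S' S) (h : ∀ g, Conn S.w g S.w →
    ∃ p, IsPath S.w p S.w ∧ ev p = g ∧ ∀ t ∈ p, t.c ∈ Set.range I.kc) :
    Nonempty (S'.G ≃* S.G) := by
  have key := I.lmap.toMap.equivD (ω := S'.w) fun g hg => by
    have hg' : Conn S.w g S.w := I.hw ▸ hg
    obtain ⟨p, hp, rfl, hc⟩ := h g hg'
    rw [← I.hw] at hp
    obtain ⟨ω', p', h1, h2, rfl⟩ := sub_path_lift I.lmap I.inj (ω := S'.w) hp hc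
    obtain rfl : ω' = S'.w := List.map_injective_iff.2 I.inj h2
    exact ⟨_, h1.conn, I.lmap.toMap.hom_ev p'⟩
  have e : D (I.lmap.toMap.w S'.w) = D S.w := congrArg D I.hw
  obtain ⟨f⟩ := key
  exact ⟨f.trans (MulEquiv.subgroupCongr e)⟩

theorem sub_sim (I : Incl S' S) {u v : List S'.P.L}
    (hc : ∀ t : S.P.DS, Sim (u.map I.k) t.src → t.c ∈ Set.range I.kc)
    (h : Sim (u.map I.k) (v.map I.k)) : Sim u v := by
  obtain ⟨g, hg⟩ := h
  obtain ⟨g', h1, -⟩ := I.lmap.loop_lift I.inj hc hg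
  exact h1.sim

theorem rnon (I : Incl S' S) {N : V → Prop} (hc : Function.Surjective I.kc) (h : S.RNon N) :
    S'.RNon N := by
  intro q hq γ γ' h1 h2
  exact I.sub_sim (fun t _ => hc t.c) (h q hq _ _ (I.path.2 h1) (I.path.2 h2))

end Incl

/-- restriction to the relevant letters and cells -/
theorem restrict (S : St V q₀ q₁) : ∃ (S' : St V q₀ q₁) (I : Incl S' S), S'.AllRel ∧
    Nonempty (S'.G ≃* S.G) ∧ (∀ N, S.RNon N → S'.RNon N) ∧ (∀ N, S.LNon N → S'.LNon N) ∧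
    (∀ α u v, Sim S'.w (α ++ u) → Sim (u.map I.k) v → ∃ u', u'.map I.k = v ∧ Sim u u') ∧
    ∀ α ρ τ, Sim S'.w (α ++ ρ ++ τ) → Tight (ρ.map I.k) (τ.map I.k) → Tight ρ τ := by
  obtain ⟨S', I, hL, hC⟩ := exists_incl S (fun l => ∃ a g, Sim S.w (a ++ l :: g))
    (fun c => ∃ a b, Sim S.w (a ++ S.P.side c false ++ b)) (by
      rintro c ⟨a, b, hs⟩ e l hl
      obtain ⟨x, y, hxy⟩ := List.append_of_mem hl
      have h1 : Sim S.w (a ++ S.P.side c e ++ b) := by
        cases e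
        · exact hs
        · exact hs.trans (Sim.step ⟨a, c, false, b⟩)
      exact ⟨a ++ x, y ++ b, by simpa [hxy] using h1⟩) (by
      intro l hl
      obtain ⟨x, y, hxy⟩ := List.append_of_mem hl
      exact ⟨x, y, hxy ▸ Sim.refl _⟩)
  have hcell : ∀ a u b, Sim S.w (a ++ u ++ b) → ∀ t : S.P.DS, Sim u t.src →
      t.c ∈ Set.range I.kc := by
    intro a u b h1 t ht
    have h2 := h1.trans (ht.wh a b)
    refine (hC t.c).1 ⟨a ++ t.a, t.b ++ b, ?_⟩
    obtain ⟨x, c, e, y⟩ := t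
    cases e
    · simpa [DS.src] using h2
    · simpa [DS.tgt] using h2.trans ((Sim.step ⟨x, c, true, y⟩).wh a b)
  have hw : ∀ t : S.P.DS, Sim (S'.w.map I.k) t.src → t.c ∈ Set.range I.kc :=
    hcell [] _ [] (by simpa [I.hw] using Sim.refl S.w)
  have hsuf : ∀ α u, Sim S'.w (α ++ u) → ∀ t : S.P.DS, Sim (u.map I.k) t.src →
      t.c ∈ Set.range I.kc := fun α u h1 =>
    hcell (α.map I.k) _ [] (by
      have h2 : Sim (S'.w.map I.k) ((α ++ u).map I.k) := I.lmap.sim h1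
      simpa [I.hw] using h2)
  refine ⟨S', I, fun l => ?_, I.equiv fun g hg => ?_, fun N h q hq γ γ' h1 h2 => ?_,
    fun N h q hq α α' h1 h2 => ?_, fun α u v h1 h2 => ?_, fun α ρ τ h1 h2 => ?_⟩
  · obtain ⟨a, g, hs⟩ := (hL (I.k l)).2 ⟨l, rfl⟩
    obtain ⟨x, hx⟩ := hs
    obtain ⟨ω', g', h1, h2, -⟩ := I.lmap.conn_lift I.inj hw (I.hw.symm ▸ hx)
    obtain ⟨a', r, rfl, -, h3⟩ := List.map_eq_append_iff.1 h2
    obtain ⟨l', g'', rfl, h4, -⟩ := List.map_eq_cons_iff.1 h3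
    obtain rfl : l' = l := I.inj h4
    exact ⟨a', g'', h1.sim⟩
  · obtain ⟨p, hp, he⟩ := hg
    exact ⟨p, hp, he, fun t ht => hw t (I.hw.symm ▸ hp.sim_of_mem ht)⟩
  · cases γ with
    | nil =>
      obtain rfl : q = q₁ := h1
      rw [path_from_one h2]
      exact Sim.refl _
    | cons l γ =>
      obtain ⟨a, g, hs⟩ := (hL (I.k l)).2 ⟨l, rfl⟩
      have h3 := I.path.2 h1
      have h4 : S.T.Path q (I.k l :: g) q₁ := ⟨h3.1, (Typed.path_letter.1 (S.hw.sim hs)).2⟩
      refine I.sub_sim (hcell a _ [] ?_) (h q hq _ _ h3 (I.path.2 h2))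
      simpa using hs.trans ((h q hq _ _ h4 h3).wl a)
  · rcases List.eq_nil_or_concat α with rfl | ⟨α, l, rfl⟩
    · obtain rfl : q₀ = q := h1
      rw [path_to_zero h2]
      exact Sim.refl _
    · rw [List.concat_eq_append] at h1 ⊢
      obtain ⟨a, g, hs⟩ := (hL (I.k l)).2 ⟨l, rfl⟩
      have h3 := I.path.2 h1
      have h5 : S.T.Path q₀ (α.map I.k ++ [I.k l]) q := by simpa using h3
      have h4 : S.T.Path q₀ (a ++ [I.k l]) q :=
        Typed.path_letter.2 ⟨(Typed.path_letter.1 (S.hw.sim hs)).1, (Typed.path_letter.1 h5).2⟩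
      refine I.sub_sim (hcell [] _ g ?_) (h q hq _ _ h3 (I.path.2 h2))
      refine hs.trans ?_
      simpa using (h q hq _ _ h4 h3).wr g
  · obtain ⟨x, hx⟩ := h2
    obtain ⟨ω', g', h3, h4, -⟩ := I.lmap.conn_lift I.inj (hsuf α u h1) hx
    exact ⟨ω', h4, h3.sim⟩
  · exact I.lmap.tight_of (fun g hg => I.lmap.loop_lift I.inj (hsuf _ τ h1) hg) h2

/-- a finite subpresentation that contains a given finite set of cells -/
theorem finite_sub (S : St V q₀ q₁) (hfp : Group.IsFinitelyPresented S.G) (KC : Set S.P.C)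
    (hK : KC.Finite) : ∃ (S' : St V q₀ q₁) (I : Incl S' S), S'.Fin ∧ Nonempty (S'.G ≃* S.G) ∧
      KC ⊆ Set.range I.kc := by
  obtain ⟨F, hF, -, hl⟩ := fg_steps hfp
  have hC' : (KC ∪ DS.c '' F).Finite := hK.union (hF.image _)
  have hL' : ({l | l ∈ S.w} ∪ ⋃ c ∈ KC ∪ DS.c '' F, ⋃ b, {l | l ∈ S.P.side c b}).Finite :=
    (List.finite_toSet _).union
      (hC'.biUnion fun c _ => Set.finite_iUnion fun b => List.finite_toSet _)
  obtain ⟨S', I, hL, hC⟩ := exists_incl S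
    (fun l => l ∈ {l | l ∈ S.w} ∪ ⋃ c ∈ KC ∪ DS.c '' F, ⋃ b, {l | l ∈ S.P.side c b})
    (fun c => c ∈ KC ∪ DS.c '' F)
    (fun c hc b l hl => Or.inr (Set.mem_biUnion hc (Set.mem_iUnion.2 ⟨b, hl⟩)))
    fun l hl => Or.inl hl
  refine ⟨S', I, ⟨?_, ?_⟩, I.equiv fun g hg => ?_, fun c hc => (hC c).1 (Or.inl hc)⟩
  · exact (Set.finite_range_iff I.inj).1 (hL'.subset fun l hl => (hL l).2 hl)
  · exact (Set.finite_range_iff I.injc).1 (hC'.subset fun c hc => (hC c).2 hc)
  · obtain ⟨p, hp, he, ht⟩ := hl g hg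
    exact ⟨p, hp, he, fun t h => (hC t.c).1 (Or.inr ⟨t, ht t h, rfl⟩)⟩

end St

end Pool.Agent.MP_1e5511_al

end

-- part MP_1e5511_al.Refine
section

set_option autoImplicit false

namespace Pool.Agent.MP_1e5511_al

open Pres

section

variable {L Q : Type} (δ : L → Q → Q)

/-- state of the automaton that reads `u` from the right -/
def run (u : List L) (κ : Q) : Q := u.foldr δ κ

/-- decorate each letter with the state on its right -/
def deco : List L → Q → List (L × Q)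
  | [], _ => []
  | l :: u, κ => (l, run δ u κ) :: deco u κ

@[simp] theorem run_nil (κ : Q) : run δ [] κ = κ := rfl
@[simp] theorem run_cons (l : L) (u : List L) (κ : Q) : run δ (l :: u) κ = δ l (run δ u κ) := rfl
@[simp] theorem run_append (u v : List L) (κ : Q) : run δ (u ++ v) κ = run δ u (run δ v κ) := by
  simp [run]
@[simp] theorem deco_nil (κ : Q) : deco δ [] κ = [] := rfl
@[simp] theorem deco_cons (l : L) (u : List L) (κ : Q) :
    deco δ (l :: u) κ = (l, run δ u κ) :: deco δ u κ := rfl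
@[simp] theorem deco_append (u v : List L) (κ : Q) :
    deco δ (u ++ v) κ = deco δ u (run δ v κ) ++ deco δ v κ := by
  induction u with
  | nil => rfl
  | cons l u ih => simp [ih]
@[simp] theorem map_fst_deco (u : List L) (κ : Q) : (deco δ u κ).map Prod.fst = u := by
  induction u with
  | nil => rfl
  | cons l u ih => simp [ih]

end

theorem ref_deco_inj {L Q : Type} (δ : L → Q → Q) {u : List L} (hu : u ≠ []) {κ κ' : Q}
    (h : deco δ u κ = deco δ u κ') : κ = κ' := by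
  induction u with
  | nil => exact absurd rfl hu
  | cons l u ih =>
    simp only [deco_cons, List.cons.injEq, Prod.mk.injEq, true_and] at h
    cases u with
    | nil => exact h.1
    | cons l' u => exact ih (by simp) h.2

/-- an automaton together with a set of allowed decorated cells -/
structure Aut (P : Pres) (Q : Type) where
  δ : P.L → Q → Q
  A : P.C → Q → Prop
  ok : ∀ c κ, A c κ → run δ (P.side c false) κ = run δ (P.side c true) κ

namespace Aut

variable {P : Pres} {Q : Type} (M : Aut P Q)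

abbrev pres : Pres where
  L := P.L × Q
  C := {x : P.C × Q // M.A x.1 x.2}
  side x b := deco M.δ (P.side x.1.1 b) x.1.2
  ne x b h := P.ne x.1.1 b (by simpa using congrArg (List.map Prod.fst) h)

def lmap : LMap M.pres P where
  k := Prod.fst
  kc x := x.1.1
  side x b := (map_fst_deco _ _ _).symm
  inj := by
    rintro ⟨⟨c, κ⟩, hc⟩ ⟨⟨c', κ'⟩, hc'⟩ b (rfl : c = c') h
    obtain rfl := ref_deco_inj M.δ (P.ne c b) h
    rfl

theorem walk_deco {V : Type} (T : Typed P V) {q q' : V} {u : List P.L} (h : T.Path q u q')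
    (κ : Q) : Walk (fun x : P.L × Q => (T.src x.1, M.δ x.1 x.2)) (fun x => (T.tgt x.1, x.2))
      (q, run M.δ u κ) (deco M.δ u κ) (q', κ) := by
  induction u generalizing q with
  | nil => exact Prod.ext h rfl
  | cons l u ih => exact ⟨Prod.ext h.1 rfl, ih h.2⟩

abbrev typed {V : Type} (T : Typed P V) : Typed M.pres (V × Q) where
  src x := (T.src x.1, M.δ x.1 x.2)
  tgt x := (T.tgt x.1, x.2)
  s x := (T.s x.1.1, run M.δ (P.side x.1.1 false) x.1.2)
  e x := (T.e x.1.1, x.1.2)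
  hside x b := by
    cases b
    · exact M.walk_deco T (Typed.path_side _ _) _
    · rw [M.ok _ _ x.2]
      exact M.walk_deco T (Typed.path_side _ _) _

abbrev st {V : Type} (T : Typed P V) {q₀ q₁ : V} (w : List P.L) (hw : T.Path q₀ w q₁) (κ : Q)
    (h₀ : ∀ l, T.tgt l ≠ q₀) (h₁ : ∀ l κ', (T.src l, M.δ l κ') ≠ (q₁, κ)) :
    St (V × Q) (q₀, run M.δ w κ) (q₁, κ) where
  P := M.pres
  T := M.typed T
  w := deco M.δ w κ
  hw := M.walk_deco T hw κ
  h₀ l h := h₀ l.1 (congrArg Prod.fst h)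
  h₁ l := h₁ l.1 l.2

variable {M}

theorem path_deco {V : Type} {T : Typed P V} {q q' : V} {u : List P.L} (h : T.Path q u q')
    (κ : Q) : (M.typed T).Path (q, run M.δ u κ) (deco M.δ u κ) (q', κ) := M.walk_deco T h κ

theorem path_proj {V : Type} {T : Typed P V} {x y : V × Q} {u : List (P.L × Q)}
    (h : (M.typed T).Path x u y) : T.Path x.1 (u.map Prod.fst) y.1 ∧
      u = deco M.δ (u.map Prod.fst) y.2 ∧ x.2 = run M.δ (u.map Prod.fst) y.2 := by
  induction u generalizing x with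
  | nil =>
    obtain rfl : x = y := h
    exact ⟨rfl, rfl, rfl⟩
  | cons l u ih =>
    obtain ⟨rfl, h⟩ := h
    obtain ⟨h1, h2, h3⟩ := ih h
    simp only at h1 h3
    refine ⟨⟨rfl, h1⟩, ?_, ?_⟩
    · rw [List.map_cons, deco_cons, ← h2, ← h3]
    · rw [List.map_cons, run_cons, ← h3]

theorem reach_proj {V : Type} {T : Typed P V} {x y : V × Q} (h : (M.typed T).Reach x y) :
    T.Reach x.1 y.1 := ⟨_, (path_proj h.choose_spec).1⟩

theorem cyc_proj {V : Type} {T : Typed P V} {x : V × Q} (h : (M.typed T).Cyc x) : T.Cyc x.1 := by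
  obtain ⟨u, hu, h⟩ := h
  exact ⟨_, by simpa using hu, (path_proj h).1⟩

/-- paths of allowed steps lift -/
theorem path_lift {ω ω' : List P.L} {p : List P.DS} (h : IsPath ω p ω') (κ : Q)
    (hA : ∀ t ∈ p, M.A t.c (run M.δ t.b κ)) :
    ∃ g, Conn (P := M.pres) (deco M.δ ω κ) g (deco M.δ ω' κ) ∧ M.lmap.toMap.hom g = ev p := by
  induction p generalizing ω with
  | nil =>
    obtain rfl : ω = ω' := h
    exact ⟨1, Conn.refl _, by simp⟩
  | cons t p ih =>
    obtain ⟨rfl, h⟩ := h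
    obtain ⟨g, h1, h2⟩ := ih h fun s hs => hA s (List.mem_cons_of_mem _ hs)
    have ht := hA t List.mem_cons_self
    have hr : run M.δ (P.side t.c (!t.e)) (run M.δ t.b κ) =
        run M.δ (P.side t.c t.e) (run M.δ t.b κ) := by
      cases t.e
      · exact (M.ok _ _ ht).symm
      · exact M.ok _ _ ht
    let t' : M.pres.DS := ⟨deco M.δ t.a (run M.δ (P.side t.c t.e ++ t.b) κ),
      ⟨(t.c, run M.δ t.b κ), ht⟩, t.e, deco M.δ t.b κ⟩
    have e1 : t'.src = deco M.δ t.src κ := by simp [t', DS.src]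
    have e2 : t'.tgt = deco M.δ t.tgt κ := by simp [t', DS.tgt, hr]
    refine ⟨t'.ev * g, e1 ▸ (Conn.step t').trans (e2 ▸ h1), ?_⟩
    rw [map_mul, h2, StepMap.hom_ev₁, ev_cons]
    congr 2
    simp [t', lmap]

theorem equiv {w : List P.L} (κ : Q) (h : ∀ g, Conn w g w →
    ∃ p, IsPath w p w ∧ ev p = g ∧ ∀ t ∈ p, M.A t.c (run M.δ t.b κ)) :
    Nonempty (D (P := M.pres) (deco M.δ w κ) ≃* D w) := by
  have e : M.lmap.toMap.w (deco M.δ w κ) = w := map_fst_deco _ _ _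
  have := M.lmap.toMap.equivD (ω := deco M.δ w κ) (by
    rw [e]
    intro g hg
    obtain ⟨p, h1, rfl, h2⟩ := h g hg
    exact path_lift h1 κ h2)
  rwa [e] at this

theorem sim_deco (hA : ∀ c κ, M.A c κ) {ω ω' : List P.L} (h : Sim ω ω') (κ : Q) :
    Sim (P := M.pres) (deco M.δ ω κ) (deco M.δ ω' κ) := by
  obtain ⟨_, p, hp, -⟩ := h
  exact (path_lift hp κ fun _ _ => hA _ _).choose_spec.1.sim

theorem sim_proj {u u' : List (P.L × Q)} (h : Sim (P := M.pres) u u') :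
    Sim (u.map Prod.fst) (u'.map Prod.fst) := M.lmap.sim h

theorem tight_deco (hA : ∀ c κ, M.A c κ) {ρ τ : List P.L} (h : Tight ρ τ) (κ κ' : Q) :
    Tight (P := M.pres) (deco M.δ ρ κ') (deco M.δ τ κ) := by
  have e : ∀ u k, (deco M.δ u k).map M.lmap.k = u := fun u k => map_fst_deco _ _ _
  refine M.lmap.tight_of ?_ (by rwa [e, e])
  rw [e]
  rintro _ ⟨p, hp, rfl⟩
  exact path_lift hp κ fun _ _ => hA _ _

end Aut

end Pool.Agent.MP_1e5511_al

end

-- part MP_1e5511_al.ES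
section

set_option autoImplicit false

namespace Pool.Agent.MP_1e5511_al

namespace Pres

/-- delete the `Z`-cells -/
abbrev del (P : Pres) (Z : P.C → Prop) : Pres where
  L := P.L
  C := {c // ¬ Z c}
  side c := P.side c.1
  ne c := P.ne c.1

/-- change the sides of the cells -/
abbrev reside (P : Pres) (side' : P.C → Bool → List P.L) (ne' : ∀ c b, side' c b ≠ []) : Pres where
  L := P.L
  C := P.C
  side := side'
  ne := ne'

theorem es_ev_wh (P : Pres) (a : List P.L) (c : P.C) (e : Bool) (b : List P.L) :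
    DS.ev (P := P) ⟨a, c, e, b⟩ = wh a b (DS.ev (P := P) ⟨[], c, e, []⟩) := by
  rw [← DS.ev_wh]; simp [DS.wh]

theorem es_wh_ev (P : Pres) (x y a : List P.L) (c : P.C) (e : Bool) (b : List P.L) :
    wh x y (DS.ev (P := P) ⟨a, c, e, b⟩) = DS.ev (P := P) ⟨x ++ a, c, e, b ++ y⟩ :=
  (DS.ev_wh x y ⟨a, c, e, b⟩).symm

theorem es_conn_step (P : Pres) (a : List P.L) (c : P.C) (e : Bool) (b : List P.L) :
    Conn (a ++ P.side c e ++ b) (DS.ev (P := P) ⟨a, c, e, b⟩) (a ++ P.side c (!e) ++ b) :=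
  Conn.step (P := P) ⟨a, c, e, b⟩

theorem es_conn_step' (P : Pres) (c : P.C) (e : Bool) :
    Conn (P.side c e) (DS.ev (P := P) ⟨[], c, e, []⟩) (P.side c (!e)) := by
  simpa using es_conn_step P [] c e []

/-- the inclusion of the presentation without the `Z`-cells -/
theorem es_incl (P : Pres) (Z : P.C → Prop) (side' : P.C → Bool → List P.L)
    (ne' : ∀ c b, side' c b ≠ []) (h : ∀ c, ¬ Z c → side' c = P.side c) :
    ∃ F : (P.del Z).U →* (P.reside side' ne').U,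
      (∀ a c e b, F (DS.ev (P := P.del Z) ⟨a, c, e, b⟩) =
        DS.ev (P := P.reside side' ne') ⟨a, c.1, e, b⟩) ∧
      (∀ x g y, Conn (P := P.del Z) x g y → Conn (P := P.reside side' ne') x (F g) y) ∧
      ∀ a b g, F (wh (P := P.del Z) a b g) = wh (P := P.reside side' ne') a b (F g) := by
  let F : (P.del Z).U →* (P.reside side' ne').U :=
    lift (P := P.del Z) (fun x => (P.reside side' ne').gen (x.1, x.2.1.1, x.2.2)) (by
      intro a c m c' b
      have := gen_sq (P := P.reside side' ne') a c.1 m c'.1 b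
      simp only [h c.1 c.2, h c'.1 c'.2] at this
      exact this)
  have h1 : ∀ a c e b, F (DS.ev (P := P.del Z) ⟨a, c, e, b⟩) =
      DS.ev (P := P.reside side' ne') ⟨a, c.1, e, b⟩ := by
    intro a c e b
    cases e <;> simp [F, DS.ev]
  refine ⟨F, h1, ?_, fun a b g => ?_⟩
  · rintro x _ y ⟨p, hp, rfl⟩
    induction p generalizing x with
    | nil =>
      obtain rfl := isPath_nil.1 hp
      simpa using Conn.refl (P := P.reside side' ne') x
    | cons t p ih =>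
      obtain ⟨a, c, e, b⟩ := t
      obtain ⟨rfl, h2⟩ := isPath_cons.1 hp
      rw [ev_cons, map_mul, h1]
      refine Conn.trans (P := P.reside side' ne') ?_ (ih _ h2)
      have := es_conn_step (P.reside side' ne') a c.1 e b
      simp only [h c.1 c.2] at this
      exact this
  · have : F.comp (wh (P := P.del Z) a b) = (wh (P := P.reside side' ne') a b).comp F :=
      hom_ext fun x => by simp [F, wh]
    exact DFunLike.congr_fun this g

/-- the homomorphism that sends a cell to a prescribed morphism between its sides -/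
theorem es_J (P : Pres) (side' : P.C → Bool → List P.L) (ne' : ∀ c b, side' c b ≠ [])
    (θ : P.C → Bool → P.U) (hθ : ∀ c e, Conn (side' c e) (θ c e) (side' c (!e)))
    (hi : ∀ c, θ c true = (θ c false)⁻¹) :
    ∃ J : (P.reside side' ne').U →* P.U,
      (∀ a c e b, J (DS.ev (P := P.reside side' ne') ⟨a, c, e, b⟩) = wh (P := P) a b (θ c e)) ∧
      (∀ x g y, Conn (P := P.reside side' ne') x g y → Conn (P := P) x (J g) y) ∧
      ∀ a b g, J (wh (P := P.reside side' ne') a b g) = wh (P := P) a b (J g) := by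
  let J : (P.reside side' ne').U →* P.U :=
    lift (P := P.reside side' ne') (fun x => wh (P := P) x.1 x.2.2 (θ x.2.1 false)) (by
      intro a c m c' b
      simpa using interchange' (hθ c false) ((hθ c' false).wl m) a b)
  have h1 : ∀ a c e b, J (DS.ev (P := P.reside side' ne') ⟨a, c, e, b⟩) =
      wh (P := P) a b (θ c e) := by
    intro a c e b
    cases e <;> simp [J, DS.ev, hi]
  refine ⟨J, h1, ?_, fun a b g => ?_⟩
  · rintro x _ y ⟨p, hp, rfl⟩
    induction p generalizing x with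
    | nil =>
      obtain rfl := isPath_nil.1 hp
      simpa using Conn.refl (P := P) x
    | cons t p ih =>
      obtain ⟨a, c, e, b⟩ := t
      obtain ⟨rfl, h2⟩ := isPath_cons.1 hp
      rw [ev_cons, map_mul, h1]
      exact ((hθ c e).wh a b).trans (ih _ h2)
  · have : J.comp (wh (P := P.reside side' ne') a b) = (wh (P := P) a b).comp J :=
      hom_ext fun x => by simp [J, wh_wh, show ∀ x : (P.reside side' ne').Gen,
        wh (P := P.reside side' ne') a b ((P.reside side' ne').gen x) =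
          (P.reside side' ne').gen (a ++ x.1, x.2.1, x.2.2 ++ b) from fun x => by simp [wh]]
    exact DFunLike.congr_fun this g

/-- conjugate of a whiskered morphism -/
def esExp {Q : Pres} (a u u' τ : List Q.L) (η γ : Q.U) : Q.U :=
  wh (a ++ u) [] γ * wh a τ η * (wh (a ++ u') [] γ)⁻¹

theorem es_exp_mul {Q : Pres} (a u u' τ : List Q.L) (η γ γ' : Q.U) :
    esExp a u u' τ η (γ * γ') =
      wh (a ++ u) [] γ * esExp a u u' τ η γ' * (wh (a ++ u') [] γ)⁻¹ := by
  simp only [esExp, map_mul]; group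

theorem es_exp_inv {Q : Pres} (a u u' τ : List Q.L) (η γ : Q.U) :
    esExp a u' u τ η⁻¹ γ = (esExp a u u' τ η γ)⁻¹ := by
  simp only [esExp, map_inv]; group

theorem es_exp_wh {Q : Pres} (a u u' τ : List Q.L) (η γ : Q.U) :
    esExp a u u' τ η γ = wh a [] (esExp [] u u' τ η γ) := by
  simp [esExp]

theorem es_exp_conn {Q : Pres} (a : List Q.L) {u u' ρ τ b : List Q.L} {η γ : Q.U}
    (hη : Conn (u ++ ρ) η (u' ++ ρ)) (hγ : Conn b γ (ρ ++ τ)) :
    Conn (a ++ u ++ b) (esExp a u u' τ η γ) (a ++ u' ++ b) := by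
  have h1 := hγ.wl (a ++ u)
  have h2 := hη.wh a τ
  have h3 := (hγ.wl (a ++ u')).symm
  simp only [List.append_assoc] at h1 h2 h3 ⊢
  have := (h1.trans h2).trans h3
  simpa only [esExp] using this

theorem es_exp_key {Q : Pres} (a : List Q.L) {u u' ρ τ b : List Q.L} {η k : Q.U}
    (hη : Conn (u ++ ρ) η (u' ++ ρ)) (hk : Conn b k τ) :
    esExp a u u' τ η (wh ρ [] k) = wh a b η := by
  have := interchange' hη hk a []
  simp only [List.append_nil] at this
  simp only [esExp, wh_wh, List.append_nil, List.append_assoc]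
  rw [← this]; group

/-- extend the `Z`-cells along tight words and replace their sides by equivalent words -/
theorem es (P : Pres) (Z : P.C → Prop) (side' : P.C → Bool → List P.L)
    (ne' : ∀ c b, side' c b ≠ []) (h : ∀ c, ¬ Z c → side' c = P.side c) (ρ τ : P.C → List P.L)
    (hβ : ∀ c, Z c → ∀ b, Sim (P := P.del Z) (P.side c b ++ ρ c) (side' c b))
    (ht : ∀ c, Z c → Tight (P := P.del Z) (ρ c) (τ c)) (ω : List P.L)
    (hv : ∀ t : P.DS, Sim ω t.src → Z t.c → Sim (P := P.del Z) t.b (ρ t.c ++ τ t.c))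
    (hv' : ∀ a c b, Z c → Sim ω (a ++ P.side c false ++ (ρ c ++ b)) →
      Sim (P := P.del Z) b (τ c))
    (hpar : NoPar Z ω) :
    (∀ ω', Sim (P := P.reside side' ne') ω ω' ↔ Sim ω ω') ∧
      Nonempty (D (P := P.reside side' ne') ω ≃* D ω) := by
  classical
  obtain ⟨F1, F1ev, F1conn, F1wh⟩ := es_incl P Z side' ne' h
  obtain ⟨F, Fev, Fconn, Fwh⟩ : ∃ F : (P.del Z).U →* P.U,
      (∀ a c e b, F (DS.ev (P := P.del Z) ⟨a, c, e, b⟩) = DS.ev (P := P) ⟨a, c.1, e, b⟩) ∧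
      (∀ x g y, Conn (P := P.del Z) x g y → Conn (P := P) x (F g) y) ∧
      ∀ a b g, F (wh (P := P.del Z) a b g) = wh (P := P) a b (F g) :=
    es_incl P Z P.side P.ne fun _ _ => rfl
  obtain ⟨β, hβ'⟩ : ∃ β : P.C → Bool → (P.del Z).U, ∀ c, Z c → ∀ b,
      Conn (P := P.del Z) (P.side c b ++ ρ c) (β c b) (side' c b) := by
    refine ⟨fun c b => if hc : Z c then (hβ c hc b).choose else 1, fun c hc b => ?_⟩
    simp only [dif_pos hc]
    exact (hβ c hc b).choose_spec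
  obtain ⟨θ, θZ, θN⟩ : ∃ θ : P.C → Bool → P.U,
      (∀ c e, Z c → θ c e = (F (β c e))⁻¹ * DS.ev (P := P) ⟨[], c, e, ρ c⟩ * F (β c (!e))) ∧
      ∀ c e, ¬ Z c → θ c e = DS.ev (P := P) ⟨[], c, e, []⟩ :=
    ⟨fun c e => if Z c then (F (β c e))⁻¹ * DS.ev (P := P) ⟨[], c, e, ρ c⟩ * F (β c (!e))
      else DS.ev (P := P) ⟨[], c, e, []⟩, fun c e hc => if_pos hc, fun c e hc => if_neg hc⟩
  have hθ : ∀ c e, Conn (side' c e) (θ c e) (side' c (!e)) := by
    intro c e
    by_cases hc : Z c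
    · rw [θZ c e hc]
      exact ((Fconn _ _ _ (hβ' c hc e)).symm.trans (es_conn_step P [] c e (ρ c))).trans
        (Fconn _ _ _ (hβ' c hc (!e)))
    · rw [θN c e hc, h c hc]
      exact es_conn_step' P c e
  obtain ⟨J, Jev, Jconn, Jwh⟩ := es_J P side' ne' θ hθ (by
    intro c
    by_cases hc : Z c
    · rw [θZ c _ hc, θZ c _ hc]
      simp only [DS.ev, cond, Bool.not_true, Bool.not_false]; group
    · rw [θN c _ hc, θN c _ hc]
      simp only [DS.ev, cond])
  have JF : ∀ g, J (F1 g) = F g := by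
    have : J.comp F1 = F := hom_ext fun x => by
      obtain ⟨a, c, b⟩ := x
      have e1 := F1ev a c false b
      have e2 := Fev a c false b
      change J (F1 (DS.ev (P := P.del Z) ⟨a, c, false, b⟩)) =
        F (DS.ev (P := P.del Z) ⟨a, c, false, b⟩)
      rw [e1, e2, Jev, θN _ _ c.2, ← es_ev_wh]
    exact fun g => DFunLike.congr_fun this g
  obtain ⟨η, hη⟩ : ∃ η : P.C → Bool → (P.reside side' ne').U, ∀ c e, η c e =
      F1 (β c e) * DS.ev (P := P.reside side' ne') ⟨[], c, e, []⟩ * (F1 (β c (!e)))⁻¹ :=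
    ⟨_, fun _ _ => rfl⟩
  have ηconn : ∀ c e, Z c → Conn (P := P.reside side' ne') (P.side c e ++ ρ c) (η c e)
      (P.side c (!e) ++ ρ c) := by
    intro c e hc
    rw [hη]
    exact Conn.trans (P := P.reside side' ne') (Conn.trans (P := P.reside side' ne')
      (F1conn _ _ _ (hβ' c hc e)) (es_conn_step' (P.reside side' ne') c e))
      (F1conn _ _ _ (hβ' c hc (!e))).symm
  have ηinv : ∀ c e, η c (!e) = (η c e)⁻¹ := by
    intro c e
    rw [hη, hη]
    cases e <;> simp only [DS.ev, cond, Bool.not_true, Bool.not_false] <;> group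
  have Jη : ∀ c e, Z c → J (η c e) = DS.ev (P := P) ⟨[], c, e, ρ c⟩ := by
    intro c e hc
    rw [hη, map_mul, map_mul, map_inv, JF, JF, Jev, wh_nil, θZ c e hc]; group
  obtain ⟨γ, hγ⟩ : ∃ γ : P.C → List P.L → (P.del Z).U, ∀ c b,
      Sim (P := P.del Z) b (ρ c ++ τ c) → Conn (P := P.del Z) b (γ c b) (ρ c ++ τ c) := by
    refine ⟨fun c b => if hc : Sim (P := P.del Z) b (ρ c ++ τ c) then hc.choose else 1,
      fun c b hc => ?_⟩
    simp only [dif_pos hc]
    exact hc.choose_spec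
  obtain ⟨f, fZ0, fN⟩ : ∃ f : P.DS → (P.reside side' ne').U,
      (∀ a c e b, Z c → f ⟨a, c, e, b⟩ = esExp (Q := P.reside side' ne') a (P.side c e)
        (P.side c (!e)) (τ c) (η c e) (F1 (γ c b))) ∧
      ∀ a c e b, ¬ Z c → f ⟨a, c, e, b⟩ = DS.ev (P := P.reside side' ne') ⟨a, c, e, b⟩ :=
    ⟨fun t => if Z t.c then esExp (Q := P.reside side' ne') t.a (P.side t.c t.e)
        (P.side t.c (!t.e)) (τ t.c) (η t.c t.e) (F1 (γ t.c t.b))
      else DS.ev (P := P.reside side' ne') ⟨t.a, t.c, t.e, t.b⟩,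
      fun a c e b hc => if_pos hc, fun a c e b hc => if_neg hc⟩
  have fZ : ∀ a c e b g, Z c → Conn (P := P.del Z) b g (ρ c ++ τ c) →
      f ⟨a, c, e, b⟩ = esExp (Q := P.reside side' ne') a (P.side c e)
        (P.side c (!e)) (τ c) (η c e) (F1 g) := by
    intro a c e b g hc hg
    obtain ⟨k, hk, he⟩ := ht c hc _ (hg.symm.trans (hγ c b hg.sim))
    have e1 : γ c b = g * wh (P := P.del Z) (ρ c) [] k := by rw [← he]; group
    rw [fZ0 a c e b hc, e1, map_mul, es_exp_mul, F1wh,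
      es_exp_key (Q := P.reside side' ne') a (ηconn c e hc) (F1conn _ _ _ hk)]
    rfl
  have fconn : ∀ t : P.DS, Sim ω t.src → Conn (P := P.reside side' ne') t.src (f t) t.tgt := by
    rintro ⟨a, c, e, b⟩ hs
    by_cases hc : Z c
    · rw [fZ0 a c e b hc]
      exact es_exp_conn (Q := P.reside side' ne') a (ηconn c e hc)
        (F1conn _ _ _ (hγ c b (hv _ hs hc)))
    · rw [fN a c e b hc]
      have := es_conn_step (P.reside side' ne') a c e b
      simp only [h c hc] at this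
      exact this
  obtain ⟨φ, hφ⟩ := lift_on (P := P) ω f (by
      rintro ⟨a, c, e, b⟩ -
      by_cases hc : Z c
      · change f ⟨a, c, !e, b⟩ = _
        rw [fZ0 a c _ b hc, fZ0 a c e b hc, ηinv, Bool.not_not, es_exp_inv]
      · change f ⟨a, c, !e, b⟩ = _
        rw [fN a c _ b hc, fN a c e b hc]
        exact DS.ev_inv (P := P.reside side' ne') ⟨a, c, e, b⟩) (by
      intro a c e m c' e' b hs
      by_cases hc : Z c <;> by_cases hc' : Z c'
      · exact absurd hc' (hpar _ _ _ _ (Par.left a c e m c' e' b)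
          (by simpa [DS.src] using hs) hc)
      · have h1 : Sim ω (DS.src (P := P) ⟨a, c, e, m ++ P.side c' (!e') ++ b⟩) := by
          simpa [DS.src] using hs.trans (es_conn_step P (a ++ P.side c e ++ m) c' e' b).sim
        have h2 := hγ c _ (hv _ h1 hc)
        have h3 := es_conn_step (P.del Z) m ⟨c', hc'⟩ e' b
        have h4 : ∀ x : List P.L, wh (P := P.reside side' ne') x []
            (F1 (DS.ev (P := P.del Z) ⟨m, ⟨c', hc'⟩, e', b⟩)) = f ⟨x ++ m, c', e', b⟩ := by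
          intro x
          rw [F1ev, fN _ _ _ _ hc', es_wh_ev, List.append_nil]
        rw [fZ a c e _ _ hc (Conn.trans (P := P.del Z) h3 h2), map_mul, es_exp_mul, h4, h4,
          ← fZ0 a c e _ hc]
        group
      · have h1 : Sim ω (DS.src (P := P) ⟨a ++ P.side c e ++ m, c', e', b⟩) := hs
        have h2 := es_exp_conn (Q := P.reside side' ne') m (ηconn c' e' hc')
          (F1conn _ _ _ (hγ c' b (hv _ h1 hc')))
        have h3 := es_conn_step' (P.reside side' ne') c e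
        simp only [h c hc] at h3
        have h4 := interchange' h3 h2 a []
        rw [fN _ _ _ _ hc, fN _ _ _ _ hc, fZ0 _ _ _ _ hc', fZ0 _ _ _ _ hc', es_exp_wh,
          es_exp_wh (Q := P.reside side' ne') (a ++ P.side c e ++ m)]
        rw [es_exp_wh] at h4
        simpa only [wh_wh, List.append_nil, es_wh_ev, List.nil_append] using h4
      · rw [fN _ _ _ _ hc, fN _ _ _ _ hc, fN _ _ _ _ hc', fN _ _ _ _ hc']
        have := (Par.left (P := P.reside side' ne') a c e m c' e' b).ev_eq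
        simp only [h c hc, h c' hc'] at this
        exact this)
  have φF : ∀ a b x g y, Conn (P := P.del Z) x g y → Sim ω (a ++ x ++ b) →
      φ (wh a b (F g)) = wh (P := P.reside side' ne') a b (F1 g) := by
    rintro a b x _ y ⟨p, hp, rfl⟩ hs
    induction p generalizing x with
    | nil => simp
    | cons t p ih =>
      obtain ⟨a0, c, e, b0⟩ := t
      obtain ⟨rfl, h2⟩ := isPath_cons.1 hp
      have h3 : Sim ω (DS.src (P := P) ⟨a ++ a0, c.1, e, b0 ++ b⟩) := by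
        simpa [DS.src] using hs
      have h4 : Sim ω (a ++ DS.tgt (P := P.del Z) ⟨a0, c, e, b0⟩ ++ b) := by
        simpa [DS.tgt] using h3.trans (Sim.step _)
      rw [ev_cons, map_mul, map_mul, map_mul, map_mul, map_mul, ih _ h2 h4, Fev, F1ev, es_wh_ev,
        es_wh_ev, hφ _ h3, fN _ _ _ _ c.2]
  have Jf : ∀ t : P.DS, Sim ω t.src → J (f t) = t.ev := by
    rintro ⟨a, c, e, b⟩ hs
    by_cases hc : Z c
    · have h1 := interchange' (es_conn_step' P c e) (Fconn _ _ _ (hγ c b (hv _ hs hc))) a []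
      simp only [List.append_nil] at h1
      rw [fZ0 a c e b hc, esExp, map_mul, map_mul, map_inv, Jwh, Jwh, Jwh, JF, Jη c e hc,
        es_ev_wh P [] c e (ρ c), wh_wh, List.append_nil, ← h1, es_ev_wh P a]
      group
    · rw [fN a c e b hc, Jev, θN c e hc, ← es_ev_wh]
  have φJ : ∀ t : (P.reside side' ne').DS, Sim (P := P) ω t.src → φ (J t.ev) = t.ev := by
    rintro ⟨a, c, e, b⟩ hs
    have hs' : Sim ω (a ++ side' c e ++ b) := hs
    by_cases hc : Z c
    · have h1 : Sim ω (a ++ (P.side c e ++ ρ c) ++ b) :=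
        hs'.trans ((Fconn _ _ _ (hβ' c hc e)).symm.wh a b).sim
      have h2 : Sim ω (DS.src (P := P) ⟨a, c, e, ρ c ++ b⟩) := by simpa [DS.src] using h1
      have h3 : Sim ω (DS.tgt (P := P) ⟨a, c, e, ρ c ++ b⟩) := h2.trans (Sim.step _)
      have h4 : Sim ω (a ++ (P.side c (!e) ++ ρ c) ++ b) := by simpa [DS.tgt] using h3
      have h5 : Sim ω (a ++ P.side c false ++ (ρ c ++ b)) := by
        cases e
        · exact h2
        · exact h3
      obtain ⟨k, hk⟩ := hv' a c b hc h5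
      have h6 : wh (P := P) a b (DS.ev (P := P) ⟨[], c, e, ρ c⟩) =
          DS.ev (P := P) ⟨a, c, e, ρ c ++ b⟩ := by
        rw [es_wh_ev, List.append_nil]
      rw [Jev, θZ c e hc]
      simp only [map_mul, map_inv]
      rw [φF a b _ _ _ (hβ' c hc e) h1, φF a b _ _ _ (hβ' c hc (!e)) h4, h6, hφ _ h2,
        fZ a c e _ _ hc (Conn.wl (P := P.del Z) hk (ρ c)), F1wh,
        es_exp_key (Q := P.reside side' ne') a (ηconn c e hc) (F1conn _ _ _ hk), hη,
        es_ev_wh (P.reside side' ne') a, map_mul, map_mul, map_inv]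
      group
    · rw [h c hc] at hs'
      rw [Jev, θN c e hc, ← es_ev_wh, hφ ⟨a, c, e, b⟩ hs', fN a c e b hc]
  have A1 : ∀ x g y, Conn x g y → Sim ω x →
      Conn (P := P.reside side' ne') x (φ g) y ∧ J (φ g) = g := by
    rintro x _ y ⟨p, hp, rfl⟩ hs
    induction p generalizing x with
    | nil =>
      obtain rfl := isPath_nil.1 hp
      simpa using Conn.refl (P := P.reside side' ne') x
    | cons t p ih =>
      obtain ⟨rfl, h2⟩ := isPath_cons.1 hp
      obtain ⟨h3, h4⟩ := ih _ h2 (hs.trans (Sim.step t))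
      rw [ev_cons, map_mul, map_mul, h4, hφ t hs, Jf t hs]
      exact ⟨Conn.trans (P := P.reside side' ne') (fconn t hs) h3, rfl⟩
  have A2 : ∀ x g y, Conn (P := P.reside side' ne') x g y → Sim (P := P) ω x → φ (J g) = g := by
    rintro x _ y ⟨p, hp, rfl⟩ hs
    induction p generalizing x with
    | nil => simp
    | cons t p ih =>
      obtain ⟨rfl, h2⟩ := isPath_cons.1 hp
      rw [ev_cons, map_mul, map_mul, φJ t hs,
        ih _ h2 (hs.trans (Jconn _ _ _ (Conn.step t)).sim)]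
  refine ⟨fun ω' => ⟨fun ⟨g, hg⟩ => ⟨J g, Jconn _ _ _ hg⟩,
    fun ⟨g, hg⟩ => ⟨φ g, (A1 _ _ _ hg (Sim.refl ω)).1⟩⟩, ⟨?_⟩⟩
  exact
    { toFun := fun x => ⟨J x.1, Jconn _ _ _ x.2⟩
      invFun := fun y => ⟨φ y.1, (A1 _ _ _ y.2 (Sim.refl ω)).1⟩
      left_inv := fun x => Subtype.ext (A2 _ _ _ x.2 (Sim.refl ω))
      right_inv := fun y => Subtype.ext (A1 _ _ _ y.2 (Sim.refl ω)).2
      map_mul' := fun x y => Subtype.ext (map_mul J x.1 y.1) }

end Pres

end Pool.Agent.MP_1e5511_al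

end
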