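import Pool.Agent.MP_1e5511_al.Typed
import Pool.Agent.MP_1e5511_al.Mg.ES
import Pool.Agent.MP_1e5511_al.Basic

-- part MP_1e5511_al.ElimC
section

set_option autoImplicit false

namespace Pool.Agent.MP_1e5511_al

open Pres

namespace Typed

variable {P : Pres} {V : Type} (T : Typed P V)

/-- letters that enter `K` -/
def Entry (K : V → Prop) (l : P.L) : Prop := ¬ K (T.src l) ∧ K (T.tgt l)

/-- vertices that can be reached from `K` -/
def After (K : V → Prop) (q : V) : Prop := ∃ q', K q' ∧ T.Reach q' q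

/-- words in which each entry letter `l` is followed by `X l` -/
def Nrm (K : V → Prop) (X : P.L → List P.L) (u : List P.L) : Prop :=
  ∀ x l y, u = x ++ l :: y → T.Entry K l → X l <+: y

variable {T}

theorem After.reach {K : V → Prop} {q q' : V} (h : T.After K q) (h' : T.Reach q q') :
    T.After K q' := by
  obtain ⟨m, hm, h⟩ := h
  exact ⟨m, hm, h.trans h'⟩

theorem After.of_mem {K : V → Prop} {q : V} (h : K q) : T.After K q := ⟨q, h, Reach.refl q⟩

theorem After.mem {K : V → Prop} (hK : T.Convex K) {q q' : V} (h : T.After K q)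
    (h' : T.Reach q q') (hq' : K q') : K q := by
  obtain ⟨m, hm, h⟩ := h
  exact hK _ _ _ hm h h' hq'

theorem After.not_entry {K : V → Prop} (hK : T.Convex K) {q q' : V} (h : T.After K q)
    {u : List P.L} (hu : T.Path q u q') {l : P.L} (hl : l ∈ u) : ¬ T.Entry K l := fun he =>
  he.1 ((h.reach (hu.reach_mem hl).1).mem hK (reach_letter l) he.2)

/-- a path has at most one entry letter -/
theorem entry_unique {K : V → Prop} (hK : T.Convex K) {q q' : V} {x y x' y' : List P.L}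
    {l l' : P.L} (hu : T.Path q (x ++ l :: y) q') (he : x ++ l :: y = x' ++ l' :: y')
    (h : T.Entry K l) (h' : T.Entry K l') : x = x' ∧ l = l' ∧ y = y' := by
  rcases List.append_eq_append_iff.1 he with ⟨m, rfl, h1⟩ | ⟨m, rfl, h1⟩
  · cases m with
    | nil => simpa using h1
    | cons a m =>
      obtain ⟨rfl, rfl⟩ := List.cons.inj h1
      exact absurd h' ((After.of_mem h.2).not_entry hK (path_letter.1 hu).2 (by simp))
  · cases m with
    | nil => simpa [eq_comm] using h1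
    | cons a m =>
      obtain ⟨rfl, rfl⟩ := List.cons.inj h1
      rw [List.append_assoc, List.cons_append] at hu
      exact absurd h ((After.of_mem h'.2).not_entry hK (path_letter.1 hu).2 (by simp))

end Typed

namespace St

variable {V : Type} {q₀ q₁ : V}

/-- a tight way out of `K` -/
def ExitBy (S : St V q₀ q₁) (K : V → Prop) (q : V) (ρ : List S.P.L) : Prop :=
  ∃ τ m, S.T.Path q ρ m ∧ ¬ K m ∧ S.T.Path m τ q₁ ∧ Tight ρ τ

/-- the result of the elimination of the vertices in `K` -/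
structure ElimOut (S : St V q₀ q₁) (K : V → Prop) (S' : St V q₀ q₁) where
  k : S'.P.L → S.P.L
  kc : S'.P.C → S.P.C
  J : S'.P.L → List S.P.L
  inj : Function.Injective k
  injc : Function.Injective kc
  src : ∀ l, S'.T.src l = S.T.src (k l)
  notK : ∀ l, ¬ K (S'.T.src l)
  hJ : ∀ l, J l ≠ [] ∧ S.T.Path (S'.T.src l) (J l) (S'.T.tgt l)
  tgt : ∀ l, S'.T.tgt l = S.T.tgt (k l) ∨ S.T.After K (S'.T.tgt l)
  cell : ∀ c, ¬ S.T.After K (S.T.e c) →
    ∃ c', kc c' = c ∧ ∀ b, S.P.side c b = (S'.P.side c' b).map k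
  sim : ∀ q γ γ', S'.T.Path q γ q₁ → S'.T.Path q γ' q₁ →
    Sim (γ.flatMap J) (γ'.flatMap J) → Sim γ γ'
  equiv : Nonempty (S'.G ≃* S.G)

namespace ElimOut

variable {S S' : St V q₀ q₁} {K : V → Prop}

theorem path (O : ElimOut S K S') {q q' : V} {u : List S'.P.L} (h : S'.T.Path q u q') :
    S.T.Path q (u.flatMap O.J) q' := by
  induction u generalizing q with
  | nil => exact h
  | cons l u ih => rw [List.flatMap_cons]; exact (h.1 ▸ (O.hJ l).2).append (ih h.2)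

theorem reach (O : ElimOut S K S') {q q' : V} (h : S'.T.Reach q q') : S.T.Reach q q' :=
  ⟨_, O.path h.choose_spec⟩

theorem cyc (O : ElimOut S K S') {q : V} (h : S'.T.Cyc q) : S.T.Cyc q ∧ ¬ K q := by
  obtain ⟨_ | ⟨l, u⟩, hu, h⟩ := h
  · exact absurd rfl hu
  · exact ⟨⟨_, by simp [(O.hJ l).1], O.path h⟩, h.1 ▸ O.notK l⟩

theorem fin (O : ElimOut S K S') (h : S.Fin) : S'.Fin :=
  ⟨have := h.1; Finite.of_injective _ O.inj, have := h.2; Finite.of_injective _ O.injc⟩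

end ElimOut

theorem ec_split {A : Type} {a s b x y : List A} {l : A} (h : a ++ s ++ b = x ++ l :: y) :
    (∃ r, x = a ++ s ++ r ∧ b = r ++ l :: y) ∨ (∃ r, a = x ++ l :: r ∧ y = r ++ s ++ b) ∨
      ∃ s₁ s₂, s = s₁ ++ l :: s₂ ∧ x = a ++ s₁ ∧ y = s₂ ++ b := by
  rcases List.append_eq_append_iff.1 h with ⟨r, h1, h2⟩ | ⟨r, h1, h2⟩
  · exact Or.inl ⟨r, h1, h2⟩
  · cases r with
    | nil => exact Or.inl ⟨[], by simpa using h1.symm, by simpa using h2.symm⟩
    | cons c r =>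
      obtain ⟨rfl, rfl⟩ := List.cons.inj h2
      rcases List.append_eq_append_iff.1 h1 with ⟨m, h3, h4⟩ | ⟨m, h3, h4⟩
      · exact Or.inr (Or.inr ⟨m, r, h4, h3, rfl⟩)
      · cases m with
        | nil => exact Or.inr (Or.inr ⟨[], r, by simpa using h4.symm, by simpa using h3.symm, rfl⟩)
        | cons c m =>
          obtain ⟨rfl, rfl⟩ := List.cons.inj h4
          exact Or.inr (Or.inl ⟨m, h3, rfl⟩)

theorem ec_nrm_right {S : St V q₀ q₁} {K : V → Prop} {X : S.P.L → List S.P.L}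
    {a b : List S.P.L} (h : S.T.Nrm K X (a ++ b)) : S.T.Nrm K X b :=
  fun x l y hb => h (a ++ x) l y (by rw [hb, List.append_assoc])

/-- the data of the elimination -/
structure ec_D (S : St V q₀ q₁) (K : V → Prop) (X : S.P.L → List S.P.L) where
  m : S.P.L → V
  hK : S.T.Convex K
  hrn : S.RNon (S.T.After K)
  hm : ∀ l, S.T.Entry K l → ∃ τ, S.T.Path (S.T.tgt l) (X l) (m l) ∧ ¬ K (m l) ∧
    S.T.Path (m l) τ q₁ ∧ Tight (X l) τ
  hn : ∀ c, ¬ K (S.T.s c) → ∀ b, S.T.Nrm K X (S.P.side c b)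

/-- letters that start outside `K` -/
abbrev ec_L (S : St V q₀ q₁) (K : V → Prop) : Type := {l : S.P.L // ¬ K (S.T.src l)}

open Classical in
/-- an entry letter is followed by its exit word -/
noncomputable def ec_J {S : St V q₀ q₁} (K : V → Prop) (X : S.P.L → List S.P.L)
    (l : ec_L S K) : List S.P.L := l.1 :: if K (S.T.tgt l.1) then X l.1 else []

section

variable {S : St V q₀ q₁} {K : V → Prop} {X : S.P.L → List S.P.L}

theorem ec_J_pos {l : ec_L S K} (h : K (S.T.tgt l.1)) : ec_J K X l = l.1 :: X l.1 := by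
  simp [ec_J, h]

theorem ec_J_neg {l : ec_L S K} (h : ¬ K (S.T.tgt l.1)) : ec_J K X l = [l.1] := by
  simp [ec_J, h]

theorem ec_J_ne (l : ec_L S K) : ec_J K X l ≠ [] := by simp [ec_J]

theorem ec_init {v ω : List (ec_L S K)} {r : List S.P.L}
    (h : v.flatMap (ec_J K X) ++ r = ω.flatMap (ec_J K X)) :
    ∃ r', ω = v ++ r' ∧ r = r'.flatMap (ec_J K X) := by
  induction v generalizing ω with
  | nil => exact ⟨ω, rfl, by simpa using h⟩
  | cons l v ih =>
    cases ω with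
    | nil => simp [ec_J] at h
    | cons l' ω =>
      have h1 : l = l' := Subtype.ext (by
        simp only [ec_J, List.flatMap_cons, List.cons_append, List.cons.injEq] at h
        exact h.1)
      subst h1
      rw [List.flatMap_cons, List.flatMap_cons, List.append_assoc] at h
      obtain ⟨r', rfl, h2⟩ := ih (List.append_cancel_left h)
      exact ⟨r', rfl, h2⟩

theorem ec_inj {v ω : List (ec_L S K)} (h : v.flatMap (ec_J K X) = ω.flatMap (ec_J K X)) :
    v = ω := by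
  obtain ⟨r', rfl, h2⟩ := ec_init (r := []) (by simpa using h)
  cases r' with
  | nil => simp
  | cons l r => simp [ec_J] at h2

theorem ec_map {v : List (ec_L S K)} (h : ∀ l ∈ v, ¬ K (S.T.tgt l.1)) :
    v.flatMap (ec_J K X) = v.map Subtype.val := by
  induction v with
  | nil => rfl
  | cons l v ih =>
    rw [List.flatMap_cons, ec_J_neg (h l (by simp)), ih fun l' hl' => h l' (by simp [hl'])]
    rfl

theorem ec_mem {v : List (ec_L S K)} {l : ec_L S K} (h : l ∈ v) :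
    l.1 ∈ v.flatMap (ec_J K X) := List.mem_flatMap.2 ⟨l, h, by simp [ec_J]⟩

/-- an initial segment of the image of a word without entry letters is an image -/
theorem ec_pre_free {v : List (ec_L S K)} (h : ∀ l ∈ v, ¬ K (S.T.tgt l.1)) {a r : List S.P.L}
    (he : v.flatMap (ec_J K X) = a ++ r) : ∃ a' : List (ec_L S K), a = a'.flatMap (ec_J K X) := by
  rw [ec_map h] at he
  obtain ⟨a', r', rfl, rfl, -⟩ := List.map_eq_append_iff.1 he
  exact ⟨a', (ec_map fun l hl => h l (by simp [hl])).symm⟩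

end

namespace ec_D

variable {S : St V q₀ q₁} {K : V → Prop} {X : S.P.L → List S.P.L} (D : ec_D S K X)

open Classical in
/-- the new target -/
noncomputable def tg (l : ec_L S K) : V := if K (S.T.tgt l.1) then D.m l.1 else S.T.tgt l.1

theorem tg_pos {l : ec_L S K} (h : K (S.T.tgt l.1)) : D.tg l = D.m l.1 := if_pos h

theorem tg_neg {l : ec_L S K} (h : ¬ K (S.T.tgt l.1)) : D.tg l = S.T.tgt l.1 := if_neg h

theorem J_path (l : ec_L S K) : S.T.Path (S.T.src l.1) (ec_J K X l) (D.tg l) := by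
  by_cases h : K (S.T.tgt l.1)
  · obtain ⟨τ, h1, -⟩ := D.hm l.1 ⟨l.2, h⟩
    rw [ec_J_pos h, D.tg_pos h]
    exact ⟨rfl, h1⟩
  · rw [ec_J_neg h, D.tg_neg h]
    exact ⟨rfl, rfl⟩

theorem after_m {l : ec_L S K} (h : K (S.T.tgt l.1)) : S.T.After K (D.m l.1) := by
  obtain ⟨τ, h1, -⟩ := D.hm l.1 ⟨l.2, h⟩
  exact ⟨_, h, h1.reach⟩

theorem pre (n : ℕ) : ∀ (u : List S.P.L) (q q' : V), u.length ≤ n → S.T.Path q u q' → ¬ K q →
    S.T.Nrm K X u → ∃ u' : List (ec_L S K), u'.flatMap (ec_J K X) = u ∧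
      Walk (fun l : ec_L S K => S.T.src l.1) D.tg q u' q' := by
  induction n with
  | zero =>
    intro u q q' hu h _ _
    obtain rfl := List.length_eq_zero_iff.1 (Nat.le_zero.1 hu)
    exact ⟨[], rfl, h⟩
  | succ n ih =>
    rintro (_ | ⟨l, y⟩) q q' hu h hq hN
    · exact ⟨[], rfl, h⟩
    obtain ⟨rfl, h⟩ := h
    by_cases hl : K (S.T.tgt l)
    · obtain ⟨z, rfl⟩ := hN [] l y rfl ⟨hq, hl⟩
      obtain ⟨τ, h1, h2, -⟩ := D.hm l ⟨hq, hl⟩
      obtain ⟨u', h3, h4⟩ := ih z _ q' (by simp at hu; omega) (Typed.Path.right h h1) h2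
        (ec_nrm_right (a := l :: X l) hN)
      refine ⟨⟨l, hq⟩ :: u', ?_, rfl, ?_⟩
      · rw [List.flatMap_cons, h3, ec_J_pos hl]; rfl
      · rw [D.tg_pos hl]; exact h4
    · obtain ⟨u', h3, h4⟩ := ih y _ q' (by simpa using hu) h hl (ec_nrm_right (a := [l]) hN)
      refine ⟨⟨l, hq⟩ :: u', ?_, rfl, ?_⟩
      · rw [List.flatMap_cons, h3, ec_J_neg hl]; rfl
      · rw [D.tg_neg hl]; exact h4

theorem pre_side (c : {c : S.P.C // ¬ K (S.T.s c)}) (b : Bool) :
    ∃ u' : List (ec_L S K), u'.flatMap (ec_J K X) = S.P.side c.1 b ∧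
      Walk (fun l : ec_L S K => S.T.src l.1) D.tg (S.T.s c.1) u' (S.T.e c.1) :=
  D.pre _ _ _ _ le_rfl (Typed.path_side c.1 b) c.2 (D.hn c.1 c.2 b)

/-- the new presentation -/
noncomputable abbrev P' : Pres where
  L := ec_L S K
  C := {c : S.P.C // ¬ K (S.T.s c)}
  side c b := (D.pre_side c b).choose
  ne c b h := S.P.ne c.1 b (by rw [← (D.pre_side c b).choose_spec.1, h]; rfl)

/-- the new types -/
noncomputable def T' : Typed D.P' V where
  src l := S.T.src l.1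
  tgt := D.tg
  s c := S.T.s c.1
  e c := S.T.e c.1
  hside c b := (D.pre_side c b).choose_spec.2

/-- the substitution -/
noncomputable def E : Emb D.P' S.P where
  j := ec_J K X
  hj := ec_J_ne
  φ := Subtype.val
  side c b := (D.pre_side c b).choose_spec.1.symm
  inj _ _ _ h _ := Subtype.ext h

theorem side_eq (c : D.P'.C) (b : Bool) :
    S.P.side c.1 b = (D.P'.side c b).flatMap (ec_J K X) := D.E.side c b

theorem path {q q' : V} {u : List (ec_L S K)} (h : D.T'.Path q u q') :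
    S.T.Path q (u.flatMap (ec_J K X)) q' := by
  induction u generalizing q with
  | nil => exact h
  | cons l u ih => rw [List.flatMap_cons]; exact (h.1 ▸ D.J_path l).append (ih h.2)

theorem step {ω a' : List (ec_L S K)} {t : S.P.DS} (h : t.src = ω.flatMap (ec_J K X))
    (ha : t.a = a'.flatMap (ec_J K X)) (hc : ¬ K (S.T.s t.c)) :
    ∃ t' : D.P'.DS, t'.src = ω ∧ D.E.toMap.d t' = t := by
  obtain ⟨a, c, e, b⟩ := t
  simp only at ha hc
  subst ha
  have h1 : (a' ++ D.P'.side ⟨c, hc⟩ e).flatMap (ec_J K X) ++ b = ω.flatMap (ec_J K X) := by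
    rw [List.flatMap_append, ← D.side_eq ⟨c, hc⟩ e]
    exact h
  obtain ⟨r', rfl, rfl⟩ := ec_init h1
  exact ⟨⟨a', ⟨c, hc⟩, e, r'⟩, rfl, rfl⟩

theorem free {ω : List (ec_L S K)} (hω : ∀ l ∈ ω, ¬ K (S.T.tgt l.1)) {t : S.P.DS}
    (h : t.src = ω.flatMap (ec_J K X)) : ∃ t' : D.P'.DS, t'.src = ω ∧ D.E.toMap.d t' = t := by
  obtain ⟨a', ha⟩ := ec_pre_free hω (a := t.a) (r := S.P.side t.c t.e ++ t.b)
    (by rw [← h, DS.src, List.append_assoc])
  refine D.step h ha ?_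
  have h1 := Typed.path_side (T := S.T) t.c t.e
  have h2 : ∀ l ∈ S.P.side t.c t.e, ¬ K (S.T.src l) := by
    intro l hl
    have h3 : l ∈ ω.map Subtype.val := by
      rw [← ec_map (X := X) hω, ← h]
      simp [DS.src, hl]
    obtain ⟨l', -, rfl⟩ := List.mem_map.1 h3
    exact l'.2
  obtain ⟨l, y, h4⟩ := List.exists_cons_of_ne_nil (S.P.ne t.c t.e)
  rw [h4] at h1 h2
  exact h1.1 ▸ h2 l (by simp)

theorem after {q q' : V} (hq : S.T.After K q) {z : List (ec_L S K)} (hz : D.T'.Path q z q')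
    {g : S.P.U} {y : List S.P.L} (h : Conn (z.flatMap (ec_J K X)) g y) :
    ∃ z' g', Conn (P := D.P') z g' z' ∧ z'.flatMap (ec_J K X) = y ∧ D.E.toMap.hom g' = g :=
  D.E.toMap.conn_lift (fun z => D.T'.Path q z q') (fun t ht => ht.sim (Sim.step t))
    (fun _ _ hω ht => D.free (fun l hl h' => hq.not_entry D.hK (D.path hω) (ec_mem hl) ⟨l.2, h'⟩) ht)
    hz h

theorem hom_wh (α γ : List (ec_L S K)) (g : D.P'.U) :
    D.E.toMap.hom (wh (P := D.P') α γ g) =
      wh (α.flatMap (ec_J K X)) (γ.flatMap (ec_J K X)) (D.E.toMap.hom g) := D.E.hom_wh α γ g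

theorem norm {q : V} {γ x z : List (ec_L S K)} {l : ec_L S K} {g' : D.P'.U} {d : S.P.U}
    {y : List S.P.L} (hγ : D.T'.Path q γ q₁) (hc : Conn (P := D.P') γ g' (x ++ l :: z))
    (hl : K (S.T.tgt l.1)) (hd : Conn (X l.1 ++ z.flatMap (ec_J K X)) d (X l.1 ++ y)) :
    ∃ u' g'', Conn (P := D.P') γ g'' u' ∧
      x.flatMap (ec_J K X) ++ l.1 :: (X l.1 ++ y) = u'.flatMap (ec_J K X) ∧
      D.E.toMap.hom g' * wh (x.flatMap (ec_J K X) ++ [l.1]) [] d = D.E.toMap.hom g'' := by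
  obtain ⟨τ, h1, -, h2, h3⟩ := D.hm l.1 ⟨l.2, hl⟩
  have hz : D.T'.Path (D.m l.1) z q₁ := D.tg_pos hl ▸ (Typed.path_letter.1 (hγ.sim hc.sim)).2
  have hz' := D.path hz
  have hy : S.T.Path (D.m l.1) y q₁ := ((h1.append hz').sim hd.sim).right h1
  obtain ⟨k, hk, rfl⟩ := h3.full (D.hrn _ (D.after_m hl) _ _ h2 hz')
    (D.hrn _ (D.after_m hl) _ _ h2 hy) hd
  obtain ⟨z', k', h4, rfl, rfl⟩ := D.after (D.after_m hl) hz hk
  refine ⟨x ++ l :: z', g' * wh (P := D.P') (x ++ [l]) [] k', hc.trans ?_, ?_, ?_⟩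
  · simpa using h4.wl (x ++ [l])
  · simp [ec_J_pos hl]
  · rw [map_mul, D.hom_wh]
    simp [ec_J_pos hl]

/-- the invariant along a path of the old presentation -/
def Rel (γ : List (ec_L S K)) (u : List S.P.L) (g : S.P.U) : Prop :=
  ∃ u' g', Conn (P := D.P') γ g' u' ∧ ((u = u'.flatMap (ec_J K X) ∧ g = D.E.toMap.hom g') ∨
    ∃ x l z y d, K (S.T.tgt l.1) ∧ u' = x ++ l :: z ∧ u = x.flatMap (ec_J K X) ++ l.1 :: y ∧
      Conn (X l.1 ++ z.flatMap (ec_J K X)) d y ∧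
      g = D.E.toMap.hom g' * wh (x.flatMap (ec_J K X) ++ [l.1]) [] d)

theorem rel_lift {γ : List (ec_L S K)} {g' : D.P'.U} {t' : D.P'.DS}
    (hc : Conn (P := D.P') γ g' t'.src) :
    D.Rel γ (D.E.toMap.d t').tgt (D.E.toMap.hom g' * (D.E.toMap.d t').ev) :=
  ⟨t'.tgt, g' * t'.ev, hc.trans (Conn.step t'), Or.inl ⟨D.E.toMap.tgt t', by simp⟩⟩

theorem rel_second {q : V} {γ x z : List (ec_L S K)} {l : ec_L S K} {g' : D.P'.U} {d : S.P.U}
    {y : List S.P.L} (hγ : D.T'.Path q γ q₁) (hc : Conn (P := D.P') γ g' (x ++ l :: z))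
    (hl : K (S.T.tgt l.1)) (hd : Conn (X l.1 ++ z.flatMap (ec_J K X)) d y) {t : S.P.DS}
    (ht : t.src = x.flatMap (ec_J K X) ++ l.1 :: y) :
    D.Rel γ t.tgt (D.E.toMap.hom g' * wh (x.flatMap (ec_J K X) ++ [l.1]) [] d * t.ev) := by
  have hx : ∀ l' ∈ x, ¬ K (S.T.tgt l'.1) := by
    intro l' hl' h'
    obtain ⟨x₁, x₂, rfl⟩ := List.append_of_mem hl'
    have h1 := D.path (hγ.sim hc.sim)
    simp only [List.flatMap_append, List.flatMap_cons, ec_J_pos h', ec_J_pos hl, List.append_assoc,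
      List.cons_append] at h1
    exact (Typed.After.of_mem h').not_entry D.hK (Typed.path_letter.1 h1).2 (l := l.1) (by simp)
      ⟨l.2, hl⟩
  obtain ⟨a, c, e, b⟩ := t
  rcases ec_split ht with ⟨r, h1, h2⟩ | ⟨r, h1, h2⟩ | ⟨s₁, s₂, h1, h2, h3⟩
  · simp only at h1 h2
    subst h2
    obtain ⟨t', rfl, h3⟩ := D.free hx (t := ⟨a, c, e, r⟩) h1.symm
    have h4 : (⟨a, c, e, r⟩ : S.P.DS).tgt = t'.tgt.flatMap (ec_J K X) := h3 ▸ D.E.toMap.tgt t'
    have h5 : (⟨a, c, e, r ++ l.1 :: y⟩ : S.P.DS) = DS.wh [] (l.1 :: y) ⟨a, c, e, r⟩ := rfl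
    refine ⟨t'.tgt ++ l :: z, g' * wh (P := D.P') [] (l :: z) t'.ev,
      hc.trans ((Conn.step t').wr (l :: z)), Or.inr ⟨t'.tgt, l, z, y, d, hl, rfl, ?_, hd, ?_⟩⟩
    · rw [h5, DS.tgt_wh, h4]; rfl
    · have h6 := interchange (Conn.step ⟨a, c, e, r⟩) (hd.wl [l.1])
      rw [h4, show (⟨a, c, e, r⟩ : S.P.DS).src = t'.src.flatMap (ec_J K X) from h1.symm] at h6
      rw [h5, DS.ev_wh, map_mul, D.hom_wh, StepMap.hom_ev₁, h3, mul_assoc, mul_assoc]
      congr 1
      simpa [ec_J_pos hl] using h6.symm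
  · simp only at h1 h2
    subst h1 h2
    have h5 : (⟨x.flatMap (ec_J K X) ++ l.1 :: r, c, e, b⟩ : S.P.DS)
        = DS.wh (x.flatMap (ec_J K X) ++ [l.1]) [] ⟨r, c, e, b⟩ := by simp [DS.wh]
    refine ⟨_, g', hc, Or.inr ⟨x, l, z, (⟨r, c, e, b⟩ : S.P.DS).tgt,
      d * (⟨r, c, e, b⟩ : S.P.DS).ev, hl, rfl, ?_, hd.trans (Conn.step ⟨r, c, e, b⟩), ?_⟩⟩
    · rw [h5, DS.tgt_wh]; simp
    · rw [h5, DS.ev_wh, map_mul, mul_assoc]
  · simp only at h1 h2 h3
    have h4 := Typed.path_side (T := S.T) c e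
    rw [h1] at h4
    have h5 : ¬ K (S.T.s c) := fun h => l.2 (D.hK _ _ _ h (Typed.path_letter.1 h4).1.reach
      (Typed.reach_letter l.1) hl)
    obtain ⟨s₃, rfl⟩ := D.hn c h5 e s₁ l.1 s₂ h1 ⟨l.2, hl⟩
    rw [List.append_assoc] at h3
    subst h3
    obtain ⟨u', g'', h6, h7, h8⟩ := D.norm hγ hc hl hd
    obtain ⟨a', ha⟩ := ec_pre_free hx h2
    obtain ⟨t', rfl, h9⟩ := D.step (t := ⟨a, c, e, b⟩) (ht.trans h7) ha h5
    rw [h8, ← h9]
    exact D.rel_lift h6

theorem rel_step {q : V} {γ : List (ec_L S K)} (hγ : D.T'.Path q γ q₁) {g : S.P.U} {t : S.P.DS}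
    (h : D.Rel γ t.src g) : D.Rel γ t.tgt (g * t.ev) := by
  obtain ⟨u', g', hc, ⟨h1, rfl⟩ | ⟨x, l, z, y, d, hl, rfl, h1, hd, rfl⟩⟩ := h
  · by_cases hu : ∀ l ∈ u', ¬ K (S.T.tgt l.1)
    · obtain ⟨t', rfl, rfl⟩ := D.free hu h1
      exact D.rel_lift hc
    · push Not at hu
      obtain ⟨l, hl, hl'⟩ := hu
      obtain ⟨x, z, rfl⟩ := List.append_of_mem hl
      simpa using D.rel_second hγ hc hl' (Conn.refl _) (t := t) (by simp [h1, ec_J_pos hl'])
  · exact D.rel_second hγ hc hl hd h1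

theorem rel_path {q : V} {γ : List (ec_L S K)} (hγ : D.T'.Path q γ q₁) {p : List S.P.DS}
    {u v : List S.P.L} {g : S.P.U} (hp : IsPath u p v) (h : D.Rel γ u g) :
    D.Rel γ v (g * ev p) := by
  induction p generalizing u g with
  | nil => simpa [← isPath_nil.1 hp] using h
  | cons t p ih =>
    rw [ev_cons, ← mul_assoc]
    exact ih hp.2 (D.rel_step hγ (hp.1 ▸ h))

theorem main {q : V} {γ γ' : List (ec_L S K)} (hγ : D.T'.Path q γ q₁) {g : S.P.U}
    (h : Conn (γ.flatMap (ec_J K X)) g (γ'.flatMap (ec_J K X))) :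
    ∃ g', Conn (P := D.P') γ g' γ' ∧ D.E.toMap.hom g' = g := by
  obtain ⟨p, hp, rfl⟩ := h
  have h := D.rel_path hγ hp (g := 1) ⟨γ, 1, Conn.refl _, Or.inl ⟨rfl, by simp⟩⟩
  rw [one_mul] at h
  obtain ⟨u', g', hc, ⟨h1, h2⟩ | ⟨x, l, z, y, d, hl, rfl, h1, hd, h2⟩⟩ := h
  · obtain rfl := ec_inj h1
    exact ⟨g', hc, h2.symm⟩
  · obtain ⟨r', rfl, h3⟩ := ec_init h1.symm
    cases r' with
    | nil => simp at h3
    | cons l' r' =>
      have h4 : l = l' := Subtype.ext (by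
        simp only [ec_J, List.flatMap_cons, List.cons_append, List.cons.injEq] at h3
        exact h3.1)
      subst h4
      rw [List.flatMap_cons, ec_J_pos hl, List.cons_append] at h3
      obtain rfl := (List.cons.inj h3).2
      obtain ⟨u', g'', h6, h7, h8⟩ := D.norm hγ hc hl hd
      obtain rfl := ec_inj (h1.trans h7)
      exact ⟨g'', h6, (h2.trans h8).symm⟩

theorem base (h₀ : ¬ K q₀) :
    ∃ w' : List (ec_L S K), D.T'.Path q₀ w' q₁ ∧ Sim S.w (w'.flatMap (ec_J K X)) := by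
  suffices h : ∃ w, Sim S.w w ∧ S.T.Nrm K X w by
    obtain ⟨w, h1, h2⟩ := h
    obtain ⟨w', rfl, h3⟩ := D.pre _ w q₀ q₁ le_rfl (S.hw.sim h1) h₀ h2
    exact ⟨w', h3, h1⟩
  by_cases h : ∃ x l y, S.w = x ++ l :: y ∧ S.T.Entry K l
  · obtain ⟨x, l, y, h1, hl⟩ := h
    obtain ⟨τ, h2, -, h3, -⟩ := D.hm l hl
    have h4 : S.T.Path (S.T.tgt l) y q₁ := (Typed.path_letter.1 (h1 ▸ S.hw)).2
    have h5 : Sim S.w (x ++ l :: (X l ++ τ)) := by
      rw [h1]
      simpa using (D.hrn _ (Typed.After.of_mem hl.2) _ _ h4 (h2.append h3)).wl (x ++ [l])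
    refine ⟨_, h5, fun x' l' y' he hl' => ?_⟩
    obtain ⟨-, rfl, rfl⟩ := Typed.entry_unique D.hK (S.hw.sim h5) he hl hl'
    exact ⟨_, rfl⟩
  · exact ⟨S.w, Sim.refl _, fun x l y he hl => absurd ⟨x, l, y, he, hl⟩ h⟩

end ec_D

/-- elimination when all cells that start outside `K` are normal -/
theorem elimC (S : St V q₀ q₁) (K : V → Prop) (hK : S.T.Convex K) (h₀ : ¬ K q₀)
    (hrn : S.RNon (S.T.After K)) (X : S.P.L → List S.P.L)
    (hX : ∀ l, S.T.Entry K l → S.ExitBy K (S.T.tgt l) (X l))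
    (hn : ∀ c, ¬ K (S.T.s c) → ∀ b, S.T.Nrm K X (S.P.side c b)) :
    ∃ S', Nonempty (ElimOut S K S') := by
  have h1 : ∀ l, ∃ m, S.T.Entry K l → ∃ τ, S.T.Path (S.T.tgt l) (X l) m ∧ ¬ K m ∧
      S.T.Path m τ q₁ ∧ Tight (X l) τ := by
    intro l
    by_cases hl : S.T.Entry K l
    · obtain ⟨τ, m, h⟩ := hX l hl
      exact ⟨m, fun _ => ⟨τ, h⟩⟩
    · exact ⟨q₀, fun h => absurd h hl⟩
  choose m hm using h1
  let D : ec_D S K X := ⟨m, hK, hrn, hm, hn⟩
  obtain ⟨w', hw, ⟨g, hg⟩⟩ := D.base h₀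
  have h0 : ∀ l, D.tg l ≠ q₀ := fun l hl => by
    have h := D.J_path l
    rw [hl] at h
    exact ec_J_ne l (path_to_zero h)
  refine ⟨⟨D.P', D.T', w', hw, h0, fun l => S.h₁ l.1⟩, ⟨⟨Subtype.val, Subtype.val, ec_J K X, Subtype.val_injective,
    Subtype.val_injective, fun _ => rfl, fun l => l.2, fun l => ⟨ec_J_ne l, D.J_path l⟩,
    fun l => ?_, fun c hc => ?_, fun q γ γ' hγ _ h => ?_, ?_⟩⟩⟩
  · by_cases hl : K (S.T.tgt l.1)
    · exact Or.inr ((congrArg (S.T.After K) (D.tg_pos hl)).mpr (D.after_m hl))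
    · exact Or.inl (D.tg_neg hl)
  · have h2 : ¬ K (S.T.s c) := fun h => hc ⟨_, h, Typed.reach_cell c⟩
    refine ⟨⟨c, h2⟩, rfl, fun b => (D.side_eq ⟨c, h2⟩ b).trans (ec_map fun l hl h => hc ⟨_, h, ?_⟩)⟩
    exact ((Typed.path_side c b).reach_mem (D.side_eq ⟨c, h2⟩ b ▸ ec_mem hl)).2
  · exact (D.main hγ h.choose_spec).choose_spec.1.sim
  · obtain ⟨e⟩ := D.E.toMap.equivD (ω := w') fun _ h => D.main hw h
    exact ⟨e.trans hg.symm.equivD⟩

end St

end Pool.Agent.MP_1e5511_al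

end

-- part MP_1e5511_al.Elim
section

set_option autoImplicit false

namespace Pool.Agent.MP_1e5511_al

open Pres

section

variable {P : Pres} {Z : P.C → Prop} {side' : P.C → Bool → List P.L}
  {ne' : ∀ c b, side' c b ≠ []}

/-- the inclusion of the presentation without the `Z`-cells -/
def el_F (ne' : ∀ c b, side' c b ≠ []) (h : ∀ c, ¬ Z c → side' c = P.side c) :
    LMap (P.del Z) (P.reside side' ne') where
  k := id
  kc := Subtype.val
  side c b := by
    show side' c.1 b = List.map id (P.side c.1 b)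
    rw [List.map_id, h c.1 c.2]
  inj _ _ _ h _ := Subtype.ext h

theorem el_map (h : ∀ c, ¬ Z c → side' c = P.side c) (u : List P.L) :
    List.map (el_F ne' h).k u = u := List.map_id u

theorem el_sim_up (h : ∀ c, ¬ Z c → side' c = P.side c) {u v : List P.L}
    (hs : Sim (P := P.del Z) u v) : Sim (P := P.reside side' ne') u v := by
  have := (el_F ne' h).sim hs
  rwa [el_map, el_map] at this

theorem el_loop (h : ∀ c, ¬ Z c → side' c = P.side c) {u v : List P.L}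
    (hc : ∀ t : (P.reside side' ne').DS, Sim (P := P.reside side' ne') u t.src → ¬ Z t.c)
    (g : (P.reside side' ne').U)
    (hg : Conn (List.map (el_F ne' h).k u) g (List.map (el_F ne' h).k v)) :
    ∃ g', Conn (P := P.del Z) u g' v ∧ (el_F ne' h).toMap.hom g' = g :=
  (el_F ne' h).loop_lift Function.injective_id
    (fun t ht => ⟨⟨t.c, hc t (by rwa [el_map] at ht)⟩, rfl⟩) hg

theorem el_sim_down (h : ∀ c, ¬ Z c → side' c = P.side c) {u v : List P.L}
    (hc : ∀ t : (P.reside side' ne').DS, Sim (P := P.reside side' ne') u t.src → ¬ Z t.c)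
    (hs : Sim (P := P.reside side' ne') u v) : Sim (P := P.del Z) u v := by
  obtain ⟨g, hg⟩ := hs
  obtain ⟨g', hg', -⟩ := el_loop h hc g (v := v) (by rwa [el_map, el_map])
  exact hg'.sim

theorem el_tight_down (h : ∀ c, ¬ Z c → side' c = P.side c) {ρ τ : List P.L}
    (hc : ∀ t : (P.reside side' ne').DS, Sim (P := P.reside side' ne') τ t.src → ¬ Z t.c)
    (ht : Tight (P := P.reside side' ne') ρ τ) : Tight (P := P.del Z) ρ τ :=
  (el_F ne' h).tight_of (el_loop h hc) (by rwa [el_map, el_map])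

theorem el_tight_up (h : ∀ c, ¬ Z c → side' c = P.side c) {ρ τ : List P.L}
    (hc : ∀ t : (P.reside side' ne').DS, Sim (P := P.reside side' ne') (ρ ++ τ) t.src → ¬ Z t.c)
    (ht : Tight (P := P.del Z) ρ τ) : Tight (P := P.reside side' ne') ρ τ := by
  have := (el_F ne' h).tight_map (el_loop h hc) ht
  rwa [el_map, el_map] at this

end

namespace Typed

variable {P : Pres} {V : Type} (T : Typed P V)

/-- cells that start outside `K` and meet `K` -/
def el_Z (K : V → Prop) (c : P.C) : Prop :=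
  ¬ K (T.s c) ∧ ∃ b, ∃ l ∈ P.side c b, K (T.tgt l)

variable {T} {K : V → Prop}

theorem el_after {c : P.C} (h : T.el_Z K c) : T.After K (T.e c) := by
  obtain ⟨-, b, l, hl, hK⟩ := h
  exact (After.of_mem hK).reach ((path_side c b).reach_mem hl).2

theorem el_not (hK : T.Convex K) {q : V} (hq : T.After K q) {c : P.C} (h : T.Reach q (T.s c)) :
    ¬ T.el_Z K c := by
  rintro ⟨h1, b, l, hl, h2⟩
  exact h1 ((hq.reach h).mem hK (((path_side c b).reach_mem hl).1.trans (reach_letter l)) h2)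

theorem el_met (hK : T.Convex K) {q q' : V} (hq : T.After K q) {u : List P.L}
    (hu : T.Path q u q') (t : P.DS) (ht : Sim u t.src) : ¬ T.el_Z K t.c :=
  el_not hK hq (path_src.1 (hu.sim ht)).1.reach

theorem el_sim0 (hK : T.Convex K) {q q' : V} (hq : T.After K q) {u v : List P.L}
    (hu : T.Path q u q') (h : Sim u v) : Sim (P := P.del (T.el_Z K)) u v :=
  el_sim_down (side' := P.side) (ne' := P.ne) (fun _ _ => rfl) (el_met hK hq hu) h

theorem el_tight0 (hK : T.Convex K) {q q' : V} (hq : T.After K q) {ρ τ : List P.L}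
    (hu : T.Path q τ q') (h : Tight ρ τ) : Tight (P := P.del (T.el_Z K)) ρ τ :=
  el_tight_down (side' := P.side) (ne' := P.ne) (fun _ _ => rfl) (el_met hK hq hu) h

theorem el_sim_of0 {Z : P.C → Prop} {u v : List P.L} (h : Sim (P := P.del Z) u v) : Sim u v :=
  el_sim_up (side' := P.side) (ne' := P.ne) (fun _ _ => rfl) h

theorem el_noPar (hK : T.Convex K) {q q' : V} {ω : List P.L} (h : T.Path q ω q') :
    NoPar (T.el_Z K) ω := by
  intro s t t' s' hp hs h1 h2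
  cases hp with
  | left a c e m c' e' b =>
    exact el_not hK (el_after h1) (path_mid.1 (path_src.1 (h.sim hs)).2).1.reach h2
  | right a c e m c' e' b =>
    exact el_not hK (el_after h2) (path_mid.1 (path_src.1 (h.sim hs)).1).2.reach h1

theorem el_nrm_append (hK : T.Convex K) {X : P.L → List P.L} {σ ρ : List P.L} {q q' : V}
    (h : T.Nrm K X σ) (hq : T.After K q) (hρ : T.Path q ρ q') : T.Nrm K X (σ ++ ρ) := by
  intro x l y he hl
  rcases List.append_eq_append_iff.1 he with ⟨m, -, h1⟩ | ⟨m, h1, h2⟩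
  · exact absurd hl (hq.not_entry hK hρ (by simp [h1]))
  · cases m with
    | nil => exact absurd hl (hq.not_entry hK hρ (by simp at h2; simp [← h2]))
    | cons a m =>
      obtain ⟨rfl, rfl⟩ := List.cons.inj h2
      exact (h x l m h1 hl).trans (List.prefix_append _ _)

end Typed

namespace St

open Typed

variable {V : Type} {q₀ q₁ : V}

theorem el_one (S : St V q₀ q₁) {K : V → Prop} (hK : S.T.Convex K)
    (hrn : S.RNon (S.T.After K)) {X : S.P.L → List S.P.L}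
    (hX : ∀ l, S.T.Entry K l → S.ExitBy K (S.T.tgt l) (X l)) {s e : V} {σ τ₀ : List S.P.L}
    (hσ : S.T.Path s σ e) (hτ : S.T.Path e τ₀ q₁) :
    ∃ ρ τ σ' m, Sim τ₀ (ρ ++ τ) ∧ Tight ρ τ ∧ S.T.Path e ρ m ∧ S.T.Path m τ q₁ ∧
      S.T.Nrm K X σ' ∧ Sim (P := S.P.del (S.T.el_Z K)) (σ ++ ρ) σ' := by
  by_cases h : ∃ l ∈ σ, S.T.Entry K l
  · obtain ⟨l, hl, he⟩ := h
    obtain ⟨x, y, rfl⟩ := List.append_of_mem hl
    obtain ⟨τl, ml, p1, -, p2, t1⟩ := hX l he
    obtain ⟨px, py⟩ := path_letter.1 hσ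
    have ha : S.T.After K (S.T.tgt l) := After.of_mem he.2
    obtain ⟨ρ₁, ρ₂, τ, s1, -, s3, t2⟩ :=
      bridge_tight (hrn _ ha _ _ (py.append hτ) (p1.append p2)) t1
    obtain ⟨m, p3, p4⟩ := path_append.1 (hτ.sim s1)
    have p5 := py.append p3
    refine ⟨ρ₁, τ, x ++ l :: (X l ++ ρ₂), m, s1, t2, p3, p4, ?_, ?_⟩
    · intro x' l' y' h1 h2
      obtain ⟨-, rfl, rfl⟩ := entry_unique hK (path_letter.2 ⟨px, p5.sim s3⟩) h1 he h2
      exact List.prefix_append _ _
    · simpa using (el_sim0 hK ha p5 s3).wl (x ++ [l])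
  · refine ⟨[], τ₀, σ, e, Sim.refl _, Tight.nil _, rfl, hτ, ?_, ?_⟩
    · rintro x l y rfl hl
      exact absurd ⟨l, by simp, hl⟩ h
    · rw [List.append_nil]
      exact Sim.refl _

theorem el_cell (S : St V q₀ q₁) {K : V → Prop} (hK : S.T.Convex K)
    (hr : ∀ l, S.T.Reach (S.T.tgt l) q₁) (hrn : S.RNon (S.T.After K)) {X : S.P.L → List S.P.L}
    (hX : ∀ l, S.T.Entry K l → S.ExitBy K (S.T.tgt l) (X l)) (c : S.P.C) :
    ∃ (sd : Bool → List S.P.L) (ρ τ : List S.P.L) (m : V),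
      (¬ S.T.el_Z K c → sd = S.P.side c ∧ m = S.T.e c) ∧
      (S.T.el_Z K c → S.T.Path (S.T.e c) ρ m ∧ S.T.Path m τ q₁ ∧ Tight ρ τ ∧
        ∀ b, Sim (P := S.P.del (S.T.el_Z K)) (S.P.side c b ++ ρ) (sd b)) ∧
      (¬ K (S.T.s c) → ∀ b, S.T.Nrm K X (sd b)) := by
  by_cases hZ : S.T.el_Z K c
  · obtain ⟨l, -, hl⟩ := (path_side (T := S.T) c false).exists_tgt (S.P.ne c false)
    obtain ⟨τ₀, hτ₀⟩ := hr l
    rw [hl] at hτ₀
    obtain ⟨ρ₁, τ₁, σf, m₁, -, t1, p1, p2, n1, e1⟩ := S.el_one hK hrn hX (path_side c false) hτ₀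
    obtain ⟨ρ₂, τ₂, σt, m₂, s2, t2, p3, p4, n2, e2⟩ :=
      S.el_one hK hrn hX ((path_side c true).append p1) p2
    refine ⟨fun b => cond b σt (σf ++ ρ₂), ρ₁ ++ ρ₂, τ₂, m₂, fun h => absurd hZ h,
      fun _ => ⟨p1.append p3, p4, (t1.sim s2).trans t2, fun b => ?_⟩, fun _ b => ?_⟩
    · cases b
      · simpa using e1.wr ρ₂
      · simpa using e2
    · cases b
      · exact el_nrm_append hK n1 ((el_after hZ).reach p1.reach) p3
      · exact n2
  · refine ⟨S.P.side c, [], [], S.T.e c, fun _ => ⟨rfl, rfl⟩, fun h => absurd h hZ, ?_⟩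
    intro hs b x l y he hl
    exact absurd ⟨hs, b, l, by simp [he], hl.2⟩ hZ

/-- elimination of a convex set of vertices that has tight exits -/
theorem elim (S : St V q₀ q₁) (K : V → Prop) (hK : S.T.Convex K) (h₀ : ¬ K q₀)
    (hr : ∀ l, S.T.Reach (S.T.tgt l) q₁) (hrn : S.RNon (S.T.After K))
    (hX : ∀ l, S.T.Entry K l → ∃ ρ, S.ExitBy K (S.T.tgt l) ρ) :
    ∃ S', Nonempty (ElimOut S K S') := by
  choose! X hX using hX
  choose side' ρ τ e₁ h1 h2 h3 using S.el_cell hK hr hrn hX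
  have hside : ∀ c, ¬ S.T.el_Z K c → side' c = S.P.side c := fun c hc => (h1 c hc).1
  have ne' : ∀ c b, side' c b ≠ [] := by
    intro c b h
    by_cases hZ : S.T.el_Z K c
    · have h4 := ((h2 c hZ).2.2.2 b).symm
      rw [h] at h4
      exact S.P.ne c b (List.append_eq_nil_iff.1 h4.eq_nil).1
    · rw [hside c hZ] at h
      exact S.P.ne c b h
  let T₁ : Typed (S.P.reside side' ne') V :=
    { src := S.T.src, tgt := S.T.tgt, s := S.T.s, e := e₁
      hside := fun c b => by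
        by_cases hZ : S.T.el_Z K c
        · exact ((path_side (T := S.T) c b).append (h2 c hZ).1).sim
            (el_sim_of0 ((h2 c hZ).2.2.2 b))
        · show S.T.Path (S.T.s c) (side' c b) (e₁ c)
          rw [hside c hZ, (h1 c hZ).2]
          exact path_side (T := S.T) c b }
  let S₁ : St V q₀ q₁ := ⟨S.P.reside side' ne', T₁, S.w, S.hw, S.h₀, S.h₁⟩
  have hm : ∀ c, S.T.el_Z K c → S.T.After K (e₁ c) := fun c hZ =>
    (el_after hZ).reach (h2 c hZ).1.reach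
  have hes : ∀ q ω, S.T.Path q ω q₁ →
      (∀ ω', Sim (P := S.P.reside side' ne') ω ω' ↔ Sim ω ω') ∧
        Nonempty (D (P := S.P.reside side' ne') ω ≃* D ω) := by
    intro q ω hω
    refine es S.P (S.T.el_Z K) side' ne' hside ρ τ (fun c hZ => (h2 c hZ).2.2.2)
      (fun c hZ => el_tight0 hK (hm c hZ) (h2 c hZ).2.1 (h2 c hZ).2.2.1) ω ?_ ?_ (el_noPar hK hω)
    · intro t ht hZ
      have p := (path_src.1 (hω.sim ht)).2
      exact el_sim0 hK (el_after hZ) p
        (hrn _ (el_after hZ) _ _ p ((h2 _ hZ).1.append (h2 _ hZ).2.1))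
    · intro a c b hZ hs
      have p := (path_mid.1 (hω.sim hs)).2.right (h2 c hZ).1
      exact el_sim0 hK (hm c hZ) p (hrn _ (hm c hZ) _ _ p (h2 c hZ).2.1)
  have hrn₁ : S₁.RNon (S₁.T.After K) := fun q hq γ γ' p p' =>
    ((hes q γ p).1 γ').2 (hrn q hq γ γ' p p')
  have hX₁ : ∀ l, S₁.T.Entry K l → S₁.ExitBy K (S₁.T.tgt l) (X l) := by
    intro l hl
    obtain ⟨τl, m, p1, hm', p2, t1⟩ := hX l hl
    have ha : S.T.After K (S.T.tgt l) := After.of_mem hl.2
    refine ⟨τl, m, p1, hm', p2, el_tight_up hside (fun t ht => ?_)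
      (el_tight0 hK (ha.reach p1.reach) p2 t1)⟩
    have p3 : T₁.Path (S.T.tgt l) (X l ++ τl) q₁ := p1.append p2
    exact el_not hK ha (path_src.1 (p3.sim ht)).1.reach
  obtain ⟨S', ⟨O⟩⟩ := elimC S₁ K hK h₀ hrn₁ X hX₁ h3
  refine ⟨S', ⟨⟨O.k, O.kc, O.J, O.inj, O.injc, O.src, O.notK, O.hJ, O.tgt, ?_, ?_, ?_⟩⟩⟩
  · intro c hc
    have hZ : ¬ S.T.el_Z K c := fun h => hc (el_after h)
    obtain ⟨c', e1, e2⟩ := O.cell c (by
      show ¬ S.T.After K (e₁ c)
      rwa [(h1 c hZ).2])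
    refine ⟨c', e1, fun b => ?_⟩
    rw [← hside c hZ]
    exact e2 b
  · intro q γ γ' p p' hs
    exact O.sim q γ γ' p p' (((hes q _ (O.path p)).1 _).2 hs)
  · obtain ⟨φ⟩ := O.equiv
    obtain ⟨ψ⟩ := (hes q₀ S.w S.hw).2
    exact ⟨φ.trans ψ⟩

end St

end Pool.Agent.MP_1e5511_al

end

-- part MP_1e5511_al.Phase2
section

set_option autoImplicit false

namespace Pool.Agent.MP_1e5511_al

open Pres

namespace St

variable {V : Type} {q₀ q₁ : V} {S : St V q₀ q₁}

/-- equivalence of words -/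
def ph2_setoid (P : Pres) : Setoid (List P.L) := ⟨Sim, Sim.refl, Sim.symm, Sim.trans⟩

open Classical in
/-- the class of the word on the right, recorded after `q` -/
noncomputable def ph2_delta (S : St V q₀ q₁) (q : V) (l : S.P.L)
    (κ : Option (Quotient (ph2_setoid S.P))) : Option (Quotient (ph2_setoid S.P)) :=
  if S.T.Reach q (S.T.src l) then
    κ.map (Quotient.map (sa := ph2_setoid S.P) (sb := ph2_setoid S.P) (fun u => l :: u)
      fun a b h => Sim.wl (ω := a) (ω' := b) h [l])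
  else none

theorem ph2_delta_neg {q : V} {l : S.P.L} (h : ¬ S.T.Reach q (S.T.src l))
    (κ : Option (Quotient (ph2_setoid S.P))) : ph2_delta S q l κ = none := if_neg h

theorem ph2_run_none (q : V) (u : List S.P.L) : run (ph2_delta S q) u none = none := by
  induction u with
  | nil => rfl
  | cons l u ih =>
    rw [run_cons, ih, ph2_delta]
    split_ifs <;> rfl

theorem ph2_run {q v v' : V} {u : List S.P.L} (h : S.T.Path v u v') (hv : S.T.Reach q v)
    (b : List S.P.L) : run (ph2_delta S q) u (some (Quotient.mk _ b)) =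
      some (Quotient.mk _ (u ++ b)) := by
  induction u generalizing v with
  | nil => rfl
  | cons l u ih =>
    obtain rfl := h.1
    rw [run_cons, ih h.2 (hv.trans (Typed.reach_letter l)), ph2_delta, if_pos hv]
    rfl

/-- the automaton of right classes -/
noncomputable def ph2_aut (S : St V q₀ q₁) (q : V) :
    Aut S.P (Option (Quotient (ph2_setoid S.P))) where
  δ := ph2_delta S q
  A _ _ := True
  ok c κ _ := by
    by_cases h : S.T.Reach q (S.T.s c)
    · rcases κ with _ | ⟨⟨b⟩⟩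
      · rw [ph2_run_none, ph2_run_none]
      · refine (ph2_run (Typed.path_side c false) h b).trans
          (Eq.trans ?_ (ph2_run (Typed.path_side c true) h b).symm)
        exact congrArg some (Quotient.sound (Sim.step ⟨[], c, false, b⟩))
    · have key : ∀ e, run (ph2_delta S q) (S.P.side c e) κ = none := by
        intro e
        have h1 := Typed.path_side (T := S.T) c e
        have h2 := S.P.ne c e
        generalize S.P.side c e = u at h1 h2
        cases u with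
        | nil => exact absurd rfl h2
        | cons l u => exact ph2_delta_neg (h1.1 ▸ h) _
      rw [key, key]

/-- the refined presentation -/
noncomputable abbrev ph2_st (S : St V q₀ q₁) (q : V) :
    St (V × Option (Quotient (ph2_setoid S.P)))
      (q₀, run (ph2_aut S q).δ S.w (some (Quotient.mk _ []))) (q₁, some (Quotient.mk _ [])) :=
  (ph2_aut S q).st S.T S.w S.hw _ S.h₀ fun l _ h => S.h₁ l (congrArg Prod.fst h)

theorem ph2_none {q : V} {x y : V × Option (Quotient (ph2_setoid S.P))}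
    (h : (ph2_st S q).T.Reach x y) (hy : y.2 = none) : x.2 = none := by
  obtain ⟨u, hu⟩ := h
  rw [(Aut.path_proj hu).2.2, hy]
  exact ph2_run_none q _

theorem ph2_rnon (q : V) : (ph2_st S q).RNon fun x => S.T.Reach q x.1 := by
  intro x hx γ γ' h h'
  obtain ⟨a1, a2, a3⟩ := Aut.path_proj h
  obtain ⟨b1, b2, b3⟩ := Aut.path_proj h'
  have c1 := (a3.trans (ph2_run a1 hx [])).symm.trans (b3.trans (ph2_run b1 hx []))
  have c2 : Sim (γ.map Prod.fst ++ []) (γ'.map Prod.fst ++ []) :=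
    Quotient.exact (Option.some.inj c1)
  rw [List.append_nil, List.append_nil] at c2
  rw [a2, b2]
  exact Aut.sim_deco (M := ph2_aut S q) (fun _ _ => trivial) c2 _

theorem ph2_lnon (hLN : S.LN) (q : V) :
    (ph2_st S q).LNon fun x => ∃ v, S.T.Cyc v ∧ S.T.Reach x.1 v := by
  intro x hx α α' h h'
  obtain ⟨a1, a2, -⟩ := Aut.path_proj h
  obtain ⟨b1, b2, -⟩ := Aut.path_proj h'
  rw [a2, b2]
  exact Aut.sim_deco (M := ph2_aut S q) (fun _ _ => trivial) (hLN x.1 hx _ _ a1 b1) _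

theorem ph2_equiv (q : V) : Nonempty ((ph2_st S q).G ≃* S.G) :=
  Aut.equiv (M := ph2_aut S q) _ fun _ ⟨p, hp, he⟩ => ⟨p, hp, he, fun _ _ => trivial⟩

theorem ph2_cyc {q : V} {x : V × Option (Quotient (ph2_setoid S.P))}
    (h : (ph2_st S q).T.Cyc x) (hx : ¬ S.T.Reach q x.1) : x.2 = none := by
  obtain ⟨l, rfl⟩ := h.exists_src
  exact ph2_delta_neg hx _

theorem ph2_path {W : Type} {r₀ r₁ : W} {S₂ S₃ : St W r₀ r₁} {K : W → Prop} (O : ElimOut S₂ K S₃)
    {x : W} (hx : ¬ S₂.T.After K x) {a : List S₃.P.L} :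
    ∀ {z : W}, S₃.T.Path z a x → S₂.T.Path z (a.map O.k) x := by
  induction a with
  | nil => exact fun h => h
  | cons l a ih =>
    intro z h
    refine ⟨(O.src l).symm.trans h.1, ?_⟩
    rcases O.tgt l with h1 | h1
    · exact h1 ▸ ih h.2
    · exact absurd (h1.reach (O.reach (Typed.Path.reach h.2))) hx

theorem phase2 (hfin : S.Fin) (hrel : S.AllRel) (hLN : S.LN) (hG : Nice S.G) {q : V}
    (hq : S.T.Cyc q) (hmax : ∀ q', S.T.Reach q q' → S.T.Cyc q' → S.T.Reach q' q)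
    (hH : ∀ α σ m z, Sim S.w (α ++ σ) → S.T.Path m σ q₁ → S.T.Scc q m →
      ¬ Hyp (S.T.Zout (S.T.Scc q)) σ z) :
    ∃ (V' : Type) (q₀' q₁' : V') (S' : St V' q₀' q₁'), S'.Fin ∧ S'.LN ∧ S'.mu < S.mu ∧
      Nonempty (S'.G ≃* S.G) := by
  obtain ⟨S₂, I₂, rel₂, ⟨e₂⟩, rn₂, ln₂, cl₅, cl₆⟩ := restrict (ph2_st S q)
  obtain ⟨e₁⟩ := ph2_equiv (S := S) q
  have hall : ∀ c κ, (ph2_aut S q).A c κ := fun _ _ => trivial
  have pr₂ : ∀ {x y}, S₂.T.Reach x y → S.T.Reach x.1 y.1 := fun h => Aut.reach_proj (I₂.reach h)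
  have aft : ∀ {x}, S₂.T.After (fun x => S.T.Scc q x.1) x → S.T.Reach q x.1 := by
    rintro x ⟨y, hy, h⟩
    exact hy.1.trans (pr₂ h)
  obtain ⟨S₃, ⟨O⟩⟩ := elim S₂ (fun x => S.T.Scc q x.1)
    (fun _ _ _ hx h1 h2 hx' => Typed.convex_scc q _ _ _ hx (pr₂ h1) (pr₂ h2) hx')
    (fun h => not_cyc_zero (hq.scc h))
    (fun l => by
      obtain ⟨_, _, -, -, h⟩ := rel₂.letter l
      exact h.reach)
    ((rn₂ _ (ph2_rnon q)).mono fun _ h => aft h)
    (fun l₂ hl => by
      obtain ⟨α₂, γ₂, h1, -, h2⟩ := rel₂.letter l₂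
      obtain ⟨a1, a2, -⟩ := Aut.path_proj (I₂.path.2 h2)
      have h1' : Sim S₂.w (α₂ ++ [l₂] ++ γ₂) := by simpa using h1
      have h3 : Sim (S₂.w.map I₂.k) ((α₂ ++ [l₂] ++ γ₂).map I₂.k) := I₂.lmap.sim h1'
      rw [I₂.hw] at h3
      have h4 := Aut.sim_proj (M := ph2_aut S q) h3
      rw [List.map_append, List.map_append] at h4
      have h5 : Sim S.w (((α₂ ++ [l₂]).map I₂.k).map Prod.fst ++ (γ₂.map I₂.k).map Prod.fst) := by
        have e := map_fst_deco (ph2_aut S q).δ S.w (some (Quotient.mk _ []))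
        exact (congrArg (fun u => Sim u _) e).mp h4
      obtain ⟨ρ, τ, m', b1, b2, b3, b4, b5⟩ := tight_exit hfin hrel hLN hG.2 hq hmax hl.2 a1
        fun σ' z hσ => hH _ σ' _ z (h5.trans (hσ.wl _)) (a1.sim hσ) hl.2
      have h6 := Aut.sim_deco hall b1 (some (Quotient.mk _ []))
      rw [deco_append] at h6
      obtain ⟨u', c1, c2⟩ := cl₅ _ γ₂ _ h1' (a2.symm ▸ h6)
      obtain ⟨ρ₂, τ₂, rfl, c3, c4⟩ := List.map_eq_append_iff.1 c1
      have c5 : S₂.T.Path (m', run (ph2_aut S q).δ τ (some (Quotient.mk _ []))) τ₂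
          (q₁, some (Quotient.mk _ [])) := I₂.path.1 (c4 ▸ Aut.path_deco b4 _)
      refine ⟨ρ₂, τ₂, _, (h2.sim c2).left c5, b3, c5, cl₆ (α₂ ++ [l₂]) ρ₂ τ₂ ?_ ?_⟩
      · rw [List.append_assoc]
        exact h1'.trans (c2.wl _)
      · rw [c3, c4]
        exact Aut.tight_deco hall b5 _ _)
  obtain ⟨e₃⟩ := O.equiv
  have hK : {c₃ : S₃.P.C | (S₂.T.e (O.kc c₃)).2 = none}.Finite := by
    have := hfin.2
    refine Set.Finite.of_finite_image (f := fun c₃ => (I₂.kc (O.kc c₃)).1.1) (Set.toFinite _) ?_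
    intro c hc c' hc' h
    have h1 : (I₂.kc (O.kc c)).1.2 = none := (congrArg Prod.snd (I₂.ends (O.kc c)).2).symm.trans hc
    have h2 : (I₂.kc (O.kc c')).1.2 = none :=
      (congrArg Prod.snd (I₂.ends (O.kc c')).2).symm.trans hc'
    exact O.injc (I₂.injc (Subtype.ext (Prod.ext h (h1.trans h2.symm))))
  obtain ⟨S₄, I₄, fin₄, ⟨e₄⟩, hKC⟩ :=
    finite_sub S₃ (hG.of_equiv (e₃.trans (e₂.trans e₁))).1 _ hK
  have cyc₄ : ∀ {x}, S₄.T.Cyc x → S.T.Cyc x.1 ∧ ¬ S.T.Reach q x.1 ∧ x.2 = none := by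
    intro x hx
    obtain ⟨h1, h2⟩ := O.cyc (I₄.cyc hx)
    have h3 := I₂.cyc h1
    have h4 : S.T.Cyc x.1 := Aut.cyc_proj h3
    have h5 : ¬ S.T.Reach q x.1 := fun h => h2 ⟨h, hmax _ h h4⟩
    exact ⟨h4, h5, ph2_cyc h3 h5⟩
  refine ⟨_, _, _, S₄, fin₄, ?_, ?_, ⟨e₄.trans (e₃.trans (e₂.trans e₁))⟩⟩
  · rintro x ⟨y, hy, hxy⟩ α α' h h'
    obtain ⟨y1, y2, y3⟩ := cyc₄ hy
    have r₂ := O.reach (I₄.reach hxy)
    have x2 : ¬ S₂.T.After (fun x => S.T.Scc q x.1) x := fun h => y2 (aft (h.reach r₂))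
    have x3 : x.2 = none := ph2_none (I₂.reach r₂) y3
    have p1 := ph2_path O x2 (I₄.path.2 h)
    have p2 := ph2_path O x2 (I₄.path.2 h')
    have s1 := ln₂ _ (ph2_lnon hLN q) x ⟨y.1, y1, pr₂ r₂⟩ _ _ p1 p2
    rw [List.map_map] at p1
    rw [List.map_map, List.map_map] at s1
    refine sim_lift (O.k ∘ I₄.k) (O.inj.comp I₄.inj) (fun b => S₂.T.Path _ b x)
      (fun t ht => Typed.path_tgt.2 (Typed.path_src.1 ht)) (fun t ht => ?_) p1 s1
    have r₃ := (Typed.path_src.1 ht).2.reach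
    obtain ⟨c₃, d1, d2⟩ := O.cell t.c fun h => x2 (h.reach r₃)
    obtain ⟨c₄, rfl⟩ := hKC (a := c₃) (ph2_none (I₂.reach (d1 ▸ r₃)) x3)
    exact ⟨c₄, fun b => by rw [d2, I₄.side, List.map_map]⟩
  · have := hfin.1
    have hf : {v | S.T.Cyc v}.Finite := Typed.finite_cyc
    have hsub : {x | S₄.T.Cyc x} ⊆ (fun v => (v, none)) '' ({v | S.T.Cyc v} \ {q}) := by
      intro x hx
      obtain ⟨y1, y2, y3⟩ := cyc₄ hx
      exact ⟨x.1, ⟨y1, fun h => y2 (h.symm ▸ Typed.Reach.refl q)⟩, Prod.ext rfl y3.symm⟩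
    exact ((Set.ncard_le_ncard hsub (hf.sdiff.image _)).trans
      (Set.ncard_image_le hf.sdiff)).trans_lt (Set.ncard_sdiff_singleton_lt_of_mem hq hf)

end St

end Pool.Agent.MP_1e5511_al

end

-- part MP_1e5511_al.TrackCore
section

set_option autoImplicit false

namespace Pool.Agent.MP_1e5511_al

/-- the group presented by squares -/
abbrev SqGroup {Γ I : Type} (g₁ g₂ g₃ g₄ : I → Γ) : Type :=
  PresentedGroup (Set.range (sqRelator g₁ g₂ g₃ g₄))

section Abstract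

variable {G Γ : Type} [Group G]

/-- translation of an edge -/
def tcTr (v : G) (a : G × Γ) : G × Γ := (v * a.1, a.2)

/-- moves of the types listed in `F` -/
def tcMv (F : Set (Γ × G × Γ)) (a b : G × Γ) : Prop := (a.2, a.1⁻¹ * b.1, b.2) ∈ F

/-- two edges lie on one track -/
def tcT (F : Set (Γ × G × Γ)) : G × Γ → G × Γ → Prop := Relation.EqvGen (tcMv F)

/-- a set of edges that is closed under the moves -/
def tcCl (F : Set (Γ × G × Γ)) (Y : Set (G × Γ)) : Prop := ∀ a b, tcMv F a b → (a ∈ Y ↔ b ∈ Y)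

/-- `sd` changes exactly across the edges of `Y` -/
def tcPar (o : Γ → G) (Y : Set (G × Γ)) (sd : G → Bool) : Prop :=
  ∀ u x, sd (u * o x) = sd u ↔ (u, x) ∉ Y

/-- `Y` separates `u` from `u'` -/
def tcSep (o : Γ → G) (Y : Set (G × Γ)) (u u' : G) : Prop := ∃ sd, tcPar o Y sd ∧ sd u ≠ sd u'

variable {o : Γ → G} {F : Set (Γ × G × Γ)}

theorem tc_tr_tr (v w : G) (a : G × Γ) : tcTr v (tcTr w a) = tcTr (v * w) a := by
  simp [tcTr, mul_assoc]

theorem tc_tr_one (a : G × Γ) : tcTr 1 a = a := by simp [tcTr]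

theorem tc_refl (a : G × Γ) : tcT F a a := Relation.EqvGen.refl a

theorem tc_symm {a b : G × Γ} (h : tcT F a b) : tcT F b a := Relation.EqvGen.symm _ _ h

theorem tc_trans {a b c : G × Γ} (h : tcT F a b) (h' : tcT F b c) : tcT F a c :=
  Relation.EqvGen.trans _ _ _ h h'

theorem tc_rel {a b : G × Γ} (h : tcMv F a b) : tcT F a b := Relation.EqvGen.rel _ _ h

theorem tc_T_tr (v : G) {a b : G × Γ} (h : tcT F a b) : tcT F (tcTr v a) (tcTr v b) := by
  induction h with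
  | rel a b h =>
    refine tc_rel ?_
    have h1 : (v * a.1)⁻¹ * (v * b.1) = a.1⁻¹ * b.1 := by group
    simpa only [tcMv, tcTr, h1] using h
  | refl a => exact tc_refl _
  | symm a b _ ih => exact tc_symm ih
  | trans a b c _ _ ih ih' => exact tc_trans ih ih'

theorem tc_cl_T {Y : Set (G × Γ)} (hY : tcCl F Y) {a b : G × Γ} (h : tcT F a b) :
    a ∈ Y ↔ b ∈ Y := by
  induction h with
  | rel a b h => exact hY a b h
  | refl a => exact Iff.rfl
  | symm a b _ ih => exact ih.symm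
  | trans a b c _ _ ih ih' => exact ih.trans ih'

theorem tc_cl_track (e : G × Γ) : tcCl F {a | tcT F e a} := fun _ _ h =>
  ⟨fun h' => tc_trans h' (tc_rel h), fun h' => tc_trans h' (tc_symm (tc_rel h))⟩

theorem tc_ind (hgen : ∀ S : Subgroup G, (∀ x, o x ∈ S) → ∀ g, g ∈ S) {P : G → Prop}
    (hP : ∀ u x, P u ↔ P (u * o x)) {u : G} (hu : P u) (u' : G) : P u' := by
  let S : Subgroup G :=
    { carrier := {g | ∀ v, P v ↔ P (v * g)}
      one_mem' := fun v => by rw [mul_one]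
      mul_mem' := fun {a b} ha hb v => by rw [← mul_assoc]; exact (ha v).trans (hb _)
      inv_mem' := fun {a} ha v => by
        have h := ha (v * a⁻¹)
        rw [inv_mul_cancel_right] at h
        exact h.symm }
  have h := hgen S (fun x v => hP v x) (u⁻¹ * u') u
  rw [mul_inv_cancel_left] at h
  exact h.1 hu

theorem tc_unique (hgen : ∀ S : Subgroup G, (∀ x, o x ∈ S) → ∀ g, g ∈ S) {Y : Set (G × Γ)}
    {u u' : G} (h : tcSep o Y u u') {sd : G → Bool} (hsd : tcPar o Y sd) : sd u ≠ sd u' := by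
  obtain ⟨sd', hsd', hne⟩ := h
  have h1 : xor (sd u') (sd' u') = xor (sd u) (sd' u) := by
    refine tc_ind hgen (P := fun v => xor (sd v) (sd' v) = xor (sd u) (sd' u)) (fun v x => ?_)
      rfl u'
    have h2 := (hsd v x).trans (hsd' v x).symm
    revert h2
    cases sd v <;> cases sd' v <;> cases sd (v * o x) <;> cases sd' (v * o x) <;> simp
  revert h1 hne
  cases sd u <;> cases sd' u <;> cases sd u' <;> cases sd' u' <;> simp

theorem tc_support (hgen : ∀ S : Subgroup G, (∀ x, o x ∈ S) → ∀ g, g ∈ S) (u u' : G) :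
    ∃ E : Set (G × Γ), E.Finite ∧ ∀ Y, tcSep o Y u u' → ∃ e ∈ E, e ∈ Y := by
  refine tc_ind hgen
    (P := fun u' => ∃ E : Set (G × Γ), E.Finite ∧ ∀ Y, tcSep o Y u u' → ∃ e ∈ E, e ∈ Y)
    (fun v x => ⟨?_, ?_⟩) (u := u) ⟨∅, Set.finite_empty, fun Y ⟨sd, _, h⟩ => absurd rfl h⟩ u'
  · rintro ⟨E, hE, h⟩
    refine ⟨insert (v, x) E, hE.insert _, fun Y ⟨sd, h1, h2⟩ => ?_⟩
    by_cases hY : (v, x) ∈ Y
    · exact ⟨_, Set.mem_insert _ _, hY⟩
    · obtain ⟨e, he, heY⟩ := h Y ⟨sd, h1, by rwa [(h1 v x).2 hY] at h2⟩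
      exact ⟨e, Set.mem_insert_of_mem _ he, heY⟩
  · rintro ⟨E, hE, h⟩
    refine ⟨insert (v, x) E, hE.insert _, fun Y ⟨sd, h1, h2⟩ => ?_⟩
    by_cases hY : (v, x) ∈ Y
    · exact ⟨_, Set.mem_insert _ _, hY⟩
    · obtain ⟨e, he, heY⟩ := h Y ⟨sd, h1, by rwa [(h1 v x).2 hY]⟩
      exact ⟨e, Set.mem_insert_of_mem _ he, heY⟩

theorem tc_par_tr (v : G) {Y : Set (G × Γ)} {sd : G → Bool} (h : tcPar o Y sd) :
    tcPar o {a | tcTr v a ∈ Y} fun u => sd (v * u) := fun u x => by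
  have h1 := h (v * u) x
  rw [mul_assoc] at h1
  exact h1

theorem tc_par_sum {Y Z : Set (G × Γ)} (hZ : Z ⊆ Y) {s t : G → Bool} (hs : tcPar o Z s)
    (ht : tcPar o (Y \ Z) t) : tcPar o Y fun u => xor (s u) (t u) := fun u x => by
  have h1 := hs u x
  have h2 := ht u x
  have h3 := @hZ (u, x)
  rw [Set.mem_sdiff] at h2
  beta_reduce
  revert h1 h2 h3
  by_cases hy : (u, x) ∈ Y <;> by_cases hz : (u, x) ∈ Z <;>
    cases s u <;> cases t u <;> cases s (u * o x) <;> cases t (u * o x) <;> simp [hy, hz]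

/-- a closed separating set contains a separating track -/
theorem tc_exists_track (hgen : ∀ S : Subgroup G, (∀ x, o x ∈ S) → ∀ g, g ∈ S)
    (hpar : ∀ Y, tcCl F Y → ∃ sd, tcPar o Y sd) {u u' : G} {Y : Set (G × Γ)} (hY : tcCl F Y)
    (h : tcSep o Y u u') : ∃ e ∈ Y, tcSep o {a | tcT F e a} u u' := by
  obtain ⟨E, hE, hEs⟩ := tc_support hgen u u'
  have key : ∀ A : Set (G × Γ), A.Finite → ∀ Y, tcCl F Y → E ∩ Y ⊆ A → tcSep o Y u u' →
      ∃ e ∈ Y, tcSep o {a | tcT F e a} u u' := by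
    intro A hA
    induction A, hA using Set.Finite.induction_on with
    | empty =>
      intro Y _ hs h
      obtain ⟨e, he, heY⟩ := hEs Y h
      exact absurd (hs ⟨he, heY⟩) (Set.notMem_empty e)
    | @insert f A _ _ ih =>
      intro Y hY hs h
      by_cases hf : f ∈ Y
      · have hsub : {a | tcT F f a} ⊆ Y := fun a ha => (tc_cl_T hY ha).1 hf
        have hcl : tcCl F (Y \ {a | tcT F f a}) := fun a b hab =>
          and_congr (hY a b hab) (not_congr (tc_cl_track f a b hab))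
        obtain ⟨s, hs'⟩ := hpar _ (tc_cl_track (F := F) f)
        obtain ⟨t, ht⟩ := hpar _ hcl
        have h1 := tc_unique hgen h (tc_par_sum hsub hs' ht)
        by_cases h2 : s u = s u'
        · have h3 : t u ≠ t u' := fun h3 => h1 (by simp only [h2, h3])
          obtain ⟨e, he, hes⟩ := ih _ hcl (fun a ha => by
            rcases hs ⟨ha.1, ha.2.1⟩ with rfl | h4
            · exact absurd (tc_refl _) ha.2.2
            · exact h4) ⟨t, ht, h3⟩
          exact ⟨e, he.1, hes⟩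
        · exact ⟨f, hf, s, hs', h2⟩
      · refine ih Y hY (fun a ha => ?_) h
        rcases hs ha with rfl | h4
        · exact absurd ha.2 hf
        · exact h4
  exact key E hE Y hY Set.inter_subset_left h

/-- the stabiliser of a track lies in a finitely generated group -/
theorem tc_stab (hF : F.Finite) (e₀ : G × Γ) :
    ∃ B : Set G, B.Finite ∧ (∀ b ∈ B, ∃ e, tcT F e₀ e ∧ tcT F e₀ (tcTr b e)) ∧
      ∀ v, tcT F e₀ (tcTr v e₀) → v ∈ Subgroup.closure B := by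
  classical
  have hc : ∀ x : Γ, ∃ w : G, (∃ u, tcT F e₀ (u, x)) → tcT F e₀ (w, x) := fun x => by
    by_cases h : ∃ u, tcT F e₀ (u, x)
    · obtain ⟨u, hu⟩ := h
      exact ⟨u, fun _ => hu⟩
    · exact ⟨1, fun h' => absurd h' h⟩
  choose c hc using hc
  let B : Set G := {b | b ∈ (fun f : Γ × G × Γ => c f.1 * f.2.1 * (c f.2.2)⁻¹) '' F ∧
    ∃ e, tcT F e₀ e ∧ tcT F e₀ (tcTr b e)}
  have key : ∀ a b, tcT F a b → tcT F e₀ a →
      (a.1 * (c a.2)⁻¹)⁻¹ * (b.1 * (c b.2)⁻¹) ∈ Subgroup.closure B := by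
    intro a b h
    induction h with
    | rel a b h =>
      intro ha
      have hb := tc_trans ha (tc_rel h)
      refine Subgroup.subset_closure ⟨⟨_, h, by group⟩, (c b.2, b.2), hc _ ⟨b.1, hb⟩, ?_⟩
      refine tc_trans (hc a.2 ⟨a.1, ha⟩) (tc_rel ?_)
      have h1 : (c a.2)⁻¹ * ((a.1 * (c a.2)⁻¹)⁻¹ * (b.1 * (c b.2)⁻¹) * c b.2) = a.1⁻¹ * b.1 := by
        group
      simpa only [tcMv, tcTr, h1] using h
    | refl a => intro _; rw [inv_mul_cancel]; exact Subgroup.one_mem _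
    | symm a b hab ih =>
      intro hb
      have h1 := Subgroup.inv_mem _ (ih (tc_trans hb (tc_symm hab)))
      rwa [mul_inv_rev, inv_inv] at h1
    | trans a b d hab _ ih ih' =>
      intro ha
      have h1 := Subgroup.mul_mem _ (ih ha) (ih' (tc_trans ha hab))
      rwa [mul_assoc, mul_inv_cancel_left] at h1
  refine ⟨B, (hF.image _).subset fun b hb => hb.1, fun b hb => hb.2, fun v hv => ?_⟩
  have h0 : tcT F e₀ (c e₀.2, e₀.2) := hc _ ⟨e₀.1, tc_refl _⟩
  have h1 := key _ _ (tc_trans (tc_symm h0) (tc_trans hv (tc_T_tr v h0))) h0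
  simpa [tcTr] using h1

/-- far along the axis a fixed translation does not cross the wall -/
theorem tc_far (hgen : ∀ S : Subgroup G, (∀ x, o x ∈ S) → ∀ g, g ∈ S) {W : Set (G × Γ)} {z : G}
    (hfin : ∀ e, {n : ℤ | tcTr (z ^ n) e ∈ W}.Finite) (v : G) :
    ∃ N : ℕ, ∀ n : ℤ, N ≤ n.natAbs → ∀ Y ⊆ W, ∀ sd, tcPar o Y sd → sd (z ^ n * v) = sd (z ^ n) := by
  obtain ⟨E, hE, hEs⟩ := tc_support hgen v 1
  obtain ⟨N, hN⟩ := ((hE.biUnion fun e _ => hfin e).image Int.natAbs).bddAbove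
  refine ⟨N + 1, fun n hn Y hY sd hsd => ?_⟩
  by_contra hne
  obtain ⟨e, he, heY⟩ := hEs _ ⟨_, tc_par_tr (z ^ n) hsd, by simpa using hne⟩
  have h1 : n.natAbs ≤ N := hN ⟨n, Set.mem_biUnion he (hY heY), rfl⟩
  omega

theorem tc_stable (hgen : ∀ S : Subgroup G, (∀ x, o x ∈ S) → ∀ g, g ∈ S) {W : Set (G × Γ)}
    {z : G} (hfin : ∀ e, {n : ℤ | tcTr (z ^ n) e ∈ W}.Finite) :
    ∃ N : ℕ, 0 < N ∧ ∀ M : ℕ, N ≤ M → ∀ Y ⊆ W, ∀ sd, tcPar o Y sd →
      sd (z ^ (M : ℤ)) = sd (z ^ (N : ℤ)) ∧ sd (z ^ (-M : ℤ)) = sd (z ^ (-N : ℤ)) := by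
  obtain ⟨N₁, h₁⟩ := tc_far hgen hfin z
  obtain ⟨N₂, h₂⟩ := tc_far hgen hfin z⁻¹
  refine ⟨N₁ + N₂ + 1, Nat.succ_pos _, fun M hM Y hY sd hsd => ?_⟩
  induction M, hM using Nat.le_induction with
  | base => exact ⟨rfl, rfl⟩
  | succ M hM ih =>
    have a₁ := h₁ M (by omega) Y hY sd hsd
    have a₂ := h₂ (-M) (by omega) Y hY sd hsd
    rw [← zpow_add_one] at a₁
    rw [← zpow_sub_one] at a₂
    have e₁ : ((M + 1 : ℕ) : ℤ) = M + 1 := by push_cast; rfl
    have e₂ : (-((M + 1 : ℕ) : ℤ)) = -M - 1 := by push_cast; ring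
    rw [e₂, e₁, a₁, a₂]
    exact ih

theorem tc_core (hgen : ∀ S : Subgroup G, (∀ x, o x ∈ S) → ∀ g, g ∈ S)
    (hpar : ∀ Y, tcCl F Y → ∃ sd, tcPar o Y sd) (hF : F.Finite) {W : Set (G × Γ)}
    (hW : tcCl F W) (z : G) (R : Set G) (hc : ∀ r ∈ R, Commute z r)
    (hR : ∀ r ∈ R, ∀ e ∈ W, tcTr r e ∈ W) (hfin : ∀ e, {n : ℤ | tcTr (z ^ n) e ∈ W}.Finite)
    (hsep : ∀ N : ℕ, 0 < N → tcSep o W (z ^ (N : ℤ)) (z ^ (-N : ℤ))) :
    ∃ B : Set G, B.Finite ∧ (∀ b ∈ B, ∃ e ∈ W, tcTr b e ∈ W) ∧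
      ∀ r ∈ R, r ∈ Subgroup.closure B := by
  obtain ⟨N, hN, hst⟩ := tc_stable hgen hfin
  obtain ⟨e₀, he₀, sd, hsd, hne⟩ := tc_exists_track hgen hpar hW (hsep N hN)
  obtain ⟨E, hE, hEs⟩ := tc_support hgen (z ^ (N : ℤ)) (z ^ (-N : ℤ))
  obtain ⟨B, hB, hB₁, hB₂⟩ := tc_stab hF e₀
  have hsub : ∀ e ∈ W, {a | tcT F e a} ⊆ W := fun e he a ha => (tc_cl_T hW ha).1 he
  have horb : ∀ r ∈ R, ∃ f ∈ E, tcT F (tcTr r e₀) f := by
    intro r hr
    have h1 := tc_par_tr r⁻¹ hsd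
    have h2 : {a | tcTr r⁻¹ a ∈ {a | tcT F e₀ a}} = {a | tcT F (tcTr r e₀) a} := by
      ext a
      refine ⟨fun h => ?_, fun h => ?_⟩
      · have h3 := tc_T_tr r h
        rwa [tc_tr_tr, mul_inv_cancel, tc_tr_one] at h3
      · have h3 := tc_T_tr r⁻¹ h
        rwa [tc_tr_tr, inv_mul_cancel, tc_tr_one] at h3
    rw [h2] at h1
    obtain ⟨N', hN'⟩ := tc_far hgen hfin r⁻¹
    have hcm : ∀ n : ℤ, r⁻¹ * z ^ n = z ^ n * r⁻¹ := fun n =>
      (((hc r hr).zpow_left n).inv_right).symm.eq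
    have a₁ := hst (N + N') (by omega) _ (hsub _ he₀) _ hsd
    have a₂ := hst (N + N') (by omega) _ (hsub _ (hR r hr _ he₀)) _ h1
    have a₃ := hN' ((N + N' : ℕ) : ℤ) (by omega) _ (hsub _ he₀) _ hsd
    have a₄ := hN' (-((N + N' : ℕ) : ℤ)) (by omega) _ (hsub _ he₀) _ hsd
    refine hEs _ ⟨_, h1, ?_⟩
    simp only [hcm] at a₂ ⊢
    rw [← a₂.1, ← a₂.2, a₃, a₄, a₁.1, a₁.2]
    exact hne
  have hch : ∀ f : G × Γ, ∃ q : G, tcTr q e₀ ∈ W ∧
      ((∃ r ∈ R, tcT F (tcTr r e₀) f) → tcT F (tcTr q e₀) f) := fun f => by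
    by_cases h : ∃ r ∈ R, tcT F (tcTr r e₀) f
    · obtain ⟨r, hr, h⟩ := h
      exact ⟨r, hR r hr _ he₀, fun _ => h⟩
    · exact ⟨1, by rwa [tc_tr_one], fun h' => absurd h' h⟩
  choose q hq₁ hq₂ using hch
  refine ⟨B ∪ q '' E, hB.union (hE.image _), ?_, fun r hr => ?_⟩
  · rintro b (hb | ⟨f, _, rfl⟩)
    · obtain ⟨e, h1, h2⟩ := hB₁ b hb
      exact ⟨e, hsub _ he₀ h1, hsub _ he₀ h2⟩
    · exact ⟨e₀, he₀, hq₁ f⟩
  · obtain ⟨f, hf, h⟩ := horb r hr
    have h1 := tc_T_tr (q f)⁻¹ (tc_trans (hq₂ f ⟨r, hr, h⟩) (tc_symm h))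
    rw [tc_tr_tr, tc_tr_tr, inv_mul_cancel, tc_tr_one] at h1
    have h2 := Subgroup.closure_mono (Set.subset_union_left (t := q '' E)) (hB₂ _ h1)
    have h3 : q f ∈ Subgroup.closure (B ∪ q '' E) :=
      Subgroup.subset_closure (Or.inr ⟨f, hf, rfl⟩)
    have h4 := Subgroup.mul_mem _ h3 h2
    rwa [mul_inv_cancel_left] at h4

end Abstract

section Squares

variable {Γ I : Type} (g₁ g₂ g₃ g₄ : I → Γ)

/-- the types of the moves across squares -/
def tcF : Set (Γ × SqGroup g₁ g₂ g₃ g₄ × Γ) :=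
  Set.range (fun i => (g₁ i, PresentedGroup.of (g₃ i), g₄ i)) ∪
    Set.range fun i => (g₃ i, PresentedGroup.of (g₁ i), g₂ i)

theorem tc_cl_iff (Y : Set (SqGroup g₁ g₂ g₃ g₄ × Γ)) : tcCl (tcF g₁ g₂ g₃ g₄) Y ↔
    (∀ u i, (u, g₁ i) ∈ Y ↔ (u * PresentedGroup.of (g₃ i), g₄ i) ∈ Y) ∧
    ∀ u i, (u, g₃ i) ∈ Y ↔ (u * PresentedGroup.of (g₁ i), g₂ i) ∈ Y := by
  refine ⟨fun h => ⟨fun u i => h _ _ (Or.inl ⟨i, by simp⟩), fun u i => h _ _ (Or.inr ⟨i, by simp⟩)⟩,
    ?_⟩
  rintro ⟨h1, h2⟩ ⟨u, x⟩ ⟨u', x'⟩ (⟨i, hi⟩ | ⟨i, hi⟩)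
  · simp only [Prod.mk.injEq] at hi
    obtain ⟨rfl, h3, rfl⟩ := hi
    rw [h1, h3, mul_inv_cancel_left]
  · simp only [Prod.mk.injEq] at hi
    obtain ⟨rfl, h3, rfl⟩ := hi
    rw [h2, h3, mul_inv_cancel_left]

theorem tc_sq (i : I) : (PresentedGroup.of (g₁ i) * PresentedGroup.of (g₂ i) : SqGroup g₁ g₂ g₃ g₄)
    = PresentedGroup.of (g₃ i) * PresentedGroup.of (g₄ i) := by
  have h : PresentedGroup.mk (Set.range (sqRelator g₁ g₂ g₃ g₄)) (sqRelator g₁ g₂ g₃ g₄ i) = 1 :=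
    PresentedGroup.one_of_mem ⟨_, rfl⟩
  simp only [sqRelator, map_mul, map_inv] at h
  exact mul_inv_eq_one.1 h

open Classical in
/-- the action of a generator on the double cover defined by `Y` -/
noncomputable def tcRho {G : Type} [Group G] (o : Γ → G) (Y : Set (G × Γ)) (x : Γ) :
    Equiv.Perm (G × Bool) where
  toFun p := (p.1 * o x, xor p.2 (decide ((p.1, x) ∈ Y)))
  invFun p := (p.1 * (o x)⁻¹, xor p.2 (decide ((p.1 * (o x)⁻¹, x) ∈ Y)))
  left_inv p := by simp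
  right_inv p := by simp

theorem tc_exists_par (Y : Set (SqGroup g₁ g₂ g₃ g₄ × Γ)) (hY : tcCl (tcF g₁ g₂ g₃ g₄) Y) :
    ∃ sd, tcPar PresentedGroup.of Y sd := by
  classical
  obtain ⟨h1, h2⟩ := (tc_cl_iff g₁ g₂ g₃ g₄ Y).1 hY
  let Φ : SqGroup g₁ g₂ g₃ g₄ →* Equiv.Perm (SqGroup g₁ g₂ g₃ g₄ × Bool) :=
    PresentedGroup.toGroup (f := fun x => (tcRho PresentedGroup.of Y x)⁻¹) (by
      rintro _ ⟨i, rfl⟩
      simp only [sqRelator, map_mul, map_inv, FreeGroup.lift_apply_of]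
      rw [mul_inv_eq_one, ← mul_inv_rev, ← mul_inv_rev, inv_inj]
      refine Equiv.ext fun p => Prod.ext ?_ ?_
      · simp only [Equiv.Perm.mul_apply, tcRho, Equiv.coe_fn_mk, mul_assoc]
        rw [tc_sq]
      · simp only [Equiv.Perm.mul_apply, tcRho, Equiv.coe_fn_mk, ← h1, ← h2]
        rw [Bool.xor_right_comm])
  have hΦ : ∀ x, Φ (PresentedGroup.of x) = (tcRho PresentedGroup.of Y x)⁻¹ := fun x =>
    PresentedGroup.toGroup.of _
  have hstep : ∀ u x, (Φ (u * PresentedGroup.of x))⁻¹ (1, false) =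
      tcRho PresentedGroup.of Y x ((Φ u)⁻¹ (1, false)) := fun u x => by
    rw [map_mul, mul_inv_rev, hΦ, inv_inv, Equiv.Perm.mul_apply]
  have hfst : ∀ u, ((Φ u)⁻¹ (1, false)).1 = u := fun u => by
    refine tc_ind (PresentedGroup.generated_by _) (P := fun u => ((Φ u)⁻¹ (1, false)).1 = u)
      (fun v x => ?_) (u := 1) (by simp) u
    rw [hstep]
    exact (mul_left_inj _).symm
  refine ⟨fun u => ((Φ u)⁻¹ (1, false)).2, fun u x => ?_⟩
  beta_reduce
  rw [hstep]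
  simp only [tcRho, Equiv.coe_fn_mk, hfst]
  cases ((Φ u)⁻¹ (1, false)).2 <;> simp

theorem tc_fin_rel {G : Type} [Group G] (r : I → G) {t : G}
    (ht : t ∈ Subgroup.normalClosure (Set.range r)) :
    ∃ J : Set I, J.Finite ∧ t ∈ Subgroup.normalClosure (r '' J) := by
  let S : Subgroup G :=
    { carrier := {t | ∃ J : Set I, J.Finite ∧ t ∈ Subgroup.normalClosure (r '' J)}
      one_mem' := ⟨∅, Set.finite_empty, Subgroup.one_mem _⟩
      mul_mem' := fun ⟨J, hJ, ha⟩ ⟨K, hK, hb⟩ => ⟨J ∪ K, hJ.union hK, Subgroup.mul_mem _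
        (Subgroup.normalClosure_mono (Set.image_mono Set.subset_union_left) ha)
        (Subgroup.normalClosure_mono (Set.image_mono Set.subset_union_right) hb)⟩
      inv_mem' := fun ⟨J, hJ, ha⟩ => ⟨J, hJ, Subgroup.inv_mem _ ha⟩ }
  have : S.Normal := ⟨fun _ ⟨J, hJ, ha⟩ g =>
    ⟨J, hJ, Subgroup.normalClosure_normal.conj_mem _ ha g⟩⟩
  refine Subgroup.normalClosure_le_normal (N := S) ?_ ht
  rintro _ ⟨i, rfl⟩
  exact ⟨{i}, Set.finite_singleton i, Subgroup.subset_normalClosure ⟨i, rfl, rfl⟩⟩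

theorem tc_section {H : Type} [Group H] (hH : Group.IsFinitelyPresented H)
    (ι : H →* SqGroup g₁ g₂ g₃ g₄) : ∃ J : Set I, J.Finite ∧
      ∃ (σ : H →* SqGroup (fun j : J => g₁ j) (fun j => g₂ j) (fun j => g₃ j) fun j => g₄ j)
        (π : SqGroup (fun j : J => g₁ j) (fun j => g₂ j) (fun j => g₃ j) (fun j => g₄ j) →*
          SqGroup g₁ g₂ g₃ g₄),
        (∀ x, π (PresentedGroup.of x) = PresentedGroup.of x) ∧ ∀ h, π (σ h) = ι h := by
  obtain ⟨n, φ, hφ, T, hT, hTφ⟩ := hH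
  choose w hw using fun k : Fin n =>
    PresentedGroup.mk_surjective (Set.range (sqRelator g₁ g₂ g₃ g₄)) (ι (φ (FreeGroup.of k)))
  have hψ : ∀ y, PresentedGroup.mk (Set.range (sqRelator g₁ g₂ g₃ g₄)) (FreeGroup.lift w y) =
      ι (φ y) := fun y => by
    have h : (PresentedGroup.mk (Set.range (sqRelator g₁ g₂ g₃ g₄))).comp (FreeGroup.lift w) =
        ι.comp φ := FreeGroup.ext_hom _ _ fun k => by simp [hw]
    exact DFunLike.congr_fun h y
  have hJ : ∀ t : T, ∃ J : Set I, J.Finite ∧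
      FreeGroup.lift w t.1 ∈ Subgroup.normalClosure (sqRelator g₁ g₂ g₃ g₄ '' J) := fun t => by
    refine tc_fin_rel _ (PresentedGroup.mk_eq_one_iff.1 ?_)
    have h : t.1 ∈ φ.ker := hTφ ▸ Subgroup.subset_normalClosure t.2
    rw [hψ, MonoidHom.mem_ker.1 h, map_one]
  choose K hK hKw using hJ
  have := hT.to_subtype
  refine ⟨⋃ t, K t, Set.finite_iUnion hK, ?_⟩
  generalize hJ : (⋃ t, K t) = J
  have hrange : Set.range (sqRelator (fun j : J => g₁ j) (fun j => g₂ j) (fun j => g₃ j)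
      fun j => g₄ j) = sqRelator g₁ g₂ g₃ g₄ '' J := by
    rw [Set.image_eq_range]; rfl
  let ψ := (PresentedGroup.mk (Set.range (sqRelator (fun j : J => g₁ j) (fun j => g₂ j)
    (fun j => g₃ j) fun j => g₄ j))).comp (FreeGroup.lift w)
  have hker : φ.ker ≤ ψ.ker := by
    rw [← hTφ]
    refine Subgroup.normalClosure_le_normal fun t ht => ?_
    refine MonoidHom.mem_ker.2 (PresentedGroup.mk_eq_one_iff.2 ?_)
    rw [hrange]
    refine Subgroup.normalClosure_mono (Set.image_mono ?_) (hKw ⟨t, ht⟩)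
    rw [← hJ]
    exact Set.subset_iUnion K _
  refine ⟨φ.liftOfSurjective hφ ⟨ψ, hker⟩, PresentedGroup.map (MonoidHom.id _) ?_,
    fun x => rfl, fun h => ?_⟩
  · rintro _ ⟨j, rfl⟩
    exact ⟨j.1, rfl⟩
  · obtain ⟨y, rfl⟩ := hφ h
    rw [MonoidHom.liftOfSurjective, MonoidHom.liftOfRightInverse_comp_apply, ← hψ]
    rfl

end Squares

/-- tracks: a subgroup that centralises an element crossing a wall and preserves the wall lies in
a finitely generated group of elements that do not move the wall off itself -/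
theorem trackCore {Γ I : Type} (g₁ g₂ g₃ g₄ : I → Γ) (W : SqGroup g₁ g₂ g₃ g₄ → Γ → Prop)
    (hW₁ : ∀ u i, W u (g₁ i) ↔ W (u * PresentedGroup.of (g₃ i)) (g₄ i))
    (hW₂ : ∀ u i, W u (g₃ i) ↔ W (u * PresentedGroup.of (g₁ i)) (g₂ i))
    {H : Type} [Group H] (hH : Group.IsFinitelyPresented H) (ι : H →* SqGroup g₁ g₂ g₃ g₄)
    (z : H) (R : Subgroup H) (hc : ∀ r ∈ R, Commute z r)
    (hR : ∀ r ∈ R, ∀ u x, W u x → W (ι r * u) x)
    (hfin : ∀ u x, {n : ℤ | W (ι (z ^ n) * u) x}.Finite)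
    (hsep : ∀ sd : SqGroup g₁ g₂ g₃ g₄ → Bool,
      (∀ u x, sd (u * PresentedGroup.of x) = sd u ↔ ¬ W u x) →
      ∀ N : ℕ, 0 < N → sd (ι (z ^ N)) ≠ sd (ι (z ^ N))⁻¹) :
    ∃ B : Set (SqGroup g₁ g₂ g₃ g₄), B.Finite ∧ (∀ b ∈ B, ∃ u x, W u x ∧ W (b * u) x) ∧
      ∀ r ∈ R, ι r ∈ Subgroup.closure B := by
  obtain ⟨J, hJ, σ, π, hπ, hσ⟩ := tc_section g₁ g₂ g₃ g₄ hH ι
  have := hJ.to_subtype
  obtain ⟨sd, hsd⟩ := tc_exists_par g₁ g₂ g₃ g₄ {a | W a.1 a.2}
    ((tc_cl_iff g₁ g₂ g₃ g₄ _).2 ⟨hW₁, hW₂⟩)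
  obtain ⟨B, hB, hB₁, hB₂⟩ := tc_core (PresentedGroup.generated_by _)
    (tc_exists_par (fun j : J => g₁ j) (fun j => g₂ j) (fun j => g₃ j) fun j => g₄ j)
    ((Set.finite_range _).union (Set.finite_range _)) (W := {a | W (π a.1) a.2})
    ((tc_cl_iff _ _ _ _ _).2 ⟨fun u j => by simpa [hπ] using hW₁ (π u) j,
      fun u j => by simpa [hπ] using hW₂ (π u) j⟩) (σ z) (σ '' R)
    (by rintro _ ⟨r, hr, rfl⟩; exact (hc r hr).map σ)
    (by
      rintro _ ⟨r, hr, rfl⟩ e he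
      simpa [tcTr, hσ] using hR r hr _ _ he)
    (fun e => by
      simpa only [tcTr, Set.mem_ofPred_eq, map_mul, ← map_zpow σ, hσ] using hfin (π e.1) e.2)
    (fun N hN => ⟨fun u => sd (π u), fun u x => by simpa [hπ] using hsd (π u) x, by
      simpa [hσ] using hsep sd hsd N hN⟩)
  refine ⟨π '' B, hB.image _, ?_, fun r hr => ?_⟩
  · rintro _ ⟨b, hb, rfl⟩
    obtain ⟨e, h1, h2⟩ := hB₁ b hb
    exact ⟨π e.1, e.2, h1, by simpa [tcTr] using h2⟩
  · rw [← MonoidHom.map_closure, ← hσ]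
    exact Subgroup.mem_map_of_mem _ (hB₂ _ ⟨r, hr, rfl⟩)

end Pool.Agent.MP_1e5511_al

end

-- part MP_1e5511_al.Track
section

set_option autoImplicit false

namespace Pool.Agent.MP_1e5511_al

namespace Pres

variable {P : Pres}

theorem track_pow_le (Q : P.DS → Prop) {ω : List P.L} {g : P.U} (h : Conn ω g ω) (k : ℕ) :
    cnt Q ω (g ^ k) ≤ k * cnt Q ω g := by
  induction k with
  | zero => simp
  | succ k ih =>
    rw [pow_succ, Nat.succ_mul]
    exact (Conn.cnt_mul_le Q (h.pow k) h).trans (by omega)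

theorem track_conj {Z : P.C → Prop} {α α' : List P.L} {z β : P.U} (hz : Hyp Z α z)
    (hβ : Conn α β α') (hd : dZ Z α' (β⁻¹ * z * β) ≤ dZ Z α z) :
    Hyp Z α' (β⁻¹ * z * β) ∧ dZ Z α' (β⁻¹ * z * β) = dZ Z α z := by
  have hc : Conn α' (β⁻¹ * z * β) α' := (hβ.symm.trans hz.1).trans hβ
  have key : ∀ k : ℕ, dZ Z α' ((β⁻¹ * z * β) ^ k) = k * dZ Z α z := by
    intro k
    refine le_antisymm ((track_pow_le _ hc k).trans (Nat.mul_le_mul_left k hd)) ?_
    by_contra hlt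
    obtain ⟨m, hm⟩ : ∃ m, m = dZ Z α β + dZ Z α' β⁻¹ + 1 := ⟨_, rfl⟩
    have e : z ^ (k * m) = β * ((β⁻¹ * z * β) ^ k) ^ m * β⁻¹ := by
      rw [← pow_mul]
      have := conj_pow (a := β⁻¹) (b := z) (i := k * m)
      rw [inv_inv] at this
      rw [this]; group
    have h1 := hz.2.2 (k * m)
    have h2 := Conn.cnt_mul_le (fun t => Z t.c) (hβ.trans ((hc.pow k).pow m)) hβ.symm
    have h3 := Conn.cnt_mul_le (fun t => Z t.c) hβ ((hc.pow k).pow m)
    have h4 := track_pow_le (fun t => Z t.c) (hc.pow k) m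
    rw [← e] at h2
    unfold dZ at *
    have h5 := Nat.mul_le_mul_left m (Nat.succ_le_of_lt (not_le.1 hlt))
    rw [Nat.mul_succ, ← mul_assoc, mul_comm m k] at h5
    omega
  have h1 : dZ Z α' (β⁻¹ * z * β) = dZ Z α z := by simpa using key 1
  exact ⟨⟨hc, h1 ▸ hz.2.1, fun k => by rw [key, h1]⟩, h1⟩

theorem track_inv {Z : P.C → Prop} {α : List P.L} {z : P.U} (hz : Hyp Z α z) : Hyp Z α z⁻¹ := by
  have h : ∀ k : ℕ, dZ Z α (z⁻¹ ^ k) = dZ Z α (z ^ k) := fun k => by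
    rw [inv_pow]; exact (hz.1.pow k).cnt_inv (wallInv_cell Z)
  have h1 : dZ Z α z⁻¹ = dZ Z α z := by simpa using h 1
  exact ⟨hz.1.symm, h1 ▸ hz.2.1, fun k => by rw [h, h1, hz.2.2]⟩

theorem track_rot {Z : P.C → Prop} {α : List P.L} {p : List P.DS} (hp : Geo α p α)
    (hz : Hyp Z α (ev p)) {t : P.DS} (ht : t ∈ p) (hZ : Z t.c) :
    ∃ z, Hyp Z t.src z ∧ dZ Z t.tgt (t.ev⁻¹ * z) + 1 ≤ dZ Z t.src z := by
  have hn := hp.cnt_eq (wallInv_cell Z)
  obtain ⟨p₁, p₂, rfl⟩ := List.append_of_mem ht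
  obtain ⟨u, h₁, rfl, h₂⟩ := isPath_append.1 hp.1
  have e : (ev p₁)⁻¹ * ev (p₁ ++ t :: p₂) * ev p₁ = ev (t :: (p₂ ++ p₁)) := by simp [mul_assoc]
  have h3 := IsPath.cnt_le (fun t => Z t.c) (h₂.append h₁)
  have h4 := IsPath.cnt_le (fun t => Z t.c) (show IsPath t.src (t :: (p₂ ++ p₁)) t.src from
    ⟨rfl, h₂.append h₁⟩)
  rw [num_cons_pos (Q := fun t => Z t.c) hZ] at h4
  rw [num_append, num_cons_pos (Q := fun t => Z t.c) hZ] at hn
  rw [num_append] at h3 h4
  obtain ⟨h5, h6⟩ := track_conj hz h₁.conn (by rw [e]; unfold dZ; omega)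
  refine ⟨_, h5, ?_⟩
  rw [h6, e, ev_cons, inv_mul_cancel_left]
  unfold dZ
  omega

theorem track_norm {Z : P.C → Prop} {α : List P.L} {z : P.U} (hz : Hyp Z α z) :
    ∃ (t : P.DS) (z' : P.U), t.e = false ∧ Z t.c ∧ Sim α t.src ∧ Hyp Z t.src z' ∧
      dZ Z t.tgt (t.ev⁻¹ * z') + 1 ≤ dZ Z t.src z' := by
  obtain ⟨p, hp, rfl⟩ := hz.1.exists_geo
  have hn := hp.cnt_eq (wallInv_cell Z)
  have h0 : num (fun t => Z t.c) p ≠ 0 := by have := hz.2.1; unfold dZ at this; omega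
  rw [ne_eq, num_eq_zero] at h0
  push Not at h0
  obtain ⟨t, ht, hZ⟩ := h0
  cases he : t.e
  · obtain ⟨z', h⟩ := track_rot hp hz ht hZ
    exact ⟨t, z', he, hZ, hp.1.sim_of_mem ht, h⟩
  · have ht' : t.inv ∈ pinv p := mem_pinv.2 (by simpa using ht)
    obtain ⟨z', h⟩ := track_rot hp.pinv (by rw [ev_pinv]; exact track_inv hz) ht' hZ
    exact ⟨t.inv, z', by simp [he], hZ, hp.pinv.1.sim_of_mem ht', h⟩

theorem track_connL {a a' : List P.L} {g : P.U} (h : Conn a g a') (s μ : List P.L) :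
    Conn (a ++ s ++ μ) (wh [] (s ++ μ) g) (a' ++ s ++ μ) := by simpa using h.wr (s ++ μ)

theorem track_swap {a a' μ μ' : List P.L} {g h : P.U} (hg : Conn a g a') (hh : Conn μ h μ')
    (s : List P.L) :
    wh [] (s ++ μ) g * wh (a' ++ s) [] h = wh (a ++ s) [] h * wh [] (s ++ μ') g := by
  simpa using interchange hg (hh.wl s)

/-- the edges of the wall of the step -/
def TrackW (a s μ : List P.L) (u : P.U) (a' b' : List P.L) : Prop :=
  ∃ gL gR, Conn a gL a' ∧ Conn μ gR b' ∧ u = wh [] (s ++ μ) gL * wh (a' ++ s) [] gR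

theorem track_WR {a s μ a' b' b'' : List P.L} {u g : P.U} (h : TrackW a s μ u a' b')
    (hg : Conn b' g b'') : TrackW a s μ (u * wh (a' ++ s) [] g) a' b'' := by
  obtain ⟨gL, gR, h1, h2, rfl⟩ := h
  exact ⟨gL, gR * g, h1, h2.trans hg, by rw [map_mul, mul_assoc]⟩

theorem track_WL {a s μ a' a'' b' : List P.L} {u g : P.U} (h : TrackW a s μ u a' b')
    (hg : Conn a' g a'') : TrackW a s μ (u * wh [] (s ++ b') g) a'' b' := by
  obtain ⟨gL, gR, h1, h2, rfl⟩ := h
  exact ⟨gL * g, gR, h1.trans hg, h2, by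
    rw [map_mul, mul_assoc, mul_assoc, track_swap hg h2 s]⟩

theorem track_stab {a s μ a' b' : List P.L} {u b : P.U} (h : TrackW a s μ u a' b')
    (h' : TrackW a s μ (b * u) a' b') : TrackW a s μ b a μ := by
  obtain ⟨gL, gR, h1, h2, rfl⟩ := h
  have := track_WL (track_WR h' h2.symm) h1.symm
  simpa [mul_assoc] using this

theorem track_zero {Z : P.C → Prop} {a μ : List P.L} {c : P.C} (hc : Z c)
    (hN : NoPar Z (a ++ P.side c false ++ μ)) {b : P.U} (h : TrackW a (P.side c false) μ b a μ) :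
    dZ Z (a ++ P.side c false ++ μ) b = 0 := by
  obtain ⟨_, _, ⟨pL, h1, rfl⟩, ⟨pR, h2, rfl⟩, rfl⟩ := h
  have h3 : IsPath (a ++ P.side c false ++ μ) (pL.map (DS.wh [] (P.side c false ++ μ)))
      (a ++ P.side c false ++ μ) := by simpa using h1.wh [] (P.side c false ++ μ)
  have h4 : IsPath (a ++ P.side c false ++ μ) (pR.map (DS.wh (a ++ P.side c false) []))
      (a ++ P.side c false ++ μ) := by simpa using h2.wh (a ++ P.side c false) []
  have h5 := IsPath.cnt_le (fun t => Z t.c) (h3.append h4)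
  rw [ev_append, ev_map_wh, ev_map_wh, num_eq_zero.2] at h5
  · exact Nat.le_zero.1 h5
  · intro t ht hZ
    rcases List.mem_append.1 ht with ht | ht <;> obtain ⟨q, hq, rfl⟩ := List.mem_map.1 ht
    · refine hN _ _ _ _ (Par.left q.a q.c q.e q.b c false μ) ?_ hZ hc
      simpa [DS.src] using (h1.sim_of_mem hq).wr (P.side c false ++ μ)
    · refine hN _ _ _ _ (Par.left a c false q.a q.c q.e q.b) ?_ hc hZ
      simpa [DS.src] using (h2.sim_of_mem hq).wl (a ++ P.side c false)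

theorem track_walkL {c : P.C} {e : Bool} {μ a' ω' : List P.L} (p : List P.DS) :
    ∀ {a : List P.L} {g : P.U}, IsPath a p a' → Conn (a ++ P.side c e ++ μ) g ω' →
      (Front (a ++ P.side c e ++ μ) g ⟨a, c, e, μ⟩ ↔
        Front (a' ++ P.side c e ++ μ) ((wh [] (P.side c e ++ μ) (ev p))⁻¹ * g) ⟨a', c, e, μ⟩) := by
  induction p with
  | nil => intro a g h _; obtain rfl := isPath_nil.1 h; simp
  | cons q p ih =>
    rintro a g ⟨rfl, h⟩ hg
    have hp : Par (q.wh [] (P.side c e ++ μ)) ⟨q.src, c, e, μ⟩ ⟨q.tgt, c, e, μ⟩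
        (q.wh [] (P.side c (!e) ++ μ)) := by
      simpa [DS.wh, DS.src, DS.tgt] using Par.left (P := P) q.a q.c q.e q.b c e μ
    rw [Front.par hg (by simp) hp]
    have := ih h ((track_connL (Conn.step q) (P.side c e) μ).symm.trans hg)
    simpa [mul_assoc] using this

theorem track_walkR {c : P.C} {e : Bool} {a b' ω' : List P.L} (p : List P.DS) :
    ∀ {μ : List P.L} {g : P.U}, IsPath μ p b' → Conn (a ++ P.side c e ++ μ) g ω' →
      (Front (a ++ P.side c e ++ μ) g ⟨a, c, e, μ⟩ ↔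
        Front (a ++ P.side c e ++ b') ((wh (a ++ P.side c e) [] (ev p))⁻¹ * g) ⟨a, c, e, b'⟩) := by
  induction p with
  | nil => intro μ g h _; obtain rfl := isPath_nil.1 h; simp
  | cons q p ih =>
    rintro μ g ⟨rfl, h⟩ hg
    have hp : Par (q.wh (a ++ P.side c e) []) ⟨a, c, e, q.src⟩ ⟨a, c, e, q.tgt⟩
        (q.wh (a ++ P.side c (!e)) []) := by
      simpa [DS.wh, DS.src, DS.tgt] using Par.right (P := P) a c e q.a q.c q.e q.b
    rw [Front.par hg (by simp) hp]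
    have := ih h (((Conn.step q).wl (a ++ P.side c e)).symm.trans hg)
    simpa [mul_assoc] using this

theorem track_walk {c : P.C} {e : Bool} {a μ a' b' ω' : List P.L} {u g : P.U}
    (h : TrackW a (P.side c e) μ u a' b') (hg : Conn (a ++ P.side c e ++ μ) g ω') :
    Front (a ++ P.side c e ++ μ) g ⟨a, c, e, μ⟩ ↔
      Front (a' ++ P.side c e ++ b') (u⁻¹ * g) ⟨a', c, e, b'⟩ := by
  obtain ⟨_, _, ⟨pL, h1, rfl⟩, ⟨pR, h2, rfl⟩, rfl⟩ := h
  rw [track_walkL pL h1 hg, track_walkR pR h2 ((track_connL h1.conn _ μ).symm.trans hg),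
    mul_inv_rev, mul_assoc]

theorem track_not_front_one (ω : List P.L) (t : P.DS) : ¬ Front ω 1 t := by
  rintro ⟨-, h⟩
  simp at h

theorem track_front_self (t : P.DS) : Front t.src t.ev t := by
  refine ⟨rfl, (len_step (Conn.step t) rfl).resolve_right ?_⟩
  simp

theorem track_front_eq {t y : P.DS} (h : Front t.src t.ev y) : y = t := by
  rcases Front.eq_or_par (Conn.step t) (track_front_self t) h with h1 | ⟨t', s', hp⟩
  · exact h1.symm
  · rw [Front.par (Conn.step t) rfl hp, inv_mul_cancel] at h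
    exact (track_not_front_one _ _ h).elim

theorem track_up {T q : P.DS} {u : P.U} (hu : Conn T.src u q.src)
    (hl : len T.src (u * q.ev) = len T.src u + 1)
    (hf : ¬ (Front T.src (u * q.ev) T ↔ Front T.src u T)) :
    q.c = T.c ∧ q.e = T.e ∧ TrackW T.a (P.side T.c T.e) T.b u q.a q.b := by
  have geo : ∀ p, Geo T.src p q.src → ev p = u → Geo T.src (p ++ [q]) q.tgt := by
    rintro p hp rfl
    exact ⟨hp.1.append (by simp), by simp [hl, hp.2]⟩
  have h1 : Front T.src u T → Front T.src (u * q.ev) T := by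
    intro h
    obtain ⟨p, hp, rfl⟩ := Front.exists_geo hu h
    simpa [mul_assoc] using Geo.front (p := p ++ [q]) (geo _ hp rfl)
  obtain ⟨p, hp, rfl⟩ := hu.exists_geo
  have h2 : Front T.src (ev (p ++ [q])) T := by
    rw [ev_append, ev_cons, ev_nil, mul_one]; tauto
  rcases (geo p hp rfl).front_append hp.1 h2 with h | ⟨a', b', pL, pR, h3, h4, -, -, h5, -, h6⟩
  · tauto
  · rw [ev_cons, ev_nil, mul_one] at h6
    obtain rfl := track_front_eq h6
    exact ⟨rfl, rfl, _, _, h3.conn, h4.conn, h5⟩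

theorem track_sep {T q : P.DS} {u : P.U} (hu : Conn T.src u q.src) (he : q.e = T.e) :
    (q.c = T.c ∧ TrackW T.a (P.side T.c T.e) T.b u q.a q.b) ↔
      ¬ (Front T.src (u * q.ev) T ↔ Front T.src u T) := by
  have hu' := hu.trans (Conn.step q)
  constructor
  · obtain ⟨a, c, e, μ⟩ := T
    obtain ⟨a', c', e', b'⟩ := q
    rintro ⟨rfl, h⟩
    obtain rfl : e' = e := he
    have h1 := (track_walk h hu').2 (by
      rw [inv_mul_cancel_left]; exact track_front_self ⟨a', c', e', b'⟩)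
    have h2 := (track_walk h hu).not.2 (by rw [inv_mul_cancel]; exact track_not_front_one _ _)
    exact fun h => h2 (h.1 h1)
  · intro hf
    have h1 := len_step hu.symm (t := q) rfl
    rw [← mul_inv_rev, hu'.len_inv, hu.len_inv] at h1
    rcases h1 with h1 | h1
    · have := (track_up (q := q.inv) (u := u * q.ev) hu' (by simpa using h1.symm)
        (by simpa using fun h => hf h.symm)).2.1
      rw [DS.inv_e, he] at this
      simp at this
    · exact ⟨(track_up hu h1 hf).1, (track_up hu h1 hf).2.2⟩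

theorem track_side {T : P.DS} (hT : T.e = false) {sd : P.U → Bool}
    (hsd : ∀ u (x : P.Gen), sd (u * P.gen x) = sd u ↔
      ¬ (x.2.1 = T.c ∧ TrackW T.a (P.side T.c T.e) T.b u x.1 x.2.2))
    {g : P.U} {ω : List P.L} (hg : Conn T.src g ω) : sd g = sd 1 ↔ ¬ Front T.src g T := by
  have step : ∀ (u : P.U) (q : P.DS), q.e = false → Conn T.src u q.src →
      ((sd (u * q.ev) = sd 1 ↔ ¬ Front T.src (u * q.ev) T) ↔
        (sd u = sd 1 ↔ ¬ Front T.src u T)) := by
    intro u q hq hu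
    have h1 := hsd u (q.a, q.c, q.b)
    have e : q.ev = P.gen (q.a, q.c, q.b) := by simp [DS.ev, hq]
    rw [track_sep hu (hq.trans hT.symm), not_not, ← e] at h1
    revert h1
    cases sd (u * q.ev) <;> cases sd u <;> cases sd 1 <;> simp <;> tauto
  obtain ⟨p, hp, rfl⟩ := hg
  induction p using List.reverseRecOn generalizing ω with
  | nil => simp [track_not_front_one]
  | append_singleton p q ih =>
    obtain ⟨u, h1, rfl, -⟩ := isPath_append.1 hp
    rw [ev_append, ev_cons, ev_nil, mul_one]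
    cases hq : q.e
    · exact (step _ q hq h1.conn).2 (ih h1)
    · refine (step _ q.inv (by simp [hq]) (h1.conn.trans (Conn.step q))).1 ?_
      simpa using ih h1

theorem track_main {Z : P.C → Prop} {T : P.DS} (hT : T.e = false) (hZ : Z T.c)
    (hN : NoPar Z T.src) (hfp : Group.IsFinitelyPresented (D T.src)) {z : P.U}
    (hz : Hyp Z T.src z) (hK : dZ Z T.tgt (T.ev⁻¹ * z) + 1 ≤ dZ Z T.src z) :
    ∃ B : Set P.U, B.Finite ∧ (∀ b ∈ B, Conn T.b b T.b) ∧ ∀ r, Conn T.b r T.b →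
      Commute z (wh (T.a ++ P.side T.c false) [] r) → r ∈ Subgroup.closure B := by
  obtain ⟨a, c, e, μ⟩ := T
  obtain rfl : e = false := hT
  have wi := wallInv_cell Z
  refine (trackCore P.g₁ P.g₂ P.g₃ P.g₄
    (fun u x => x.2.1 = c ∧ TrackW a (P.side c false) μ u x.1 x.2.2) ?_ ?_ hfp (D _).subtype
    ⟨z, hz.1⟩ (Subgroup.centralizer {⟨z, hz.1⟩} ⊓
      ((D μ).map (wh (a ++ P.side c false) [])).subgroupOf _) ?_ ?_ ?_ ?_).elim ?_
  rotate_right
  · rintro B₀ ⟨hB, hB₁, hB₂⟩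
    have h1 : ∀ b : B₀, ∃ gR, Conn μ gR μ ∧ ∃ gL, Conn a gL a ∧
        b.1 = wh [] (P.side c false ++ μ) gL * wh (a ++ P.side c false) [] gR := by
      intro b
      obtain ⟨u, x, h, h'⟩ := hB₁ b.1 b.2
      obtain ⟨gL, gR, h1, h2, h3⟩ := track_stab h.2 h'.2
      exact ⟨gR, h2, gL, h1, h3⟩
    choose f hf using h1
    have : Finite B₀ := hB
    refine ⟨Set.range f, Set.finite_range f, by rintro _ ⟨b, rfl⟩; exact (hf b).1,
      fun r hr hc => ?_⟩
    have h2 : ∀ y ∈ Subgroup.closure B₀, ∃ gL gR, Conn a gL a ∧ Conn μ gR μ ∧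
        gR ∈ Subgroup.closure (Set.range f) ∧
        y = wh [] (P.side c false ++ μ) gL * wh (a ++ P.side c false) [] gR := by
      intro y hy
      induction hy using Subgroup.closure_induction with
      | mem x hx =>
        obtain ⟨h1, gL, h2, h3⟩ := hf ⟨x, hx⟩
        exact ⟨gL, _, h2, h1, Subgroup.subset_closure ⟨_, rfl⟩, h3⟩
      | one => exact ⟨1, 1, Conn.refl _, Conn.refl _, one_mem _, by simp⟩
      | mul x y _ _ hx hy =>
        obtain ⟨g₁, k₁, a₁, b₁, c₁, rfl⟩ := hx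
        obtain ⟨g₂, k₂, a₂, b₂, c₂, rfl⟩ := hy
        refine ⟨g₁ * g₂, k₁ * k₂, a₁.trans a₂, b₁.trans b₂, mul_mem c₁ c₂, ?_⟩
        rw [map_mul, map_mul, mul_assoc, mul_assoc, ← mul_assoc (wh _ [] k₁),
          ← track_swap a₂ b₁, mul_assoc]
      | inv x _ hx =>
        obtain ⟨g₁, k₁, a₁, b₁, c₁, rfl⟩ := hx
        refine ⟨g₁⁻¹, k₁⁻¹, a₁.symm, b₁.symm, inv_mem c₁, ?_⟩
        rw [track_swap a₁.symm b₁.symm, mul_inv_rev, map_inv, map_inv]
    obtain ⟨gL, gR, h3, h4, h5, h6⟩ := h2 _ (hB₂ ⟨_, hr.wl (a ++ P.side c false)⟩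
      ⟨Subgroup.mem_centralizer_singleton_iff.2 (Subtype.ext hc.symm.eq), r, hr, rfl⟩)
    rwa [(prod_inj (Conn.refl (a ++ P.side c false)) (h3.wr (P.side c false)) hr h4
      (by simpa using h6)).2]
  · rintro u ⟨a₁, c₁, m, c', b⟩
    refine and_congr_right fun h => ?_
    obtain rfl : c₁ = c := h
    have e : PresentedGroup.of (P.g₃ (a₁, c₁, m, c', b))
        = wh (a₁ ++ P.side c₁ false) [] (DS.ev ⟨m, c', false, b⟩) := by
      show P.gen _ = _
      simp [DS.ev, wh, g₃]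
    rw [e]
    exact ⟨fun h => track_WR h (Conn.step ⟨m, c', false, b⟩), fun h => by
      simpa [g₁, g₄, DS.src] using track_WR h (Conn.step ⟨m, c', false, b⟩).symm⟩
  · rintro u ⟨a₁, c₁, m, c', b⟩
    refine and_congr_right fun h => ?_
    obtain rfl : c' = c := h
    have e : PresentedGroup.of (P.g₁ (a₁, c₁, m, c', b))
        = wh [] (P.side c' false ++ b) (DS.ev ⟨a₁, c₁, false, m⟩) := by
      show P.gen _ = _
      simp [DS.ev, wh, g₁]
    rw [e]
    exact ⟨fun h => track_WL h (Conn.step ⟨a₁, c₁, false, m⟩), fun h => by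
      simpa [g₂, g₃, DS.src] using track_WL h (Conn.step ⟨a₁, c₁, false, m⟩).symm⟩
  · exact fun r hr => (Subgroup.mem_centralizer_singleton_iff.1 hr.1).symm
  · rintro r ⟨-, g, hg, e⟩ u x ⟨h, gL, gR, h1, h2, rfl⟩
    refine ⟨h, gL, g * gR, h1, Conn.trans hg h2, ?_⟩
    rw [← e, ← mul_assoc, ← track_swap h1 hg, map_mul, mul_assoc]
  · intro u x
    refine Set.Subsingleton.finite fun n hn m hm => ?_
    have h1 := track_zero hZ hN (track_stab (b := z ^ (n - m)) hm.2 (by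
      have := hn.2
      simp only [Subgroup.coe_subtype, SubgroupClass.coe_zpow] at this ⊢
      rwa [← mul_assoc, ← zpow_add, sub_add_cancel]))
    have h2 := hz.2.1
    obtain ⟨k, hk | hk⟩ := Int.eq_nat_or_neg (n - m)
    · rw [hk, zpow_natCast] at h1
      have := (hz.2.2 k).symm.trans h1
      rcases Nat.mul_eq_zero.1 this with h | h <;> omega
    · rw [hk, zpow_neg, zpow_natCast] at h1
      have := (hz.2.2 k).symm.trans (((hz.1.pow k).cnt_inv wi).symm.trans h1)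
      rcases Nat.mul_eq_zero.1 this with h | h <;> omega
  · intro sd hsd N hN0
    obtain ⟨N, rfl⟩ := Nat.exists_eq_succ_of_ne_zero hN0.ne'
    have hK' := (Conn.step ⟨a, c, false, μ⟩).symm.trans hz.1
    have h1 := track_side (T := ⟨a, c, false, μ⟩) rfl hsd (hz.1.pow (N + 1))
    have h2 := track_side (T := ⟨a, c, false, μ⟩) rfl hsd (hz.1.pow (N + 1)).symm
    have d0 := hz.2.2 N
    have d1 := hz.2.2 (N + 1)
    have d2 := hz.2.2 (N + 1 + 1)
    have f1 : Front (DS.src ⟨a, c, false, μ⟩) (z ^ (N + 1)) ⟨a, c, false, μ⟩ := by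
      by_contra hf
      have h3 := cnt_not_front wi (hz.1.pow (N + 1)) rfl hf hZ
      have h4 := Conn.cnt_mul_le (fun t => Z t.c) hK' (hz.1.pow N)
      rw [mul_assoc, ← pow_succ'] at h4
      unfold dZ at *
      rw [Nat.succ_mul] at d1
      omega
    have f2 : ¬ Front (DS.src ⟨a, c, false, μ⟩) (z ^ (N + 1))⁻¹ ⟨a, c, false, μ⟩ := by
      intro hf
      have h3 := Front.cnt_pos wi (hz.1.pow (N + 1)).symm hf hZ
      have h4 := Conn.cnt_mul_le (fun t => Z t.c) hK'.symm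
        ((Conn.step ⟨a, c, false, μ⟩).symm.trans (hz.1.pow (N + 1)).symm)
      have e : ((DS.ev ⟨a, c, false, μ⟩)⁻¹ * z)⁻¹ * ((DS.ev ⟨a, c, false, μ⟩)⁻¹ * (z ^ (N + 1))⁻¹)
          = (z ^ (N + 1 + 1))⁻¹ := by group
      rw [e, (hz.1.pow _).cnt_inv wi, hK'.cnt_inv wi] at h4
      rw [(hz.1.pow _).cnt_inv wi] at h3
      unfold dZ at *
      rw [Nat.succ_mul] at d2
      omega
    simp only [Subgroup.coe_subtype, SubmonoidClass.coe_pow]
    rw [h2.2 f2]
    exact fun h => h1.1 h f1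

theorem track {Z : P.C → Prop} {α γ : List P.L} (hN : NoPar Z (α ++ γ))
    (hfp : Group.IsFinitelyPresented (D (α ++ γ))) {z : P.U} (hz : Hyp Z α z) :
    ∃ (t : P.DS) (B : Set P.U), Z t.c ∧ Sim α t.src ∧ B.Finite ∧
      (∀ b ∈ B, Conn (t.b ++ γ) b (t.b ++ γ)) ∧
      ∀ r, Conn γ r γ → wh t.b [] r ∈ Subgroup.closure B := by
  obtain ⟨t, z', he, hZ, hs, hy, hK⟩ := track_norm hz
  have wi := wallInv_cell Z
  obtain ⟨β, hβ⟩ := hs.wr γ
  have e : (t.wh [] γ).src = t.src ++ γ := by simp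
  have cw : ∀ {ω ω' : List P.L} {g : P.U}, Conn ω g ω' → dZ Z (ω ++ γ) (wh [] γ g) = dZ Z ω g :=
    fun h => h.cnt_wh wi [] γ
  obtain ⟨B, hB, h1, h2⟩ := track_main (T := t.wh [] γ) (z := wh [] γ z') he hZ
    (e ▸ hN.sim hβ.sim) (by rw [e]; exact Group.IsFinitelyPresented.equiv hβ.equivD)
    (by
      rw [e]
      exact ⟨hy.1.wr γ, by rw [cw hy.1]; exact hy.2.1, fun k => by
        rw [← map_pow, cw hy.1, cw (hy.1.pow k), hy.2.2]⟩)
    (by
      rw [e, DS.tgt_wh, DS.ev_wh, List.nil_append, ← map_inv, ← map_mul, cw hy.1,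
        cw ((Conn.step t).symm.trans hy.1)]
      exact hK)
  refine ⟨t, B, hZ, hs, hB, h1, fun r hr => h2 _ (hr.wl t.b) ?_⟩
  have := interchange hy.1 hr
  simpa [Commute, SemiconjBy, DS.wh, DS.src, he] using this

end Pres

end Pool.Agent.MP_1e5511_al

end

-- part MP_1e5511_al.Good
section

set_option autoImplicit false

namespace Pool.Agent.MP_1e5511_al

open Pres

/-- steps of a fixed cell whose left context lies in a fixed class -/
def good_K {P : Pres} (A x : List P.L) (c : P.C) (t : P.DS) : Prop :=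
  t.c = c ∧ Sim (A ++ t.a) x

theorem good_wall {P : Pres} (A x : List P.L) (c : P.C) : WallInv (good_K A x c) := by
  refine ⟨fun t ht => ht, ?_⟩
  intro s t t' s' h ht
  cases h with
  | left a c₁ e m c' e' b =>
    refine ⟨ht.1, Sim.trans (Sim.wl ?_ A) ht.2⟩
    exact (Sim.step ⟨a, c₁, e, m⟩).symm
  | right a c₁ e m c' e' b => exact ht

/-- powers of a closed path -/
theorem good_pow {P : Pres} {ω : List P.L} {p : List P.DS} (hp : IsPath ω p ω) (k : ℕ) :
    ∃ r, IsPath ω r ω ∧ ev r = ev p ^ k ∧ ∀ Q : P.DS → Prop, num Q r = k * num Q p := by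
  induction k with
  | zero => exact ⟨[], rfl, by simp, fun Q => by simp [num]⟩
  | succ k ih =>
    obtain ⟨r, h1, h2, h3⟩ := ih
    refine ⟨r ++ p, h1.append hp, by rw [ev_append, h2, pow_succ], fun Q => ?_⟩
    rw [num_append, h3, Nat.succ_mul]

/-- the powers of a hyperbolic loop cross more and more walls of the type of one of its steps -/
theorem good_lower {P : Pres} {Z : P.C → Prop} {ω : List P.L} {p : List P.DS} (hp : Geo ω p ω)
    (hz : Hyp Z ω (ev p)) {t : P.DS} (ht : t ∈ p) (hZ : Z t.c) (A : List P.L) (k : ℕ) :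
    k ≤ cnt (good_K [] (A ++ t.a) t.c) (A ++ ω) (wh A [] (ev p ^ k)) := by
  obtain ⟨r, h1, h2, h3⟩ := good_pow hp.1 k
  have e1 := (hz.1.pow k).cnt_wh (good_wall [] (A ++ t.a) t.c) A []
  rw [List.append_nil] at e1
  have e2 : (fun s : P.DS => good_K [] (A ++ t.a) t.c (s.wh A [])) = good_K A (A ++ t.a) t.c := by
    funext s
    simp [good_K, DS.wh]
  rw [e1, e2, ← h2]
  have e3 : cnt (fun s : P.DS => Z s.c) ω (ev r) = num (fun s : P.DS => Z s.c) r := by
    rw [h3, h2, ← hp.cnt_eq (wallInv_cell Z)]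
    exact hz.2.2 k
  rw [h1.cnt_eq_of_le (wallInv_cell Z) (good_wall A (A ++ t.a) t.c)
    (fun s hs => hs.1 ▸ hZ) e3, h3]
  have e4 : num (good_K A (A ++ t.a) t.c) p ≠ 0 := fun h0 =>
    num_eq_zero.1 h0 t ht ⟨rfl, Sim.refl _⟩
  exact Nat.le_mul_of_pos_right k (Nat.pos_of_ne_zero e4)

/-- conjugates of loops without `Q`-steps have boundedly many `Q`-steps -/
theorem good_upper {P : Pres} {Q : P.DS → Prop} (hQ : WallInv Q) {ω ω' : List P.L} {d g : P.U}
    (hd : Conn ω d ω') (hg : Conn ω' g ω') (h0 : cnt Q ω (d * g * d⁻¹) = 0) :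
    cnt Q ω' g ≤ 2 * cnt Q ω d := by
  have h1 : Conn ω (d * g * d⁻¹) ω := (hd.trans hg).trans hd.symm
  have h2 := hd.symm.cnt_mul_le Q (h1.trans hd)
  have h3 := h1.cnt_mul_le Q hd
  have h4 := hd.cnt_inv hQ
  have e : d⁻¹ * (d * g * d⁻¹ * d) = g := by group
  rw [e] at h2
  omega

namespace St

variable {V : Type} {q₀ q₁ : V} {S : St V q₀ q₁}

theorem good_exit {q m' y : V} {σ τ ρ₁ ρ₂ τ' : List S.P.L}
    (hy : S.T.Reach q y) (hy' : ¬ S.T.Scc q y) (hσ : S.T.Path m' σ q₁) (hτ : S.T.Path y τ q₁)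
    (h1 : Sim σ (ρ₁ ++ τ')) (h2 : Sim τ (ρ₂ ++ τ')) (ht : Tight ρ₁ τ') :
    S.ExitBy (S.T.Scc q) m' ρ₁ := by
  obtain ⟨z, h3, h4⟩ := Typed.path_append.1 (hσ.sim h1)
  obtain ⟨z', h5, h6⟩ := Typed.path_append.1 (hτ.sim h2)
  obtain rfl := h4.start_eq h6
  exact ⟨τ', z, h3, fun hz => hy' ⟨hy, h5.reach.trans hz.2⟩, h4, ht⟩

/-- no loop is hyperbolic for the exit cells -/
theorem good_noHyp (hrel : S.AllRel) (hRN : S.RN) (hS : Small S.G) {q : V} (hq : S.T.Cyc q)
    {m m' : V} (hm : S.T.Scc q m) (hm' : S.T.Scc q m') {ν γ : List S.P.L}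
    (hν : S.T.Path m ν m') (hγ : S.T.Path m' γ q₁) {B : Set S.P.U} (hB : B.Finite)
    (hD : ∀ b ∈ B, Conn (ν ++ γ) b (ν ++ γ))
    (hr : ∀ r, Conn γ r γ → wh ν [] r ∈ Subgroup.closure B) (ω' : List S.P.L) (g : S.P.U)
    (hω : Sim (ν ++ γ) ω') : ¬ Hyp (S.T.Zout (S.T.Scc q)) ω' g := by
  intro hz
  have hω' : S.T.Path m ω' q₁ := (hν.append hγ).sim hω
  obtain ⟨p, hp, rfl⟩ := hz.1.exists_geo
  obtain ⟨t, ht, hZ⟩ : ∃ t ∈ p, S.T.Zout (S.T.Scc q) t.c := by
    by_contra hc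
    have h0 : num (fun t : S.P.DS => S.T.Zout (S.T.Scc q) t.c) p = 0 :=
      num_eq_zero.2 fun t ht h => hc ⟨t, ht, h⟩
    have h1 := hz.2.1
    rw [dZ, hp.cnt_eq (wallInv_cell _), h0] at h1
    exact absurd h1 (lt_irrefl 0)
  have hμ : S.T.Path m t.a (S.T.s t.c) := (Typed.path_src.1 (hω'.sim (hp.1.sim_of_mem ht))).1
  obtain ⟨μ', hμ'⟩ : S.T.Reach (S.T.s t.c) m := hZ.1.2.trans hm.1
  obtain ⟨μ'', hμ''⟩ : S.T.Reach m' m := hm'.2.trans hm.1
  obtain ⟨u, hu, hu'⟩ := hq.scc hm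
  obtain ⟨u₀, hu₀⟩ : ∃ u₀, u₀ = ν ++ μ'' ++ u := ⟨_, rfl⟩
  obtain ⟨v, hv⟩ : ∃ v, v = u₀ ++ t.a ++ μ' := ⟨_, rfl⟩
  have pu₀ : S.T.Path m u₀ m := hu₀ ▸ (hν.append hμ'').append hu'
  have pv : S.T.Path m v m := hv ▸ (pu₀.append hμ).append hμ'
  have hv0 : v ≠ [] := by simp [hv, hu₀, hu]
  obtain ⟨F, hF, -, hF'⟩ := closure_steps hB hD
  have key : ∀ n : ℕ, ∃ s ∈ F, good_K [] (pw v n ++ u₀ ++ t.a) t.c s := by
    intro n
    by_contra hc
    obtain ⟨y, hy⟩ : ∃ y, pw v n ++ u₀ = ν ++ y := by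
      cases n with
      | zero => exact ⟨μ'' ++ u, by simp [pw, hu₀]⟩
      | succ n =>
        exact ⟨μ'' ++ u ++ t.a ++ μ' ++ pw v n ++ u₀, by
          rw [pw_succ]
          nth_rewrite 1 [hv]
          nth_rewrite 1 [hu₀]
          simp only [List.append_assoc]⟩
    have py : S.T.Path m' y m := Typed.Path.right (hy ▸ (pv.pw n).append pu₀) hν
    obtain ⟨δ, hδ⟩ := hRN m' ⟨q, hq, hm'.1⟩ γ (y ++ ω') hγ (py.append hω')
    have hd := hδ.wl ν
    rw [← List.append_assoc] at hd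
    have hW := good_wall [] (ν ++ y ++ t.a) t.c
    obtain ⟨k, hk⟩ : ∃ k, k = 2 * cnt (good_K [] (ν ++ y ++ t.a) t.c) (ν ++ γ) (wh ν [] δ) + 1 :=
      ⟨_, rfl⟩
    have h1 := good_lower hp hz ht hZ (ν ++ y) k
    have hg := hz.1.pow k
    obtain ⟨r, r1, r2, r3⟩ := hF' _ (hr _ ((hδ.trans (hg.wl y)).trans hδ.symm))
    have h0 : cnt (good_K [] (ν ++ y ++ t.a) t.c) (ν ++ γ)
        (wh ν [] δ * wh (ν ++ y) [] (ev p ^ k) * (wh ν [] δ)⁻¹) = 0 := by
      have h2 := r1.cnt_le (good_K [] (ν ++ y ++ t.a) t.c)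
      have h3 : num (good_K [] (ν ++ y ++ t.a) t.c) r = 0 :=
        num_eq_zero.2 fun s hs h => hc ⟨s, r3 s hs, hy ▸ h⟩
      rw [h3, r2, map_mul, map_mul, map_inv, wh_wh, List.append_nil] at h2
      exact Nat.le_zero.1 h2
    have h2 := good_upper hW hd (hg.wl (ν ++ y)) h0
    omega
  choose s hs hs' using key
  have := hF.to_subtype
  obtain ⟨n, n', hn, he⟩ := Finite.exists_ne_map_eq_of_infinite fun n => (⟨s n, hs n⟩ : F)
  have he' : s n = s n' := congrArg Subtype.val he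
  have h1 : Sim (pw v n ++ u₀ ++ t.a) (pw v n' ++ u₀ ++ t.a) :=
    (hs' n).2.symm.trans (he' ▸ (hs' n').2)
  have h2 : Sim (pw v (n + 1)) (pw v (n' + 1)) := by
    have h3 := h1.wr μ'
    rw [pw_succ', pw_succ']
    simpa only [hv, List.append_assoc] using h3
  have h3 := pw_inj hv0 (fun j g hg => scc_trivial hrel hS (Or.inl hRN) hq hm hm (pv.pw j) hg)
    (Nat.succ_pos n) (Nat.succ_pos n') h2
  exact hn (Nat.succ_injective h3)

/-- a tight exit from one vertex of a component gives tight exits from all its vertices -/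
theorem exit_spread (hRN : S.RN) {q : V} (hq : S.T.Cyc q) {m m' : V} (hm : S.T.Scc q m)
    (hm' : S.T.Scc q m') {ρ : List S.P.L} (h : S.ExitBy (S.T.Scc q) m ρ) :
    ∃ ρ', S.ExitBy (S.T.Scc q) m' ρ' := by
  obtain ⟨τ, x, h1, h2, h3, h4⟩ := h
  obtain ⟨u, hu⟩ : S.T.Reach m m' := hm.2.trans hm'.1
  obtain ⟨u', hu'⟩ : S.T.Reach m' m := hm'.2.trans hm.1
  have hσ := hu'.append (h1.append h3)
  obtain ⟨ρ₁, ρ₂, τ', e1, e2, -, e4⟩ :=
    bridge_tight (hRN m ⟨q, hq, hm.1⟩ _ _ (hu.append hσ) (h1.append h3)) h4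
  exact ⟨ρ₁, good_exit (hm.1.trans h1.reach) h2 hσ h3 e1 e2 e4⟩

/-- a finite set of loops whose span contains `ν D(γ)` gives a tight exit -/
theorem exit_of_fg (hrel : S.AllRel) (hRN : S.RN) (hS : Small S.G) {q : V} (hq : S.T.Cyc q)
    {m m' : V} (hm : S.T.Scc q m) (hm' : S.T.Scc q m') {ν γ : List S.P.L}
    (hν : S.T.Path m ν m') (hγ : S.T.Path m' γ q₁) {B : Set S.P.U} (hB : B.Finite)
    (hD : ∀ b ∈ B, Conn (ν ++ γ) b (ν ++ γ))
    (hr : ∀ r, Conn γ r γ → wh ν [] r ∈ Subgroup.closure B) :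
    ∃ ρ, S.ExitBy (S.T.Scc q) m' ρ := by
  have hω := hν.append hγ
  obtain ⟨ω', β, hβ, h0⟩ := serre (Typed.noPar_out (Typed.convex_scc q) hω)
    (good_noHyp hrel hRN hS hq hm hm' hν hγ hB hD hr) hB hD
  obtain ⟨x, τ, y, rfl, h1, h2, h3, h4⟩ := Typed.exit_split (Typed.convex_scc q) (hω.sim hβ.sim) hm
    (fun h => not_cyc_one (hq.scc h))
    (fun μ z hμ hz g hg => scc_trivial hrel hS (Or.inl hRN) hq hm hz hμ hg)
  obtain ⟨ρ₁, ρ₂, τ', β₀, γ₁, γ₂, e1, e2, -, -, e5⟩ := bridge hβ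
  refine ⟨ρ₁, good_exit (hm.1.trans h1.reach) h2 hγ h3 e1.sim e2.sim (e5 fun g₁ hg₁ => ?_)⟩
  obtain ⟨k, hk, hk'⟩ := h4 _ ((hβ.symm.trans (hg₁.wl ν)).trans hβ) (h0 _ (hr g₁ hg₁))
  exact ⟨k, hk, by rw [← hk']; group⟩

/-- a hyperbolic loop for the entry cells gives a tight exit -/
theorem good (hrel : S.AllRel) (hRN : S.RN) (hG : Nice S.G) {q : V} (hq : S.T.Cyc q)
    {α γ : List S.P.L} {m : V} {z : S.P.U} (h : Sim S.w (α ++ γ)) (hα : S.T.Path q₀ α m)
    (hm : S.T.Scc q m) (hz : Hyp (S.T.Zin (S.T.Scc q)) α z) :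
    ∃ ρ, S.ExitBy (S.T.Scc q) m ρ := by
  have hw := S.hw.sim h
  obtain ⟨t, B, h1, h2, h3, h4, h5⟩ := track (Typed.noPar_in (Typed.convex_scc q) hw)
    (have := hG.1; Group.IsFinitelyPresented.equiv h.choose_spec.equivD) hz
  exact exit_of_fg hrel hRN hG.2 hq h1.2 hm (Typed.path_src.1 (hα.sim h2)).2 (hw.right hα) h3 h4 h5

end St

end Pool.Agent.MP_1e5511_al

end

-- part MP_1e5511_al.Op
section

set_option autoImplicit false

namespace Pool.Agent.MP_1e5511_al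

open Pres

/-- the mirror image of a presentation -/
abbrev Pres.op (P : Pres) : Pres where
  L := P.L
  C := P.C
  side c b := (P.side c b).reverse
  ne c b := by simpa using P.ne c b

theorem walk_reverse {L V : Type} {src tgt : L → V} {q q' : V} {u : List L} :
    Walk tgt src q' u.reverse q ↔ Walk src tgt q u q' := by
  have hs : ∀ (u : List L) (l : L) (a b : V),
      Walk tgt src a (u ++ [l]) b ↔ Walk tgt src a u (tgt l) ∧ src l = b := by
    intro u l
    induction u with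
    | nil => intro a b; simp [Walk, eq_comm]
    | cons x u ih => intro a b; simp [Walk, ih, and_assoc]
  induction u generalizing q with
  | nil => simp [Walk, eq_comm]
  | cons l u ih => rw [List.reverse_cons, hs, and_comm]; exact and_congr_right fun _ => ih

abbrev Typed.op {P : Pres} {V : Type} (T : Typed P V) : Typed P.op V where
  src := T.tgt
  tgt := T.src
  s := T.e
  e := T.s
  hside c b := walk_reverse.2 (T.hside c b)

section
variable {P : Pres}

def op_to (t : P.DS) : P.op.DS := ⟨t.b.reverse, t.c, t.e, t.a.reverse⟩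

def op_of (t : P.op.DS) : P.DS := ⟨t.b.reverse, t.c, t.e, t.a.reverse⟩

theorem op_of_to (t : P.DS) : op_of (op_to t) = t := by cases t; simp [op_of, op_to]

theorem op_to_of (t : P.op.DS) : op_to (op_of t) = t := by cases t; simp [op_of, op_to]

theorem op_src_to (t : P.DS) : (op_to t).src = t.src.reverse := by simp [op_to, DS.src]

theorem op_src_of (t : P.op.DS) : (op_of t).src = t.src.reverse := by simp [op_of, DS.src]

theorem op_par_to {s t t' s' : P.DS} (h : Par s t t' s') :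
    Par (op_to s) (op_to t) (op_to t') (op_to s') := by
  cases h with
  | left a c e m c' e' b =>
    simpa [op_to] using Par.right (P := P.op) b.reverse c' e' m.reverse c e a.reverse
  | right a c e m c' e' b =>
    simpa [op_to] using Par.left (P := P.op) b.reverse c' e' m.reverse c e a.reverse

theorem op_par_of {s t t' s' : P.op.DS} (h : Par s t t' s') :
    Par (op_of s) (op_of t) (op_of t') (op_of s') := by
  cases h with
  | left a c e m c' e' b =>
    simpa [op_of] using Par.right (P := P) b.reverse c' e' m.reverse c e a.reverse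
  | right a c e m c' e' b =>
    simpa [op_of] using Par.left (P := P) b.reverse c' e' m.reverse c e a.reverse

def op_toMap (P : Pres) : StepMap P P.op where
  w := List.reverse
  d := op_to
  src := op_src_to
  inv _ := rfl
  par _ _ _ _ := op_par_to
  inj s t _ h := by rw [← op_of_to s, h, op_of_to]
  refl s t x y _ h := ⟨op_of x, op_of y, by simpa only [op_of_to] using op_par_of h⟩

def op_ofMap (P : Pres) : StepMap P.op P where
  w := List.reverse
  d := op_of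
  src := op_src_of
  inv _ := rfl
  par _ _ _ _ := op_par_of
  inj s t _ h := by rw [← op_to_of s, h, op_to_of]
  refl s t x y _ h := ⟨op_to x, op_to y, by simpa only [op_to_of] using op_par_to h⟩

theorem op_sim_to {u v : List P.L} (h : Sim u v) : Sim (P := P.op) u.reverse v.reverse :=
  (op_toMap P).sim h

theorem op_sim_of {u v : List P.L} (h : Sim (P := P.op) u v) : Sim u.reverse v.reverse :=
  (op_ofMap P).sim h

end

namespace St

variable {V : Type} {q₀ q₁ : V} (S : St V q₀ q₁)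

abbrev op : St V q₁ q₀ where
  P := S.P.op
  T := S.T.op
  w := S.w.reverse
  hw := walk_reverse.2 S.hw
  h₀ := S.h₁
  h₁ := S.h₀

theorem op_path {q q' : V} {u : List S.P.L} (h : S.op.T.Path q u q') :
    S.T.Path q' u.reverse q :=
  (walk_reverse (src := S.T.tgt) (tgt := S.T.src)).2 h

theorem op_equiv : Nonempty (S.op.G ≃* S.G) := by
  obtain ⟨e⟩ := (op_toMap S.P).equivD (ω := S.w) fun g hg => by
    obtain ⟨ω', g', h1, h2, h3⟩ := (op_toMap S.P).conn_lift (fun _ => True) (fun _ _ => trivial)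
      (fun ω t _ ht => ⟨op_of t, by
        rw [op_src_of, ht]; exact List.reverse_reverse ω, op_to_of t⟩) trivial hg
    obtain rfl : ω' = S.w := List.reverse_injective h2
    exact ⟨g', h1, h3⟩
  exact ⟨e.symm⟩

theorem op_reach {q q' : V} : S.op.T.Reach q q' ↔ S.T.Reach q' q := by
  exact ⟨fun ⟨_, h⟩ => ⟨_, S.op_path h⟩, fun ⟨_, h⟩ => ⟨_, walk_reverse.2 h⟩⟩

theorem op_cyc {q : V} : S.op.T.Cyc q ↔ S.T.Cyc q := by
  exact ⟨fun ⟨_, hu, h⟩ => ⟨_, by simpa using hu, S.op_path h⟩,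
    fun ⟨u, hu, h⟩ => ⟨u.reverse, by simpa using hu, walk_reverse.2 h⟩⟩

theorem op_mu : S.op.mu = S.mu := by
  exact congrArg Set.ncard (Set.ext fun _ => S.op_cyc)

variable {S}

theorem Fin.op (h : S.Fin) : S.op.Fin := h

theorem AllRel.op (h : S.AllRel) : S.op.AllRel := by
  intro l
  obtain ⟨α, γ, h⟩ := h l
  refine ⟨γ.reverse, α.reverse, ?_⟩
  simpa using op_sim_to h

theorem RN.op (h : S.RN) : S.op.LN := by
  rintro q ⟨q', h1, h2⟩ α α' hα hα'
  simpa using op_sim_to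
    (h q ⟨q', S.op_cyc.1 h1, S.op_reach.1 h2⟩ _ _ (S.op_path hα) (S.op_path hα'))

theorem LN.op (h : S.LN) : S.op.RN := by
  rintro q ⟨q', h1, h2⟩ α α' hα hα'
  simpa using op_sim_to
    (h q ⟨q', S.op_cyc.1 h1, S.op_reach.1 h2⟩ _ _ (S.op_path hα) (S.op_path hα'))

theorem op_noHyp {K : V → Prop}
    (h : ∀ α γ q z, Sim S.w (α ++ γ) → S.T.Path q₀ α q → K q → ¬ Hyp (S.T.Zin K) α z) :
    ∀ α σ q z, Sim S.op.w (α ++ σ) → S.op.T.Path q σ q₀ → K q → ¬ Hyp (S.op.T.Zout K) σ z := by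
  intro α σ q z h1 h2 h3 h4
  have key : ∀ g, Conn (P := S.P.op) σ g σ →
      dZ (S.T.Zin K) σ.reverse ((op_ofMap S.P).hom g) = dZ (S.op.T.Zout K) σ g := by
    intro g hg
    refine ((op_ofMap S.P).cnt_hom (wallInv_cell (S.T.Zin K)) hg).trans ?_
    exact congrArg (fun Q => cnt Q σ g) (funext fun t => propext and_comm)
  refine h σ.reverse α.reverse q ((op_ofMap S.P).hom z) (by simpa using op_sim_of h1)
    (S.op_path h2) h3 ⟨(op_ofMap S.P).conn h4.1, ?_, fun k => ?_⟩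
  · rw [key z h4.1]; exact h4.2.1
  · rw [← map_pow, key z h4.1, key _ (h4.1.pow k)]; exact h4.2.2 k

end St

end Pool.Agent.MP_1e5511_al

end

-- part MP_1e5511_al.Init
section

set_option autoImplicit false

namespace Pool.Agent.MP_1e5511_al

open Pres

section

variable {P : Pres} (F : Set P.DS)

/-- steps whose cell and right part occur in `F` -/
def initAl (c : P.C) (b : List P.L) : Prop := ∃ t ∈ F, t.c = c ∧ t.b = b

/-- words that are connected by allowed steps -/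
def initSet : Setoid (List P.L) :=
  Relation.EqvGen.setoid fun u v => ∃ t : P.DS, initAl F t.c t.b ∧ u = t.src ∧ v = t.tgt

theorem init_step {t : P.DS} (h : initAl F t.c t.b) : initSet F t.src t.tgt :=
  Relation.EqvGen.rel _ _ ⟨t, h, rfl, rfl⟩

theorem init_cons (l : P.L) {u v : List P.L} (h : initSet F u v) : initSet F (l :: u) (l :: v) := by
  induction h with
  | rel u v h =>
    obtain ⟨t, ht, rfl, rfl⟩ := h
    exact init_step F (t := ⟨l :: t.a, t.c, t.e, t.b⟩) ht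
  | refl u => exact (initSet F).refl _
  | symm u v _ ih => exact (initSet F).symm ih
  | trans u v x _ _ ih ih' => exact (initSet F).trans ih ih'

theorem init_sim {u v : List P.L} (h : initSet F u v) : Sim u v := by
  induction h with
  | rel u v h =>
    obtain ⟨t, -, rfl, rfl⟩ := h
    exact Sim.step t
  | refl u => exact Sim.refl _
  | symm u v _ ih => exact ih.symm
  | trans u v x _ _ ih ih' => exact ih.trans ih'

/-- left multiplication of classes by a letter -/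
def initDelta (l : P.L) : Quotient (initSet F) → Quotient (initSet F) :=
  Quotient.map (l :: ·) fun _ _ h => init_cons F l h

theorem init_run (u v : List P.L) :
    run (initDelta F) u (Quotient.mk _ v) = Quotient.mk _ (u ++ v) := by
  induction u with
  | nil => rfl
  | cons l u ih => rw [run_cons, ih]; rfl

theorem init_run_nil (u : List P.L) :
    run (initDelta F) u (Quotient.mk _ []) = Quotient.mk _ u := by
  rw [init_run, List.append_nil]

/-- the automaton of classes -/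
def initAut : Aut P (Quotient (initSet F)) where
  δ := initDelta F
  A c κ := ∃ b, initAl F c b ∧ Quotient.mk _ b = κ
  ok := by
    rintro c _ ⟨b, hb, rfl⟩
    rw [init_run, init_run]
    exact Quotient.sound (init_step F (t := ⟨[], c, false, b⟩) hb)

theorem init_deco {u v : List P.L} (h : initSet F u v) :
    Sim (P := (initAut F).pres) (deco (initAut F).δ u (Quotient.mk _ []))
      (deco (initAut F).δ v (Quotient.mk _ [])) := by
  induction h with
  | rel u v h =>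
    obtain ⟨t, ht, rfl, rfl⟩ := h
    refine (Aut.path_lift (M := initAut F) (p := [t]) (by simp) _ fun s hs => ?_).choose_spec.1.sim
    obtain rfl := List.mem_singleton.1 hs
    exact ⟨s.b, ht, (init_run_nil F s.b).symm⟩
  | refl u => exact Sim.refl _
  | symm u v _ ih => exact ih.symm
  | trans u v x _ _ ih ih' => exact ih.trans ih'

theorem init_cells (hF : F.Finite) : Finite (initAut F).pres.C := by
  have h : {x : P.C × Quotient (initSet F) | (initAut F).A x.1 x.2}.Finite := by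
    refine (hF.image fun t => (t.c, Quotient.mk _ t.b)).subset ?_
    rintro ⟨c, _⟩ ⟨b, ⟨t, ht, rfl, rfl⟩, rfl⟩
    exact ⟨t, ht, rfl⟩
  exact h.to_subtype

end

theorem init_typed {P : Pres} {V : Type} (T : Typed P V) {q₀ q₁ : V} (w : List P.L)
    (hw : T.Path q₀ w q₁) (h₀ : ∀ l, T.tgt l ≠ q₀) (hfp : Group.IsFinitelyPresented (D w)) :
    ∃ (V : Type) (q₀ q₁ : V) (S : St V q₀ q₁), S.Fin ∧ S.RN ∧ Nonempty (S.G ≃* D w) := by
  obtain ⟨F, hF, -, hp⟩ := fg_steps hfp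
  have h₁ : ∀ l κ', (T.src l, (initAut F).δ l κ') ≠ (q₁, Quotient.mk _ []) := by
    intro l κ' h
    obtain ⟨v, rfl⟩ := Quotient.exists_rep κ'
    have h1 : (Quotient.mk (initSet F) (l :: v)) = Quotient.mk _ [] := congrArg Prod.snd h
    exact List.cons_ne_nil _ _ (init_sim F (Quotient.exact h1)).symm.eq_nil
  let S₀ := (initAut F).st T w hw (Quotient.mk _ []) h₀ h₁
  have hC : Finite S₀.P.C := init_cells F hF
  have hR : S₀.RNon fun _ => True := by
    intro q _ γ γ' h h'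
    obtain ⟨-, e1, e2⟩ := Aut.path_proj h
    obtain ⟨-, e1', e2'⟩ := Aut.path_proj h'
    have e3 : Quotient.mk (initSet F) (γ.map Prod.fst) = Quotient.mk _ (γ'.map Prod.fst) :=
      (init_run_nil F _).symm.trans ((e2.symm.trans e2').trans (init_run_nil F _))
    rw [e1, e1']
    exact init_deco F (Quotient.exact e3)
  obtain ⟨e₀⟩ := Aut.equiv (M := initAut F) (w := w) (Quotient.mk _ []) fun g hg => by
    obtain ⟨p, h1, h2, h3⟩ := hp g hg
    exact ⟨p, h1, h2, fun t ht => ⟨t.b, ⟨t, h3 t ht, rfl, rfl⟩, (init_run_nil F t.b).symm⟩⟩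
  obtain ⟨S, I, hL, hK⟩ := S₀.exists_incl (fun l => l ∈ S₀.w ∨ ∃ c b, l ∈ S₀.P.side c b)
    (fun _ => True) (fun c _ b l hl => Or.inr ⟨c, b, hl⟩) fun l hl => Or.inl hl
  have hsurj : Function.Surjective I.kc := fun c => (hK c).1 trivial
  obtain ⟨e₁⟩ := I.equiv fun g ⟨p, h1, h2⟩ => ⟨p, h1, h2, fun t _ => hsurj t.c⟩
  refine ⟨_, _, _, S, ⟨?_, Finite.of_injective _ I.injc⟩, (I.rnon hsurj hR).mono fun _ _ => trivial,
    ⟨e₁.trans e₀⟩⟩
  refine (Set.finite_range_iff I.inj).1 (Set.Finite.subset ((List.finite_toSet S₀.w).union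
    (Set.finite_iUnion fun c => Set.finite_iUnion fun b => List.finite_toSet (S₀.P.side c b))) ?_)
  intro l hl
  rcases (hL l).2 hl with h | ⟨c, b, h⟩
  · exact Or.inl h
  · exact Or.inr (Set.mem_iUnion₂.2 ⟨c, b, h⟩)

/-- the presentation with one more letter -/
abbrev initPres (P : Pres) : Pres where
  L := Option P.L
  C := P.C
  side c b := (P.side c b).map some
  ne c b h := P.ne c b (List.map_eq_nil_iff.1 h)

theorem init_walk {L : Type} (u : List L) :
    Walk (fun l : Option L => l.isSome) (fun _ => true) true (u.map some) true := by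
  induction u with
  | nil => rfl
  | cons l u ih => exact ⟨rfl, ih⟩

/-- the new letter leads from a source to the vertex that carries the old letters -/
def initT (P : Pres) : Typed (initPres P) Bool where
  src l := l.isSome
  tgt _ := true
  s _ := true
  e _ := true
  hside _ _ := init_walk _

theorem init_equiv (P : Pres) (w : List P.L) :
    Nonempty (D w ≃* D (P := initPres P) (none :: w.map some)) := by
  let G : LMap P (initPres P) := ⟨some, id, fun _ _ => rfl, fun _ _ _ h _ => h⟩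
  obtain ⟨e₁⟩ := G.toMap.equivD (ω := w) fun g hg =>
    G.loop_lift (Option.some_injective _) (fun t _ => ⟨t.c, rfl⟩) hg
  obtain ⟨e₂⟩ := (maps_wh (P := initPres P) [none] []).equivD (ω := w.map some) fun g hg => by
    obtain ⟨ω', g', h1, h2, h3⟩ := (maps_wh (P := initPres P) [none] []).conn_lift (fun _ => True)
      (fun _ _ => trivial) (by
        rintro ω ⟨a, c, e, b⟩ - h
        have h4 : a ++ (P.side c e).map some ++ b = none :: ω := by
          simpa [maps_wh, DS.src] using h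
        cases a with
        | nil =>
          obtain ⟨l, u, hu⟩ := List.exists_cons_of_ne_nil (P.ne c e)
          simp [hu] at h4
        | cons x a =>
          obtain ⟨rfl, h5⟩ := List.cons.inj h4
          exact ⟨⟨a, c, e, b⟩, h5, by simp [maps_wh, DS.wh]⟩) trivial hg
    obtain rfl : ω' = w.map some := by simpa [maps_wh] using h2
    exact ⟨g', h1, h3⟩
  have h : (maps_wh (P := initPres P) [none] []).w (w.map some) = none :: w.map some := by
    simp [maps_wh]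
  rw [h] at e₂
  exact ⟨e₁.trans e₂⟩

/-- a finitely presented diagram group has a finite typed right normal presentation -/
theorem init (P : Pres) (w : List P.L) (hfp : Group.IsFinitelyPresented (D w)) :
    ∃ (V : Type) (q₀ q₁ : V) (S : St V q₀ q₁), S.Fin ∧ S.RN ∧ Nonempty (S.G ≃* D w) := by
  obtain ⟨e⟩ := init_equiv P w
  obtain ⟨V, q₀, q₁, S, h1, h2, ⟨e'⟩⟩ := init_typed (initT P) (q₀ := false) (q₁ := true)
    (none :: w.map some) ⟨rfl, init_walk w⟩ (fun _ => by simp [initT])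
    (Group.IsFinitelyPresented.equiv e)
  exact ⟨V, q₀, q₁, S, h1, h2, ⟨e'.trans e.symm⟩⟩

end Pool.Agent.MP_1e5511_al

end
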