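import Pool.Agent.MP_1e5511_al.Typed
import Pool.Agent.MP_1e5511_al.Basic
import Pool.Agent.MP_1e5511_al.Mg.Init

-- part MP_1e5511_al.Special
section

set_option autoImplicit false

namespace Pool.Agent.MP_1e5511_al

section General

variable {A R : Type} (side : R → Bool → List A)

/-- the word at the corner `d` of a cube -/
def spec_wd : List (A ⊕ R) → (ℕ → Bool) → List A
  | [], _ => []
  | Sum.inl l :: x, d => l :: spec_wd x d
  | Sum.inr r :: x, d => side r (d 0) ++ spec_wd x fun j => d (j + 1)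

theorem spec_fill_some (x : List (A ⊕ R)) (d : ℕ → Bool) :
    fill side x (fun j => some (d j)) = (spec_wd side x d).map Sum.inl := by
  induction x generalizing d with
  | nil => rfl
  | cons y x ih => cases y <;> simp [fill, spec_wd, ih]

theorem spec_wd_inl (a : List A) (x : List (A ⊕ R)) (d : ℕ → Bool) :
    spec_wd side (a.map Sum.inl ++ x) d = a ++ spec_wd side x d := by
  induction a with
  | nil => rfl
  | cons l a ih => simp [spec_wd, ih]

theorem spec_wd_inl' (a : List A) (d : ℕ → Bool) : spec_wd side (a.map Sum.inl) d = a := by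
  simpa [spec_wd] using spec_wd_inl side a [] d

theorem spec_eqv_wd (x : List (A ⊕ R)) (d : ℕ → Bool) :
    Eqv side (spec_wd side x d) (word side x) := by
  have := eqv_fill side x fun j => some (d j)
  rwa [spec_fill_some, word_inl] at this

theorem spec_map_inl_inj {u v : List A}
    (h : u.map (Sum.inl : A → A ⊕ R) = v.map Sum.inl) : u = v :=
  List.map_injective_iff.2 Sum.inl_injective h

theorem spec_slots_zero {x : List (A ⊕ R)} (h : slots x = 0) : ∃ u : List A, x = u.map Sum.inl := by
  induction x with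
  | nil => exact ⟨[], rfl⟩
  | cons y x ih =>
    cases y with
    | inl l =>
      obtain ⟨u, rfl⟩ := ih (by simpa [slots] using h)
      exact ⟨l :: u, rfl⟩
    | inr r => simp [slots] at h

theorem spec_slots_one {x : List (A ⊕ R)} (h : slots x = 1) :
    ∃ (a : List A) (c : R) (b : List A), x = a.map Sum.inl ++ Sum.inr c :: b.map Sum.inl := by
  induction x with
  | nil => simp [slots] at h
  | cons y x ih =>
    cases y with
    | inl l =>
      obtain ⟨a, c, b, rfl⟩ := ih (by simpa [slots] using h)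
      exact ⟨l :: a, c, b, rfl⟩
    | inr r =>
      have hs : slots (Sum.inr r :: x : List (A ⊕ R)) = slots x + 1 := by
        simp [slots, List.countP_cons]
      obtain ⟨u, rfl⟩ := spec_slots_zero (x := x) (by omega)
      exact ⟨[], r, u, rfl⟩

theorem spec_vtx {w : List A} {n : ℕ} (x : (squier side w).cell n) (δ : Fin n → Bool)
    (d : ℕ → Bool) (hd : ∀ i : Fin n, d i = δ i) :
    ((squier side w).vtx x δ).1 = (spec_wd side x.1 d).map Sum.inl := by
  rw [← spec_fill_some]
  refine fill_congr side _ _ _ fun j hj => ?_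
  rw [x.2.1] at hj
  simp [choice, hj, ← hd]

theorem spec_edg {w : List A} {n : ℕ} (x : (squier side w).cell n) (δ : Fin n → Bool)
    (d : ℕ → Bool) (hd : ∀ i : Fin n, d i = δ i) (i : Fin n) :
    ((squier side w).edg x i δ).1 =
      fill side x.1 fun j => if j = i then none else some (d j) := by
  refine fill_congr side _ _ _ fun j hj => ?_
  rw [x.2.1] at hj
  have h : ((⟨j, hj⟩ : Fin n) ∈ Set.range
      (OrderEmbedding.ofStrictMono (fun _ : Fin 1 => i) (Subsingleton.strictMono _))) ↔ j = i := by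
    simp [Fin.ext_iff, eq_comm]
  simp only [choice, dif_pos hj, h, ← hd]

theorem spec_start {w : List A} (p : (squier side w).cell 1 × Bool) {a b : List A} {c : R}
    (h : p.1.1 = a.map Sum.inl ++ Sum.inr c :: b.map Sum.inl) :
    ((squier side w).start p).1 = (a ++ side c p.2 ++ b).map Sum.inl := by
  rw [CubeComplex.start, spec_vtx side p.1 _ (fun _ => p.2) fun _ => rfl, h, spec_wd_inl]
  simp [spec_wd, spec_wd_inl']

/-- the labels of the slots -/
def spec_lab (x : List (A ⊕ R)) : List R := x.filterMap Sum.getRight?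

theorem spec_lab_inl (a : List A) (x : List (A ⊕ R)) :
    spec_lab (a.map Sum.inl ++ x) = spec_lab x := by
  induction a with
  | nil => rfl
  | cons l a ih => exact ih

theorem spec_lab_fill (x : List (A ⊕ R)) (σ τ : ℕ → Option Bool)
    (h : ∀ j, σ j = none ↔ τ j = none) : spec_lab (fill side x σ) = spec_lab (fill side x τ) := by
  induction x generalizing σ τ with
  | nil => rfl
  | cons y x ih =>
    cases y with
    | inl l => exact ih σ τ h
    | inr r =>
      have h1 := ih (fun j => σ (j + 1)) (fun j => τ (j + 1)) fun j => h (j + 1)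
      have h0 := h 0
      rcases hσ : σ 0 with _ | b <;> rcases hτ : τ 0 with _ | b'
      · simpa [fill, hσ, hτ, spec_lab] using h1
      · simp [hσ, hτ] at h0
      · simp [hσ, hτ] at h0
      · simpa [fill, hσ, hτ, spec_lab_inl] using h1

theorem spec_parallel {w : List A} {p q : (squier side w).cell 1 × Bool}
    (h : (squier side w).Parallel p q) : spec_lab p.1.1 = spec_lab q.1.1 ∧ p.2 = q.2 := by
  induction h with
  | rel p q h =>
    obtain ⟨s, i, δ, δ', b, rfl, rfl⟩ := h
    refine ⟨spec_lab_fill side _ _ _ fun j => ?_, rfl⟩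
    simp only [choice]
    split_ifs <;> simp
  | refl => exact ⟨rfl, rfl⟩
  | symm _ _ _ ih => exact ⟨ih.1.symm, ih.2.symm⟩
  | trans _ _ _ _ _ ih₁ ih₂ => exact ⟨ih₁.1.trans ih₂.1, ih₁.2.trans ih₂.2⟩

end General

theorem squier_connected {A R : Type} (side : R → Bool → List A) (w : List A) :
    (squier side w).Connected := by
  have key : ∀ u u' : List A, Eqv side u u' → ∀ v v' : (squier side w).cell 0,
      v.1 = u.map Sum.inl → v'.1 = u'.map Sum.inl → Relation.EqvGen
      (fun a b => ∃ e : (squier side w).cell 1, (squier side w).start (e, false) = a ∧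
        (squier side w).start (e, true) = b) v v' := by
    intro u u' h
    induction h with
    | rel u u' h =>
      obtain ⟨a, r, b, rfl, rfl⟩ := h
      intro v v' hv hv'
      have h1 : word side (a.map Sum.inl ++ Sum.inr r :: b.map Sum.inl) =
          a ++ side r false ++ b := by
        have ha := word_inl side a
        have hb := word_inl side b
        simp only [word] at ha hb
        simp [word, ha, hb]
      have h2 := v.2.2
      rw [hv, word_inl] at h2
      refine Relation.EqvGen.rel _ _ ⟨⟨a.map Sum.inl ++ Sum.inr r :: b.map Sum.inl, ?_, ?_⟩, ?_, ?_⟩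
      · have ha := slots_inl (R := R) a
        have hb := slots_inl (R := R) b
        simp only [slots] at ha hb
        simp only [slots, List.countP_append, List.countP_cons, ha, hb]
        rfl
      · rwa [h1]
      · exact Subtype.ext ((spec_start side _ rfl).trans hv.symm)
      · exact Subtype.ext ((spec_start side _ rfl).trans hv'.symm)
    | refl u =>
      intro v v' hv hv'
      obtain rfl : v = v' := Subtype.ext (hv.trans hv'.symm)
      exact Relation.EqvGen.refl _
    | symm u u' _ ih => exact fun v v' hv hv' => (ih v' v hv' hv).symm _ _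
    | trans u m u' h₁ _ ih₁ ih₂ =>
      intro v v' hv hv'
      have h2 := v.2.2
      rw [hv, word_inl] at h2
      have h3 : Eqv side (word side (m.map Sum.inl)) w := by
        rw [word_inl]
        exact (h₁.symm _ _).trans _ _ _ h2
      exact (ih₁ v ⟨_, slots_inl m, h3⟩ hv rfl).trans _ _ _ (ih₂ ⟨_, slots_inl m, h3⟩ v' rfl hv')
  intro v v'
  obtain ⟨u, hu⟩ := spec_slots_zero v.2.1
  obtain ⟨u', hu'⟩ := spec_slots_zero v'.2.1
  have h := v.2.2
  have h' := v'.2.2
  rw [hu, word_inl] at h
  rw [hu', word_inl] at h'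
  exact key u u' (h.trans _ _ _ (h'.symm _ _)) v v' hu hu'

section Steps

variable {P : Pres}

/-- put a word in front of a step -/
def spec_pre (α : List P.L) (t : P.DS) : P.DS := ⟨α ++ t.a, t.c, t.e, t.b⟩

theorem spec_pre_inj (α : List P.L) : Function.Injective (spec_pre (P := P) α) := by
  rintro ⟨a, c, e, b⟩ ⟨a', c', e', b'⟩ h
  simpa [spec_pre] using h

theorem spec_pre_pre (α β : List P.L) (t : P.DS) :
    spec_pre α (spec_pre β t) = spec_pre (α ++ β) t := by
  simp [spec_pre]

theorem spec_src_pre (α : List P.L) (t : P.DS) : (spec_pre α t).src = α ++ t.src := by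
  simp [spec_pre, Pres.DS.src]

/-- the steps that start at the corner `d` of a cube -/
def spec_steps : List (P.L ⊕ P.C) → (ℕ → Bool) → List P.DS
  | [], _ => []
  | Sum.inl l :: x, d => (spec_steps x d).map (spec_pre [l])
  | Sum.inr r :: x, d => ⟨[], r, d 0, spec_wd P.side x fun j => d (j + 1)⟩ ::
      (spec_steps x fun j => d (j + 1)).map (spec_pre (P.side r (d 0)))

/-- the edge of a step -/
def spec_E (t : P.DS) : List (P.L ⊕ P.C) := t.a.map Sum.inl ++ Sum.inr t.c :: t.b.map Sum.inl

/-- the step `s` lies to the left of the step `t` -/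
def spec_Bef (s t : P.DS) : Prop := s.a.length + (P.side s.c s.e).length ≤ t.a.length

theorem spec_Bef.lt {s t : P.DS} (h : spec_Bef s t) : s.a.length < t.a.length := by
  have := List.length_pos_iff.2 (P.ne s.c s.e)
  unfold spec_Bef at h
  omega

theorem spec_bef_pre (α : List P.L) (s t : P.DS) :
    spec_Bef (spec_pre α s) (spec_pre α t) ↔ spec_Bef s t := by
  simp [spec_Bef, spec_pre, add_assoc]

theorem spec_steps_length (x : List (P.L ⊕ P.C)) (d : ℕ → Bool) :
    (spec_steps x d).length = slots x := by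
  induction x generalizing d with
  | nil => rfl
  | cons y x ih => cases y <;> simp [spec_steps, slots, ih, List.countP_cons]

theorem spec_steps_inl (a : List P.L) (x : List (P.L ⊕ P.C)) (d : ℕ → Bool) :
    spec_steps (a.map Sum.inl ++ x) d = (spec_steps x d).map (spec_pre a) := by
  induction a with
  | nil =>
    have : spec_pre (P := P) [] = id := funext fun t => by simp [spec_pre]
    simp [this]
  | cons l a ih => simp [spec_steps, ih, spec_pre_pre]

theorem spec_steps_src (x : List (P.L ⊕ P.C)) (d : ℕ → Bool) :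
    ∀ t ∈ spec_steps x d, t.src = spec_wd P.side x d := by
  induction x generalizing d with
  | nil => simp [spec_steps]
  | cons y x ih =>
    cases y with
    | inl l =>
      simp only [spec_steps, List.forall_mem_map]
      intro t ht
      simp [spec_src_pre, ih d t ht, spec_wd]
    | inr r =>
      simp only [spec_steps, List.forall_mem_cons, List.forall_mem_map]
      refine ⟨by simp [Pres.DS.src, spec_wd], fun t ht => ?_⟩
      simp [spec_src_pre, ih _ t ht, spec_wd]

theorem spec_steps_sorted (x : List (P.L ⊕ P.C)) (d : ℕ → Bool) :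
    (spec_steps x d).Pairwise spec_Bef := by
  induction x generalizing d with
  | nil => simp [spec_steps]
  | cons y x ih =>
    cases y with
    | inl l => simpa [spec_steps, List.pairwise_map, spec_bef_pre] using ih d
    | inr r =>
      simp only [spec_steps, List.pairwise_cons, List.forall_mem_map, List.pairwise_map,
        spec_bef_pre]
      exact ⟨fun t _ => by simp [spec_Bef, spec_pre], ih _⟩

theorem spec_steps_get (x : List (P.L ⊕ P.C)) (d : ℕ → Bool) (i : ℕ) (t : P.DS)
    (h : (spec_steps x d)[i]? = some t) :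
    (fill P.side x fun j => if j = i then none else some (d j)) = spec_E t ∧ d i = t.e := by
  induction x generalizing d i t with
  | nil => simp [spec_steps] at h
  | cons y x ih =>
    cases y with
    | inl l =>
      simp only [spec_steps, List.getElem?_map, Option.map_eq_some_iff] at h
      obtain ⟨s, hs, rfl⟩ := h
      obtain ⟨h1, h2⟩ := ih d i s hs
      exact ⟨by simp [fill, h1, spec_E, spec_pre], h2⟩
    | inr r =>
      cases i with
      | zero =>
        simp only [spec_steps, List.getElem?_cons_zero, Option.some.injEq] at h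
        subst h
        exact ⟨by simp [fill, spec_E, spec_fill_some], rfl⟩
      | succ i =>
        simp only [spec_steps, List.getElem?_cons_succ, List.getElem?_map,
          Option.map_eq_some_iff] at h
        obtain ⟨s, hs, rfl⟩ := h
        obtain ⟨h1, h2⟩ := ih _ i s hs
        exact ⟨by simp [fill, h1, spec_E, spec_pre], h2⟩

theorem spec_recover (x x' : List (P.L ⊕ P.C)) (d d' : ℕ → Bool)
    (h1 : spec_wd P.side x d = spec_wd P.side x' d') (h2 : spec_steps x d = spec_steps x' d') :
    x = x' := by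
  have key : ∀ (l : P.L) (r : P.C) (x x' : List (P.L ⊕ P.C)) (d d' : ℕ → Bool),
      spec_steps (Sum.inl l :: x) d ≠ spec_steps (Sum.inr r :: x') d' := by
    intro l r x x' d d' h
    simp only [spec_steps] at h
    obtain ⟨s, -, hs, -⟩ : ∃ s t', spec_pre [l] s = _ ∧ spec_steps x d = s :: t' := by
      obtain ⟨s, t', h3, h4, -⟩ := List.map_eq_cons_iff.1 h
      exact ⟨s, t', h4, h3⟩
    simp [spec_pre] at hs
  induction x generalizing x' d d' with
  | nil =>
    rcases x' with _ | ⟨l | r, x'⟩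
    · rfl
    · simp [spec_wd] at h1
    · simp [spec_steps] at h2
  | cons y x ih =>
    rcases y with l | r <;> rcases x' with _ | ⟨l' | r', x'⟩
    · simp [spec_wd] at h1
    · simp only [spec_wd, List.cons.injEq] at h1
      obtain ⟨rfl, h1⟩ := h1
      rw [ih x' d d' h1 (List.map_injective_iff.2 (spec_pre_inj _) h2)]
    · exact absurd h2 (key _ _ _ _ _ _)
    · simp [spec_steps] at h2
    · exact absurd h2.symm (key _ _ _ _ _ _)
    · simp only [spec_steps, List.cons.injEq, Pres.DS.mk.injEq, true_and] at h2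
      obtain ⟨⟨rfl, h3, h4⟩, h5⟩ := h2
      rw [h3] at h5
      rw [ih x' _ _ h4 (List.map_injective_iff.2 (spec_pre_inj _) h5)]

theorem spec_Bef.split {s t : P.DS} (h : spec_Bef s t) (hs : s.src = t.src) :
    ∃ m, t.a = s.a ++ P.side s.c s.e ++ m ∧ s.b = m ++ P.side t.c t.e ++ t.b := by
  have h1 : (s.a ++ P.side s.c s.e) ++ s.b = t.a ++ (P.side t.c t.e ++ t.b) := by
    simpa [Pres.DS.src] using hs
  rcases List.append_eq_append_iff.1 h1 with ⟨m, h2, h3⟩ | ⟨m, h2, h3⟩
  · exact ⟨m, h2, by simpa using h3⟩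
  · have h4 := congrArg List.length h2
    unfold spec_Bef at h
    simp only [List.length_append] at h4
    obtain rfl : m = [] := List.length_eq_zero_iff.1 (by omega)
    exact ⟨[], by simpa using h2.symm, by simpa using h3.symm⟩

theorem spec_build (n : ℕ) (u : List P.L) (l : List P.DS) (hn : l.length = n)
    (h1 : ∀ t ∈ l, t.src = u) (h2 : l.Pairwise spec_Bef) :
    ∃ x d, spec_wd P.side x d = u ∧ spec_steps x d = l := by
  induction n generalizing u l with
  | zero =>
    obtain rfl := List.length_eq_zero_iff.1 hn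
    refine ⟨u.map Sum.inl, fun _ => false, spec_wd_inl' _ _ _, ?_⟩
    simpa [spec_steps] using spec_steps_inl u [] fun _ => false
  | succ n ih =>
    obtain ⟨t, l, rfl⟩ := List.exists_cons_of_length_eq_add_one hn
    obtain ⟨h3, h4⟩ := List.pairwise_cons.1 h2
    have ht := h1 t (by simp)
    have h5 : ∀ s ∈ l, ∃ s' : P.DS, s = spec_pre (t.a ++ P.side t.c t.e) s' ∧ s'.src = t.b := by
      intro s hs
      obtain ⟨m, h6, h7⟩ := (h3 s hs).split (ht.trans (h1 s (by simp [hs])).symm)
      refine ⟨⟨m, s.c, s.e, s.b⟩, ?_, h7.symm⟩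
      cases s
      simp_all [spec_pre]
    obtain ⟨l', rfl, h6⟩ : ∃ l' : List P.DS, l = l'.map (spec_pre (t.a ++ P.side t.c t.e)) ∧
        ∀ s' ∈ l', s'.src = t.b := by
      clear ih hn h1 h2 h3 h4
      induction l with
      | nil => exact ⟨[], rfl, by simp⟩
      | cons s l ih =>
        obtain ⟨s', rfl, h6⟩ := h5 s (by simp)
        obtain ⟨l', rfl, h7⟩ := ih fun s hs => h5 s (by simp [hs])
        exact ⟨s' :: l', rfl, by simpa [h6] using h7⟩
    obtain ⟨x, d, h7, rfl⟩ := ih t.b l' (by simpa using hn) h6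
      (by simpa [List.pairwise_map, spec_bef_pre] using h4)
    refine ⟨t.a.map Sum.inl ++ Sum.inr t.c :: x, fun j => Nat.casesOn j t.e d, ?_, ?_⟩
    · simp [spec_wd_inl, spec_wd, h7, ← ht, Pres.DS.src]
    · simp [spec_steps_inl, spec_steps, h7, spec_pre_pre]
      simp [spec_pre]

theorem spec_E_inj {s t : P.DS} (h : spec_E s = spec_E t) (he : s.e = t.e) : s = t := by
  have h1 := spec_steps_inl s.a (Sum.inr s.c :: s.b.map Sum.inl) fun _ => s.e
  have h2 := spec_steps_inl t.a (Sum.inr t.c :: t.b.map Sum.inl) fun _ => s.e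
  have h3 := h1.symm.trans ((congrArg (spec_steps · fun _ => s.e) h).trans h2)
  simp only [spec_steps, List.map_cons, List.cons.injEq, spec_wd_inl'] at h3
  have h4 := h3.1
  cases s
  cases t
  simp_all [spec_pre]

theorem spec_lab_E (t : P.DS) : spec_lab (spec_E t) = [t.c] := by
  rw [spec_E, spec_lab_inl]
  simp [spec_lab]

variable {w : List P.L}

theorem spec_exists_ds (p : (squier P.side w).cell 1 × Bool) :
    ∃ t : P.DS, p.1.1 = spec_E t ∧ p.2 = t.e := by
  obtain ⟨a, c, b, h⟩ := spec_slots_one p.1.2.1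
  exact ⟨⟨a, c, p.2, b⟩, h, rfl⟩

/-- the step given by an oriented edge -/
noncomputable def spec_ds (p : (squier P.side w).cell 1 × Bool) : P.DS := (spec_exists_ds p).choose

theorem spec_ds_E (p : (squier P.side w).cell 1 × Bool) : p.1.1 = spec_E (spec_ds p) :=
  (spec_exists_ds p).choose_spec.1

theorem spec_ds_e (p : (squier P.side w).cell 1 × Bool) : p.2 = (spec_ds p).e :=
  (spec_exists_ds p).choose_spec.2

theorem spec_ds_inj : Function.Injective (spec_ds (P := P) (w := w)) := by
  intro p q h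
  refine Prod.ext (Subtype.ext ?_) ?_
  · rw [spec_ds_E, spec_ds_E, h]
  · rw [spec_ds_e, spec_ds_e, h]

theorem spec_ds_start (p : (squier P.side w).cell 1 × Bool) :
    ((squier P.side w).start p).1 = (spec_ds p).src.map Sum.inl := by
  rw [spec_start P.side p (spec_ds_E p), spec_ds_e]
  rfl

theorem spec_ds_src {p q : (squier P.side w).cell 1 × Bool}
    (h : (squier P.side w).start p = (squier P.side w).start q) :
    (spec_ds p).src = (spec_ds q).src :=
  spec_map_inl_inj ((spec_ds_start p).symm.trans (h ▸ spec_ds_start q))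

theorem spec_ds_eqv (p : (squier P.side w).cell 1 × Bool) : Eqv P.side (spec_ds p).src w := by
  have := ((squier P.side w).start p).2.2
  rwa [spec_ds_start, word_inl] at this

theorem spec_ds_lab (p : (squier P.side w).cell 1 × Bool) : spec_lab p.1.1 = [(spec_ds p).c] := by
  rw [spec_ds_E, spec_lab_E]

theorem spec_corner {n : ℕ} (x : (squier P.side w).cell n) (δ : Fin n → Bool)
    (d : ℕ → Bool) (hd : ∀ i : Fin n, d i = δ i) (i : Fin n) :
    (spec_steps x.1 d)[(i : ℕ)]? = some (spec_ds ((squier P.side w).corner x δ i)) := by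
  have hi : (i : ℕ) < (spec_steps x.1 d).length := by
    rw [spec_steps_length, x.2.1]
    exact i.2
  have h1 := List.getElem?_eq_getElem hi
  obtain ⟨h2, h3⟩ := spec_steps_get _ _ _ _ h1
  rw [h1]
  refine congrArg some (spec_E_inj ?_ ?_)
  · rw [← h2, ← spec_ds_E, ← spec_edg P.side x δ d hd i]
    rfl
  · rw [← h3, ← spec_ds_e, hd]
    rfl

/-- extension of a corner by `false` -/
def spec_ext {n : ℕ} (δ : Fin n → Bool) (j : ℕ) : Bool := if h : j < n then δ ⟨j, h⟩ else false

theorem spec_ext_apply {n : ℕ} (δ : Fin n → Bool) (i : Fin n) : spec_ext δ i = δ i := by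
  simp [spec_ext]

theorem spec_steps_eq {n : ℕ} (x : (squier P.side w).cell n) (δ : Fin n → Bool)
    (d : ℕ → Bool) (hd : ∀ i : Fin n, d i = δ i) :
    spec_steps x.1 d = List.ofFn fun i => spec_ds ((squier P.side w).corner x δ i) := by
  refine List.ext_getElem? fun j => ?_
  by_cases hj : j < n
  · rw [spec_corner x δ d hd ⟨j, hj⟩]
    simp [hj]
  · have h1 : (spec_steps x.1 d).length ≤ j := by
      rw [spec_steps_length, x.2.1]
      omega
    rw [List.getElem?_eq_none h1, List.getElem?_eq_none (by simpa using hj)]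

theorem spec_corner_bef {n : ℕ} (x : (squier P.side w).cell n) (δ : Fin n → Bool) {i j : Fin n}
    (h : i < j) : spec_Bef (spec_ds ((squier P.side w).corner x δ i))
      (spec_ds ((squier P.side w).corner x δ j)) := by
  have := spec_steps_sorted x.1 (spec_ext δ)
  rw [spec_steps_eq x δ _ (spec_ext_apply δ), List.pairwise_ofFn] at this
  exact this h

theorem spec_corner_src {n : ℕ} (x : (squier P.side w).cell n) (δ : Fin n → Bool) (i : Fin n) :
    (spec_ds ((squier P.side w).corner x δ i)).src = spec_wd P.side x.1 (spec_ext δ) := by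
  refine spec_steps_src _ _ _ ?_
  rw [spec_steps_eq x δ _ (spec_ext_apply δ)]
  exact List.mem_ofFn.2 ⟨i, rfl⟩

theorem spec_cube {n : ℕ} {u : List P.L} (hu : Eqv P.side u w) (l : List P.DS) (hn : l.length = n)
    (h1 : ∀ t ∈ l, t.src = u) (h2 : l.Pairwise spec_Bef) :
    ∃ (x : (squier P.side w).cell n) (δ : Fin n → Bool),
      ((squier P.side w).vtx x δ).1 = u.map Sum.inl ∧
      (List.ofFn fun i => spec_ds ((squier P.side w).corner x δ i)) = l := by
  obtain ⟨x, d, rfl, rfl⟩ := spec_build n u l hn h1 h2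
  rw [spec_steps_length] at hn
  exact ⟨⟨x, hn, ((spec_eqv_wd P.side x d).symm _ _).trans _ _ _ hu⟩, fun i => d i,
    spec_vtx P.side _ _ d fun _ => rfl, (spec_steps_eq _ _ d fun _ => rfl).symm⟩

theorem spec_adj {p q : (squier P.side w).cell 1 × Bool}
    (h : (squier P.side w).start p = (squier P.side w).start q)
    (hb : spec_Bef (spec_ds p) (spec_ds q)) : (squier P.side w).Adj p q := by
  obtain ⟨x, δ, -, h1⟩ := spec_cube (n := 2) (spec_ds_eqv p) [spec_ds p, spec_ds q] rfl
    (by simp [spec_ds_src h]) (by simpa using hb)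
  simp only [List.ofFn_succ, List.ofFn_zero, List.cons.injEq, and_true] at h1
  exact ⟨x, δ, Or.inl ⟨(spec_ds_inj h1.1).symm, (spec_ds_inj h1.2).symm⟩⟩

end Steps

theorem squier_npc (P : Pres) (w : List P.L) : (squier P.side w).NPC := by
  refine ⟨fun n x δ i j h => ?_, fun n x x' δ δ' h1 h2 => ?_, fun n v f h1 h2 => ?_⟩
  · by_contra hij
    rcases lt_or_gt_of_ne hij with h' | h'
    · have := (spec_corner_bef x δ h').lt
      rw [h] at this
      exact lt_irrefl _ this
    · have := (spec_corner_bef x δ h').lt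
      rw [h] at this
      exact lt_irrefl _ this
  · have h3 : spec_wd P.side x.1 (spec_ext δ) = spec_wd P.side x'.1 (spec_ext δ') :=
      spec_map_inl_inj ((spec_vtx P.side x δ _ (spec_ext_apply δ)).symm.trans
        (h1 ▸ spec_vtx P.side x' δ' _ (spec_ext_apply δ')))
    have hnd : ∀ l : List P.DS, l.Pairwise spec_Bef → l.Nodup := fun l hl =>
      List.Pairwise.imp (S := (· ≠ ·)) (fun hab h => by
        subst h
        exact lt_irrefl _ hab.lt) hl
    have h4 : spec_steps x.1 (spec_ext δ) = spec_steps x'.1 (spec_ext δ') := by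
      refine List.Perm.eq_of_pairwise (fun a b _ _ hab hba => absurd hab.lt (not_lt.2 hba.lt.le))
        (spec_steps_sorted _ _) (spec_steps_sorted _ _)
        ((List.perm_ext_iff_of_nodup (hnd _ (spec_steps_sorted _ _))
          (hnd _ (spec_steps_sorted _ _))).2 fun t => ?_)
      rw [spec_steps_eq x δ _ (spec_ext_apply δ), spec_steps_eq x' δ' _ (spec_ext_apply δ'),
        List.mem_ofFn', List.mem_ofFn']
      change t ∈ Set.range (spec_ds ∘ (squier P.side w).corner x δ) ↔
        t ∈ Set.range (spec_ds ∘ (squier P.side w).corner x' δ')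
      rw [Set.range_comp, Set.range_comp, h2]
    refine ⟨Subtype.ext (spec_recover _ _ _ _ h3 h4), funext fun i => ?_⟩
    have h5 := spec_corner x δ _ (spec_ext_apply δ) i
    rw [h4, spec_corner x' δ' _ (spec_ext_apply δ') i] at h5
    exact (congrArg Prod.snd (spec_ds_inj (Option.some.inj h5))).symm
  · obtain ⟨u, hu⟩ := spec_slots_zero v.2.1
    have h3 := v.2.2
    rw [hu, word_inl] at h3
    have hp := List.perm_insertionSort (fun s t : P.DS => s.a.length ≤ t.a.length)
      (List.ofFn fun i => spec_ds (f i))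
    have hs := List.pairwise_insertionSort (fun s t : P.DS => s.a.length ≤ t.a.length)
      (List.ofFn fun i => spec_ds (f i))
    have h4 : (List.ofFn fun i => spec_ds (f i)).Pairwise
        fun s t => spec_Bef s t ∨ spec_Bef t s := by
      refine List.pairwise_ofFn.2 fun i j hij => ?_
      obtain ⟨s, δ, ⟨e1, e2⟩ | ⟨e1, e2⟩⟩ := h2 i j hij.ne
      · rw [e1, e2]
        exact Or.inl (spec_corner_bef s δ zero_lt_one)
      · rw [e1, e2]
        exact Or.inr (spec_corner_bef s δ zero_lt_one)
    have h5 := (hp.pairwise_iff fun h => Or.symm h).2 h4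
    obtain ⟨x, δ, h6, h7⟩ := spec_cube (n := n) h3 _ (by simp) (fun t ht => by
      obtain ⟨i, rfl⟩ := List.mem_ofFn.1 (hp.mem_iff.1 ht)
      exact spec_map_inl_inj ((spec_ds_start (f i)).symm.trans (h1 i ▸ hu)))
      ((hs.and h5).imp fun h => h.2.resolve_right fun h' => absurd h'.lt (not_lt.2 h.1))
    refine ⟨x, δ, Subtype.ext (h6.trans hu.symm), ?_⟩
    refine spec_ds_inj.image_injective ?_
    rw [← Set.range_comp, ← Set.range_comp]
    ext t
    rw [← h7] at hp
    have := hp.mem_iff (a := t)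
    rwa [List.mem_ofFn', List.mem_ofFn'] at this

theorem spec_path {P : Pres} {V : Type} {T : Typed P V} {u w : List P.L} {q₀ q₁ : V}
    (h : Eqv P.side u w) : T.Path q₀ u q₁ ↔ T.Path q₀ w q₁ := by
  induction h with
  | rel u v h =>
    obtain ⟨a, r, b, rfl, rfl⟩ := h
    rw [Typed.path_mid, Typed.path_mid]
  | refl => rfl
  | symm _ _ _ ih => exact ih.symm
  | trans _ _ _ _ _ ih₁ ih₂ => exact ih₁.trans ih₂

theorem spec_length_le {P : Pres} (x : List (P.L ⊕ P.C)) : x.length ≤ (word P.side x).length := by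
  induction x with
  | nil => simp
  | cons y x ih =>
    cases y with
    | inl l => simpa [word] using ih
    | inr r =>
      have := List.length_pos_iff.2 (P.ne r false)
      simp only [word, List.flatMap_cons, List.length_append, List.length_cons, Sum.elim_inr] at ih ⊢
      omega

theorem squier_compact {P : Pres} {V : Type} (T : Typed P V) [Finite P.L] [Finite P.C]
    (hc : ∀ q, ¬ T.Cyc q) {w : List P.L} {q₀ q₁ : V} (hw : T.Path q₀ w q₁) :
    (squier P.side w).Compact := by
  obtain ⟨N, hN⟩ := ((Typed.finite_paths (T := T) (q := q₀) fun q _ => hc q).image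
    List.length).bddAbove
  have := (List.finite_length_le (P.L ⊕ P.C) N).to_subtype
  refine Finite.of_injective (β := {l : List (P.L ⊕ P.C) | l.length ≤ N})
    (fun x => ⟨x.2.1, (spec_length_le _).trans
      (hN ⟨_, ⟨q₁, (spec_path x.2.2.2).2 hw⟩, rfl⟩)⟩) ?_
  rintro ⟨n, x, hx, hx'⟩ ⟨n', x', hy, hy'⟩ h
  obtain rfl : x = x' := congrArg Subtype.val h
  subst hx hy
  rfl

theorem squier_special {P : Pres} {V : Type} (T : Typed P V) (hc : ∀ q, ¬ T.Cyc q)
    {w : List P.L} {q₀ q₁ : V} (hw : T.Path q₀ w q₁) : (squier P.side w).Special := by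
  have hp : ∀ p : (squier P.side w).cell 1 × Bool,
      T.Path q₀ (spec_ds p).a (T.s (spec_ds p).c) := fun p =>
    (Typed.path_src.1 ((spec_path (spec_ds_eqv p)).2 hw)).1
  have hsq : ∀ (s : (squier P.side w).cell 2) (δ : Fin 2 → Bool),
      T.Reach (T.e (spec_ds ((squier P.side w).corner s δ 0)).c)
        (T.s (spec_ds ((squier P.side w).corner s δ 1)).c) := by
    intro s δ
    obtain ⟨m, h1, -⟩ := (spec_corner_bef s δ zero_lt_one).split
      ((spec_corner_src s δ 0).trans (spec_corner_src s δ 1).symm)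
    have h2 := hp ((squier P.side w).corner s δ 1)
    rw [h1] at h2
    exact (Typed.path_mid.1 h2).2.reach
  have hsame : ∀ p q : (squier P.side w).cell 1 × Bool, (squier P.side w).SameHyp p.1 q.1 →
      (spec_ds p).c = (spec_ds q).c := by
    rintro p q ⟨b, b', h⟩
    have := (spec_parallel P.side h).1
    rw [spec_ds_lab p, spec_ds_lab q] at this
    simpa using this
  refine ⟨squier_npc P w, fun e b h => ?_, fun s δ h => ?_, fun p q h hs hpq => ?_,
    fun s δ p q h1 h2 hs => ?_⟩
  · simpa using (spec_parallel P.side h).2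
  · obtain ⟨m, hm⟩ := hsq s δ
    rw [← hsame ((squier P.side w).corner s δ 0) ((squier P.side w).corner s δ 1) h] at hm
    exact hc _ ⟨_, by simp [P.ne], (Typed.path_side _ false).append hm⟩
  · refine absurd (spec_ds_inj ?_) hpq
    have h1 := hsame p q ⟨_, _, h⟩
    have h2 : (spec_ds p).e = (spec_ds q).e := by
      rw [← spec_ds_e, ← spec_ds_e, (spec_parallel P.side h).2]
    have h3 := spec_ds_src hs
    have h4 := hp p
    have h5 := hp q
    rw [h1] at h4
    simp only [Pres.DS.src, List.append_assoc, h1, h2] at h3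
    have h6 : (spec_ds p).a = (spec_ds q).a := by
      rcases List.append_eq_append_iff.1 h3 with ⟨m, h7, -⟩ | ⟨m, h7, -⟩
      · rw [h7] at h5
        by_cases hm : m = []
        · simp [h7, hm]
        · exact absurd ⟨m, hm, h5.right h4⟩ (hc _)
      · rw [h7] at h4
        by_cases hm : m = []
        · simp [h7, hm]
        · exact absurd ⟨m, hm, h4.right h5⟩ (hc _)
    rw [h6] at h3
    exact Pres.DS.ext h6 h1 h2 (List.append_cancel_left (List.append_cancel_left h3))
  · refine spec_adj hs ?_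
    obtain ⟨m, hm⟩ := hsq s δ
    rw [hsame ((squier P.side w).corner s δ 0) p h1,
      hsame ((squier P.side w).corner s δ 1) q h2] at hm
    have h3 : ((spec_ds p).a ++ P.side (spec_ds p).c (spec_ds p).e) ++ (spec_ds p).b =
        (spec_ds q).a ++ (P.side (spec_ds q).c (spec_ds q).e ++ (spec_ds q).b) := by
      simpa [Pres.DS.src] using spec_ds_src hs
    rcases List.append_eq_append_iff.1 h3 with ⟨m', h4, -⟩ | ⟨m', h4, -⟩
    · simp [spec_Bef, h4]
    · by_cases hm' : m' = []
      · have := congrArg List.length h4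
        simp only [hm', List.append_nil, List.length_append] at this
        exact this.le
      · have h5 := (hp p).append (Typed.path_side (spec_ds p).c (spec_ds p).e)
        rw [h4] at h5
        exact absurd ⟨m' ++ m, by simp [hm'], (h5.right (hp q)).append hm⟩ (hc _)

end Pool.Agent.MP_1e5511_al

end

-- part MP_1e5511_al.Pi1
section

set_option autoImplicit false

namespace Pool.Agent.MP_1e5511_al

open CategoryTheory Pres

section General

variable (X : CubeComplex)

/-- an edge as a morphism of the edge-path groupoid -/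
def pi1_mor {a b : X.Vert} (e : a ⟶ b) : X.obj a ⟶ X.obj b :=
  (CategoryTheory.Quotient.functor X.SqRel).map ((Quiver.FreeGroupoid.of X.Vert).map e)

/-- a path as a morphism of the edge-path groupoid -/
def pi1_path {a b : X.Vert} (p : Quiver.Path (V := Quiver.Symmetrify X.Vert) a b) :
    X.obj a ⟶ X.obj b :=
  (CategoryTheory.Quotient.functor X.SqRel).map (Quot.mk _ p)

theorem pi1_ind {a : X.Vert} (Q : ∀ b : X.Vert, (X.obj a ⟶ X.obj b) → Prop) (h0 : Q a (𝟙 _))
    (h1 : ∀ (b c : X.Vert) (f : X.obj a ⟶ X.obj b) (e : b ⟶ c), Q b f → Q c (f ≫ pi1_mor X e))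
    (h2 : ∀ (b c : X.Vert) (f : X.obj a ⟶ X.obj b) (e : c ⟶ b), Q b f →
      Q c (f ≫ Groupoid.inv (pi1_mor X e)))
    (b : X.Vert) (f : X.obj a ⟶ X.obj b) : Q b f := by
  have key : ∀ (b : Quiver.Symmetrify X.Vert)
      (p : Quiver.Path (V := Quiver.Symmetrify X.Vert) a b), Q b (pi1_path X p) := by
    intro b p
    induction p with
    | nil => exact h0
    | cons q e ih =>
      rcases e with e | e
      · exact h1 _ _ _ e ih
      · exact h2 _ _ _ e ih
  obtain ⟨⟨p⟩⟩ := f
  exact key b p

theorem pi1_sq {a p q b : X.Vert} (e₁ : a ⟶ p) (e₂ : p ⟶ b) (e₃ : a ⟶ q) (e₄ : q ⟶ b)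
    (s : X.cell 2) (h₁ : e₁.1 = X.edg s 0 ![false, false]) (h₂ : e₂.1 = X.edg s 1 ![true, false])
    (h₃ : e₃.1 = X.edg s 1 ![false, false]) (h₄ : e₄.1 = X.edg s 0 ![false, true]) :
    pi1_mor X e₁ ≫ pi1_mor X e₂ = pi1_mor X e₃ ≫ pi1_mor X e₄ :=
  CategoryTheory.Quotient.sound X.SqRel (CubeComplex.SqRel.mk e₁ e₂ e₃ e₄ s h₁ h₂ h₃ h₄)

/-- the loop at the base vertex through an edge -/
noncomputable def pi1_loop {o : X.Vert} (τ : ∀ v : X.Vert, X.obj o ⟶ X.obj v) (e : X.cell 1) :
    X.Pi1 o :=
  τ (X.start (e, false)) ≫ pi1_mor X (a := X.start (e, false)) (b := X.start (e, true))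
    ⟨e, rfl, rfl⟩ ≫ Groupoid.inv (τ (X.start (e, true)))

theorem pi1_loop_eq {o : X.Vert} (τ : ∀ v : X.Vert, X.obj o ⟶ X.obj v) {a b : X.Vert}
    (e : a ⟶ b) : pi1_loop X τ e.1 = τ a ≫ pi1_mor X e ≫ Groupoid.inv (τ b) := by
  obtain ⟨e, rfl, rfl⟩ := e
  rfl

theorem pi1_mul {o : X.Vert} (x y : X.Pi1 o) :
    x * y = (x : X.obj o ⟶ X.obj o) ≫ (y : X.obj o ⟶ X.obj o) := rfl

theorem pi1_one {o : X.Vert} : (1 : X.Pi1 o) = 𝟙 (X.obj o) := rfl

theorem pi1_inv {o : X.Vert} (x : X.Pi1 o) :
    x⁻¹ = Groupoid.inv (x : X.obj o ⟶ X.obj o) := rfl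

end General

section Words

variable {A R : Type} (side : R → Bool → List A)

/-- a word with one slot -/
def pi1_enc (t : List A × R × List A) : List (A ⊕ R) :=
  t.1.map Sum.inl ++ Sum.inr t.2.1 :: t.2.2.map Sum.inl

/-- a word with two slots -/
def pi1_enc₂ (a : List A) (c : R) (m : List A) (c' : R) (b : List A) : List (A ⊕ R) :=
  a.map Sum.inl ++ Sum.inr c :: (m.map Sum.inl ++ Sum.inr c' :: b.map Sum.inl)

theorem pi1_slots_zero {x : List (A ⊕ R)} (h : slots x = 0) : ∃ u : List A, x = u.map Sum.inl := by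
  induction x with
  | nil => exact ⟨[], rfl⟩
  | cons y x ih =>
    cases y with
    | inl l =>
      obtain ⟨u, rfl⟩ := ih (by simpa [slots] using h)
      exact ⟨l :: u, rfl⟩
    | inr r => simp [slots] at h

theorem pi1_slots_succ {x : List (A ⊕ R)} {n : ℕ} (h : slots x = n + 1) :
    ∃ (a : List A) (c : R) (y : List (A ⊕ R)), x = a.map Sum.inl ++ Sum.inr c :: y ∧
      slots y = n := by
  induction x with
  | nil => simp [slots] at h
  | cons y x ih =>
    cases y with
    | inl l =>
      obtain ⟨a, c, y, rfl, hy⟩ := ih (by simpa [slots] using h)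
      exact ⟨l :: a, c, y, rfl, hy⟩
    | inr r => exact ⟨[], r, x, rfl, by simpa [slots] using h⟩

theorem pi1_slots_one {x : List (A ⊕ R)} (h : slots x = 1) : ∃ t, x = pi1_enc t := by
  obtain ⟨a, c, y, rfl, hy⟩ := pi1_slots_succ (n := 0) h
  obtain ⟨b, rfl⟩ := pi1_slots_zero hy
  exact ⟨(a, c, b), rfl⟩

theorem pi1_slots_two {x : List (A ⊕ R)} (h : slots x = 2) :
    ∃ a c m c' b, x = pi1_enc₂ a c m c' b := by
  obtain ⟨a, c, y, rfl, hy⟩ := pi1_slots_succ (n := 1) h
  obtain ⟨⟨m, c', b⟩, rfl⟩ := pi1_slots_one hy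
  exact ⟨a, c, m, c', b, rfl⟩

theorem pi1_enc_inj : Function.Injective (pi1_enc (A := A) (R := R)) := by
  rintro ⟨a, c, b⟩ ⟨a', c', b'⟩ h
  simp only [pi1_enc] at h
  induction a generalizing a' with
  | nil =>
    cases a' with
    | nil =>
      simp only [List.map_nil, List.nil_append, List.cons.injEq, Sum.inr.injEq] at h
      rw [h.1, List.map_injective_iff.2 Sum.inl_injective h.2]
    | cons l a' => simp at h
  | cons l a ih =>
    cases a' with
    | nil => simp at h
    | cons l' a' =>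
      simp only [List.map_cons, List.cons_append, List.cons.injEq, Sum.inl.injEq] at h
      have := ih a' h.2
      simp only [Prod.mk.injEq] at this ⊢
      exact ⟨by rw [h.1, this.1], this.2⟩

theorem pi1_slots_enc (t : List A × R × List A) : slots (pi1_enc t) = 1 := by
  have h : ∀ u : List A, List.countP (Sum.isRight ∘ (Sum.inl : A → A ⊕ R)) u = 0 := by
    simp [List.countP_eq_zero]
  simp [slots, pi1_enc, h]

theorem pi1_slots_enc₂ (a : List A) (c : R) (m : List A) (c' : R) (b : List A) :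
    slots (pi1_enc₂ a c m c' b) = 2 := by
  have h : ∀ u : List A, List.countP (Sum.isRight ∘ (Sum.inl : A → A ⊕ R)) u = 0 := by
    simp [List.countP_eq_zero]
  simp [slots, pi1_enc₂, h]

theorem pi1_word_append (x y : List (A ⊕ R)) : word side (x ++ y) = word side x ++ word side y := by
  simp [word]

theorem pi1_word_inr (c : R) (y : List (A ⊕ R)) :
    word side (Sum.inr c :: y) = side c false ++ word side y := by
  simp [word]

theorem pi1_word_enc (t : List A × R × List A) :
    word side (pi1_enc t) = t.1 ++ side t.2.1 false ++ t.2.2 := by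
  simp only [pi1_enc, pi1_word_append, pi1_word_inr, word_inl, List.append_assoc]

theorem pi1_word_enc₂ (a : List A) (c : R) (m : List A) (c' : R) (b : List A) :
    word side (pi1_enc₂ a c m c' b) = a ++ side c false ++ (m ++ side c' false ++ b) := by
  simp only [pi1_enc₂, pi1_word_append, pi1_word_inr, word_inl, List.append_assoc]

theorem pi1_fill_inl (u : List A) (σ : ℕ → Option Bool) :
    fill side (u.map Sum.inl) σ = u.map Sum.inl := by
  simpa [fill] using fill_inl side u [] σ

theorem pi1_fill_enc (t : List A × R × List A) (σ : ℕ → Option Bool) (β : Bool)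
    (h : σ 0 = some β) :
    fill side (pi1_enc t) σ = (t.1 ++ side t.2.1 β ++ t.2.2).map Sum.inl := by
  simp [pi1_enc, fill_inl, fill, h, pi1_fill_inl]

theorem pi1_fill_enc₂_left (a : List A) (c : R) (m : List A) (c' : R) (b : List A)
    (σ : ℕ → Option Bool) (β : Bool) (h0 : σ 0 = none) (h1 : σ 1 = some β) :
    fill side (pi1_enc₂ a c m c' b) σ = pi1_enc (a, c, m ++ side c' β ++ b) := by
  simp [pi1_enc, pi1_enc₂, fill_inl, fill, h0, h1, pi1_fill_inl]

theorem pi1_fill_enc₂_right (a : List A) (c : R) (m : List A) (c' : R) (b : List A)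
    (σ : ℕ → Option Bool) (β : Bool) (h0 : σ 0 = some β) (h1 : σ 1 = none) :
    fill side (pi1_enc₂ a c m c' b) σ = pi1_enc (a ++ side c β ++ m, c', b) := by
  simp [pi1_enc, pi1_enc₂, fill_inl, fill, h0, h1, pi1_fill_inl]

variable {side} {w : List A}

theorem pi1_start {x : (squier side w).cell 1} {t : List A × R × List A} (h : x.1 = pi1_enc t)
    (β : Bool) :
    ((squier side w).start (x, β)).1 = (t.1 ++ side t.2.1 β ++ t.2.2).map Sum.inl := by
  change fill side x.1 _ = _
  rw [h]
  exact pi1_fill_enc side t _ β (by simp [choice])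

theorem pi1_edg_zero {s : (squier side w).cell 2} {a : List A} {c : R} {m : List A} {c' : R}
    {b : List A} (h : s.1 = pi1_enc₂ a c m c' b) (δ : Fin 2 → Bool) :
    ((squier side w).edg s 0 δ).1 = pi1_enc (a, c, m ++ side c' (δ 1) ++ b) := by
  change fill side s.1 _ = _
  rw [h]
  exact pi1_fill_enc₂_left side a c m c' b _ _ (by simp [choice]) (by simp [choice])

theorem pi1_edg_one {s : (squier side w).cell 2} {a : List A} {c : R} {m : List A} {c' : R}
    {b : List A} (h : s.1 = pi1_enc₂ a c m c' b) (δ : Fin 2 → Bool) :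
    ((squier side w).edg s 1 δ).1 = pi1_enc (a ++ side c (δ 0) ++ m, c', b) := by
  change fill side s.1 _ = _
  rw [h]
  exact pi1_fill_enc₂_right side a c m c' b _ _ (by simp [choice]) (by simp [choice])

theorem pi1_vert_eq (v : (squier side w).cell 0) : v.1 = (word side v.1).map Sum.inl := by
  obtain ⟨u, hu⟩ := pi1_slots_zero v.2.1
  rw [hu, word_inl]

theorem pi1_vert_ext {v v' : (squier side w).cell 0} (h : word side v.1 = word side v'.1) :
    v = v' := Subtype.ext (by rw [pi1_vert_eq v, pi1_vert_eq v', h])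

theorem pi1_word_start {x : (squier side w).cell 1} {t : List A × R × List A}
    (h : x.1 = pi1_enc t) (β : Bool) :
    word side ((squier side w).start (x, β)).1 = t.1 ++ side t.2.1 β ++ t.2.2 := by
  rw [pi1_start h, word_inl]

/-- the vertex given by a word -/
def pi1_vert (u : List A) (h : Eqv side u w) : (squier side w).Vert :=
  ⟨u.map Sum.inl, slots_inl u, by rw [word_inl]; exact h⟩

/-- the edge given by a word with one slot -/
def pi1_edge (t : List A × R × List A) (h : Eqv side (t.1 ++ side t.2.1 false ++ t.2.2) w) :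
    (squier side w).cell 1 :=
  ⟨pi1_enc t, pi1_slots_enc t, by rw [pi1_word_enc]; exact h⟩

/-- the edge given by a word with one slot, as an arrow -/
def pi1_arrow (t : List A × R × List A) (h : Eqv side (t.1 ++ side t.2.1 false ++ t.2.2) w)
    (a b : (squier side w).Vert) (ha : word side a.1 = t.1 ++ side t.2.1 false ++ t.2.2)
    (hb : word side b.1 = t.1 ++ side t.2.1 true ++ t.2.2) : a ⟶ b :=
  ⟨pi1_edge t h, pi1_vert_ext ((pi1_word_start rfl false).trans ha.symm),
    pi1_vert_ext ((pi1_word_start rfl true).trans hb.symm)⟩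

theorem pi1_eqv_side (side : R → Bool → List A) (a : List A) (c : R) (b : List A) (β β' : Bool) :
    Eqv side (a ++ side c β ++ b) (a ++ side c β' ++ b) := by
  have h : Eqv side (a ++ side c false ++ b) (a ++ side c true ++ b) :=
    Relation.EqvGen.rel _ _ ⟨a, c, b, rfl, rfl⟩
  cases β <;> cases β'
  · exact Relation.EqvGen.refl _
  · exact h
  · exact h.symm _ _
  · exact Relation.EqvGen.refl _

end Words

section Main

variable (P : Pres)

/-- the groupoid of words and morphisms -/
def pi1_C : Type := List P.L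

instance pi1_groupoid : Groupoid (pi1_C P) where
  Hom a b := {g : P.U // Conn a g b}
  id a := ⟨1, Conn.refl a⟩
  comp f g := ⟨f.1 * g.1, f.2.trans g.2⟩
  id_comp _ := Subtype.ext (one_mul _)
  comp_id _ := Subtype.ext (mul_one _)
  assoc _ _ _ := Subtype.ext (mul_assoc _ _ _)
  inv f := ⟨f.1⁻¹, f.2.symm⟩
  inv_comp _ := Subtype.ext (inv_mul_cancel _)
  comp_inv _ := Subtype.ext (mul_inv_cancel _)

open Classical in
/-- the generator given by a word with one slot -/
noncomputable def pi1_val (x : List (P.L ⊕ P.C)) : P.U :=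
  if h : ∃ t, x = pi1_enc t then P.gen h.choose else 1

theorem pi1_val_enc (t : P.Gen) : pi1_val P (pi1_enc t) = P.gen t := by
  have h : ∃ t', pi1_enc t = pi1_enc t' := ⟨t, rfl⟩
  rw [pi1_val, dif_pos h, ← pi1_enc_inj h.choose_spec]

variable (w : List P.L)

/-- edges as morphisms between words -/
noncomputable def pi1_pre : (squier P.side w).Vert ⥤q pi1_C P where
  obj v := word P.side v.1
  map {a b} e := ⟨pi1_val P e.1.1, by
    obtain ⟨e, rfl, rfl⟩ := e
    obtain ⟨t, ht⟩ := pi1_slots_one e.2.1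
    rw [pi1_word_start ht, pi1_word_start ht, ht, pi1_val_enc]
    exact Conn.step ⟨t.1, t.2.1, false, t.2.2⟩⟩

theorem pi1_lift_of {a b : (squier P.side w).Vert} (e : a ⟶ b) :
    ((Quiver.FreeGroupoid.lift (pi1_pre P w)).map
      ((Quiver.FreeGroupoid.of (squier P.side w).Vert).map e)).1 = pi1_val P e.1.1 :=
  one_mul _

/-- the functor from the edge-path groupoid to the groupoid of words -/
noncomputable def pi1_Φ : CategoryTheory.Quotient (squier P.side w).SqRel ⥤ pi1_C P :=
  CategoryTheory.Quotient.lift _ (Quiver.FreeGroupoid.lift (pi1_pre P w)) (by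
    rintro _ _ _ _ ⟨e₁, e₂, e₃, e₄, s, h₁, h₂, h₃, h₄⟩
    rw [Functor.map_comp, Functor.map_comp]
    refine Subtype.ext ?_
    change _ * _ = _ * _
    rw [pi1_lift_of, pi1_lift_of, pi1_lift_of, pi1_lift_of, h₁, h₂, h₃, h₄]
    obtain ⟨a, c, m, c', b, hs⟩ := pi1_slots_two s.2.1
    rw [pi1_edg_zero hs, pi1_edg_zero hs, pi1_edg_one hs, pi1_edg_one hs, pi1_val_enc,
      pi1_val_enc, pi1_val_enc, pi1_val_enc]
    exact gen_sq a c m c' b)

variable {P w}

/-- the element of the universal group given by a morphism of the edge-path groupoid -/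
noncomputable def pi1_φ {a b : (squier P.side w).Vert}
    (f : (squier P.side w).obj a ⟶ (squier P.side w).obj b) : P.U := ((pi1_Φ P w).map f).1

theorem pi1_φ_conn {a b : (squier P.side w).Vert}
    (f : (squier P.side w).obj a ⟶ (squier P.side w).obj b) :
    Conn (word P.side a.1) (pi1_φ f) (word P.side b.1) := ((pi1_Φ P w).map f).2

theorem pi1_φ_id (a : (squier P.side w).Vert) : pi1_φ (𝟙 ((squier P.side w).obj a)) = 1 :=
  congrArg Subtype.val ((pi1_Φ P w).map_id _)

theorem pi1_φ_comp {a b c : (squier P.side w).Vert}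
    (f : (squier P.side w).obj a ⟶ (squier P.side w).obj b)
    (g : (squier P.side w).obj b ⟶ (squier P.side w).obj c) :
    pi1_φ (f ≫ g) = pi1_φ f * pi1_φ g :=
  congrArg Subtype.val ((pi1_Φ P w).map_comp f g)

theorem pi1_φ_inv {a b : (squier P.side w).Vert}
    (f : (squier P.side w).obj a ⟶ (squier P.side w).obj b) :
    pi1_φ (Groupoid.inv f) = (pi1_φ f)⁻¹ := by
  rw [eq_inv_iff_mul_eq_one, ← pi1_φ_comp, Groupoid.inv_comp, pi1_φ_id]

theorem pi1_φ_mor {a b : (squier P.side w).Vert} (e : a ⟶ b) :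
    pi1_φ (pi1_mor _ e) = pi1_val P e.1.1 := pi1_lift_of P w e

theorem pi1_full (p : List P.DS) (a b : (squier P.side w).Vert)
    (h : IsPath (word P.side a.1) p (word P.side b.1)) :
    ∃ f : (squier P.side w).obj a ⟶ (squier P.side w).obj b, pi1_φ f = ev p := by
  induction p generalizing a with
  | nil =>
    obtain rfl : a = b := pi1_vert_ext h
    exact ⟨𝟙 _, pi1_φ_id a⟩
  | cons t p ih =>
    obtain ⟨x, c, β, y⟩ := t
    have h1 : x ++ P.side c β ++ y = word P.side a.1 := h.1
    have h2 : ∀ β', Eqv P.side (x ++ P.side c β' ++ y) w := fun β' =>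
      (pi1_eqv_side P.side x c y β' β).trans _ _ _ (h1 ▸ a.2.2)
    have h3 : word P.side (pi1_vert _ (h2 !β)).1 = x ++ P.side c (!β) ++ y := word_inl _ _
    obtain ⟨f, hf⟩ := ih (pi1_vert _ (h2 !β)) (by rw [h3]; exact h.2)
    cases β
    · refine ⟨pi1_mor _ (pi1_arrow (x, c, y) (h2 false) a _ h1.symm h3) ≫ f, ?_⟩
      rw [pi1_φ_comp, pi1_φ_mor, hf, ev_cons]
      exact congrArg (· * ev p) (pi1_val_enc P (x, c, y))
    · refine ⟨Groupoid.inv (pi1_mor _ (pi1_arrow (x, c, y) (h2 false) _ a h3 h1.symm)) ≫ f, ?_⟩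
      rw [pi1_φ_comp, pi1_φ_inv, pi1_φ_mor, hf, ev_cons]
      exact congrArg (·⁻¹ * ev p) (pi1_val_enc P (x, c, y))

theorem pi1_sim {u v : List P.L} (h : Eqv P.side u v) : Sim u v := by
  induction h with
  | rel u v h =>
    obtain ⟨a, c, b, rfl, rfl⟩ := h
    exact Sim.step ⟨a, c, false, b⟩
  | refl => exact Sim.refl _
  | symm _ _ _ ih => exact ih.symm
  | trans _ _ _ _ _ ih₁ ih₂ => exact ih₁.trans ih₂

theorem pi1_conn (a b : (squier P.side w).Vert) :
    Nonempty ((squier P.side w).obj a ⟶ (squier P.side w).obj b) := by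
  obtain ⟨_, p, hp, -⟩ := (pi1_sim a.2.2).trans (pi1_sim b.2.2).symm
  exact ⟨(pi1_full p a b hp).choose⟩

open Classical in
/-- the inverse homomorphism on generators -/
noncomputable def pi1_ψ {o : (squier P.side w).Vert}
    (τ : ∀ v : (squier P.side w).Vert, (squier P.side w).obj o ⟶ (squier P.side w).obj v)
    (t : P.Gen) : (squier P.side w).Pi1 o :=
  if h : Eqv P.side (t.1 ++ P.side t.2.1 false ++ t.2.2) w then pi1_loop _ τ (pi1_edge t h) else 1

theorem pi1_ψ_sq {o : (squier P.side w).Vert}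
    (τ : ∀ v : (squier P.side w).Vert, (squier P.side w).obj o ⟶ (squier P.side w).obj v)
    (a : List P.L) (c : P.C) (m : List P.L) (c' : P.C) (b : List P.L) :
    pi1_ψ τ (a, c, m ++ P.side c' false ++ b) * pi1_ψ τ (a ++ P.side c true ++ m, c', b) =
      pi1_ψ τ (a ++ P.side c false ++ m, c', b) * pi1_ψ τ (a, c, m ++ P.side c' true ++ b) := by
  have as : ∀ β β', a ++ P.side c β ++ m ++ P.side c' β' ++ b =
      a ++ P.side c β ++ (m ++ P.side c' β' ++ b) := fun β β' => by simp
  have eq : ∀ β β' γ γ', Eqv P.side (a ++ P.side c β ++ (m ++ P.side c' β' ++ b))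
      (a ++ P.side c γ ++ (m ++ P.side c' γ' ++ b)) := fun β β' γ γ' => by
    refine (pi1_eqv_side P.side a c _ β γ).trans _ _ _ ?_
    rw [← as, ← as]
    exact pi1_eqv_side P.side _ c' b β' γ'
  by_cases h : Eqv P.side (a ++ P.side c false ++ (m ++ P.side c' false ++ b)) w
  · have hv : ∀ β β', Eqv P.side (a ++ P.side c β ++ (m ++ P.side c' β' ++ b)) w :=
      fun β β' => (eq β β' false false).trans _ _ _ h
    have hv' : ∀ β β', Eqv P.side (a ++ P.side c β ++ m ++ P.side c' β' ++ b) w :=
      fun β β' => as β β' ▸ hv β β'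
    let v : Bool → Bool → (squier P.side w).Vert := fun β β' => pi1_vert _ (hv β β')
    have e1 : ∀ β β', word P.side (v β β').1 = a ++ P.side c β ++ (m ++ P.side c' β' ++ b) :=
      fun β β' => word_inl _ _
    have e2 : ∀ β β', word P.side (v β β').1 = a ++ P.side c β ++ m ++ P.side c' β' ++ b :=
      fun β β' => (e1 β β').trans (as β β').symm
    let E : ∀ β', v false β' ⟶ v true β' := fun β' =>
      pi1_arrow (a, c, m ++ P.side c' β' ++ b) (hv false β') _ _ (e1 false β') (e1 true β')
    let E' : ∀ β, v β false ⟶ v β true := fun β =>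
      pi1_arrow (a ++ P.side c β ++ m, c', b) (hv' β false) _ _ (e2 β false) (e2 β true)
    have l1 : ∀ β', pi1_ψ τ (a, c, m ++ P.side c' β' ++ b) =
        τ _ ≫ pi1_mor _ (E β') ≫ Groupoid.inv (τ _) := fun β' =>
      (dif_pos (hv false β')).trans (pi1_loop_eq _ τ (E β'))
    have l2 : ∀ β, pi1_ψ τ (a ++ P.side c β ++ m, c', b) =
        τ _ ≫ pi1_mor _ (E' β) ≫ Groupoid.inv (τ _) := fun β =>
      (dif_pos (hv' β false)).trans (pi1_loop_eq _ τ (E' β))
    let s : (squier P.side w).cell 2 :=
      ⟨pi1_enc₂ a c m c' b, pi1_slots_enc₂ a c m c' b, by rw [pi1_word_enc₂]; exact h⟩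
    have hs : s.1 = pi1_enc₂ a c m c' b := rfl
    have sq := pi1_sq _ (E false) (E' true) (E' false) (E true) s
      (Subtype.ext (pi1_edg_zero hs ![false, false]).symm)
      (Subtype.ext (pi1_edg_one hs ![true, false]).symm)
      (Subtype.ext (pi1_edg_one hs ![false, false]).symm)
      (Subtype.ext (pi1_edg_zero hs ![false, true]).symm)
    rw [l1, l1, l2, l2, pi1_mul, pi1_mul]
    simp only [Category.assoc, Groupoid.inv_eq_inv, IsIso.inv_hom_id_assoc]
    rw [← Category.assoc (pi1_mor _ (E false)), sq, Category.assoc]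
  · have hv : ∀ β β', ¬ Eqv P.side (a ++ P.side c β ++ (m ++ P.side c' β' ++ b)) w :=
      fun β β' h' => h ((eq false false β β').trans _ _ _ h')
    have hv' : ∀ β β', ¬ Eqv P.side (a ++ P.side c β ++ m ++ P.side c' β' ++ b) w :=
      fun β β' => as β β' ▸ hv β β'
    have l1 : ∀ β', pi1_ψ τ (a, c, m ++ P.side c' β' ++ b) = 1 := fun β' => dif_neg (hv false β')
    have l2 : ∀ β, pi1_ψ τ (a ++ P.side c β ++ m, c', b) = 1 := fun β => dif_neg (hv' β false)
    rw [l1, l1, l2, l2]

theorem pi1_ψ_mor {o : (squier P.side w).Vert}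
    (τ : ∀ v : (squier P.side w).Vert, (squier P.side w).obj o ⟶ (squier P.side w).obj v)
    {a b : (squier P.side w).Vert} (e : a ⟶ b) :
    lift (pi1_ψ τ) (pi1_ψ_sq τ) (pi1_φ (pi1_mor _ e)) =
      τ a ≫ pi1_mor _ e ≫ Groupoid.inv (τ b) := by
  obtain ⟨t, ht⟩ := pi1_slots_one e.1.2.1
  have h : Eqv P.side (t.1 ++ P.side t.2.1 false ++ t.2.2) w := by
    rw [← pi1_word_enc, ← ht]; exact e.1.2.2
  rw [pi1_φ_mor, ht, pi1_val_enc, lift_gen, pi1_ψ, dif_pos h, ← pi1_loop_eq]
  exact congrArg (pi1_loop _ τ) (Subtype.ext ht.symm)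

theorem pi1_ψ_φ {o : (squier P.side w).Vert}
    (τ : ∀ v : (squier P.side w).Vert, (squier P.side w).obj o ⟶ (squier P.side w).obj v)
    {a b : (squier P.side w).Vert} (f : (squier P.side w).obj a ⟶ (squier P.side w).obj b) :
    lift (pi1_ψ τ) (pi1_ψ_sq τ) (pi1_φ f) = τ a ≫ f ≫ Groupoid.inv (τ b) := by
  refine pi1_ind _ (fun b f => lift (pi1_ψ τ) (pi1_ψ_sq τ) (pi1_φ f) =
    τ a ≫ f ≫ Groupoid.inv (τ b)) ?_ ?_ ?_ b f
  · rw [pi1_φ_id, map_one, pi1_one, Category.id_comp, Groupoid.comp_inv]
  · intro b c f e ih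
    rw [pi1_φ_comp, map_mul, ih, pi1_ψ_mor, pi1_mul]
    simp only [Category.assoc, Groupoid.inv_eq_inv, IsIso.inv_hom_id_assoc]
  · intro b c f e ih
    rw [pi1_φ_comp, pi1_φ_inv, map_mul, map_inv, ih, pi1_ψ_mor, pi1_mul, pi1_inv]
    simp only [Category.assoc, Groupoid.inv_eq_inv, IsIso.inv_comp, IsIso.inv_inv,
      IsIso.inv_hom_id_assoc]

theorem pi1_faithful {a b : (squier P.side w).Vert}
    {f g : (squier P.side w).obj a ⟶ (squier P.side w).obj b} (h : pi1_φ f = pi1_φ g) : f = g := by
  let τ : ∀ v : (squier P.side w).Vert, (squier P.side w).obj a ⟶ (squier P.side w).obj v :=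
    fun v => (pi1_conn a v).some
  have h1 := pi1_ψ_φ τ f
  rw [h, pi1_ψ_φ τ g] at h1
  have h2 : τ a ≫ f ≫ Groupoid.inv (τ b) = τ a ≫ g ≫ Groupoid.inv (τ b) := h1.symm
  rwa [cancel_epi, cancel_mono] at h2

end Main

/-- the fundamental group of the Squier complex is the group of loops in the universal group -/
theorem diagramGroup_equiv (P : Pres) (w : List P.L) :
    Nonempty (DiagramGroup P.side w ≃* Pres.D w) := by
  have hw : word P.side (baseVertex P.side w).1 = w := word_inl _ _
  let φ : DiagramGroup P.side w →* Pres.D w := MonoidHom.mk'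
    (fun f => ⟨pi1_φ (a := baseVertex P.side w) (b := baseVertex P.side w) f, by
      have := pi1_φ_conn (a := baseVertex P.side w) (b := baseVertex P.side w) f
      rw [hw] at this
      exact this⟩)
    fun f g => Subtype.ext (pi1_φ_comp (a := baseVertex P.side w) (b := baseVertex P.side w)
      (c := baseVertex P.side w) f g)
  refine ⟨MulEquiv.ofBijective φ ⟨fun f g h => ?_, fun g => ?_⟩⟩
  · exact pi1_faithful (a := baseVertex P.side w) (b := baseVertex P.side w)
      (congrArg (fun x : Pres.D w => (x : P.U)) h)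
  · obtain ⟨g, p, hp, rfl⟩ := g
    obtain ⟨f, hf⟩ := pi1_full p (baseVertex P.side w) (baseVertex P.side w) (by rw [hw]; exact hp)
    exact ⟨f, Subtype.ext hf⟩

end Pool.Agent.MP_1e5511_al

end

-- part MP_1e5511_al.Raag
section

set_option autoImplicit false

namespace Pool.Agent.MP_1e5511_al

section RaagAux

/-- a commutative free group is cyclic -/
theorem raag_free_cyclic {Y : Type} (h : ∀ a b : FreeGroup Y, a * b = b * a) :
    ∃ t : FreeGroup Y, ∀ a, ∃ p : ℤ, a = t ^ p := by
  classical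
  have hs : Subsingleton Y := by
    refine ⟨fun y y' => ?_⟩
    by_contra hne
    have h1 := congrArg (FreeGroup.lift fun z : Y =>
      if z = y then Equiv.swap (0 : Fin 3) 1 else Equiv.swap (1 : Fin 3) 2)
      (h (FreeGroup.of y) (FreeGroup.of y'))
    simp only [map_mul, FreeGroup.lift_apply_of, if_true, if_neg (Ne.symm hne)] at h1
    revert h1
    decide
  rcases isEmpty_or_nonempty Y with hY | ⟨⟨y⟩⟩
  · refine ⟨1, fun a => ⟨0, ?_⟩⟩
    induction a using FreeGroup.induction_on with
    | C1 => simp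
    | of x => exact hY.elim x
    | inv_of x _ => exact hY.elim x
    | mul a b ha hb => rw [ha, hb]; simp
  · refine ⟨FreeGroup.of y, fun a => ?_⟩
    induction a using FreeGroup.induction_on with
    | C1 => exact ⟨0, by simp⟩
    | of x => exact ⟨1, by rw [Subsingleton.elim x y]; simp⟩
    | inv_of x _ => exact ⟨-1, by rw [Subsingleton.elim x y]; simp⟩
    | mul a b ha hb =>
      obtain ⟨p, rfl⟩ := ha
      obtain ⟨q, rfl⟩ := hb
      exact ⟨p + q, (zpow_add _ _ _).symm⟩

/-- commuting elements of a free group have a common power -/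
theorem raag_free_commute {X : Type} {a b : FreeGroup X} (h : Commute a b) :
    ∃ m n : ℤ, (m ≠ 0 ∨ n ≠ 0) ∧ a ^ m = b ^ n := by
  set H : Subgroup (FreeGroup X) := Subgroup.closure {a, b} with hH
  have hc : ∀ x ∈ H, ∀ y ∈ H, Commute x y := by
    intro x hx y hy
    induction hx using Subgroup.closure_induction with
    | mem x hx =>
      induction hy using Subgroup.closure_induction with
      | mem y hy =>
        rcases hx with rfl | rfl <;> rcases hy with rfl | rfl
        · exact Commute.refl _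
        · exact h
        · exact h.symm
        · exact Commute.refl _
      | one => exact Commute.one_right _
      | mul y z _ _ h1 h2 => exact h1.mul_right h2
      | inv y _ h1 => exact h1.inv_right
    | one => exact Commute.one_left _
    | mul x z _ _ h1 h2 => exact h1.mul_left h2
    | inv x _ h1 => exact h1.inv_left
  let e := IsFreeGroup.mulEquiv H
  obtain ⟨t, ht⟩ := raag_free_cyclic (Y := IsFreeGroup.Generators H) (by
    intro x y
    apply e.injective
    rw [map_mul, map_mul]
    exact Subtype.ext (hc _ (e x).2 _ (e y).2))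
  have ha : a ∈ H := Subgroup.subset_closure (by simp)
  have hb : b ∈ H := Subgroup.subset_closure (by simp)
  obtain ⟨p, hp⟩ := ht (e.symm ⟨a, ha⟩)
  obtain ⟨q, hq⟩ := ht (e.symm ⟨b, hb⟩)
  have ea : a = (e t : FreeGroup X) ^ p := by
    have := congrArg (fun x => ((e x : H) : FreeGroup X)) hp
    simpa using this
  have eb : b = (e t : FreeGroup X) ^ q := by
    have := congrArg (fun x => ((e x : H) : FreeGroup X)) hq
    simpa using this
  by_cases hp0 : p = 0
  · exact ⟨1, 0, Or.inl one_ne_zero, by rw [ea, hp0]; simp⟩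
  · refine ⟨q, p, Or.inr hp0, ?_⟩
    rw [ea, eb, ← zpow_mul, ← zpow_mul, mul_comm]

variable {V : Type} (Γ : SimpleGraph V)

/-- the generator attached to a vertex -/
def raag_gen (u : V) : RAAG Γ := PresentedGroup.of u

variable {Γ}

theorem raag_gen_comm {u v : V} (h : Γ.Adj u v) : Commute (raag_gen Γ u) (raag_gen Γ v) := by
  have h1 : PresentedGroup.mk {r : FreeGroup V | ∃ u v, Γ.Adj u v ∧
      r = FreeGroup.of u * FreeGroup.of v * (FreeGroup.of u)⁻¹ * (FreeGroup.of v)⁻¹}
      (FreeGroup.of u * FreeGroup.of v * (FreeGroup.of u)⁻¹ * (FreeGroup.of v)⁻¹) = 1 :=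
    PresentedGroup.one_of_mem ⟨u, v, h, rfl⟩
  simp only [map_mul, map_inv] at h1
  change raag_gen Γ u * raag_gen Γ v * (raag_gen Γ u)⁻¹ * (raag_gen Γ v)⁻¹ = 1 at h1
  rw [Commute, SemiconjBy]
  calc raag_gen Γ u * raag_gen Γ v =
        (raag_gen Γ u * raag_gen Γ v * (raag_gen Γ u)⁻¹ * (raag_gen Γ v)⁻¹) *
          (raag_gen Γ v * raag_gen Γ u) := by group
    _ = raag_gen Γ v * raag_gen Γ u := by rw [h1, one_mul]

/-- the universal property -/
def raag_lift {G : Type} [Group G] (f : V → G) (hf : ∀ u v, Γ.Adj u v → Commute (f u) (f v)) :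
    RAAG Γ →* G :=
  PresentedGroup.toGroup (f := f) (by
    rintro r ⟨u, v, huv, rfl⟩
    simp only [map_mul, map_inv, FreeGroup.lift_apply_of]
    rw [(hf u v huv).eq]; group)

theorem raag_lift_gen {G : Type} [Group G] (f : V → G)
    (hf : ∀ u v, Γ.Adj u v → Commute (f u) (f v)) (u : V) :
    raag_lift f hf (raag_gen Γ u) = f u :=
  PresentedGroup.toGroup.of _

theorem raag_hom_ext {G : Type} [Group G] {f g : RAAG Γ →* G}
    (h : ∀ u, f (raag_gen Γ u) = g (raag_gen Γ u)) : f = g :=
  PresentedGroup.ext h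

variable (Γ)

/-- the subgroup generated by a set of vertices -/
def raag_par (S : Set V) : Subgroup (RAAG Γ) := Subgroup.closure (raag_gen Γ '' S)

theorem raag_par_univ : raag_par Γ Set.univ = ⊤ := by
  rw [raag_par, Set.image_univ]
  exact PresentedGroup.closure_range_of _

variable {Γ}

theorem raag_gen_mem {S : Set V} {u : V} (h : u ∈ S) : raag_gen Γ u ∈ raag_par Γ S :=
  Subgroup.subset_closure ⟨u, h, rfl⟩

theorem raag_par_mono {S T : Set V} (h : S ⊆ T) : raag_par Γ S ≤ raag_par Γ T :=
  Subgroup.closure_mono (Set.image_mono h)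

theorem raag_par_induction {S : Set V} {P : RAAG Γ → Prop} (h1 : P 1)
    (hgen : ∀ u ∈ S, P (raag_gen Γ u)) (hmul : ∀ a b, P a → P b → P (a * b))
    (hinv : ∀ a, P a → P a⁻¹) {g : RAAG Γ} (hg : g ∈ raag_par Γ S) : P g := by
  induction hg using Subgroup.closure_induction with
  | mem x hx => obtain ⟨u, hu, rfl⟩ := hx; exact hgen u hu
  | one => exact h1
  | mul a b _ _ ha hb => exact hmul a b ha hb
  | inv a _ ha => exact hinv a ha

theorem raag_exists_finset (g : RAAG Γ) : ∃ S : Finset V, g ∈ raag_par Γ S := by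
  classical
  refine raag_par_induction (S := Set.univ) (P := fun g => ∃ S : Finset V, g ∈ raag_par Γ S)
    ⟨∅, one_mem _⟩ (fun u _ => ⟨{u}, raag_gen_mem (by simp)⟩) ?_ ?_
    (by rw [raag_par_univ]; trivial)
  · rintro a b ⟨S, hS⟩ ⟨T, hT⟩
    exact ⟨S ∪ T, mul_mem (raag_par_mono (by simp) hS) (raag_par_mono (by simp) hT)⟩
  · rintro a ⟨S, hS⟩
    exact ⟨S, inv_mem hS⟩

open Classical in
/-- killing one generator -/
noncomputable def raag_kill (Γ : SimpleGraph V) (v : V) : RAAG Γ →* RAAG Γ :=
  raag_lift (fun u => if u = v then 1 else raag_gen Γ u) (by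
    intro u w huw
    by_cases hu : u = v <;> by_cases hw : w = v <;> simp [hu, hw, raag_gen_comm huw])

theorem raag_kill_mem {v : V} {S : Set V} {g : RAAG Γ} (hg : g ∈ raag_par Γ (insert v S)) :
    raag_kill Γ v g ∈ raag_par Γ S := by
  refine raag_par_induction (P := fun g => raag_kill Γ v g ∈ raag_par Γ S) ?_ ?_ ?_ ?_ hg
  · simp
  · intro u hu
    unfold raag_kill
    rw [raag_lift_gen]
    split_ifs with h
    · exact one_mem _
    · exact raag_gen_mem (hu.resolve_left h)
  · intro a b ha hb; rw [map_mul]; exact mul_mem ha hb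
  · intro a ha; rw [map_inv]; exact inv_mem ha

/-- the action on the free group over the cosets of a subgroup -/
def raag_act {A : Type} [Group A] (C : Subgroup A) : A →* MulAut (FreeGroup (A ⧸ C)) where
  toFun a := FreeGroup.freeGroupCongr (MulAction.toPerm a)
  map_one' := by
    apply MulEquiv.toMonoidHom_injective
    ext x
    simp
  map_mul' a b := by
    apply MulEquiv.toMonoidHom_injective
    ext x
    simp [mul_smul]

theorem raag_act_of {A : Type} [Group A] (C : Subgroup A) (a b : A) :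
    raag_act C a (FreeGroup.of (b : A ⧸ C)) = FreeGroup.of ((a * b : A) : A ⧸ C) := by
  simp [raag_act]

/-- the kernel of `raag_kill` embeds in a free group -/
theorem raag_ker (v : V) : ∃ (X K : Type) (_ : Group K) (ι : FreeGroup X →* K)
    (Θ : RAAG Γ →* K), Function.Injective ι ∧ Function.Injective Θ ∧
      ∀ g, raag_kill Γ v g = 1 → ∃ a, Θ g = ι a := by
  classical
  set C : Subgroup (RAAG Γ) := raag_par Γ {u | Γ.Adj v u} with hC
  have hCv : ∀ c ∈ C, Commute c (raag_gen Γ v) := by
    intro c hc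
    exact raag_par_induction (P := fun c => Commute c (raag_gen Γ v)) (Commute.one_left _)
      (fun u hu => (raag_gen_comm hu).symm) (fun _ _ h1 h2 => h1.mul_left h2)
      (fun _ h1 => h1.inv_left) hc
  have hcomm : ∀ u, Γ.Adj v u → Commute
      (SemidirectProduct.inl (FreeGroup.of ((1 : RAAG Γ) : RAAG Γ ⧸ C)) :
        FreeGroup (RAAG Γ ⧸ C) ⋊[raag_act C] RAAG Γ) (SemidirectProduct.inr (raag_gen Γ u)) := by
    intro u hu
    have h1 := SemidirectProduct.inl_aut (φ := raag_act C) (raag_gen Γ u)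
      (FreeGroup.of ((1 : RAAG Γ) : RAAG Γ ⧸ C))
    have h2 : ((raag_gen Γ u * 1 : RAAG Γ) : RAAG Γ ⧸ C) = ((1 : RAAG Γ) : RAAG Γ ⧸ C) := by
      rw [QuotientGroup.eq]
      simpa using raag_gen_mem (Γ := Γ) (S := {u | Γ.Adj v u}) hu
    rw [raag_act_of, h2, map_inv, eq_mul_inv_iff_mul_eq] at h1
    exact h1
  let Θ : RAAG Γ →* FreeGroup (RAAG Γ ⧸ C) ⋊[raag_act C] RAAG Γ :=
    raag_lift (fun u => if u = v then
      SemidirectProduct.inl (FreeGroup.of ((1 : RAAG Γ) : RAAG Γ ⧸ C))
      else SemidirectProduct.inr (raag_gen Γ u)) (by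
      intro u w huw
      by_cases hu : u = v
      · have hw : w ≠ v := fun h => huw.ne (hu.trans h.symm)
        rw [if_pos hu, if_neg hw]
        exact hcomm w (hu ▸ huw)
      · by_cases hw : w = v
        · rw [if_neg hu, if_pos hw]
          exact (hcomm u (hw ▸ huw.symm)).symm
        · rw [if_neg hu, if_neg hw]
          exact (raag_gen_comm huw).map _)
  let cj : RAAG Γ ⧸ C → RAAG Γ := fun x => Quotient.liftOn' x
    (fun b => b * raag_gen Γ v * b⁻¹) (by
      intro a b hab
      have h1 := (hCv _ (QuotientGroup.leftRel_apply.1 hab)).eq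
      calc a * raag_gen Γ v * a⁻¹ = a * (raag_gen Γ v * (a⁻¹ * b)) * b⁻¹ := by group
        _ = b * raag_gen Γ v * b⁻¹ := by rw [← h1]; group)
  have hcj : ∀ b : RAAG Γ, cj (b : RAAG Γ ⧸ C) = b * raag_gen Γ v * b⁻¹ := fun _ => rfl
  let L : FreeGroup (RAAG Γ ⧸ C) ⋊[raag_act C] RAAG Γ →* RAAG Γ :=
    SemidirectProduct.lift (FreeGroup.lift cj) (MonoidHom.id _) (by
      intro g
      refine FreeGroup.ext_hom _ _ fun x => ?_
      induction x using QuotientGroup.induction_on with
      | H b =>
        change FreeGroup.lift cj (raag_act C g (FreeGroup.of (b : RAAG Γ ⧸ C))) =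
          g * FreeGroup.lift cj (FreeGroup.of (b : RAAG Γ ⧸ C)) * g⁻¹
        rw [raag_act_of, FreeGroup.lift_apply_of, FreeGroup.lift_apply_of, hcj, hcj]
        group)
  have hL : L.comp Θ = MonoidHom.id _ := by
    refine raag_hom_ext fun u => ?_
    change L (Θ (raag_gen Γ u)) = raag_gen Γ u
    rw [raag_lift_gen]
    split_ifs with h
    · rw [SemidirectProduct.lift_inl, FreeGroup.lift_apply_of, hcj, h]
      simp
    · rw [SemidirectProduct.lift_inr]
      rfl
  have hR : SemidirectProduct.rightHom.comp Θ = raag_kill Γ v := by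
    refine raag_hom_ext fun u => ?_
    change SemidirectProduct.rightHom (Θ (raag_gen Γ u)) = _
    unfold raag_kill
    rw [raag_lift_gen, raag_lift_gen]
    split_ifs with h
    · exact SemidirectProduct.rightHom_inl _
    · exact SemidirectProduct.rightHom_inr _
  refine ⟨RAAG Γ ⧸ C, _, inferInstance, SemidirectProduct.inl, Θ,
    SemidirectProduct.inl_injective, ?_, ?_⟩
  · exact Function.LeftInverse.injective (g := L) fun g => DFunLike.congr_fun hL g
  · intro g hg
    refine ⟨(Θ g).left, ?_⟩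
    have h1 : (Θ g).right = 1 := (DFunLike.congr_fun hR g).trans hg
    conv_lhs => rw [← SemidirectProduct.inl_left_mul_inr_right (Θ g), h1, map_one, mul_one]

theorem raag_ker_tf {v : V} {g : RAAG Γ} (hg : raag_kill Γ v g = 1) {n : ℕ} (hn : n ≠ 0)
    (h : g ^ n = 1) : g = 1 := by
  obtain ⟨X, K, _, ι, Θ, hι, hΘ, hk⟩ := raag_ker (Γ := Γ) v
  obtain ⟨a, ha⟩ := hk g hg
  have h1 : a ^ n = 1 := hι (by rw [map_pow, ← ha, ← map_pow, h, map_one, map_one])
  have h2 : a = 1 := (pow_eq_one_iff_left hn).1 h1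
  exact hΘ (by rw [ha, h2, map_one, map_one])

theorem raag_ker_commute {v : V} {g g' : RAAG Γ} (hg : raag_kill Γ v g = 1)
    (hg' : raag_kill Γ v g' = 1) (h : Commute g g') :
    ∃ m n : ℤ, (m ≠ 0 ∨ n ≠ 0) ∧ g ^ m = g' ^ n := by
  obtain ⟨X, K, _, ι, Θ, hι, hΘ, hk⟩ := raag_ker (Γ := Γ) v
  obtain ⟨a, ha⟩ := hk g hg
  obtain ⟨b, hb⟩ := hk g' hg'
  have h1 : Commute a b := hι (by
    rw [map_mul, map_mul, ← ha, ← hb]
    exact (h.map Θ).eq)
  obtain ⟨m, n, h2, h3⟩ := raag_free_commute h1
  exact ⟨m, n, h2, hΘ (by rw [map_zpow, map_zpow, ha, hb, ← map_zpow, ← map_zpow, h3])⟩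

theorem raag_main (S : Finset V) :
    (∀ g ∈ raag_par Γ S, ∀ n : ℕ, n ≠ 0 → g ^ n = 1 → g = 1) ∧
    ∃ N : ℕ, ∀ φ : Multiplicative (Fin N → ℤ) →* RAAG Γ, (∀ x, φ x ∈ raag_par Γ S) →
      ∃ x : Fin N → ℤ, x ≠ 0 ∧ φ (Multiplicative.ofAdd x) = 1 := by
  classical
  induction S using Finset.induction_on with
  | empty =>
    have h0 : ∀ g ∈ raag_par Γ ((∅ : Finset V) : Set V), g = 1 := by
      intro g hg
      simpa [raag_par] using hg
    refine ⟨fun g hg _ _ _ => h0 g hg, 1, fun φ hφ => ⟨fun _ => 1, ?_, h0 _ (hφ _)⟩⟩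
    intro h
    simpa using congrFun h 0
  | insert v S _ ih =>
    obtain ⟨ih1, N, ih2⟩ := ih
    rw [Finset.coe_insert]
    refine ⟨fun g hg n hn h => ?_, N + 1, fun φ hφ => ?_⟩
    · refine raag_ker_tf (v := v) (ih1 _ (raag_kill_mem hg) n hn ?_) hn h
      rw [← map_pow, h, map_one]
    · have hk : ∀ i : Fin (N + 1), ∃ k : Fin (N + 1) → ℤ, k ≠ 0 ∧ k i = 0 ∧
          raag_kill Γ v (φ (Multiplicative.ofAdd k)) = 1 := by
        intro i
        let e : (Fin N → ℤ) →+ (Fin (N + 1) → ℤ) :=
          { toFun := fun x => Fin.insertNth i (0 : ℤ) x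
            map_zero' := by
              funext j
              refine Fin.succAboveCases i ?_ (fun j => ?_) j <;> simp
            map_add' := fun x y => by
              funext j
              refine Fin.succAboveCases i ?_ (fun j => ?_) j <;> simp }
        obtain ⟨x, hx0, hx⟩ := ih2 ((raag_kill Γ v).comp (φ.comp e.toMultiplicative))
          fun x => raag_kill_mem (hφ _)
        refine ⟨e x, fun h => hx0 ?_, by simp [e], hx⟩
        funext j
        simpa [e] using congrFun h (i.succAbove j)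
      obtain ⟨k, hk0, -, hk1⟩ := hk 0
      obtain ⟨j, hj⟩ := Function.ne_iff.1 hk0
      obtain ⟨k', hk0', hj', hk1'⟩ := hk j
      obtain ⟨m, n, h1, h2⟩ := raag_ker_commute hk1 hk1' ((Commute.all _ _).map φ)
      refine ⟨m • k - n • k', fun h => ?_, ?_⟩
      · have h3 := congrFun h j
        simp only [Pi.sub_apply, Pi.smul_apply, hj', smul_eq_mul, mul_zero, sub_zero,
          Pi.zero_apply, mul_eq_zero] at h3
        have hm : m = 0 := h3.resolve_right hj
        have hn : n ≠ 0 := h1.resolve_left (not_not.2 hm)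
        rw [hm, zero_smul, zero_sub, neg_eq_zero, smul_eq_zero] at h
        exact hk0' (h.resolve_left hn)
      · rw [ofAdd_sub, ofAdd_zsmul, ofAdd_zsmul, map_div, map_zpow, map_zpow, h2, div_self']

end RaagAux

/-- finitely presented subgroups of right-angled Artin groups are small -/
theorem small_of_raag {G : Type} [Group G] (hG : Group.IsFinitelyPresented G) {V : Type}
    (Γ : SimpleGraph V) (f : G →* RAAG Γ) (hf : Function.Injective f) : Small G := by
  classical
  obtain ⟨n, φ, hφ, -⟩ := hG.out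
  choose T hT using fun i : Fin n => raag_exists_finset (f (φ (FreeGroup.of i)))
  have hS : ∀ g, f g ∈ raag_par Γ (Finset.univ.biUnion T : Finset V) := by
    intro g
    obtain ⟨a, rfl⟩ := hφ g
    have h0 : ∀ i, f (φ (FreeGroup.of i)) ∈ raag_par Γ (Finset.univ.biUnion T : Finset V) :=
      fun i => raag_par_mono
        (Finset.coe_subset.2 (Finset.subset_biUnion_of_mem T (Finset.mem_univ i))) (hT i)
    induction a using FreeGroup.induction_on with
    | C1 => simp
    | of i => exact h0 i
    | inv_of i _ => rw [map_inv, map_inv]; exact inv_mem (h0 i)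
    | mul a b ha hb => rw [map_mul, map_mul]; exact mul_mem ha hb
  obtain ⟨h1, N, h2⟩ := raag_main (Γ := Γ) (Finset.univ.biUnion T)
  refine ⟨N, fun H _ g hg => ?_⟩
  refine subsingleton_of_forall_eq 1 fun h => ?_
  let e : Multiplicative (Fin N → ℤ) →* (Fin N → H) :=
    { toFun := fun x i => h ^ (x.toAdd i)
      map_one' := by funext i; simp
      map_mul' := fun x y => by funext i; simp [zpow_add] }
  obtain ⟨x, hx0, hx⟩ := h2 (f.comp (g.comp e)) fun x => hS _
  obtain ⟨i, hi⟩ := Function.ne_iff.1 hx0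
  have h3 : e (Multiplicative.ofAdd x) = 1 :=
    hg (hf (by rw [map_one, map_one]; exact hx))
  have h4 : h ^ x i = 1 := congrFun h3 i
  have h5 : h ^ (x i).natAbs = 1 := by
    rwa [pow_natAbs_eq_one]
  have h6 : f (g (Pi.mulSingle i h)) = 1 := by
    refine h1 _ (hS _) (x i).natAbs (Int.natAbs_ne_zero.2 hi) ?_
    rw [← map_pow, ← map_pow, ← Pi.mulSingle_pow, h5, Pi.mulSingle_one, map_one, map_one]
  have h7 : (Pi.mulSingle i h : Fin N → H) = 1 :=
    hg (hf (by rw [map_one, map_one]; exact h6))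
  simpa using congrFun h7 i

end Pool.Agent.MP_1e5511_al

end

-- part MP_1e5511_al.Main
section

set_option autoImplicit false

namespace Pool.Agent.MP_1e5511_al

open Pres

namespace St

/-- one step: the number of cyclic vertices drops -/
theorem step {V : Type} {q₀ q₁ : V} (S : St V q₀ q₁) (hfin : S.Fin) (hrel : S.AllRel)
    (hRN : S.RN) (hG : Nice S.G) (hc : ∃ q, S.T.Cyc q) :
    ∃ (V' : Type) (q₀' q₁' : V') (S' : St V' q₀' q₁'), S'.Fin ∧ S'.RN ∧ S'.mu < S.mu ∧
      Nonempty (S'.G ≃* S.G) := by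
  have := hfin.1
  by_cases hg : ∃ q m ρ, S.T.Cyc q ∧ S.T.Scc q m ∧ S.ExitBy (S.T.Scc q) m ρ
  · obtain ⟨q, m, ρ, hq, hm, hρ⟩ := hg
    obtain ⟨S', ⟨O⟩⟩ := S.elim (S.T.Scc q) (Typed.convex_scc q)
      (fun h => not_cyc_zero (hq.scc h))
      (fun l => by obtain ⟨_, _, _, _, h⟩ := hrel.letter l; exact h.reach)
      (RNon.mono hRN fun x ⟨y, hy, h⟩ => ⟨q, hq, hy.1.trans h⟩)
      fun l hl => exit_spread hRN hq hm hl.2 hρ
    refine ⟨V, q₀, q₁, S', O.fin hfin, ?_, ?_, O.equiv⟩
    · rintro x ⟨y, hy, h⟩ γ γ' h1 h2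
      exact O.sim x γ γ' h1 h2 (hRN x ⟨y, (O.cyc hy).1, O.reach h⟩ _ _ (O.path h1) (O.path h2))
    · refine Set.ncard_lt_ncard ⟨fun x hx => (O.cyc hx).1, fun h => ?_⟩ Typed.finite_cyc
      exact (O.cyc (h hq)).2 ⟨Typed.Reach.refl q, Typed.Reach.refl q⟩
  · obtain ⟨q, hq, hmin⟩ := Set.exists_min_image {q | S.T.Cyc q}
      (fun q => {x | S.T.Cyc x ∧ S.T.Reach x q}.ncard) Typed.finite_cyc hc
    have hmax : ∀ q', S.T.Reach q' q → S.T.Cyc q' → S.T.Reach q q' := by
      intro q' h1 h2
      by_contra h3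
      refine absurd (hmin q' h2) (not_le.2 (Set.ncard_lt_ncard
        ⟨fun x hx => ⟨hx.1, hx.2.trans h1⟩, fun h => h3 (h ⟨hq, Typed.Reach.refl q⟩).2⟩
        (Typed.finite_cyc.subset fun x hx => hx.1)))
    have hscc : S.op.T.Scc q = S.T.Scc q := by
      funext x
      simp only [Typed.Scc, S.op_reach, and_comm]
    obtain ⟨e⟩ := S.op_equiv
    obtain ⟨V', q₀', q₁', S', h1, h2, h3, ⟨e'⟩⟩ := phase2 hfin.op hrel.op hRN.op (hG.of_equiv e)
      (S.op_cyc.2 hq) (fun q' h h' => S.op_reach.2 (hmax q' (S.op_reach.1 h) (S.op_cyc.1 h')))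
      (by
        rw [hscc]
        refine op_noHyp fun α γ m z h hα hm hz => ?_
        obtain ⟨ρ, hρ⟩ := good hrel hRN hG hq h hα hm hz
        exact hg ⟨q, m, ρ, hq, hm, hρ⟩)
    obtain ⟨e''⟩ := S'.op_equiv
    exact ⟨V', q₁', q₀', S'.op, h1.op, h2.op, by rwa [S'.op_mu, ← S.op_mu],
      ⟨e''.trans (e'.trans e)⟩⟩

theorem main_ind (n : ℕ) : ∀ {V : Type} {q₀ q₁ : V} (S : St V q₀ q₁), S.mu < n → S.Fin → S.RN →
    Nice S.G → ∃ (V' : Type) (q₀' q₁' : V') (S' : St V' q₀' q₁'), S'.Fin ∧ (∀ q, ¬ S'.T.Cyc q) ∧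
      Nonempty (S'.G ≃* S.G) := by
  induction n with
  | zero => intro V q₀ q₁ S h; omega
  | succ n ih =>
    intro V q₀ q₁ S hn hfin hRN hG
    obtain ⟨S₁, I, hrel, ⟨e⟩, h1, -⟩ := S.restrict
    by_cases hc : ∃ q, S₁.T.Cyc q
    · obtain ⟨V', q₀', q₁', S₂, h2, h3, h4, ⟨e'⟩⟩ := S₁.step (I.fin hfin) hrel
        ((h1 _ hRN).mono fun x ⟨y, hy, h⟩ => ⟨y, I.cyc hy, I.reach h⟩) (hG.of_equiv e) hc
      have := I.mu_le hfin
      obtain ⟨V'', q₀'', q₁'', S₃, h5, h6, ⟨e''⟩⟩ := ih S₂ (by omega) h2 h3
        (hG.of_equiv (e'.trans e))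
      exact ⟨V'', q₀'', q₁'', S₃, h5, h6, ⟨e''.trans (e'.trans e)⟩⟩
    · exact ⟨V, q₀, q₁, S₁, I.fin hfin, fun q h => hc ⟨q, h⟩, ⟨e⟩⟩

end St

/-- nice diagram groups are fundamental groups of compact special cube complexes -/
theorem compact_special (P : Pres) (w : List P.L) (hG : Nice (D w)) :
    ∃ (X : CubeComplex) (v : X.cell 0), X.Compact ∧ X.Connected ∧ X.Special ∧
      Nonempty (D w ≃* X.Pi1 v) := by
  obtain ⟨V, q₀, q₁, S, h1, h2, ⟨e⟩⟩ := init P w hG.1
  obtain ⟨V', q₀', q₁', S', h3, h4, ⟨e'⟩⟩ :=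
    St.main_ind _ S (Nat.lt_succ_self _) h1 h2 (hG.of_equiv e)
  obtain ⟨e''⟩ := diagramGroup_equiv S'.P S'.w
  have := h3.1
  have := h3.2
  exact ⟨squier S'.P.side S'.w, baseVertex _ _, squier_compact S'.T h4 S'.hw,
    squier_connected _ _, squier_special S'.T h4 S'.hw, ⟨((e''.trans e').trans e).symm⟩⟩

theorem main {A R : Type} (side : R → Bool → List A) (hne : ∀ r b, side r b ≠ []) (w : List A)
    (G : Type) [Group G] (hG : Nonempty (G ≃* DiagramGroup side w))
    (hfp : Group.IsFinitelyPresented G)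
    (hraag : ∃ (V : Type) (Γ : SimpleGraph V) (f : G →* RAAG Γ), Function.Injective f) :
    ∃ (X : CubeComplex) (v : X.cell 0), X.Compact ∧ X.Connected ∧ X.Special ∧
      Nonempty (G ≃* X.Pi1 v) := by
  obtain ⟨e⟩ := hG
  obtain ⟨V, Γ, f, hf⟩ := hraag
  obtain ⟨e'⟩ := diagramGroup_equiv ⟨A, R, side, hne⟩ w
  have h : Nice G := ⟨hfp, small_of_raag hfp Γ f hf⟩
  obtain ⟨X, v, h1, h2, h3, ⟨e''⟩⟩ :=
    compact_special ⟨A, R, side, hne⟩ w (h.of_equiv (e.trans e').symm)
  exact ⟨X, v, h1, h2, h3, ⟨(e.trans e').trans e''⟩⟩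

end Pool.Agent.MP_1e5511_al

end
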